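import Pool.Agent.Lib.QD.CSt

/-!
Project QD, module A1: the degree is invariant under `X ↦ cX`.
-/

namespace QD

namespace A1Aux

theorem tot_mapDomain (e : Blk →₀ ℤ) (g : Blk → Blk) (f : Blk → ℤ) :
    tot (e.mapDomain g) f = tot e fun b => f (g b) := by
  unfold tot
  exact Finsupp.sum_mapDomain_index (by simp) (by intros; ring)

section
variable {M : Type} [Field M] [Algebra ℂ M] (Pl : Places M)

theorem ord_cmul (p : Pl.P) {c : ℂ} (hc : c ≠ 0) (z : M) :
    Pl.ord p (algebraMap ℂ M c * z) = Pl.ord p z := by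
  by_cases hz : z = 0
  · simp [hz]
  · rw [Pl.mul p _ _ ((map_ne_zero _).2 hc) hz, Pl.con p c hc, zero_add]

theorem ow_c (p : Pl.P) {c : ℂ} (hc : c ≠ 0) (X Y : M) :
    ow Pl p (algebraMap ℂ M c * X) Y = ow Pl p X Y := by
  unfold ow
  rw [ord_cmul Pl p hc]

theorem mm_c (p : Pl.P) {c : ℂ} (hc : c ≠ 0) (X Y : M) (b : Blk) :
    mm Pl p (algebraMap ℂ M c * X) Y (al1 c b) = mm Pl p X Y b := by
  have h1 : (al1 c b).1 = b.1 := rfl
  have h2 : tau (algebraMap ℂ M c * X) Y b.1 - algebraMap ℂ M (al1 c b).2 =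
      algebraMap ℂ M (c ^ (b.1.2 / gg b.1)) * (tau X Y b.1 - algebraMap ℂ M b.2) := by
    unfold tau al1
    simp only [map_mul, map_zpow₀, mul_zpow]
    ring
  unfold mm
  rw [ow_c Pl p hc, h1, h2, ord_cmul Pl p (zpow_ne_zero _ hc)]

theorem sb_c {c : ℂ} (b : Blk) (h : b.1.2 = 0) : sb (al1 c b) = sb b := by
  have h1 : al1 c b = b := by
    unfold al1
    rw [h]
    simp
  rw [h1]

theorem xs_c (p : Pl.P) {c : ℂ} (hc : c ≠ 0) (X Y : M) (b : Blk) :
    xs Pl p (algebraMap ℂ M c * X) Y (al1 c b) = xs Pl p X Y b := by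
  have h1 : (al1 c b).1 = b.1 := rfl
  unfold xs
  rw [mm_c Pl p hc, ow_c Pl p hc, h1, ord_cmul Pl p hc]
  by_cases h : b.1.2 = 0
  · unfold jj
    rw [sb_c b h]
  · simp only [if_neg h]

end

end A1Aux

open A1Aux in
theorem stA1 : StA1 := by
  intro M _ _ Pl X Y e c hc _ _
  unfold D4x act1
  apply finsum_congr
  intro p
  rw [tot_mapDomain]
  congr 1
  funext b
  exact xs_c Pl p hc X Y b

end QD
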