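import Pool.Agent.Lib.QD.CSt

/-!
Project QD: invariance of the degree under `X ↦ YX`.
-/

namespace QD

namespace A2Aux

theorem tot_mapDomain (e : Blk →₀ ℤ) (f : Blk → Blk) (g : Blk → ℤ) :
    tot (e.mapDomain f) g = tot e (fun b => g (f b)) := by
  unfold tot
  rw [Finsupp.sum_mapDomain_index]
  · intro b
    rw [zero_mul]
  · intro b m n
    rw [add_mul]

theorem ray_iff {b w : ℤ × ℤ} (hw : w.2 ≠ 0) : ray b w ↔ wed b w = 0 ∧ 0 < b.2 * w.2 := by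
  unfold ray wed
  have h2 : 0 < w.2 ^ 2 := by positivity
  constructor
  · rintro ⟨h, h'⟩
    refine ⟨by rw [h, sub_self], ?_⟩
    have h3 : w.2 ^ 2 * (b.1 * w.1 + b.2 * w.2) = b.2 * w.2 * (w.1 ^ 2 + w.2 ^ 2) := by
      linear_combination (w.1 * w.2) * h
    have h4 : 0 < b.2 * w.2 * (w.1 ^ 2 + w.2 ^ 2) := by
      rw [← h3]
      exact mul_pos h2 h'
    exact (pos_iff_pos_of_mul_pos h4).2 (by positivity)
  · rintro ⟨h, h'⟩
    have h0 : b.1 * w.2 = b.2 * w.1 := sub_eq_zero.1 h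
    refine ⟨h0, ?_⟩
    have h3 : w.2 ^ 2 * (b.1 * w.1 + b.2 * w.2) = b.2 * w.2 * (w.1 ^ 2 + w.2 ^ 2) := by
      linear_combination (w.1 * w.2) * h0
    have h4 : 0 < w.2 ^ 2 * (b.1 * w.1 + b.2 * w.2) := by
      rw [h3]
      exact mul_pos h' (by positivity)
    exact (pos_iff_pos_of_mul_pos h4).1 h2

theorem ray_shear {b w : ℤ × ℤ} (hw : w.2 ≠ 0) :
    ray (b.1 + b.2, b.2) (w.1 + w.2, w.2) ↔ ray b w := by
  rw [ray_iff hw, ray_iff (w := (w.1 + w.2, w.2)) hw]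
  have h : wed (b.1 + b.2, b.2) (w.1 + w.2, w.2) = wed b w := by
    simp only [wed]
    ring
  rw [h]

theorem gg_shear (w : ℤ × ℤ) : gg (w.1 + w.2, w.2) = gg w := by
  simp [gg]

section
variable {M : Type} [Field M] [Algebra ℂ M] (Pl : Places M)

theorem tau_shear {X Y : M} (hX : X ≠ 0) (hY : Y ≠ 0) (b : ℤ × ℤ) :
    tau (Y * X) Y (b.1 + b.2, b.2) = tau X Y b := by
  have h1 : gg b ∣ b.2 := Int.gcd_dvd_right _ _
  unfold tau
  rw [gg_shear]
  change (Y * X) ^ (b.2 / gg b) * Y ^ (-((b.1 + b.2) / gg b)) = X ^ (b.2 / gg b) * Y ^ (-(b.1 / gg b))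
  rw [Int.add_ediv_of_dvd_right h1, mul_zpow, mul_comm (Y ^ _) (X ^ _), mul_assoc, ← zpow_add₀ hY]
  congr 2
  ring

theorem ow_mul {X Y : M} (hX : X ≠ 0) (hY : Y ≠ 0) (p : Pl.P) :
    ow Pl p (Y * X) Y = ((ow Pl p X Y).1 + (ow Pl p X Y).2, (ow Pl p X Y).2) := by
  unfold ow
  rw [Pl.mul p Y X hY hX, add_comm]

theorem mm_shear {X Y : M} (hX : X ≠ 0) (hY : Y ≠ 0) (p : Pl.P) (hw : Pl.ord p Y ≠ 0) (b : Blk) :
    mm Pl p (Y * X) Y (al2 b) = mm Pl p X Y b := by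
  unfold mm
  rw [ow_mul Pl hX hY, gg_shear]
  change (if ray (b.1.1 + b.1.2, b.1.2) ((ow Pl p X Y).1 + (ow Pl p X Y).2, (ow Pl p X Y).2) then
      min (gg (ow Pl p X Y)) (gg (b.1.1 + b.1.2, b.1.2) *
        max 0 (Pl.ord p (tau (Y * X) Y (b.1.1 + b.1.2, b.1.2) - algebraMap ℂ M b.2))) else 0) = _
  rw [tau_shear hX hY b.1, gg_shear]
  by_cases h : ray b.1 (ow Pl p X Y)
  · rw [if_pos h, if_pos ((ray_shear hw).2 h)]
  · rw [if_neg h, if_neg (fun h' => h ((ray_shear hw).1 h'))]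

theorem xs_shear {X Y : M} (hX : X ≠ 0) (hY : Y ≠ 0) (p : Pl.P) (b : Blk) :
    xs Pl p (Y * X) Y (al2 b) = xs Pl p X Y b := by
  unfold xs
  by_cases hw : Pl.ord p Y = 0
  · rw [if_pos hw, if_pos hw, Pl.mul p Y X hY hX, hw, zero_add]
    change |b.1.2 * Pl.ord p X| + (if b.1.2 = 0 then _ else 0) = _
    by_cases hb : b.1.2 = 0
    · have h1 : al2 b = b := by
        unfold al2
        ext
        · change b.1.1 + b.1.2 = b.1.1
          rw [hb, add_zero]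
        · rfl
        · rfl
      rw [h1]
    · rw [if_neg hb, if_neg hb]
  · rw [if_neg hw, if_neg hw, mm_shear Pl hX hY p hw, ow_mul Pl hX hY]
    change (if 0 < b.1.2 * Pl.ord p Y then
      2 * |wed (b.1.1 + b.1.2, b.1.2) ((ow Pl p X Y).1 + (ow Pl p X Y).2, (ow Pl p X Y).2)| else 0)
      - _ = _
    have h : wed (b.1.1 + b.1.2, b.1.2) ((ow Pl p X Y).1 + (ow Pl p X Y).2, (ow Pl p X Y).2) =
        wed b.1 (ow Pl p X Y) := by
      simp only [wed]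
      ring
    rw [h]

end

end A2Aux

open A2Aux

theorem stA2 (h : StInd) : StA2 := by
  intro M _ _ Pl X Y e hI _
  obtain ⟨h1, -, hX, -⟩ := h M X Y hI
  obtain ⟨-, -, hY, -⟩ := h M Y X h1
  unfold D4x act2
  congr 1
  funext p
  rw [tot_mapDomain]
  congr 1
  funext b
  exact xs_shear Pl hX hY p b

end QD
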