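import Pool.Agent.Lib.QD.CSt

/-!
Project QD, module A3: the degree is invariant under `X ↦ (Y - s)X`.
-/

namespace QD

namespace A3Aux

theorem tot_add_left (e e' : Blk →₀ ℤ) (f : Blk → ℤ) : tot (e + e') f = tot e f + tot e' f := by
  unfold tot
  exact Finsupp.sum_add_index' (by simp) (by intros; ring)

theorem tot_single (b : Blk) (n : ℤ) (f : Blk → ℤ) : tot (Finsupp.single b n) f = n * f b := by
  unfold tot
  exact Finsupp.sum_single_index (by simp)

theorem tot_mapDomain (e : Blk →₀ ℤ) (g : Blk → Blk) (f : Blk → ℤ) :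
    tot (e.mapDomain g) f = tot e fun b => f (g b) := by
  unfold tot
  exact Finsupp.sum_mapDomain_index (by simp) (by intros; ring)

theorem tot_act3 (s : ℂ) (e : Blk →₀ ℤ) (f : Blk → ℤ) :
    tot (act3 s e) f = tot e fun b => f (al3 s b) + zz s b * f ((1, 0), s⁻¹) := by
  unfold act3
  rw [tot_add_left, tot_single, tot_mapDomain]
  unfold tot Finsupp.sum
  rw [Finset.sum_mul, ← Finset.sum_add_distrib]
  apply Finset.sum_congr rfl
  intro b _
  ring

theorem tot_eq {e : Blk →₀ ℤ} {f g : Blk → ℤ} {c : ℤ} (hb : tot e (fun b => b.1.2) = 0)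
    (h : ∀ b ∈ e.support, f b - g b = -b.1.2 * c) : tot e f = tot e g := by
  have h1 : tot e f - tot e g = tot e (fun b => b.1.2) * -c := by
    unfold tot Finsupp.sum
    rw [← Finset.sum_sub_distrib, Finset.sum_mul]
    apply Finset.sum_congr rfl
    intro b hb
    linear_combination e b * h b hb
  rw [hb, zero_mul] at h1
  exact sub_eq_zero.1 h1

end A3Aux

open A3Aux in
theorem stA3 (h : StA3P) : StA3 := by
  intro M _ _ Pl X Y e s hs hI hT hB
  unfold D4x
  apply finsum_congr
  intro p
  rw [tot_act3]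
  apply tot_eq hB.2 (c := if Pl.ord p Y = 0 then
    |Pl.ord p ((Y - algebraMap ℂ M s) * X)| - |Pl.ord p X| else 0)
  intro b hb
  rw [h M Pl X Y s b hs hI (hT b hb) p]
  split_ifs
  · rfl
  · ring

end QD
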