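import Pool.Agent.Lib.QD.Defs

/-!
Project QD: statements of the noncommutative modules (to be proved in files `QD/<Name>.lean`).
-/

namespace QD

open Polynomial

/-- N1a. The monomials `y^i x^j` are linearly independent over `k`. -/
def StIndep : Prop := ∀ (k D : Type) [Field k] [DivisionRing D] [Algebra k D] (q : kˣ) (x y : D),
  x ≠ 0 → y ≠ 0 → x * y = algebraMap k D q * (y * x) → NotRoot q →
    ∀ s : ℕ × ℕ →₀ k, mon (algebraMap k D) x y s = 0 → s = 0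

/-- N1b. Ore extension of a homomorphism. -/
def StOreHom : Prop := ∀ (Δ Δ' : Type) [DivisionRing Δ] [DivisionRing Δ'] (P : Subring Δ) (h : P →+* Δ'),
  (∀ p s : P, h s ≠ 0 → ∃ p' s' : P, h s' ≠ 0 ∧ p * s' = s * p') →
    ∃ (R : Subring Δ) (H : R →+* Δ'),
      (∀ d : Δ, d ∈ R ↔ ∃ p s : P, h s ≠ 0 ∧ d * s = p) ∧
      (∀ (p : P) (hp : (p : Δ) ∈ R), H ⟨p, hp⟩ = h p) ∧
      (∀ u : R, H u ≠ 0 → (u : Δ)⁻¹ ∈ R)

/-- N1c. Homomorphisms defined on quantum polynomials with coefficients in a subring `A` of `k`. -/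
def StPoly : Prop := ∀ (k D R : Type) [Field k] [DivisionRing D] [Algebra k D] [Ring R] (q : kˣ) (x y : D),
  x ≠ 0 → y ≠ 0 → x * y = algebraMap k D q * (y * x) → NotRoot q →
    ∀ (A : Subring k) (hq : (q : k) ∈ A) (ρ : A →+* R) (x' y' : R),
      (∀ a, ρ a * x' = x' * ρ a) → (∀ a, ρ a * y' = y' * ρ a) → x' * y' = ρ ⟨q, hq⟩ * (y' * x') →
      ∃ (P : Subring D) (h : P →+* R),
        (∀ d : D, d ∈ P ↔ ∃ s : ℕ × ℕ →₀ A, d = mon ((algebraMap k D).comp A.subtype) x y s) ∧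
        (∀ (s : ℕ × ℕ →₀ A) (hs : mon ((algebraMap k D).comp A.subtype) x y s ∈ P),
          h ⟨_, hs⟩ = mon ρ x' y' s)

/-- N1d. Ore condition for quantum polynomials (dimension count). -/
def StOreCond : Prop := ∀ (k D : Type) [Field k] [DivisionRing D] [Algebra k D] (q : kˣ) (x y : D),
  x ≠ 0 → y ≠ 0 → x * y = algebraMap k D q * (y * x) → NotRoot q →
    ∀ p s : ℕ × ℕ →₀ k, s ≠ 0 → ∃ p' s' : ℕ × ℕ →₀ k, s' ≠ 0 ∧
      mon (algebraMap k D) x y p * mon (algebraMap k D) x y s' =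
        mon (algebraMap k D) x y s * mon (algebraMap k D) x y p'

/-- N1e. Every element of `D` is a fraction of quantum polynomials. -/
def StGen : Prop := ∀ (k D : Type) [Field k] [DivisionRing D] [Algebra k D] (q : kˣ) (x y : D),
  IsQD q x y → NotRoot q → ∀ d : D, ∃ p s : ℕ × ℕ →₀ k, s ≠ 0 ∧
    d * mon (algebraMap k D) x y s = mon (algebraMap k D) x y p

/-- N1f. Universal property of `D`. -/
def StUP : Prop := ∀ (k D D' : Type) [Field k] [DivisionRing D] [Algebra k D] [DivisionRing D']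
  [Algebra k D'] (q : kˣ) (x y : D) (x' y' : D'), IsQD q x y → NotRoot q →
    x' ≠ 0 → y' ≠ 0 → x' * y' = algebraMap k D' q * (y' * x') →
    ∃ f : D →ₐ[k] D', f x = x' ∧ f y = y'

/-- N1g. Uniqueness in the universal property. -/
def StUniq : Prop := ∀ (k D D' : Type) [Field k] [DivisionRing D] [Algebra k D] [DivisionRing D']
  [Algebra k D'] (q : kˣ) (x y : D), IsQD q x y →
    ∀ f g : D →ₐ[k] D', f x = g x → f y = g y → f = g

/-- N1h. Rational functions of a transcendental element. -/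
def StEv : Prop := ∀ (k D : Type) [Field k] [DivisionRing D] [Algebra k D] (u : D),
  (∀ p : k[X], p ≠ 0 → aeval u p ≠ 0) →
    (∃ f : RatFunc k →ₐ[k] D, ∀ b, f b = evR u b) ∧
    (evR u (RatFunc.X : RatFunc k) = u) ∧
    (∀ (b : RatFunc k) (v : D), v * u = u * v → v * evR u b = evR u b * v) ∧
    (∀ (q : kˣ) (v : D), v ≠ 0 → v * u = algebraMap k D q * (u * v) →
      ∀ b : RatFunc k, v * evR u b = evR u (sg q b) * v)

/-- N1i. `x`, `y`, `y + y⁻¹` are transcendental over `k`: consequences of N1a. -/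
def StTr : Prop := ∀ (k D : Type) [Field k] [DivisionRing D] [Algebra k D] (q : kˣ) (x y : D),
  x ≠ 0 → y ≠ 0 → x * y = algebraMap k D q * (y * x) → NotRoot q →
    (∀ p : k[X], p ≠ 0 → aeval x p ≠ 0) ∧ (∀ p : k[X], p ≠ 0 → aeval y p ≠ 0) ∧
    (∀ p : k[X], p ≠ 0 → aeval (y + y⁻¹) p ≠ 0) ∧ y - y⁻¹ ≠ 0 ∧ x + x⁻¹ ≠ 0 ∧
    y⁻¹ * x + y * x⁻¹ ≠ 0

/-- N1j. Existence of the elementary automorphisms. -/
def StElem : Prop := ∀ (k D : Type) [Field k] [DivisionRing D] [Algebra k D] (q : kˣ) (x y : D),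
  IsQD q x y → NotRoot q →
    (∀ b : RatFunc k, b ≠ 0 → ∃ φ : D ≃ₐ[k] D, φ x = evR y b * x ∧ φ y = y) ∧
    (∀ a : RatFunc k, a ≠ 0 → ∃ φ : D ≃ₐ[k] D, φ x = x ∧ φ y = evR x a * y)

/-- N2. Existence of the place. -/
def StPlace : Prop := ∀ (k D E : Type) [Field k] [DivisionRing D] [Algebra k D] [Field E] [Algebra ℂ E]
  (q : kˣ) (x y : D) (R : RealPlace k q) (X Y : E), IsQD q x y → NotRoot q → Ind X Y →
    Nonempty (QPlace R.O R.ρ x y X Y)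

/-- N6. Tame automorphisms induce reachable pairs. -/
def StTame : Prop := ∀ (k D E : Type) [Field k] [DivisionRing D] [Algebra k D] [Field E] [Algebra ℂ E]
  (q : kˣ) (x y : D) (R : RealPlace k q) (X Y : E), IsQD q x y → NotRoot q → Ind X Y →
    ∀ (V : QPlace R.O R.ρ x y X Y) (φ : D ≃ₐ[k] D), φ ∈ Tame x y → ∀ X' Y' : E,
      X' ≠ 0 → Y' ≠ 0 → V.rel (φ x) X' → V.rel (φ y) Y' → Reach X Y X' Y'

/-- N5r. Residues of the quantum quintic. -/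
def StThRes : Prop := ∀ (k D E : Type) [Field k] [DivisionRing D] [Algebra k D] [Field E] [Algebra ℂ E]
  (q : kˣ) (x y : D) (R : RealPlace k q) (X Y : E), IsQD q x y → NotRoot q → Ind X Y →
    ∀ (V : QPlace R.O R.ρ x y X Y) (X₁ Y₁ : D), IsQuint q x y X₁ Y₁ →
      ∃ X' Y' : E, X' ≠ 0 ∧ Y' ≠ 0 ∧ V.rel X₁ X' ∧ V.rel Y₁ Y' ∧ IsQuintC X Y X' Y'

/-- N5a. The quadratic extension: the endomorphism `j`; `L` is transcendental. -/
def StJ : Prop := ∀ (k D : Type) [Field k] [CharZero k] [DivisionRing D] [Algebra k D] (q : kˣ) (x y : D),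
  IsQD q x y → NotRoot q → y - y⁻¹ ≠ 0 ∧ ∃ j : D →ₐ[k] D,
    j x = (y - y⁻¹)⁻¹ * (y⁻¹ * x + y * x⁻¹) ∧ j y = (y - y⁻¹)⁻¹ * (x + x⁻¹) ∧
    j (LL x y) = y + y⁻¹ ∧ ∀ p : k[X], p ≠ 0 → aeval (LL x y) p ≠ 0

/-- N5b. Intertwined automorphisms: if `β(s) = μ₃(s+s⁻¹) + μ₂(s+s⁻¹)s`, `β(s⁻¹) = μ₃(s+s⁻¹) + μ₂(s+s⁻¹)s⁻¹`
and `β(s⁻¹)β(q⁻¹s) = 1` then there are endomorphisms `θ`, `ψ` with `jθ = ψj`, `θx = μ₃(L)x + μ₂(L)y`,
`θy = (μ₃(L)+μ₂(L)L)y - μ₂(L)x`, `ψx = β(y)x`, `ψy = y`. -/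
def StInter : Prop := ∀ (k D : Type) [Field k] [CharZero k] [DivisionRing D] [Algebra k D] (q : kˣ) (x y : D),
  IsQD q x y → NotRoot q → ∀ j : D →ₐ[k] D,
    j x = (y - y⁻¹)⁻¹ * (y⁻¹ * x + y * x⁻¹) → j y = (y - y⁻¹)⁻¹ * (x + x⁻¹) →
    j (LL x y) = y + y⁻¹ →
    ∀ β μ₂ μ₃ : RatFunc k, β ≠ 0 →
      evR y β = evR (y + y⁻¹) μ₃ + evR (y + y⁻¹) μ₂ * y →
      evR y⁻¹ β = evR (y + y⁻¹) μ₃ + evR (y + y⁻¹) μ₂ * y⁻¹ →
      evR y⁻¹ β * evR (algebraMap k D ((q⁻¹ : kˣ) : k) * y) β = 1 →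
      ∃ θ ψ : D →ₐ[k] D, ψ x = evR y β * x ∧ ψ y = y ∧
        θ x = evR (LL x y) μ₃ * x + evR (LL x y) μ₂ * y ∧
        θ y = (evR (LL x y) μ₃ + evR (LL x y) μ₂ * LL x y) * y - evR (LL x y) μ₂ * x ∧
        ∀ d, j (θ d) = ψ (j d)

/-- N5c. The quantum quintic is an automorphism of `D`. -/
def StTheta : Prop := ∀ (k D : Type) [Field k] [CharZero k] [DivisionRing D] [Algebra k D]
  (q : kˣ) (x y : D), IsQD q x y → NotRoot q → ∃ θ : D ≃ₐ[k] D, IsQuint q x y (θ x) (θ y)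

/-- N3a. Calculus of leading terms. -/
def StLead : Prop := ∀ (k A : Type) [Field k] [Field A] [Algebra k A] (σ : A ≃ₐ[k] A)
    (K : Type) [DivisionRing K] [Algebra k K] (S : SkewL k A σ K),
  (∀ f g n m a b, HasLead S f n a → HasLead S g m b → HasLead S (f * g) (n + m) (a * (σ ^ n) b)) ∧
  (∀ f g n a b, HasLead S f n a → HasLead S g n b → HasLead S (f + g) n (a + b)) ∧
  (∀ f n a, HasLead S f n a → HasLead S (-f) n (-a)) ∧
  (∀ f n a, HasLead S f n a → a ≠ 0 → f ≠ 0 ∧ HasLead S f⁻¹ (-n) ((σ ^ (-n)) a⁻¹)) ∧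
  (∀ f, f ≠ 0 → ∃ n a, a ≠ 0 ∧ HasLead S f n a) ∧
  (∀ f n m a, HasLead S f n a → m < n → HasLead S f m 0) ∧
  (∀ c : k, HasLead S (algebraMap k K c) 0 (algebraMap k A c))

/-- N4. The Artamonov-Cohn construction: a pair close to `(x,y)` is conjugate to it in `K`. -/
def StAC : Prop := ∀ (k : Type) [Field k] (q : kˣ) (K : Type) [DivisionRing K] [Algebra k K]
    (S : SkewL k (RatFunc k) (sg q) K) (xK yK u v : K), NotRoot q →
  S.cf xK = Pi.single (1 : ℤ) (1 : RatFunc k) → S.cf yK = Pi.single (0 : ℤ) (RatFunc.X : RatFunc k) →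
  u * v = algebraMap k K q * (v * u) → HasLead S u 1 1 → HasLead S v 0 RatFunc.X →
  ∃ z : K, z ≠ 0 ∧ z * xK = u * z ∧ z * yK = v * z

/-- N5l. Leading terms of the quantum quintic. -/
def StThLead : Prop := ∀ (k : Type) [Field k] [CharZero k] (q : kˣ) (K : Type) [DivisionRing K] [Algebra k K]
    (S : SkewL k (RatFunc k) (sg q) K) (xK yK X Y : K), NotRoot q →
  S.cf xK = Pi.single (1 : ℤ) (1 : RatFunc k) → S.cf yK = Pi.single (0 : ℤ) (RatFunc.X : RatFunc k) → IsQuint q xK yK X Y →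
  HasLead S Y 0 (algebraMap k (RatFunc k) (2 * (q : k))⁻¹ * RatFunc.X) ∧ ∃ r, r ≠ 0 ∧ HasLead S X 1 r

/-- N5m. Leading term of `b(v)`. -/
def StEvLead : Prop := ∀ (k : Type) [Field k] (q : kˣ) (K : Type) [DivisionRing K] [Algebra k K]
    (S : SkewL k (RatFunc k) (sg q) K) (c : kˣ) (v : K) (b : RatFunc k),
  HasLead S v 0 (algebraMap k (RatFunc k) c * RatFunc.X) → HasLead S (evR v b) 0 (sg c b)

/-- N7. Assembly: if the quantum quintic is not tame then some conjugation automorphism is not. -/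
def StNC : Prop := ∀ (k D : Type) [Field k] [CharZero k] [DivisionRing D] [Algebra k D] (q : kˣ) (x y : D)
    (K : Type) [DivisionRing K] [Algebra k K] (S : SkewL k (RatFunc k) (sg q) K) (ι : D →ₐ[k] K),
  IsQD q x y → NotRoot q → S.cf (ι x) = Pi.single (1 : ℤ) (1 : RatFunc k) → S.cf (ι y) = Pi.single (0 : ℤ) (RatFunc.X : RatFunc k) →
  (∀ φ : D ≃ₐ[k] D, IsQuint q x y (φ x) (φ y) → φ ∉ Tame x y) →
  ∃ (z : K) (φ : D ≃ₐ[k] D), z ≠ 0 ∧ (∀ d : D, z * ι d * z⁻¹ = ι (φ d)) ∧ φ ∉ Tame x y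

end QD
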