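import Pool.Agent.Lib.QD.Defs
import Pool.Agent.Lib.QD.St

/-!
Project QD, module Lead: calculus of leading terms in skew Laurent series.
-/

namespace QD

namespace LeadAux

variable {k A : Type} [Field k] [Field A] [Algebra k A] {σ : A ≃ₐ[k] A}
  {K : Type} [DivisionRing K] [Algebra k K] (S : SkewL k A σ K)

include S

theorem cf_zero (i : ℤ) : S.cf 0 i = 0 := by
  have e := S.add 0 0 i
  rw [add_zero] at e
  exact left_eq_add.mp e

theorem cf_neg (f : K) (i : ℤ) : S.cf (-f) i = -S.cf f i := by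
  have e := S.add f (-f) i
  rw [add_neg_cancel, cf_zero] at e
  exact (neg_eq_of_add_eq_zero_right e.symm).symm

theorem ne_zero_of {f : K} {n : ℤ} (h : S.cf f n ≠ 0) : f ≠ 0 := by
  rintro rfl
  exact h (cf_zero S n)

theorem lead_mul (f g : K) (n m : ℤ) (a b : A) (hf : HasLead S f n a) (hg : HasLead S g m b) :
    HasLead S (f * g) (n + m) (a * (σ ^ n) b) := by
  obtain ⟨hf0, hf1⟩ := hf
  obtain ⟨hg0, hg1⟩ := hg
  refine ⟨fun j hj => ?_, ?_⟩
  · rw [S.mul]
    refine finsum_eq_zero_of_forall_eq_zero fun i => ?_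
    rcases lt_or_ge i n with h | h
    · rw [hf0 i h, zero_mul]
    · rw [hg0 (j - i) (by omega), map_zero, mul_zero]
  · rw [S.mul, finsum_eq_single _ n]
    · rw [hf1, add_sub_cancel_left, hg1]
    · intro i hi
      rcases lt_or_gt_of_ne hi with h | h
      · rw [hf0 i h, zero_mul]
      · rw [hg0 (n + m - i) (by omega), map_zero, mul_zero]

theorem lead_add (f g : K) (n : ℤ) (a b : A) (hf : HasLead S f n a) (hg : HasLead S g n b) :
    HasLead S (f + g) n (a + b) := by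
  refine ⟨fun i hi => ?_, ?_⟩
  · rw [S.add, hf.1 i hi, hg.1 i hi, add_zero]
  · rw [S.add, hf.2, hg.2]

theorem lead_neg (f : K) (n : ℤ) (a : A) (hf : HasLead S f n a) : HasLead S (-f) n (-a) := by
  refine ⟨fun i hi => ?_, ?_⟩
  · rw [cf_neg, hf.1 i hi, neg_zero]
  · rw [cf_neg, hf.2]

theorem exists_lead (f : K) (hf : f ≠ 0) : ∃ n a, a ≠ 0 ∧ HasLead S f n a := by
  have h1 : ∃ i, S.cf f i ≠ 0 := by
    by_contra hc
    push Not at hc
    apply hf
    apply S.inj
    funext i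
    rw [hc i, cf_zero]
  obtain ⟨N, hN⟩ := S.bdd f
  obtain ⟨n, hn, hmin⟩ := Int.exists_least_of_bdd (P := fun i => S.cf f i ≠ 0)
    ⟨N, fun z hz => by
      by_contra hlt
      exact hz (hN z (not_le.mp hlt))⟩ h1
  refine ⟨n, S.cf f n, hn, fun i hi => ?_, rfl⟩
  by_contra hc
  exact absurd (hmin i hc) (not_le.mpr hi)

theorem lead_one : HasLead S (1 : K) 0 1 := by
  refine ⟨fun i hi => ?_, ?_⟩
  · rw [S.one, Pi.single_eq_of_ne (ne_of_lt hi)]
  · rw [S.one, Pi.single_eq_same]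

theorem lead_uniq {f : K} {n m : ℤ} {a b : A} (h : HasLead S f n a) (h' : HasLead S f m b)
    (ha : a ≠ 0) (hb : b ≠ 0) : n = m ∧ a = b := by
  have e : n = m := by
    rcases lt_trichotomy n m with hlt | heq | hgt
    · exact absurd (h.2.symm.trans (h'.1 n hlt)) ha
    · exact heq
    · exact absurd (h'.2.symm.trans (h.1 m hgt)) hb
  subst e
  exact ⟨rfl, h.2.symm.trans h'.2⟩

theorem lead_inv (f : K) (n : ℤ) (a : A) (hf : HasLead S f n a) (ha : a ≠ 0) :
    f ≠ 0 ∧ HasLead S f⁻¹ (-n) ((σ ^ (-n)) a⁻¹) := by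
  have hf0 : f ≠ 0 := ne_zero_of S (by rw [hf.2]; exact ha)
  refine ⟨hf0, ?_⟩
  obtain ⟨m, b, hb, hg⟩ := exists_lead S f⁻¹ (inv_ne_zero hf0)
  have e := lead_mul S f f⁻¹ n m a b hf hg
  rw [mul_inv_cancel₀ hf0] at e
  have hne : a * (σ ^ n) b ≠ 0 :=
    mul_ne_zero ha ((map_ne_zero_iff _ (σ ^ n).injective).mpr hb)
  obtain ⟨e1, e2⟩ := lead_uniq S e (lead_one S) hne one_ne_zero
  have hm : m = -n := by omega
  have hb' : b = (σ ^ (-n)) a⁻¹ := by
    apply (σ ^ n).injective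
    rw [← AlgEquiv.mul_apply, ← zpow_add, add_neg_cancel, zpow_zero, AlgEquiv.one_apply]
    exact eq_inv_of_mul_eq_one_right e2
  rw [← hm, ← hb', ← hm] at *
  exact hg

end LeadAux

open LeadAux

/-- Module Lead. -/
theorem stLead : StLead := by
  intro k A _ _ _ σ K _ _ S
  refine ⟨lead_mul S, lead_add S, lead_neg S, lead_inv S, exists_lead S, ?_, ?_⟩
  · intro f n m a hf hmn
    exact ⟨fun i hi => hf.1 i (hi.trans hmn), hf.1 m hmn⟩
  · intro c
    refine ⟨fun i hi => ?_, ?_⟩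
    · rw [S.alg, Pi.single_eq_of_ne (ne_of_lt hi)]
    · rw [S.alg, Pi.single_eq_same]

end QD
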