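import Pool.Agent.Lib.QD.Defs
import Pool.Agent.Lib.QD.St

/-!
Project QD, module ThLead: leading terms of the quantum quintic.
-/

namespace QD

open Polynomial

namespace ThLeadAux

variable {k : Type} [Field k]

theorem sg_X (q : kˣ) : sg q (RatFunc.X : RatFunc k) = algebraMap k (RatFunc k) q * RatFunc.X := by
  have e : sg q (algebraMap k[X] (RatFunc k) X) = algebraMap k[X] (RatFunc k) (sgP q X) := by
    simp only [sg, IsFractionRing.algEquivOfAlgEquiv_algebraMap]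
  rw [RatFunc.algebraMap_X] at e
  rw [e]
  have e2 : sgP q (X : k[X]) = C (q : k) * X := by
    simp [sgP]
  rw [e2, map_mul, RatFunc.algebraMap_X, IsScalarTower.algebraMap_apply k k[X] (RatFunc k)]
  rfl

theorem sgz_X (q : kˣ) (n : ℤ) : (sg q ^ n) (RatFunc.X : RatFunc k) =
    algebraMap k (RatFunc k) ((q : k) ^ n) * RatFunc.X := by
  have hq : (q : k) ≠ 0 := q.ne_zero
  have hinv : (sg q)⁻¹ (RatFunc.X : RatFunc k) =
      algebraMap k (RatFunc k) (q : k)⁻¹ * RatFunc.X := by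
    apply (sg q).injective
    change (sg q * (sg q)⁻¹) _ = _
    rw [mul_inv_cancel, map_mul, AlgEquiv.commutes, sg_X, ← mul_assoc, ← map_mul,
      inv_mul_cancel₀ hq, map_one, one_mul]
    rfl
  induction n using Int.induction_on with
  | zero => simp
  | succ n ih =>
    rw [zpow_add_one, AlgEquiv.mul_apply, sg_X, map_mul, AlgEquiv.commutes, ih, zpow_add_one₀ hq,
      map_mul]
    ring
  | pred n ih =>
    rw [zpow_sub_one, AlgEquiv.mul_apply, hinv, map_mul, AlgEquiv.commutes, ih,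
      zpow_sub_one₀ hq, map_mul]
    ring

theorem sq_ne (c : k) : (RatFunc.X : RatFunc k) ^ 2 + algebraMap k (RatFunc k) c ≠ 0 := by
  have e : (RatFunc.X : RatFunc k) ^ 2 + algebraMap k (RatFunc k) c =
      algebraMap k[X] (RatFunc k) (X ^ 2 + C c) := by
    rw [map_add, map_pow, RatFunc.algebraMap_X, IsScalarTower.algebraMap_apply k k[X] (RatFunc k)]
    rfl
  rw [e]
  intro h0
  have h1 : (X ^ 2 + C c : k[X]) = 0 := by
    have := (map_eq_zero_iff (algebraMap k[X] (RatFunc k)) (RatFunc.algebraMap_injective k)).mp h0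
    exact this
  have h2 := congrArg (fun p => p.coeff 2) h1
  simp [coeff_C] at h2

theorem lin_ne (c : k) : (RatFunc.X : RatFunc k) + algebraMap k (RatFunc k) c * RatFunc.X⁻¹ ≠ 0 := by
  intro h
  apply sq_ne c
  have hX : (RatFunc.X : RatFunc k) ≠ 0 := RatFunc.X_ne_zero
  have e : (RatFunc.X : RatFunc k) ^ 2 + algebraMap k (RatFunc k) c =
      (RatFunc.X + algebraMap k (RatFunc k) c * RatFunc.X⁻¹) * RatFunc.X := by
    field_simp
  rw [e, h, zero_mul]

end ThLeadAux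

open ThLeadAux

/-- Module ThLead. -/
theorem stThLead (h : StLead) : StThLead := by
  intro k _ _ q K _ _ S xK yK X Y hq hcx hcy hQ
  obtain ⟨hn0, hX, hY⟩ := hQ
  obtain ⟨hmul, hadd, hneg, hinv, hex, hlt, hcon⟩ := h k (RatFunc k) (sg q) K S
  have hq0 : (q : k) ≠ 0 := q.ne_zero
  have h20 : (2 : k) ≠ 0 := two_ne_zero
  have hXne : (RatFunc.X : RatFunc k) ≠ 0 := RatFunc.X_ne_zero
  set c : k →+* RatFunc k := algebraMap k (RatFunc k) with hc
  have cne : ∀ a : k, a ≠ 0 → c a ≠ 0 := fun a ha => by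
    rw [hc]
    exact (map_ne_zero_iff _ (FaithfulSMul.algebraMap_injective k (RatFunc k))).mpr ha
  have hx : HasLead S xK 1 1 := by
    refine ⟨fun i hi => ?_, ?_⟩
    · rw [hcx, Pi.single_eq_of_ne (ne_of_lt hi)]
    · rw [hcx, Pi.single_eq_same]
  have hy : HasLead S yK 0 RatFunc.X := by
    refine ⟨fun i hi => ?_, ?_⟩
    · rw [hcy, Pi.single_eq_of_ne (ne_of_lt hi)]
    · rw [hcy, Pi.single_eq_same]
  have hxi : HasLead S xK⁻¹ (-1) 1 := by
    have e := (hinv xK 1 1 hx one_ne_zero).2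
    rwa [inv_one, map_one] at e
  have hyi : HasLead S yK⁻¹ 0 RatFunc.X⁻¹ := by
    have e := (hinv yK 0 RatFunc.X hy hXne).2
    rwa [neg_zero, zpow_zero, AlgEquiv.one_apply] at e
  -- `L`
  set l : RatFunc k := RatFunc.X + c q * RatFunc.X⁻¹ with hl
  have hlne : l ≠ 0 := lin_ne (q : k)
  have hL : HasLead S (LL xK yK) (-1) l := by
    have t1 := hmul _ _ _ _ _ _ hxi hyi
    have t2 := hlt _ _ (-1) _ (hmul _ _ _ _ _ _ hx hyi) (by norm_num)
    have t3 := hmul _ _ _ _ _ _ hy hxi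
    have e1 : (sg q ^ (-1 : ℤ)) (RatFunc.X : RatFunc k)⁻¹ = c q * RatFunc.X⁻¹ := by
      rw [map_inv₀, sgz_X, mul_inv, ← map_inv₀, zpow_neg_one, inv_inv]
    rw [e1, one_mul, add_zero] at t1
    rw [zero_add, zpow_zero, AlgEquiv.one_apply, mul_one] at t3
    have t := hadd _ _ _ _ _ (hadd _ _ _ _ _ t1 t2) t3
    rw [add_zero, add_comm (c q * RatFunc.X⁻¹)] at t
    exact t
  set l' : RatFunc k := (sg q ^ (-1 : ℤ)) l with hl'
  have hl'ne : l' ≠ 0 := by
    rw [hl']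
    exact (map_ne_zero_iff _ (sg q ^ (-1 : ℤ)).injective).mpr hlne
  have hl'e : l' = c (q : k)⁻¹ * RatFunc.X + c ((q : k) ^ 2) * RatFunc.X⁻¹ := by
    rw [hl', hl, map_add, map_mul, map_inv₀, sgz_X, AlgEquiv.commutes, zpow_neg_one, mul_inv,
      ← map_inv₀, inv_inv, ← mul_assoc, ← map_mul, pow_two]
  have hLL : HasLead S (LL xK yK ^ 2) (-2) (l * l') := by
    have t := hmul _ _ _ _ _ _ hL hL
    rw [pow_two]
    have e : (-1 : ℤ) + -1 = -2 := by norm_num
    rw [e] at t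
    exact t
  have hK : ∀ a : k, HasLead S (algebraMap k K a) (-2) 0 := fun a =>
    hlt _ _ _ _ (hcon a) (by norm_num)
  have hcm : ∀ (a : k) (f : K) (n : ℤ) (b : RatFunc k), HasLead S f n b →
      HasLead S (algebraMap k K a * f) n (c a * b) := by
    intro a f n b hf
    have t := hmul _ _ _ _ _ _ (hcon a) hf
    rw [zero_add, zpow_zero, AlgEquiv.one_apply] at t
    exact t
  -- `n`
  have hn : HasLead S (qn q xK yK) (-2) (c (2 * (q : k) ^ 2) * (l * l')) := by
    have t := hadd _ _ _ _ _ (hcm (2 * (q : k) ^ 2) _ _ _ hLL) (hK ((1 - 2 * (q : k) ^ 2) ^ 2))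
    rw [add_zero] at t
    exact t
  have hNne : c (2 * (q : k) ^ 2) * (l * l') ≠ 0 :=
    mul_ne_zero (cne _ (mul_ne_zero h20 (pow_ne_zero 2 hq0))) (mul_ne_zero hlne hl'ne)
  have h1 : HasLead S (qa1 q xK yK) (-2) (c (q : k) * (l * l')) := by
    have t := hadd _ _ _ _ _ hLL (hK (1 - 2 * (q : k) ^ 2))
    rw [add_zero] at t
    exact hcm _ _ _ _ t
  have h2 : HasLead S (qa2 q xK yK) (-1) (c ((q : k) * (1 - 4 * (q : k) ^ 2)) * l) :=
    hcm _ _ _ _ hL
  have h3 : HasLead S (qa3 q xK yK) (-2) (c (q : k) * (c (4 * (q : k) ^ 2) * (l * l'))) := by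
    have t := hadd _ _ _ _ _ (hcm (4 * (q : k) ^ 2) _ _ _ hLL) (hK (1 - 2 * (q : k) ^ 2))
    rw [add_zero] at t
    exact hcm _ _ _ _ t
  have hni := (hinv _ _ _ hn hNne).2
  have hX' : X = (qn q xK yK)⁻¹ * (qa3 q xK yK * xK + qa2 q xK yK * yK) := by
    rw [← hX, ← mul_assoc, inv_mul_cancel₀ hn0, one_mul]
  have hY' : Y = (qn q xK yK)⁻¹ * (qa1 q xK yK * yK - qa2 q xK yK * xK) := by
    rw [← hY, ← mul_assoc, inv_mul_cancel₀ hn0, one_mul]
  refine ⟨?_, ?_⟩
  · have t1 := hmul _ _ _ _ _ _ h1 hy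
    have t2 := hneg _ _ _ (hlt _ _ (-2) _ (hmul _ _ _ _ _ _ h2 hx) (by norm_num))
    rw [add_zero] at t1
    have t3 := hadd _ _ _ _ _ t1 t2
    rw [← sub_eq_add_neg, neg_zero, add_zero] at t3
    have t4 := hmul _ _ _ _ _ _ hni t3
    rw [← hY', neg_add_cancel, ← map_mul] at t4
    have e : (sg q ^ (- -2 : ℤ)) ((c (2 * (q : k) ^ 2) * (l * l'))⁻¹ *
        (c (q : k) * (l * l') * (sg q ^ (-2 : ℤ)) RatFunc.X)) = c (2 * (q : k))⁻¹ * RatFunc.X := by
      have e1 : (c (2 * (q : k) ^ 2) * (l * l'))⁻¹ *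
        (c (q : k) * (l * l') * (sg q ^ (-2 : ℤ)) RatFunc.X) =
          c (2 * (q : k))⁻¹ * (sg q ^ (-2 : ℤ)) RatFunc.X := by
        have hc1 : c (2 * (q : k) ^ 2) = c (2 * (q : k)) * c q := by
          rw [← map_mul]
          congr 1
          ring
        have hc2 := cne _ (mul_ne_zero h20 hq0)
        have hc3 := cne _ hq0
        rw [hc1, map_inv₀]
        field_simp
      rw [e1, map_mul, AlgEquiv.commutes]
      congr 1
      rw [← AlgEquiv.mul_apply, ← zpow_add]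
      norm_num
    rw [e] at t4
    exact t4
  · have t1 := hmul _ _ _ _ _ _ h3 hx
    have t2 := hmul _ _ _ _ _ _ h2 hy
    rw [map_one, mul_one] at t1
    have e0 : (-2 : ℤ) + 1 = -1 := by norm_num
    rw [e0] at t1
    rw [add_zero] at t2
    have t3 := hadd _ _ _ _ _ t1 t2
    have e : c (q : k) * (c (4 * (q : k) ^ 2) * (l * l')) +
        c ((q : k) * (1 - 4 * (q : k) ^ 2)) * l * (sg q ^ (-1 : ℤ)) RatFunc.X =
        l * (RatFunc.X + c (4 * (q : k) ^ 5) * RatFunc.X⁻¹) := by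
      have hcq := cne _ hq0
      rw [hl'e, sgz_X, zpow_neg_one]
      change _ + c _ * l * (c _ * _) = _
      simp only [map_mul, map_pow, map_sub, map_one, map_inv₀]
      field_simp
      ring
    rw [e] at t3
    have hne : l * (RatFunc.X + c (4 * (q : k) ^ 5) * RatFunc.X⁻¹) ≠ 0 :=
      mul_ne_zero hlne (lin_ne _)
    have t4 := hmul _ _ _ _ _ _ hni t3
    rw [← hX'] at t4
    have e2 : - -2 + -1 = (1 : ℤ) := by norm_num
    rw [e2] at t4
    refine ⟨_, ?_, t4⟩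
    refine mul_ne_zero ?_ ?_
    · exact (map_ne_zero_iff _ (sg q ^ (- -2 : ℤ)).injective).mpr (inv_ne_zero hNne)
    · exact (map_ne_zero_iff _ (sg q ^ (- -2 : ℤ)).injective).mpr hne

end QD
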