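import Pool.Agent.Lib.QD.Defs
import Pool.Agent.Lib.QD.St
import Pool.Agent.Lib.QD.Lead
import Pool.Agent.Lib.QD.ThLead

/-!
Project QD, module AC: the Artamonov-Cohn construction. A pair `(u, v)` with `u v = q v u`,
`u = x + ...`, `v = y + ...` is conjugate to `(x, y)` in the skew Laurent series.
-/

set_option autoImplicit false

namespace QD

namespace ACAux

variable {k : Type} [Field k]

/-- the coefficients of the conjugating series -/
noncomputable def zc (q : kˣ) (a : ℤ → RatFunc k) : ℕ → RatFunc k
  | 0 => 1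
  | n + 1 => ((algebraMap k (RatFunc k) ((q : k) ^ (n + 1)) - 1) * RatFunc.X)⁻¹ *
      ∑ j : Fin (n + 1), a ((n : ℤ) + 1 - j) * (sg q ^ ((n : ℤ) + 1 - j)) (zc q a j)
  decreasing_by exact Nat.lt_of_lt_of_le j.2 le_rfl

/-- the coefficients as a function on the integers -/
noncomputable def zi (q : kˣ) (a : ℤ → RatFunc k) (i : ℤ) : RatFunc k :=
  if 0 ≤ i then zc q a i.toNat else 0

theorem zi_neg (q : kˣ) (a : ℤ → RatFunc k) {i : ℤ} (h : i < 0) : zi q a i = 0 := by
  unfold zi
  rw [if_neg (by omega)]

theorem zi_nat (q : kˣ) (a : ℤ → RatFunc k) (n : ℕ) : zi q a n = zc q a n := by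
  unfold zi
  rw [if_pos (by omega), Int.toNat_natCast]

/-- The equation for the coefficients. -/
theorem zc_eq (q : kˣ) (hq : NotRoot q) (a : ℤ → RatFunc k) (ha : a 0 = RatFunc.X) (n : ℕ) :
    ∑ j ∈ Finset.range (n + 1), a ((n : ℤ) - j) * (sg q ^ ((n : ℤ) - j)) (zc q a j) =
      zc q a n * (algebraMap k (RatFunc k) ((q : k) ^ n) * RatFunc.X) := by
  rw [Finset.sum_range_succ, sub_self, zpow_zero, ha]
  cases n with
  | zero =>
    rw [Finset.sum_range_zero, zero_add, pow_zero, map_one, one_mul]
    exact mul_comm _ _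
  | succ n =>
    have h1 : (algebraMap k (RatFunc k) ((q : k) ^ (n + 1)) - 1) * RatFunc.X ≠ 0 := by
      refine mul_ne_zero ?_ RatFunc.X_ne_zero
      intro h
      have h2 : algebraMap k (RatFunc k) ((q : k) ^ (n + 1)) = algebraMap k (RatFunc k) 1 := by
        rw [map_one]
        exact sub_eq_zero.1 h
      exact hq (n + 1) (Nat.succ_pos n) ((algebraMap k (RatFunc k)).injective h2)
    have h3 : ∑ j ∈ Finset.range (n + 1), a (((n + 1 : ℕ) : ℤ) - j) *
        (sg q ^ (((n + 1 : ℕ) : ℤ) - j)) (zc q a j) =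
        (algebraMap k (RatFunc k) ((q : k) ^ (n + 1)) - 1) * RatFunc.X * zc q a (n + 1) := by
      rw [zc, mul_inv_cancel_left₀ h1, Finset.sum_range]
      push_cast
      rfl
    rw [h3]
    change _ + RatFunc.X * zc q a (n + 1) = _
    ring

end ACAux

open ACAux in
theorem stAC (hLead : StLead) : StAC := by
  intro k _ q K _ _ S xK yK u v hq hx hy huv hu hv
  obtain ⟨hmul, -, -, hinv, -, -, -⟩ := hLead k (RatFunc k) (sg q) K S
  obtain ⟨z, hz⟩ := S.surj (zi q (S.cf v)) ⟨0, fun i hi => zi_neg q _ hi⟩
  have hz0 : HasLead S z 0 1 := by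
    refine ⟨fun i hi => ?_, ?_⟩
    · rw [hz, zi_neg q _ hi]
    · rw [hz]
      have h := zi_nat q (S.cf v) 0
      rw [Nat.cast_zero] at h
      rw [h, zc]
  obtain ⟨hzne, hzi⟩ := hinv z 0 1 hz0 one_ne_zero
  have hsy : ∀ (f : K) (n : ℤ), S.cf (f * yK) n =
      S.cf f n * (algebraMap k (RatFunc k) ((q : k) ^ n) * RatFunc.X) := by
    intro f n
    rw [S.mul, finsum_eq_single _ n, sub_self, hy, Pi.single_eq_same, ThLeadAux.sgz_X]
    intro i hi
    rw [hy, Pi.single_eq_of_ne (by omega), map_zero, mul_zero]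
  have hzy : z * yK = v * z := by
    apply S.inj
    funext n
    rw [hsy, S.mul, hz]
    rcases lt_or_ge n 0 with hn | hn
    · rw [zi_neg q _ hn, zero_mul]
      symm
      refine finsum_eq_zero_of_forall_eq_zero fun i => ?_
      rcases lt_or_ge i 0 with hi | hi
      · rw [hv.1 i hi, zero_mul]
      · rw [zi_neg q _ (by omega), map_zero, mul_zero]
    · obtain ⟨m, rfl⟩ := Int.eq_ofNat_of_zero_le hn
      have h1 := zc_eq q hq (S.cf v) hv.2 m
      rw [zi_nat, zpow_natCast, ← h1]
      symm
      have h2 : Function.support (fun i : ℤ => S.cf v i * (sg q ^ i) (zi q (S.cf v) (m - i))) ⊆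
          ((Finset.range (m + 1)).map ⟨fun j : ℕ => (m : ℤ) - j, fun a b h => by
            have h' : (m : ℤ) - a = (m : ℤ) - b := h
            omega⟩ : Finset ℤ) := by
        intro i hi
        rw [Function.mem_support] at hi
        have hi0 : 0 ≤ i := by
          by_contra hc
          exact hi (by rw [hv.1 i (by omega), zero_mul])
        have him : i ≤ m := by
          by_contra hc
          exact hi (by rw [zi_neg q _ (by omega), map_zero, mul_zero])
        rw [Finset.mem_coe, Finset.mem_map]
        refine ⟨(m - i).toNat, ?_, ?_⟩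
        · rw [Finset.mem_range]
          omega
        · change (m : ℤ) - ((m - i).toNat : ℤ) = i
          omega
      rw [finsum_eq_sum_of_support_subset _ h2, Finset.sum_map]
      refine Finset.sum_congr rfl fun j _ => ?_
      change S.cf v (m - j) * (sg q ^ ((m : ℤ) - j)) (zi q (S.cf v) (m - (m - j))) = _
      rw [sub_sub_cancel, zi_nat]
  refine ⟨z, hzne, ?_, hzy⟩
  set w : K := z⁻¹ * u * z with hw
  have hzw : z * w = u * z := by
    rw [hw, ← mul_assoc, ← mul_assoc, mul_inv_cancel₀ hzne, one_mul]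
  have hwy : w * yK = algebraMap k K q * (yK * w) := by
    have h1 : z⁻¹ * v = yK * z⁻¹ := by
      rw [inv_mul_eq_iff_eq_mul₀ hzne, ← mul_assoc, hzy, mul_assoc, mul_inv_cancel₀ hzne, mul_one]
    have hc : z⁻¹ * algebraMap k K q = algebraMap k K q * z⁻¹ := (Algebra.commutes _ _).symm
    calc w * yK = z⁻¹ * u * (z * yK) := by rw [hw, mul_assoc]
      _ = z⁻¹ * (u * v) * z := by rw [hzy]; simp only [mul_assoc]
      _ = z⁻¹ * algebraMap k K q * (v * u) * z := by rw [huv]; simp only [mul_assoc]
      _ = algebraMap k K q * (z⁻¹ * v) * u * z := by rw [hc]; simp only [mul_assoc]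
      _ = algebraMap k K q * (yK * w) := by rw [h1, hw]; simp only [mul_assoc]
  have hwl : HasLead S w 1 1 := by
    have h1 := hmul _ _ _ _ _ _ hzi hu
    have h2 := hmul _ _ _ _ _ _ h1 hz0
    simpa [hw] using h2
  have hwx : w = xK := by
    apply S.inj
    funext n
    rw [hx]
    by_cases hn : n = 1
    · rw [hn, Pi.single_eq_same]
      exact hwl.2
    · rw [Pi.single_eq_of_ne hn]
      have h1 : S.cf (w * yK) n = S.cf (algebraMap k K q * (yK * w)) n := by rw [hwy]
      have h2 : ∀ (c : k) (f : K), S.cf (algebraMap k K c * f) n =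
          algebraMap k (RatFunc k) c * S.cf f n := by
        intro c f
        rw [S.mul, finsum_eq_single _ 0]
        · rw [S.alg, Pi.single_eq_same, zpow_zero, sub_zero]
          rfl
        · intro i hi
          rw [S.alg, Pi.single_eq_of_ne hi, zero_mul]
      have h3 : S.cf (yK * w) n = RatFunc.X * S.cf w n := by
        rw [S.mul, finsum_eq_single _ 0]
        · rw [hy, Pi.single_eq_same, zpow_zero, sub_zero]
          rfl
        · intro i hi
          rw [hy, Pi.single_eq_of_ne hi, zero_mul]
      rw [hsy, h2, h3] at h1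
      have h4 : S.cf w n * RatFunc.X * algebraMap k (RatFunc k) ((q : k) ^ n - q) = 0 := by
        rw [map_sub]
        linear_combination h1
      rcases mul_eq_zero.1 h4 with h5 | h5
      · rcases mul_eq_zero.1 h5 with h6 | h6
        · exact h6
        · exact absurd h6 RatFunc.X_ne_zero
      · exfalso
        rw [map_eq_zero, sub_eq_zero] at h5
        have h7 : (q : k) ^ (n - 1) = 1 := by
          rw [zpow_sub_one₀ q.ne_zero, h5, mul_inv_cancel₀ q.ne_zero]
        have h8 : (q : k) ^ (n - 1).natAbs = 1 := by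
          rcases Int.natAbs_eq (n - 1) with h | h
          · rw [h, zpow_natCast] at h7
            exact h7
          · rw [h, zpow_neg, zpow_natCast, inv_eq_one] at h7
            exact h7
        exact hq (n - 1).natAbs (by omega) h8
  rw [← hwx, hzw]

end QD
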