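import Pool.Agent.Lib.QD.A3P

/-!
Project QD: invariance of the degree under `X ↦ X⁻¹` and under the exchange of `X` and `Y` (G7).
-/

namespace QD

namespace AISAux

variable {M : Type} [Field M] [Algebra ℂ M] (Pl : Places M) (p : Pl.P)

open A3PAux in
theorem ord_inv_sub {T : M} {t : ℂ} (hT : T ≠ 0) (hTt : T - algebraMap ℂ M t ≠ 0) (ht : t ≠ 0)
    (hord : Pl.ord p T = 0) :
    Pl.ord p (T⁻¹ - algebraMap ℂ M t⁻¹) = Pl.ord p (T - algebraMap ℂ M t) := by
  have ht' : algebraMap ℂ M t ≠ 0 := (map_ne_zero _).2 ht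
  have h1 : T⁻¹ - algebraMap ℂ M t⁻¹ = -(T - algebraMap ℂ M t) * (T⁻¹ * algebraMap ℂ M t⁻¹) := by
    rw [map_inv₀]
    field_simp
    ring
  have hti : algebraMap ℂ M t⁻¹ ≠ 0 := (map_ne_zero _).2 (inv_ne_zero ht)
  rw [h1, Pl.mul p _ _ (neg_ne_zero.2 hTt) (mul_ne_zero (inv_ne_zero hT) hti),
    Pl.mul p _ _ (inv_ne_zero hT) hti, ord_neg Pl p _ hTt, ord_inv Pl p _ hT, hord,
    Pl.con p _ (inv_ne_zero ht)]
  ring

theorem ray_ne (b w : ℤ × ℤ) (h : ray b w) : b ≠ 0 := by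
  rintro rfl
  have := h.2
  simp at this

theorem gg_pos' (b : ℤ × ℤ) (h : b ≠ 0) : 0 < gg b := by
  unfold gg
  have h1 : 0 < Int.gcd b.1 b.2 := by
    rw [Int.gcd_pos_iff]
    by_contra hc
    push Not at hc
    exact h (Prod.ext hc.1 hc.2)
  exact_mod_cast h1

open A3PAux in
/-- the essential computation: `T = tau X Y b.1` for `b` on the ray of `w`. -/
theorem tau_props (hInd : StInd) {X Y : M} (hI : Ind X Y) (b : Blk)
    (hb : b.1 ≠ 0 → b.2 ≠ 0) (hr : ray b.1 (ow Pl p X Y)) :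
    Pl.ord p ((tau X Y b.1)⁻¹ - algebraMap ℂ M b.2⁻¹) =
      Pl.ord p (tau X Y b.1 - algebraMap ℂ M b.2) := by
  obtain ⟨hYX, hXi, hX0, hP, hmon, -⟩ := hInd M X Y hI
  have hY0 : Y ≠ 0 := (hInd M Y X hYX).2.2.1
  have hne := ray_ne _ _ hr
  have hg := gg_pos' b.1 hne
  have ht := hb hne
  obtain ⟨c1, hc1⟩ := gg_dvd_left b.1
  obtain ⟨c2, hc2⟩ := gg_dvd_right b.1
  have hd1 : b.1.1 / gg b.1 = c1 := by
    conv_lhs => rw [hc1]
    exact Int.mul_ediv_cancel_left _ hg.ne'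
  have hd2 : b.1.2 / gg b.1 = c2 := by
    conv_lhs => rw [hc2]
    exact Int.mul_ediv_cancel_left _ hg.ne'
  have htau : tau X Y b.1 = X ^ c2 * Y ^ (-c1) := by
    unfold tau
    rw [hd1, hd2]
  have hT0 : tau X Y b.1 ≠ 0 := by
    rw [htau]
    exact mul_ne_zero (zpow_ne_zero _ hX0) (zpow_ne_zero _ hY0)
  apply ord_inv_sub Pl p hT0 _ ht
  · rw [htau, Pl.mul p _ _ (zpow_ne_zero _ hX0) (zpow_ne_zero _ hY0), ord_zpow Pl p _ hX0,
      ord_zpow Pl p _ hY0]
    have h1 := hr.1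
    unfold ow at h1
    simp only at h1
    have h2 : gg b.1 * (c1 * Pl.ord p Y) = gg b.1 * (c2 * Pl.ord p X) := by
      calc gg b.1 * (c1 * Pl.ord p Y) = (gg b.1 * c1) * Pl.ord p Y := by ring
        _ = (gg b.1 * c2) * Pl.ord p X := by rw [← hc1, ← hc2]; exact h1
        _ = _ := by ring
    have h3 := mul_left_cancel₀ hg.ne' h2
    rw [neg_mul]
    linarith
  · rw [htau, sub_ne_zero]
    apply hmon
    intro h0
    rw [Prod.mk.injEq] at h0
    apply hne
    have hc1' : c1 = 0 := by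
      have := h0.2
      omega
    ext
    · rw [hc1, hc1']; simp
    · rw [hc2, h0.1]; simp

theorem ray_flip (b w : ℤ × ℤ) : ray (-b.1, b.2) (-w.1, w.2) ↔ ray b w := by
  unfold ray
  simp only
  constructor
  · rintro ⟨h1, h2⟩
    constructor <;> nlinarith
  · rintro ⟨h1, h2⟩
    constructor <;> nlinarith

theorem ray_swap (b w : ℤ × ℤ) : ray (b.2, b.1) (w.2, w.1) ↔ ray b w := by
  unfold ray
  simp only
  constructor
  · rintro ⟨h1, h2⟩
    constructor <;> linarith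
  · rintro ⟨h1, h2⟩
    constructor <;> linarith

theorem gg_flip (b : ℤ × ℤ) : gg (-b.1, b.2) = gg b := by
  unfold gg
  simp

theorem gg_swap (b : ℤ × ℤ) : gg (b.2, b.1) = gg b := by
  unfold gg
  simp only
  rw [Int.gcd_comm]

theorem us_flip (b w : ℤ × ℤ) : us (-b.1, b.2) (-w.1, w.2) = us b w := by
  unfold us wed
  simp only
  have e1 : -b.1 * -w.1 = b.1 * w.1 := by ring
  have e2 : |(-b.1) * w.2 - b.2 * (-w.1)| = |b.1 * w.2 - b.2 * w.1| := by
    rw [← abs_neg]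
    congr 1
    ring
  have e3 : |(-b.1) * w.2| = |b.1 * w.2| := by rw [neg_mul, abs_neg]
  have e4 : |b.2 * (-w.1)| = |b.2 * w.1| := by rw [mul_neg, abs_neg]
  rw [e1, e2, e3, e4]

theorem us_swap (b w : ℤ × ℤ) : us (b.2, b.1) (w.2, w.1) = us b w := by
  unfold us wed
  simp only
  have e2 : |b.2 * w.1 - b.1 * w.2| = |b.1 * w.2 - b.2 * w.1| := abs_sub_comm _ _
  rw [e2, add_comm |b.2 * w.1|]
  by_cases h : 0 < b.1 * w.1 ∧ 0 < b.2 * w.2
  · rw [if_pos h, if_pos ⟨h.2, h.1⟩]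
  · rw [if_neg h, if_neg (fun h' => h ⟨h'.2, h'.1⟩)]

theorem tot_mapDomain (f : Blk → Blk) (e : Blk →₀ ℤ) (F : Blk → ℤ) :
    tot (e.mapDomain f) F = tot e (fun b => F (f b)) := by
  unfold tot
  rw [Finsupp.sum_mapDomain_index]
  · intro b; rw [zero_mul]
  · intro b m n; rw [add_mul]

theorem tot_congr (e : Blk →₀ ℤ) (F G : Blk → ℤ) (h : ∀ b ∈ e.support, F b = G b) :
    tot e F = tot e G := by
  unfold tot
  apply Finsupp.sum_congr
  intro b hb
  rw [h b hb]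

open A3PAux in
theorem us4_inv (hInd : StInd) {X Y : M} (hI : Ind X Y) (b : Blk) (hb : b.1 ≠ 0 → b.2 ≠ 0) :
    us4 Pl p X⁻¹ Y (alI b) = us4 Pl p X Y b := by
  obtain ⟨hYX, hXi, hX0, hP, hmon, -⟩ := hInd M X Y hI
  have hw : ow Pl p X⁻¹ Y = (-(ow Pl p X Y).1, (ow Pl p X Y).2) := by
    unfold ow
    rw [ord_inv Pl p X hX0]
  have hmm : mm Pl p X⁻¹ Y (alI b) = mm Pl p X Y b := by
    unfold mm alI
    simp only
    rw [hw]
    by_cases hr : ray b.1 (ow Pl p X Y)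
    · rw [if_pos ((ray_flip _ _).2 hr), if_pos hr, gg_flip, gg_flip]
      have htau : tau X⁻¹ Y (-b.1.1, b.1.2) = (tau X Y b.1)⁻¹ := by
        unfold tau
        simp only
        rw [gg_flip, Int.neg_ediv_of_dvd (gg_dvd_left b.1), mul_inv, inv_zpow, zpow_neg,
          zpow_neg]
      rw [htau, tau_props Pl p hInd hI b hb hr]
    · rw [if_neg (fun h => hr ((ray_flip _ _).1 h)), if_neg hr]
  unfold us4
  rw [hmm, hw]
  unfold alI
  simp only
  rw [us_flip]

open A3PAux in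
theorem us4_swap (hInd : StInd) {X Y : M} (hI : Ind X Y) (b : Blk) (hb : b.1 ≠ 0 → b.2 ≠ 0) :
    us4 Pl p Y X (alS b) = us4 Pl p X Y b := by
  have hw : ow Pl p Y X = ((ow Pl p X Y).2, (ow Pl p X Y).1) := rfl
  have hmm : mm Pl p Y X (alS b) = mm Pl p X Y b := by
    unfold mm alS
    simp only
    rw [hw]
    by_cases hr : ray b.1 (ow Pl p X Y)
    · rw [if_pos ((ray_swap _ _).2 hr), if_pos hr, gg_swap, gg_swap]
      have htau : tau Y X (b.1.2, b.1.1) = (tau X Y b.1)⁻¹ := by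
        unfold tau
        simp only
        rw [gg_swap, mul_inv, zpow_neg, zpow_neg, inv_inv, mul_comm]
      rw [htau, tau_props Pl p hInd hI b hb hr]
    · rw [if_neg (fun h => hr ((ray_swap _ _).1 h)), if_neg hr]
  unfold us4
  rw [hmm, hw]
  unfold alS
  simp only
  rw [us_swap]

end AISAux

open AISAux in
/-- G7. Invariance under `X ↦ X⁻¹` and exchange. -/
theorem stAIS (hInd : StInd) : StAIS := by
  intro M _ _ Pl X Y e hI hT
  constructor
  · unfold D4 actI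
    apply finsum_congr
    intro p
    rw [tot_mapDomain]
    exact tot_congr _ _ _ fun b hb => us4_inv Pl p hInd hI b (hT b hb)
  · unfold D4 actS
    apply finsum_congr
    intro p
    rw [tot_mapDomain]
    exact tot_congr _ _ _ fun b hb => us4_swap Pl p hInd hI b (hT b hb)

end QD
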