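import Pool.Agent.Lib.QD.CSt

/-!
Project QD, module C4: going back along a reachable pair.
-/

namespace QD

open Polynomial

namespace BackAux

theorem evc_ne (h1 : StInd) {E : Type} [Field E] [Algebra ℂ E] {X Y : E} (hI : Ind X Y)
    (P : ℝ[X]) (hP : P ≠ 0) : evc Y P ≠ 0 := by
  have h2 := ((h1 E X Y hI).2.2.2.1 (P.map Complex.ofRealHom)
    (by rwa [Ne, Polynomial.map_eq_zero])).1
  have h3 : aeval Y (P.map Complex.ofRealHom) = evc Y P := by
    rw [aeval_def, eval₂_map]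
    rfl
  rwa [h3] at h2

end BackAux

open BackAux

theorem stBack (h1 : StInd) (h2 : StFac) : StBack := by
  intro E _ _ S hI hc hy hs hs2 hinv hsw X0 Y0 X Y hR
  have hfac : ∀ (Y : E) (P : ℝ[X]) (X : E), P ≠ 0 → S X Y → S (evc Y P * X) Y := by
    intro Y P X hP hX
    exact h2 E Y (fun X => S X Y) (fun c X => hc c X Y) (fun X => hy X Y)
      (fun s X => hs s X Y) (fun s X => hs2 s X Y) P X hP hX
  have hstep : ∀ (X Y : E) (P Q : ℝ[X]), P ≠ 0 → Q ≠ 0 → S (evc Y P / evc Y Q * X) Y → S X Y := by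
    intro X Y P Q hP hQ hX
    have hP0 : evc Y P ≠ 0 := evc_ne h1 (hI _ _ hX) P hP
    have hQ0 : evc Y Q ≠ 0 := evc_ne h1 (hI _ _ hX) Q hQ
    have h3 := hfac Y Q _ hQ hX
    have h4 : evc Y Q * (evc Y P / evc Y Q * X) = evc Y P * X := by
      rw [← mul_assoc, mul_div_cancel₀ _ hQ0]
    rw [h4] at h3
    have h5 := hfac Y P _ hP (hinv _ _ h3)
    have h6 : evc Y P * (evc Y P * X)⁻¹ = X⁻¹ := by
      rw [mul_inv, ← mul_assoc, mul_inv_cancel₀ hP0, one_mul]
    rw [h6] at h5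
    have h7 := hinv _ _ h5
    rwa [inv_inv] at h7
  induction hR with
  | base => exact id
  | stepX X Y P Q hP hQ _ ih => exact fun h => ih (hstep X Y P Q hP hQ h)
  | stepY X Y P Q hP hQ _ ih => exact fun h => ih (hsw _ _ (hstep Y X P Q hP hQ (hsw _ _ h)))
  | inv X Y _ ih =>
    intro h
    have h3 := hinv _ _ h
    rw [inv_inv] at h3
    have h4 := hinv _ _ (hsw _ _ h3)
    rw [inv_inv] at h4
    exact ih (hsw _ _ h4)

end QD
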