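import Pool.Agent.Lib.QD.CSt

/-!
Project QD: the degree of the base pair.
-/

namespace QD

open Polynomial

namespace BaseAux

theorem tot_congr (e : Blk →₀ ℤ) (f g : Blk → ℤ) (h : ∀ b, f b = g b) : tot e f = tot e g := by
  unfold tot
  refine Finsupp.sum_congr ?_
  intro b _
  rw [h b]

/-- `∑ e |b₂| = 2 aW` for balanced `e`. -/
theorem tot_abs (e : Blk →₀ ℤ) (hB : Bal e) : tot e (fun b => |b.1.2|) = 2 * aW e := by
  have h1 : tot e (fun b => |b.1.2|) = 2 * aW e - tot e (fun b => b.1.2) := by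
    unfold aW tot Finsupp.sum
    rw [Finset.mul_sum, ← Finset.sum_sub_distrib]
    refine Finset.sum_congr rfl ?_
    intro b _
    dsimp only
    rcases le_total 0 b.1.2 with h | h
    · rw [abs_of_nonneg h, max_eq_right h]; ring
    · rw [abs_of_nonpos h, max_eq_left h]; ring
  rw [h1, hB.2, sub_zero]

section
variable {Ω : Type} [Field Ω] [Algebra ℂ Ω]

theorem ordC (Pl : Places (RatFunc Ω)) (pt : Option Ω ≃ Pl.P) (hS : IsStdPl Pl pt) (c : Ω)
    (hc : c ≠ 0) (p : Pl.P) : Pl.ord p (RatFunc.C c) = 0 := by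
  obtain ⟨a, rfl⟩ := pt.surjective p
  have h0 : (C c : Polynomial Ω) ≠ 0 := by simpa using hc
  have h1 : (RatFunc.C c : RatFunc Ω) = algebraMap (Polynomial Ω) (RatFunc Ω) (C c) :=
    (RatFunc.algebraMap_C c).symm
  rw [h1]
  rcases a with _ | a
  · rw [hS.inf _ h0]
    simp
  · rw [hS.fin a _ h0]
    simp

theorem ordX (Pl : Places (RatFunc Ω)) (pt : Option Ω ≃ Pl.P) (hS : IsStdPl Pl pt) :
    Pl.ord (pt none) (RatFunc.X : RatFunc Ω) = -1 ∧
    Pl.ord (pt (some 0)) (RatFunc.X : RatFunc Ω) = 1 ∧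
    ∀ a : Ω, a ≠ 0 → Pl.ord (pt (some a)) (RatFunc.X : RatFunc Ω) = 0 := by
  have h0 : (X : Polynomial Ω) ≠ 0 := X_ne_zero
  have h1 : (RatFunc.X : RatFunc Ω) = algebraMap (Polynomial Ω) (RatFunc Ω) X := RatFunc.algebraMap_X.symm
  rw [h1]
  refine ⟨?_, ?_, ?_⟩
  · rw [hS.inf _ h0]
    simp
  · rw [hS.fin 0 _ h0]
    have h2 : rootMultiplicity (0 : Ω) (X : Polynomial Ω) = 1 := by
      have h3 := rootMultiplicity_X_sub_C_self (R := Ω) (x := (0 : Ω))
      simpa using h3
    rw [h2]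
    rfl
  · intro a ha
    rw [hS.fin a _ h0]
    have h2 : rootMultiplicity a (X : Polynomial Ω) = 0 := by
      apply rootMultiplicity_eq_zero
      simpa using ha
    rw [h2]
    rfl

theorem us_zero (b : ℤ × ℤ) : us b (0, 0) = 0 := by
  simp [us]

theorem us_one (b : ℤ × ℤ) (n : ℤ) (hn : n = 1 ∨ n = -1) : us b (n, 0) = |b.2| := by
  rcases hn with rfl | rfl <;> simp [us]

theorem mm_zero (Pl : Places (RatFunc Ω)) (pt : Option Ω ≃ Pl.P) (hS : IsStdPl Pl pt) (η : Ω)
    (hη : Transcendental ℂ η) (p : Pl.P) (b : Blk)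
    (hp : Pl.ord p (RatFunc.X : RatFunc Ω) = 1 ∨ Pl.ord p (RatFunc.X : RatFunc Ω) = -1) :
    mm Pl p (RatFunc.X : RatFunc Ω) (RatFunc.C η) b = 0 := by
  have hη0 : η ≠ 0 := by
    rintro rfl
    exact hη isAlgebraic_zero
  have hY := ordC Pl pt hS η hη0 p
  unfold mm
  split_ifs with hr
  · have hw : ow Pl p (RatFunc.X : RatFunc Ω) (RatFunc.C η) =
        (Pl.ord p (RatFunc.X : RatFunc Ω), 0) := by
      unfold ow
      rw [hY]
    rw [hw] at hr ⊢
    obtain ⟨hr1, hr2⟩ := hr
    have hX0 : Pl.ord p (RatFunc.X : RatFunc Ω) ≠ 0 := by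
      rcases hp with h | h <;> rw [h] <;> norm_num
    have hb2 : b.1.2 = 0 := by
      have h1 : b.1.2 * Pl.ord p (RatFunc.X : RatFunc Ω) = 0 := by
        simpa using hr1.symm
      rcases mul_eq_zero.1 h1 with h | h
      · exact h
      · exact absurd h hX0
    have hb1 : b.1.1 ≠ 0 := by
      intro h
      simp [h, hb2] at hr2
    -- the exponent
    have hm : b.1.1 / gg b.1 = 1 ∨ b.1.1 / gg b.1 = -1 := by
      have hg : gg b.1 = |b.1.1| := by
        unfold gg
        rw [hb2]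
        simp
      rw [hg]
      rcases lt_or_gt_of_ne hb1 with h | h
      · right
        rw [abs_of_neg h, Int.ediv_neg, Int.ediv_self hb1]
      · left
        rw [abs_of_pos h, Int.ediv_self hb1]
    have ht : tau (RatFunc.X : RatFunc Ω) (RatFunc.C η) b.1 =
        RatFunc.C (η ^ (-(b.1.1 / gg b.1))) := by
      unfold tau
      rw [hb2, Int.zero_ediv, zpow_zero, one_mul, map_zpow₀]
    have ht2 : algebraMap ℂ (RatFunc Ω) b.2 = RatFunc.C (algebraMap ℂ Ω b.2) := by
      rfl
    have hne : η ^ (-(b.1.1 / gg b.1)) - algebraMap ℂ Ω b.2 ≠ 0 := by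
      intro h
      rw [sub_eq_zero] at h
      rcases hm with h1 | h1
      · rw [h1, zpow_neg, zpow_one] at h
        apply hη
        have h2 : η = algebraMap ℂ Ω (b.2⁻¹) := by
          rw [map_inv₀, ← h, inv_inv]
        rw [h2]
        exact isAlgebraic_algebraMap _
      · rw [h1, neg_neg, zpow_one] at h
        apply hη
        rw [h]
        exact isAlgebraic_algebraMap _
    have ho : Pl.ord p (tau (RatFunc.X : RatFunc Ω) (RatFunc.C η) b.1 -
        algebraMap ℂ (RatFunc Ω) b.2) = 0 := by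
      rw [ht, ht2, ← map_sub]
      exact ordC Pl pt hS _ hne p
    rw [ho]
    rcases hp with h | h <;> simp [h, gg]
  · rfl

end

end BaseAux

open BaseAux in
theorem stBase : StBase := by
  classical
  intro Ω _ _ _ η Pl pt hη hS e hT hB
  have hη0 : η ≠ 0 := by
    rintro rfl
    exact hη isAlgebraic_zero
  have hX := ordX Pl pt hS
  have hY := ordC Pl pt hS η hη0
  have h1 : ∀ p : Pl.P, (Pl.ord p (RatFunc.X : RatFunc Ω) = 1 ∨
      Pl.ord p (RatFunc.X : RatFunc Ω) = -1) →
      tot e (us4 Pl p (RatFunc.X : RatFunc Ω) (RatFunc.C η)) = 2 * aW e := by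
    intro p hp
    rw [← tot_abs e hB]
    apply tot_congr
    intro b
    unfold us4
    rw [mm_zero Pl pt hS η hη p b hp]
    unfold ow
    rw [hY p, us_one b.1 _ hp]
    ring
  have h2 : ∀ p : Pl.P, Pl.ord p (RatFunc.X : RatFunc Ω) = 0 →
      tot e (us4 Pl p (RatFunc.X : RatFunc Ω) (RatFunc.C η)) = 0 := by
    intro p hp
    have h3 : tot e (us4 Pl p (RatFunc.X : RatFunc Ω) (RatFunc.C η)) = tot e (fun _ => 0) := by
      apply tot_congr
      intro b
      unfold us4 mm ow
      rw [hY p, hp, us_zero]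
      simp [ray]
    rw [h3]
    simp [tot]
  unfold D4
  have hsub : Function.support (fun p => tot e (us4 Pl p (RatFunc.X : RatFunc Ω) (RatFunc.C η))) ⊆
      (({pt none, pt (some 0)} : Finset Pl.P) : Set Pl.P) := by
    intro p hp
    obtain ⟨a, rfl⟩ := pt.surjective p
    rcases a with _ | a
    · simp
    · by_cases ha : a = 0
      · subst ha; simp
      · exact absurd (h2 _ (hX.2.2 a ha)) hp
  rw [finsum_eq_sum_of_support_subset _ hsub]
  have hne : pt none ≠ pt (some 0) := by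
    intro h
    have := pt.injective h
    simp at this
  rw [Finset.sum_pair hne, h1 _ (Or.inr hX.1), h1 _ (Or.inl hX.2.1)]
  ring

end QD
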