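import Pool.Agent.Lib.QD.CSt

/-!
Project QD: the configuration of the quintic is good.
-/

set_option autoImplicit false

namespace QD

namespace E0Aux

theorem tot_add (e e' : Blk →₀ ℤ) (f : Blk → ℤ) : tot (e + e') f = tot e f + tot e' f := by
  unfold tot
  exact Finsupp.sum_add_index' (fun b => by rw [zero_mul]) (fun b m n => by rw [add_mul])

theorem tot_single (b : Blk) (f : Blk → ℤ) : tot (Finsupp.single b 1) f = f b := by
  unfold tot
  rw [Finsupp.sum_single_index]
  · rw [one_mul]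
  · rw [zero_mul]

theorem tot_e0 (f : Blk → ℤ) : tot e0 f = f ((1, 0), Complex.I) + f ((1, 0), -Complex.I) +
    f ((0, 1), Complex.I) + f ((0, 1), -Complex.I) +
    f ((-1, -1), Complex.I / (Real.sqrt 2 : ℂ)) + f ((-1, -1), -Complex.I / (Real.sqrt 2 : ℂ)) := by
  unfold e0
  simp only [tot_add, tot_single]

theorem conj_I : (starRingEnd ℂ) Complex.I = -Complex.I := Complex.conj_I

theorem conj_nI : (starRingEnd ℂ) (-Complex.I) = Complex.I := by
  rw [map_neg, Complex.conj_I, neg_neg]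

theorem conj_J : (starRingEnd ℂ) (Complex.I / (Real.sqrt 2 : ℂ)) =
    -Complex.I / (Real.sqrt 2 : ℂ) := by
  rw [map_div₀, Complex.conj_I, Complex.conj_ofReal]

theorem conj_nJ : (starRingEnd ℂ) (-Complex.I / (Real.sqrt 2 : ℂ)) =
    Complex.I / (Real.sqrt 2 : ℂ) := by
  rw [map_div₀, map_neg, Complex.conj_I, Complex.conj_ofReal, neg_neg]

theorem s2_ne : (Real.sqrt 2 : ℂ) ≠ 0 := by
  rw [Ne, Complex.ofReal_eq_zero]
  positivity

theorem J_ne : Complex.I / (Real.sqrt 2 : ℂ) ≠ 0 := div_ne_zero Complex.I_ne_zero s2_ne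

theorem nJ_ne : -Complex.I / (Real.sqrt 2 : ℂ) ≠ 0 :=
  div_ne_zero (neg_ne_zero.2 Complex.I_ne_zero) s2_ne

theorem I_ne_nI : Complex.I ≠ -Complex.I := by
  intro h
  have h1 := congrArg Complex.im h
  rw [Complex.neg_im, Complex.I_im] at h1
  norm_num at h1

theorem J_ne_nJ : Complex.I / (Real.sqrt 2 : ℂ) ≠ -Complex.I / (Real.sqrt 2 : ℂ) := by
  intro h
  rw [div_left_inj' s2_ne] at h
  exact I_ne_nI h

theorem single_conj (w : ℤ × ℤ) (t : ℂ) (b : Blk) :
    (Finsupp.single ((w, t) : Blk) (1 : ℤ)) (b.1, (starRingEnd ℂ) b.2) =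
      (Finsupp.single ((w, (starRingEnd ℂ) t) : Blk) (1 : ℤ)) b := by
  classical
  rw [Finsupp.single_apply, Finsupp.single_apply]
  have h : ((w, t) : Blk) = (b.1, (starRingEnd ℂ) b.2) ↔ ((w, (starRingEnd ℂ) t) : Blk) = b := by
    obtain ⟨w', t'⟩ := b
    simp only [Prod.mk.injEq]
    refine and_congr_right fun _ => ?_
    constructor
    · intro h1
      rw [h1, Complex.conj_conj]
    · intro h1
      rw [← h1, Complex.conj_conj]
  simp only [h]

theorem single_real {w : ℤ × ℤ} {t : ℂ} (ht : (starRingEnd ℂ) t ≠ t) {b : Blk}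
    (hb : (starRingEnd ℂ) b.2 = b.2) : (Finsupp.single ((w, t) : Blk) (1 : ℤ)) b = 0 := by
  classical
  rw [Finsupp.single_apply, if_neg]
  rintro rfl
  exact ht hb

theorem mb_eq (b c : Blk) (h : ray b.1 c.1) (h2 : b.2 = c.2) : mb b c = min (gg b.1) (gg c.1) := by
  unfold mb
  exact if_pos ⟨h, h2⟩

theorem mb_ray (b c : Blk) (h : ¬ ray b.1 c.1) : mb b c = 0 := by
  unfold mb
  exact if_neg fun h1 => h h1.1

theorem mb_ne (b c : Blk) (h : b.2 ≠ c.2) : mb b c = 0 := by
  unfold mb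
  exact if_neg fun h1 => h h1.2

end E0Aux

open E0Aux

/-- H4. The configuration of the quintic is good. -/
theorem stE0 : StE0 := by
  refine ⟨⟨?_, ?_, ⟨?_, ?_⟩, ?_⟩, ?_⟩
  · -- constants are nonzero
    intro b hb _ h0
    rw [Finsupp.mem_support_iff] at hb
    apply hb
    have hs : ∀ (w : ℤ × ℤ) (t : ℂ), t ≠ 0 → (Finsupp.single ((w, t) : Blk) (1 : ℤ)) b = 0 := by
      intro w t ht
      classical
      rw [Finsupp.single_apply, if_neg]
      rintro rfl
      exact ht h0
    have hI := Complex.I_ne_zero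
    unfold e0
    simp only [Finsupp.add_apply]
    rw [hs _ _ hI, hs _ _ (neg_ne_zero.2 hI), hs _ _ hI, hs _ _ (neg_ne_zero.2 hI), hs _ _ J_ne,
      hs _ _ nJ_ne]
    norm_num
  · -- balanced
    constructor
    · rw [tot_e0]
      norm_num
    · rw [tot_e0]
      norm_num
  · -- conjugation
    intro b
    unfold e0
    simp only [Finsupp.add_apply, single_conj, conj_I, conj_nI, conj_J, conj_nJ]
    ring
  · -- real constants
    intro b hb
    have h : e0 b = 0 := by
      unfold e0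
      simp only [Finsupp.add_apply]
      rw [single_real (by rw [conj_I]; exact I_ne_nI.symm) hb,
        single_real (by rw [conj_nI]; exact I_ne_nI) hb,
        single_real (by rw [conj_I]; exact I_ne_nI.symm) hb,
        single_real (by rw [conj_nI]; exact I_ne_nI) hb,
        single_real (by rw [conj_J]; exact J_ne_nJ.symm) hb,
        single_real (by rw [conj_nJ]; exact J_ne_nJ) hb]
      norm_num
    rw [h]
    exact Even.zero
  · -- the quadratic form
    have r11 : ray (1, 0) (1, 0) := by decide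
    have r22 : ray (0, 1) (0, 1) := by decide
    have r33 : ray (-1, -1) (-1, -1) := by decide
    have r12 : ¬ ray (1, 0) (0, 1) := by decide
    have r13 : ¬ ray (1, 0) (-1, -1) := by decide
    have r21 : ¬ ray (0, 1) (1, 0) := by decide
    have r23 : ¬ ray (0, 1) (-1, -1) := by decide
    have r31 : ¬ ray (-1, -1) (1, 0) := by decide
    have r32 : ¬ ray (-1, -1) (0, 1) := by decide
    have u11 : us (1, 0) (1, 0) = 0 := by decide
    have u22 : us (0, 1) (0, 1) = 0 := by decide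
    have u33 : us (-1, -1) (-1, -1) = -2 := by decide
    have u12 : us (1, 0) (0, 1) = 1 := by decide
    have u13 : us (1, 0) (-1, -1) = 1 := by decide
    have u21 : us (0, 1) (1, 0) = 1 := by decide
    have u23 : us (0, 1) (-1, -1) = 1 := by decide
    have u31 : us (-1, -1) (1, 0) = 1 := by decide
    have u32 : us (-1, -1) (0, 1) = 1 := by decide
    have g1 : gg (1, 0) = 1 := by decide
    have g2 : gg (0, 1) = 1 := by decide
    have g3 : gg (-1, -1) = 1 := by decide
    -- multiplicities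
    have d1 : ∀ t : ℂ, mb ((1, 0), t) ((1, 0), t) = 1 := fun t => by
      rw [mb_eq _ _ r11 rfl, g1, min_self]
    have d2 : ∀ t : ℂ, mb ((0, 1), t) ((0, 1), t) = 1 := fun t => by
      rw [mb_eq _ _ r22 rfl, g2, min_self]
    have d3 : ∀ t : ℂ, mb ((-1, -1), t) ((-1, -1), t) = 1 := fun t => by
      rw [mb_eq _ _ r33 rfl, g3, min_self]
    have m12 : ∀ t s : ℂ, mb ((1, 0), t) ((0, 1), s) = 0 := fun t s => mb_ray _ _ r12
    have m13 : ∀ t s : ℂ, mb ((1, 0), t) ((-1, -1), s) = 0 := fun t s => mb_ray _ _ r13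
    have m21 : ∀ t s : ℂ, mb ((0, 1), t) ((1, 0), s) = 0 := fun t s => mb_ray _ _ r21
    have m23 : ∀ t s : ℂ, mb ((0, 1), t) ((-1, -1), s) = 0 := fun t s => mb_ray _ _ r23
    have m31 : ∀ t s : ℂ, mb ((-1, -1), t) ((1, 0), s) = 0 := fun t s => mb_ray _ _ r31
    have m32 : ∀ t s : ℂ, mb ((-1, -1), t) ((0, 1), s) = 0 := fun t s => mb_ray _ _ r32
    have n1 : ∀ w w' : ℤ × ℤ, mb (w, Complex.I) (w', -Complex.I) = 0 :=
      fun w w' => mb_ne _ _ I_ne_nI
    have n2 : ∀ w w' : ℤ × ℤ, mb (w, -Complex.I) (w', Complex.I) = 0 :=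
      fun w w' => mb_ne _ _ I_ne_nI.symm
    have n3 : ∀ w w' : ℤ × ℤ, mb (w, Complex.I / (Real.sqrt 2 : ℂ))
        (w', -Complex.I / (Real.sqrt 2 : ℂ)) = 0 := fun w w' => mb_ne _ _ J_ne_nJ
    have n4 : ∀ w w' : ℤ × ℤ, mb (w, -Complex.I / (Real.sqrt 2 : ℂ))
        (w', Complex.I / (Real.sqrt 2 : ℂ)) = 0 := fun w w' => mb_ne _ _ J_ne_nJ.symm
    unfold Q4
    rw [tot_e0]
    simp only [tot_e0, q4, u11, u22, u33, u12, u13, u21, u23, u31, u32, d1, d2, d3, m12, m13, m21,
      m23, m31, m32, n1, n2, n3, n4]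
    norm_num
  · unfold aW
    rw [tot_e0]
    norm_num

end QD
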