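import Pool.Agent.Lib.QD.St

/-!
Project QD: existence of the elementary automorphisms (N1j).
-/

namespace QD

open Polynomial

namespace ElemAux

variable {k D : Type} [Field k] [DivisionRing D] [Algebra k D]

lemma map_evR (g : D →ₐ[k] D) (u : D) (b : RatFunc k) : g (evR u b) = evR (g u) b := by
  unfold evR
  rw [map_mul, map_inv₀, ← Polynomial.aeval_algHom_apply, ← Polynomial.aeval_algHom_apply]

end ElemAux

open ElemAux in
/-- N1j. Existence of the elementary automorphisms. -/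
theorem stElem (hUP : StUP) (hUn : StUniq) (hEv : StEv) (hTr : StTr) : StElem := by
  intro k D _ _ _ q x y hD hroot
  obtain ⟨htx, hty, -⟩ := hTr k D q x y hD.x0 hD.y0 hD.comm hroot
  obtain ⟨⟨Fy, hFy⟩, -, hcy, -⟩ := hEv k D y hty
  obtain ⟨⟨Fx, hFx⟩, -, hcx, -⟩ := hEv k D x htx
  have hyy : ∀ b : RatFunc k, y * evR y b = evR y b * y := fun b => hcy b y rfl
  have hxx : ∀ a : RatFunc k, x * evR x a = evR x a * x := fun a => hcx a x rfl
  have hy0 : ∀ b : RatFunc k, b ≠ 0 → evR y b ≠ 0 := by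
    intro b hb h
    apply hb
    apply Fy.toRingHom.injective
    rw [map_zero]
    exact (hFy b).trans h
  have hx0 : ∀ b : RatFunc k, b ≠ 0 → evR x b ≠ 0 := by
    intro b hb h
    apply hb
    apply Fx.toRingHom.injective
    rw [map_zero]
    exact (hFx b).trans h
  have hyi : ∀ b : RatFunc k, b ≠ 0 → evR y b * evR y b⁻¹ = 1 := by
    intro b hb
    rw [← hFy, ← hFy, ← map_mul, mul_inv_cancel₀ hb, map_one]
  have hxi : ∀ b : RatFunc k, b ≠ 0 → evR x b * evR x b⁻¹ = 1 := by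
    intro b hb
    rw [← hFx, ← hFx, ← map_mul, mul_inv_cancel₀ hb, map_one]
  have hqc : ∀ d : D, algebraMap k D q * d = d * algebraMap k D q := fun d => Algebra.commutes _ _
  constructor
  · have hf : ∀ b : RatFunc k, b ≠ 0 → ∃ f : D →ₐ[k] D, f x = evR y b * x ∧ f y = y := by
      intro b hb
      apply hUP k D D q x y (evR y b * x) y hD hroot (mul_ne_zero (hy0 b hb) hD.x0) hD.y0
      rw [mul_assoc, hD.comm, ← mul_assoc, ← hqc, mul_assoc, ← mul_assoc (evR y b), ← hyy,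
        mul_assoc y]
    have hcomp : ∀ (b : RatFunc k), b ≠ 0 → ∀ f g : D →ₐ[k] D, f x = evR y b * x → f y = y →
        g x = evR y b⁻¹ * x → g y = y → g.comp f = AlgHom.id k D := by
      intro b hb f g h1 h2 h3 h4
      apply hUn k D D q x y hD
      · rw [AlgHom.comp_apply, h1, map_mul, map_evR, h4, h3, AlgHom.id_apply, ← mul_assoc,
          hyi b hb, one_mul]
      · rw [AlgHom.comp_apply, h2, h4, AlgHom.id_apply]
    intro b hb
    obtain ⟨f, h1, h2⟩ := hf b hb
    obtain ⟨g, h3, h4⟩ := hf b⁻¹ (inv_ne_zero hb)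
    refine ⟨AlgEquiv.ofAlgHom f g ?_ ?_, h1, h2⟩
    · apply hcomp b⁻¹ (inv_ne_zero hb) g f h3 h4 _ h2
      rw [inv_inv]
      exact h1
    · exact hcomp b hb f g h1 h2 h3 h4
  · have hf : ∀ a : RatFunc k, a ≠ 0 → ∃ f : D →ₐ[k] D, f x = x ∧ f y = evR x a * y := by
      intro a ha
      apply hUP k D D q x y x (evR x a * y) hD hroot hD.x0 (mul_ne_zero (hx0 a ha) hD.y0)
      rw [← mul_assoc, hxx, mul_assoc, hD.comm, ← mul_assoc, ← hqc, mul_assoc, mul_assoc]
    have hcomp : ∀ (a : RatFunc k), a ≠ 0 → ∀ f g : D →ₐ[k] D, f x = x → f y = evR x a * y →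
        g x = x → g y = evR x a⁻¹ * y → g.comp f = AlgHom.id k D := by
      intro a ha f g h1 h2 h3 h4
      apply hUn k D D q x y hD
      · rw [AlgHom.comp_apply, h1, h3, AlgHom.id_apply]
      · rw [AlgHom.comp_apply, h2, map_mul, map_evR, h3, h4, AlgHom.id_apply, ← mul_assoc,
          hxi a ha, one_mul]
    intro a ha
    obtain ⟨f, h1, h2⟩ := hf a ha
    obtain ⟨g, h3, h4⟩ := hf a⁻¹ (inv_ne_zero ha)
    refine ⟨AlgEquiv.ofAlgHom f g ?_ ?_, h1, h2⟩
    · apply hcomp a⁻¹ (inv_ne_zero ha) g f h3 h4 h1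
      rw [inv_inv]
      exact h2
    · exact hcomp a ha f g h1 h2 h3 h4

end QD
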