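import Pool.Agent.Lib.QD.St

/-!
Project QD (MP_794704_al): rational functions of a transcendental element of a division algebra.
-/

namespace QD

open Polynomial

namespace EvAux

section
variable {k D : Type} [Field k] [DivisionRing D] [Algebra k D]

theorem comm (u : D) (p s : k[X]) : Commute (aeval u p) (aeval u s) := by
  change aeval u p * aeval u s = aeval u s * aeval u p
  rw [← map_mul, ← map_mul, mul_comm]

/-- A semiconjugation is compatible with polynomials. -/
theorem semi {v u w : D} (h : SemiconjBy v u w) (p : k[X]) :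
    SemiconjBy v (aeval u p) (aeval w p) := by
  induction p using Polynomial.induction_on with
  | C a =>
    rw [aeval_C, aeval_C]
    exact (Algebra.commutes a v).symm
  | add p s hp hs =>
    rw [map_add, map_add]
    exact hp.add_right hs
  | monomial n a _ =>
    rw [map_mul, map_mul, map_pow, map_pow, aeval_C, aeval_C, aeval_X, aeval_X]
    exact SemiconjBy.mul_right (Algebra.commutes a v).symm (h.pow_right _)

theorem aeval_sgP (q : kˣ) (u : D) (p : k[X]) :
    aeval u (sgP q p) = aeval (algebraMap k D q * u) p := by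
  change aeval u (aeval (C (q : k) * X) p) = aeval (algebraMap k D q * u) p
  rw [← aeval_algHom_apply, map_mul, aeval_C, aeval_X]

/-- The value of a fraction. -/
theorem evR_div {u : D} (hu : ∀ p : k[X], p ≠ 0 → aeval u p ≠ 0) (p s : k[X]) (hs : s ≠ 0) :
    evR u (algebraMap k[X] (RatFunc k) p / algebraMap k[X] (RatFunc k) s) =
      aeval u p * (aeval u s)⁻¹ := by
  obtain ⟨b, hb⟩ : ∃ b : RatFunc k,
      b = algebraMap k[X] (RatFunc k) p / algebraMap k[X] (RatFunc k) s := ⟨_, rfl⟩
  rw [← hb]
  have h1 : algebraMap k[X] (RatFunc k) b.num / algebraMap k[X] (RatFunc k) b.denom =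
      algebraMap k[X] (RatFunc k) p / algebraMap k[X] (RatFunc k) s :=
    (RatFunc.num_div_denom b).trans hb
  rw [div_eq_div_iff (RatFunc.algebraMap_ne_zero b.denom_ne_zero)
    (RatFunc.algebraMap_ne_zero hs), ← map_mul, ← map_mul] at h1
  have h2 : b.num * s = p * b.denom := RatFunc.algebraMap_injective k h1
  have h3 : aeval u b.num * aeval u s = aeval u p * aeval u b.denom := by
    rw [← map_mul, ← map_mul, h2]
  unfold evR
  rw [mul_inv_eq_iff_eq_mul₀ (hu _ b.denom_ne_zero), mul_assoc,
    ((comm u b.denom s).inv_right₀).symm.eq, ← mul_assoc, ← h3, mul_assoc,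
    mul_inv_cancel₀ (hu s hs), mul_one]

theorem evR_mul {u : D} (hu : ∀ p : k[X], p ≠ 0 → aeval u p ≠ 0) (b c : RatFunc k) :
    evR u (b * c) = evR u b * evR u c := by
  have h1 : b * c = algebraMap k[X] (RatFunc k) (b.num * c.num) /
      algebraMap k[X] (RatFunc k) (b.denom * c.denom) := by
    rw [map_mul, map_mul, ← div_mul_div_comm, RatFunc.num_div_denom, RatFunc.num_div_denom]
  rw [h1, evR_div hu _ _ (mul_ne_zero b.denom_ne_zero c.denom_ne_zero), map_mul, map_mul,
    mul_inv_rev]
  unfold evR
  have h2 : aeval u c.num * ((aeval u c.denom)⁻¹ * (aeval u b.denom)⁻¹) =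
      (aeval u b.denom)⁻¹ * (aeval u c.num * (aeval u c.denom)⁻¹) := by
    rw [← mul_assoc]
    exact (((comm u b.denom c.num).inv_left₀.mul_right
      ((comm u b.denom c.denom).inv_left₀.inv_right₀)).eq).symm
  rw [mul_assoc, mul_assoc, h2]

theorem evR_add {u : D} (hu : ∀ p : k[X], p ≠ 0 → aeval u p ≠ 0) (b c : RatFunc k) :
    evR u (b + c) = evR u b + evR u c := by
  have h1 : b + c = algebraMap k[X] (RatFunc k) (b.num * c.denom + b.denom * c.num) /
      algebraMap k[X] (RatFunc k) (b.denom * c.denom) := by
    rw [map_mul, map_add, map_mul, map_mul, ← div_add_div _ _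
      (RatFunc.algebraMap_ne_zero b.denom_ne_zero) (RatFunc.algebraMap_ne_zero c.denom_ne_zero),
      RatFunc.num_div_denom, RatFunc.num_div_denom]
  rw [h1, evR_div hu _ _ (mul_ne_zero b.denom_ne_zero c.denom_ne_zero), map_mul, map_add, map_mul,
    map_mul]
  unfold evR
  have hb := hu _ b.denom_ne_zero
  have hc := hu _ c.denom_ne_zero
  rw [mul_inv_eq_iff_eq_mul₀ (mul_ne_zero hb hc), add_mul]
  congr 1
  · rw [mul_assoc, ← mul_assoc _ (aeval u b.denom), inv_mul_cancel₀ hb, one_mul]
  · rw [(comm u b.denom c.denom).eq, mul_assoc, ← mul_assoc _ (aeval u c.denom),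
      inv_mul_cancel₀ hc, one_mul, (comm u b.denom c.num).eq]

theorem evR_algebraMap {u : D} (hu : ∀ p : k[X], p ≠ 0 → aeval u p ≠ 0) (p : k[X]) :
    evR u (algebraMap k[X] (RatFunc k) p) = aeval u p := by
  have h := evR_div hu p 1 one_ne_zero
  rwa [map_one, div_one, map_one, inv_one, mul_one] at h

/-- The homomorphism of evaluation at a transcendental element. -/
noncomputable def evH {u : D} (hu : ∀ p : k[X], p ≠ 0 → aeval u p ≠ 0) : RatFunc k →ₐ[k] D where
  toFun := evR u
  map_one' := by
    have h := evR_algebraMap hu (1 : k[X])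
    rwa [map_one, map_one] at h
  map_mul' := evR_mul hu
  map_zero' := by
    have h := evR_algebraMap hu (0 : k[X])
    rwa [map_zero, map_zero] at h
  map_add' := evR_add hu
  commutes' := by
    intro c
    have h := evR_algebraMap hu (C c)
    rw [aeval_C] at h
    rw [← h]
    rfl

theorem evR_semi {v u w : D} (h : SemiconjBy v u w) (b : RatFunc k) :
    SemiconjBy v (evR u b) (aeval w b.num * (aeval w b.denom)⁻¹) :=
  (semi h b.num).mul_right (semi h b.denom).inv_right₀

end

end EvAux

open EvAux in
/-- N1h. Rational functions of a transcendental element. -/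
theorem stEv : StEv := by
  intro k D _ _ _ u hu
  refine ⟨⟨evH hu, fun _ => rfl⟩, ?_, ?_, ?_⟩
  · have h := evR_algebraMap hu (X : k[X])
    rwa [aeval_X, RatFunc.algebraMap_X] at h
  · intro b v h
    exact evR_semi h b
  · intro q v _ h b
    have h1 : SemiconjBy v u (algebraMap k D q * u) := by
      change v * u = algebraMap k D q * u * v
      rw [h, mul_assoc]
    have h2 := evR_semi h1 b
    have h3 : sg q b = algebraMap k[X] (RatFunc k) (sgP q b.num) /
        algebraMap k[X] (RatFunc k) (sgP q b.denom) := by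
      have e : ∀ p : k[X], sg q (algebraMap k[X] (RatFunc k) p) =
          algebraMap k[X] (RatFunc k) (sgP q p) :=
        fun p => IsFractionRing.algEquivOfAlgEquiv_algebraMap (sgP q) p
      rw [← e, ← e, ← map_div₀, RatFunc.num_div_denom]
    have h4 : sgP q b.denom ≠ 0 := by
      intro h0
      exact b.denom_ne_zero ((map_eq_zero_iff _ (sgP q).injective).1 h0)
    rw [h3, evR_div hu _ _ h4, aeval_sgP, aeval_sgP]
    exact h2

end QD
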