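import Pool.Agent.Lib.QD.Defs
import Pool.Agent.Lib.QD.St

/-!
Project QD, module EvLead: the leading term of `b(v)`.
-/

namespace QD

open Polynomial

namespace EvLeadAux

variable {k : Type} [Field k]

theorem sg_alg (c : kˣ) (p : k[X]) : sg c (algebraMap k[X] (RatFunc k) p) =
    aeval (algebraMap k (RatFunc k) (c : k) * RatFunc.X) p := by
  have h1 : sg c (algebraMap k[X] (RatFunc k) p) = algebraMap k[X] (RatFunc k) (sgP c p) :=
    IsFractionRing.algEquivOfAlgEquiv_algebraMap _ _
  have h2 : sgP c p = aeval (C (c : k) * X) p := rfl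
  rw [h1, h2, ← aeval_algebraMap_apply, map_mul, RatFunc.algebraMap_X, RatFunc.algebraMap_C]
  rfl

variable {q : kˣ} {K : Type} [DivisionRing K] [Algebra k K]
  (S : SkewL k (RatFunc k) (sg q) K)

theorem lead_poly (hL : StLead) (v : K) (u : RatFunc k) (hv : HasLead S v 0 u) (p : k[X]) :
    HasLead S (aeval v p) 0 (aeval u p) := by
  obtain ⟨hm, ha, -, -, -, -, hc⟩ := hL k (RatFunc k) (sg q) K S
  have hpow : ∀ n : ℕ, HasLead S (v ^ n) 0 (u ^ n) := by
    intro n
    induction n with
    | zero =>
      rw [pow_zero, pow_zero]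
      have h := hc 1
      rwa [map_one, map_one] at h
    | succ n ih =>
      have h := hm _ _ _ _ _ _ ih hv
      rw [zpow_zero, add_zero] at h
      rw [pow_succ, pow_succ]
      exact h
  induction p using Polynomial.induction_on' with
  | add p p' h h' =>
    rw [map_add, map_add]
    exact ha _ _ _ _ _ h h'
  | monomial n a =>
    rw [aeval_monomial, aeval_monomial]
    have h := hm _ _ _ _ _ _ (hc a) (hpow n)
    rw [zpow_zero, add_zero] at h
    exact h

end EvLeadAux

open EvLeadAux

theorem stEvLead (hL : StLead) : StEvLead := by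
  intro k _ q K _ _ S c v b hv
  obtain ⟨hm, -, -, hi, -, -, -⟩ := hL k (RatFunc k) (sg q) K S
  have h1 := lead_poly S hL v _ hv b.num
  have h2 := lead_poly S hL v _ hv b.denom
  rw [← sg_alg] at h1 h2
  have h0 : sg c (algebraMap k[X] (RatFunc k) b.denom) ≠ 0 := by
    rw [Ne, EmbeddingLike.map_eq_zero_iff]
    exact RatFunc.algebraMap_ne_zero b.denom_ne_zero
  have h3 := (hi _ _ _ h2 h0).2
  rw [neg_zero, zpow_zero] at h3
  have h4 := hm _ _ _ _ _ _ h1 h3
  rw [zpow_zero, add_zero] at h4
  have h5 : sg c b = sg c (algebraMap k[X] (RatFunc k) b.num) *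
      (sg c (algebraMap k[X] (RatFunc k) b.denom))⁻¹ := by
    conv_lhs => rw [← RatFunc.num_div_denom b]
    rw [map_div₀, div_eq_mul_inv]
  rw [h5]
  exact h4

end QD
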