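import Pool.Agent.Lib.QD.CSt

/-!
Project QD (MP_794704_al): factorisation of real polynomials as an induction principle.
-/

namespace QD

open Polynomial

namespace FacAux

variable {E : Type} [Field E] [Algebra ℂ E] (Y : E)

theorem evc_mul (P Q : ℝ[X]) : evc Y (P * Q) = evc Y P * evc Y Q := by
  unfold evc
  exact eval₂_mul _ _

theorem evc_C (c : ℝ) : evc Y (C c) = algebraMap ℂ E (c : ℂ) := by
  unfold evc
  rw [eval₂_C]
  rfl

theorem evc_lin (s : ℝ) : evc Y (X - C s) = Y - algebraMap ℂ E (s : ℂ) := by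
  unfold evc
  rw [eval₂_sub, eval₂_X, eval₂_C]
  rfl

theorem evc_quad (z : ℂ) : evc Y (X ^ 2 - C (2 * z.re) * X + C (‖z‖ ^ 2)) =
    (Y - algebraMap ℂ E ((starRingEnd ℂ) z)) * (Y - algebraMap ℂ E z) := by
  have h1 : evc Y (X ^ 2 - C (2 * z.re) * X + C (‖z‖ ^ 2)) =
      Y ^ 2 - algebraMap ℂ E ((2 * z.re : ℝ) : ℂ) * Y + algebraMap ℂ E ((‖z‖ ^ 2 : ℝ) : ℂ) := by
    unfold evc
    rw [eval₂_add, eval₂_sub, eval₂_mul, eval₂_pow, eval₂_X, eval₂_C, eval₂_C]
    rfl
  have h2 : ((2 * z.re : ℝ) : ℂ) = z + (starRingEnd ℂ) z := by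
    rw [Complex.add_conj]
  have h3 : ((‖z‖ ^ 2 : ℝ) : ℂ) = (starRingEnd ℂ) z * z := by
    rw [Complex.conj_mul']
    push_cast
    rfl
  rw [h1, h2, h3, map_add, map_mul]
  ring

end FacAux

open FacAux in
/-- C3. Factorisation of real polynomials. -/
theorem stFac : StFac := by
  intro E _ _ Y S hc hY hr hq P
  induction hn : P.natDegree using Nat.strong_induction_on generalizing P with
  | _ n ih =>
    intro x hP hx
    by_cases h0 : P.natDegree = 0
    · obtain ⟨c, rfl⟩ := natDegree_eq_zero.1 h0
      have hc0 : c ≠ 0 := by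
        rintro rfl
        exact hP C_0
      rw [evc_C]
      exact hc c x hc0 hx
    · have hdeg : P.degree ≠ 0 := by
        intro h
        exact h0 (natDegree_eq_zero_iff_degree_le_zero.2 (le_of_eq h))
      obtain ⟨z, hz⟩ := IsAlgClosed.exists_aeval_eq_zero ℂ P hdeg
      by_cases him : z.im = 0
      · have hzr : z = ((z.re : ℝ) : ℂ) := by
          apply Complex.ext
          · rw [Complex.ofReal_re]
          · rw [Complex.ofReal_im, him]
        have hroot : P.IsRoot z.re := by
          have h1 : aeval (algebraMap ℝ ℂ z.re) P = 0 := by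
            rw [Complex.coe_algebraMap, ← hzr]
            exact hz
          rw [aeval_algebraMap_apply] at h1
          have h2 := (map_eq_zero (algebraMap ℝ ℂ)).1 h1
          rwa [coe_aeval_eq_eval] at h2
        obtain ⟨Q, rfl⟩ := dvd_iff_isRoot.2 hroot
        have hQ : Q ≠ 0 := right_ne_zero_of_mul hP
        have hlt : Q.natDegree < n := by
          rw [← hn, natDegree_mul (X_sub_C_ne_zero _) hQ, natDegree_X_sub_C]
          omega
        have h3 := ih _ hlt Q rfl x hQ hx
        rw [evc_mul, evc_lin, mul_assoc]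
        by_cases hs : z.re = 0
        · rw [hs, Complex.ofReal_zero, map_zero, sub_zero]
          exact hY _ h3
        · exact hr _ _ hs h3
      · obtain ⟨Q, hPQ⟩ := quadratic_dvd_of_aeval_eq_zero_im_ne_zero P hz him
        have hQ : Q ≠ 0 := by
          rintro rfl
          rw [mul_zero] at hPQ
          exact hP hPQ
        have hd : (X ^ 2 - C (2 * z.re) * X + C (‖z‖ ^ 2) : ℝ[X]).natDegree = 2 := by
          compute_degree!
        have hne : (X ^ 2 - C (2 * z.re) * X + C (‖z‖ ^ 2) : ℝ[X]) ≠ 0 := by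
          intro h
          rw [h, natDegree_zero] at hd
          exact absurd hd (by norm_num)
        have hlt : Q.natDegree < n := by
          rw [← hn, hPQ, natDegree_mul hne hQ, hd]
          omega
        have h3 := ih _ hlt Q rfl x hQ hx
        rw [hPQ, evc_mul, evc_quad, mul_assoc, mul_assoc]
        exact hq z _ him h3

end QD
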