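import Pool.Agent.Lib.QD.St

/-!
Project QD, module Gen: every element of `D` is a fraction of quantum polynomials.
-/

set_option autoImplicit false

namespace QD

namespace GenAux

section

variable {k D : Type} [Field k] [DivisionRing D] [Algebra k D]

/-- the quantum polynomials -/
def Pm (k : Type) {D : Type} [Field k] [DivisionRing D] [Algebra k D] (x y : D) :
    Submodule k D :=
  Submodule.span k (Set.range fun ij : ℕ × ℕ => y ^ ij.1 * x ^ ij.2)

theorem mon_eq (x y : D) (s : ℕ × ℕ →₀ k) : mon (algebraMap k D) x y s =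
    Finsupp.linearCombination k (fun ij : ℕ × ℕ => y ^ ij.1 * x ^ ij.2) s := by
  unfold mon
  rw [Finsupp.linearCombination_apply]
  refine Finsupp.sum_congr fun ij _ => ?_
  rw [Algebra.smul_def]

theorem mem_iff (x y d : D) :
    d ∈ Pm k x y ↔ ∃ s : ℕ × ℕ →₀ k, mon (algebraMap k D) x y s = d := by
  unfold Pm
  rw [← Finsupp.range_linearCombination, LinearMap.mem_range]
  constructor
  · rintro ⟨s, hs⟩
    exact ⟨s, by rw [mon_eq, hs]⟩
  · rintro ⟨s, hs⟩
    exact ⟨s, by rw [← mon_eq, hs]⟩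

theorem comm1 {q : kˣ} {x y : D} (h : x * y = algebraMap k D q * (y * x)) (m : ℕ) :
    x * y ^ m = ((q : k) ^ m) • (y ^ m * x) := by
  rw [← Algebra.smul_def] at h
  induction m with
  | zero => simp
  | succ m ih =>
    rw [pow_succ y, ← mul_assoc, ih, smul_mul_assoc, mul_assoc, h, mul_smul_comm, smul_smul,
      ← mul_assoc, pow_succ]

theorem comm2 {q : kˣ} {x y : D} (h : x * y = algebraMap k D q * (y * x)) (j m : ℕ) :
    x ^ j * y ^ m = ((q : k) ^ (m * j)) • (y ^ m * x ^ j) := by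
  induction j with
  | zero => simp
  | succ j ih =>
    rw [pow_succ x, mul_assoc, comm1 h, mul_smul_comm, ← mul_assoc, ih, smul_mul_assoc,
      smul_smul, mul_assoc, ← pow_add]
    congr 2
    ring

theorem mul_mem {q : kˣ} {x y : D} (h : x * y = algebraMap k D q * (y * x)) {a b : D}
    (ha : a ∈ Pm k x y) (hb : b ∈ Pm k x y) : a * b ∈ Pm k x y := by
  have h1 : Pm k x y * Pm k x y ≤ Pm k x y := by
    unfold Pm
    rw [Submodule.span_mul_span, Submodule.span_le]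
    rintro _ ⟨_, ⟨⟨i, j⟩, rfl⟩, _, ⟨⟨m, l⟩, rfl⟩, rfl⟩
    have h2 : y ^ i * x ^ j * (y ^ m * x ^ l) =
        ((q : k) ^ (m * j)) • (y ^ (i + m) * x ^ (j + l)) := by
      rw [mul_assoc, ← mul_assoc (x ^ j), comm2 h, smul_mul_assoc, mul_smul_comm, pow_add,
        pow_add, mul_assoc, mul_assoc]
    have h3 : y ^ i * x ^ j * (y ^ m * x ^ l) ∈
        Submodule.span k (Set.range fun ij : ℕ × ℕ => y ^ ij.1 * x ^ ij.2) := by
      rw [h2]
      exact Submodule.smul_mem _ _ (Submodule.subset_span ⟨(i + m, j + l), rfl⟩)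
    exact h3
  exact h1 (Submodule.mul_mem_mul ha hb)

theorem one_mem (x y : D) : (1 : D) ∈ Pm k x y :=
  Submodule.subset_span ⟨(0, 0), by simp⟩

theorem con_mem (x y : D) (c : k) : algebraMap k D c ∈ Pm k x y := by
  rw [Algebra.algebraMap_eq_smul_one]
  exact Submodule.smul_mem _ _ (one_mem x y)

theorem x_mem (x y : D) : x ∈ Pm k x y := Submodule.subset_span ⟨(0, 1), by simp⟩

theorem y_mem (x y : D) : y ∈ Pm k x y := Submodule.subset_span ⟨(1, 0), by simp⟩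

theorem ore (hO : StOreCond) {q : kˣ} {x y : D} (hx : x ≠ 0) (hy : y ≠ 0)
    (h : x * y = algebraMap k D q * (y * x)) (hq : NotRoot q) (hI : StIndep) {p s : D}
    (hp : p ∈ Pm k x y) (hs : s ∈ Pm k x y) (hs0 : s ≠ 0) :
    ∃ p' ∈ Pm k x y, ∃ s' ∈ Pm k x y, s' ≠ 0 ∧ p * s' = s * p' := by
  rw [mem_iff] at hp hs
  obtain ⟨p, rfl⟩ := hp
  obtain ⟨s, rfl⟩ := hs
  have h1 : s ≠ 0 := by
    rintro rfl
    apply hs0
    rw [mon_eq, map_zero]
  obtain ⟨p', s', h2, h3⟩ := hO k D q x y hx hy h hq p s h1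
  refine ⟨_, (mem_iff x y _).mpr ⟨p', rfl⟩, _, (mem_iff x y _).mpr ⟨s', rfl⟩, ?_, h3⟩
  intro h4
  exact h2 (hI k D q x y hx hy h hq s' h4)

/-- the fractions -/
def fr (hO : StOreCond) {q : kˣ} {x y : D} (hx : x ≠ 0) (hy : y ≠ 0)
    (h : x * y = algebraMap k D q * (y * x)) (hq : NotRoot q) (hI : StIndep) : Subfield D where
  carrier := {d | ∃ p ∈ Pm k x y, ∃ s ∈ Pm k x y, s ≠ 0 ∧ d * s = p}
  mul_mem' := by
    rintro d e ⟨p, hp, s, hs, hs0, hd⟩ ⟨r, hr, t, ht, ht0, he⟩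
    obtain ⟨p', hp', s', hs', hs0', h1⟩ := ore hO hx hy h hq hI hr hs hs0
    refine ⟨p * p', mul_mem h hp hp', t * s', mul_mem h ht hs', mul_ne_zero ht0 hs0', ?_⟩
    calc d * e * (t * s') = d * (e * t * s') := by simp only [mul_assoc]
      _ = d * (s * p') := by rw [he, h1]
      _ = p * p' := by rw [← mul_assoc, hd]
  one_mem' := ⟨1, one_mem x y, 1, one_mem x y, one_ne_zero, one_mul 1⟩
  add_mem' := by
    rintro d e ⟨p, hp, s, hs, hs0, hd⟩ ⟨r, hr, t, ht, ht0, he⟩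
    obtain ⟨p', hp', s', hs', hs0', h1⟩ := ore hO hx hy h hq hI hs ht ht0
    refine ⟨p * s' + r * p', Submodule.add_mem _ (mul_mem h hp hs') (mul_mem h hr hp'),
      s * s', mul_mem h hs hs', mul_ne_zero hs0 hs0', ?_⟩
    rw [add_mul, ← mul_assoc, hd, h1, ← mul_assoc, he]
  zero_mem' := ⟨0, Submodule.zero_mem _, 1, one_mem x y, one_ne_zero, zero_mul 1⟩
  neg_mem' := by
    rintro d ⟨p, hp, s, hs, hs0, hd⟩
    exact ⟨-p, Submodule.neg_mem _ hp, s, hs, hs0, by rw [neg_mul, hd]⟩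
  inv_mem' := by
    rintro d ⟨p, hp, s, hs, hs0, hd⟩
    by_cases hd0 : d = 0
    · rw [hd0, inv_zero]
      exact ⟨0, Submodule.zero_mem _, 1, one_mem x y, one_ne_zero, zero_mul 1⟩
    · refine ⟨s, hs, p, hp, ?_, ?_⟩
      · rw [← hd]
        exact mul_ne_zero hd0 hs0
      · rw [← hd, ← mul_assoc, inv_mul_cancel₀ hd0, one_mul]

end

end GenAux

/-- Module Gen: every element of `D` is a fraction of quantum polynomials. -/
theorem stGen (hI : StIndep) (hO : StOreCond) : StGen := by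
  intro k D _ _ _ q x y hQ hq d
  have h1 := hQ.gen (GenAux.fr hO hQ.x0 hQ.y0 hQ.comm hq hI)
    (fun c => ⟨algebraMap k D c, GenAux.con_mem x y c, 1, GenAux.one_mem x y, one_ne_zero,
      mul_one _⟩)
    ⟨x, GenAux.x_mem x y, 1, GenAux.one_mem x y, one_ne_zero, mul_one _⟩
    ⟨y, GenAux.y_mem x y, 1, GenAux.one_mem x y, one_ne_zero, mul_one _⟩ d
  obtain ⟨p, hp, s, hs, hs0, hd⟩ := h1
  rw [GenAux.mem_iff] at hp hs
  obtain ⟨p, rfl⟩ := hp
  obtain ⟨s, rfl⟩ := hs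
  refine ⟨p, s, ?_, hd⟩
  rintro rfl
  apply hs0
  rw [GenAux.mon_eq, map_zero]

end QD
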