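import Pool.Agent.Lib.QD.CDefs

/-!
Project QD: statements of the commutative modules (to be proved in files `QD/<Name>.lean`).
-/

namespace QD

open Polynomial

/-- C1. Independence: closure properties and consequences. -/
def StInd : Prop := ∀ (E : Type) [Field E] [Algebra ℂ E] (X Y : E), Ind X Y →
  Ind Y X ∧ Ind X⁻¹ Y ∧ X ≠ 0 ∧
  (∀ P : ℂ[X], P ≠ 0 → aeval Y P ≠ 0 ∧ Ind (aeval Y P * X) Y) ∧
  (∀ a b : ℤ, (a, b) ≠ (0, 0) → ∀ t : ℂ, X ^ a * Y ^ b ≠ algebraMap ℂ E t) ∧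
  (∀ s : ℕ × ℕ →₀ ℝ, s ≠ 0 → mon ((algebraMap ℂ E).comp Complex.ofRealHom) X Y s ≠ 0)

/-- C2. Reachable pairs are independent. -/
def StReachInd : Prop := ∀ (E : Type) [Field E] [Algebra ℂ E] (X0 Y0 X Y : E), Ind X0 Y0 →
  Reach X0 Y0 X Y → Ind X Y

/-- C3. Factorisation of real polynomials. -/
def StFac : Prop := ∀ (E : Type) [Field E] [Algebra ℂ E] (Y : E) (S : E → Prop),
  (∀ (c : ℝ) X, c ≠ 0 → S X → S (algebraMap ℂ E (c : ℂ) * X)) →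
  (∀ X, S X → S (Y * X)) →
  (∀ (s : ℝ) X, s ≠ 0 → S X → S ((Y - algebraMap ℂ E (s : ℂ)) * X)) →
  (∀ (s : ℂ) X, s.im ≠ 0 → S X →
    S ((Y - algebraMap ℂ E ((starRingEnd ℂ) s)) * ((Y - algebraMap ℂ E s) * X))) →
  ∀ (P : ℝ[X]) X, P ≠ 0 → S X → S (evc Y P * X)

/-- C4. Going back along a reachable pair. -/
def StBack : Prop := ∀ (E : Type) [Field E] [Algebra ℂ E] (S : E → E → Prop),
  (∀ X Y, S X Y → Ind X Y) →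
  (∀ (c : ℝ) X Y, c ≠ 0 → S X Y → S (algebraMap ℂ E (c : ℂ) * X) Y) →
  (∀ X Y, S X Y → S (Y * X) Y) →
  (∀ (s : ℝ) X Y, s ≠ 0 → S X Y → S ((Y - algebraMap ℂ E (s : ℂ)) * X) Y) →
  (∀ (s : ℂ) X Y, s.im ≠ 0 → S X Y →
    S ((Y - algebraMap ℂ E ((starRingEnd ℂ) s)) * ((Y - algebraMap ℂ E s) * X)) Y) →
  (∀ X Y, S X Y → S X⁻¹ Y) →
  (∀ X Y, S X Y → S Y X) →
  ∀ X0 Y0 X Y, Reach X0 Y0 X Y → S X Y → S X0 Y0

section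
variable (M : Type) [Field M] [Algebra ℂ M] (Pl : Places M)

/-- G1. The `x`-version of the local contribution: pointwise comparison. -/
def StGaP : Prop := ∀ (M : Type) [Field M] [Algebra ℂ M] (Pl : Places M) (X Y : M) (e : Blk →₀ ℤ),
  Ind X Y → TOk e → Bal e → ∀ p,
    tot e (xs Pl p X Y) = tot e (us4 Pl p X Y) +
      tot e (fun b => if b.1.2 = 0 ∧ b.1.1 ≠ 0 then
        2 * |b.1.1| * Pl.ord p (Y - algebraMap ℂ M (sb b)) else 0) +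
      tot e (fun b => if 0 < b.1.2 then |b.1.1| else -|b.1.1|) * Pl.ord p Y

/-- G2. The two versions of the degree agree. -/
def StGa : Prop := ∀ (M : Type) [Field M] [Algebra ℂ M] (Pl : Places M) (X Y : M) (e : Blk →₀ ℤ),
  Ind X Y → TOk e → Bal e → D4x Pl e X Y = D4 Pl e X Y

/-- G3. Invariance under `X ↦ cX`. -/
def StA1 : Prop := ∀ (M : Type) [Field M] [Algebra ℂ M] (Pl : Places M) (X Y : M) (e : Blk →₀ ℤ) (c : ℂ),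
  c ≠ 0 → Ind X Y → TOk e → D4x Pl (act1 c e) (algebraMap ℂ M c * X) Y = D4x Pl e X Y

/-- G4. Invariance under `X ↦ YX`. -/
def StA2 : Prop := ∀ (M : Type) [Field M] [Algebra ℂ M] (Pl : Places M) (X Y : M) (e : Blk →₀ ℤ),
  Ind X Y → TOk e → D4x Pl (act2 e) (Y * X) Y = D4x Pl e X Y

/-- G5. Invariance under `X ↦ (Y - s)X`: local statement. -/
def StA3P : Prop := ∀ (M : Type) [Field M] [Algebra ℂ M] (Pl : Places M) (X Y : M) (s : ℂ) (b : Blk),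
  s ≠ 0 → Ind X Y → (b.1 ≠ 0 → b.2 ≠ 0) → ∀ p,
    xs Pl p ((Y - algebraMap ℂ M s) * X) Y (al3 s b) +
      zz s b * xs Pl p ((Y - algebraMap ℂ M s) * X) Y ((1, 0), s⁻¹) - xs Pl p X Y b =
    if Pl.ord p Y = 0 then
      -b.1.2 * (|Pl.ord p ((Y - algebraMap ℂ M s) * X)| - |Pl.ord p X|) else 0

/-- G6. Invariance under `X ↦ (Y - s)X`. -/
def StA3 : Prop := ∀ (M : Type) [Field M] [Algebra ℂ M] (Pl : Places M) (X Y : M) (e : Blk →₀ ℤ) (s : ℂ),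
  s ≠ 0 → Ind X Y → TOk e → Bal e →
    D4x Pl (act3 s e) ((Y - algebraMap ℂ M s) * X) Y = D4x Pl e X Y

/-- G7. Invariance under `X ↦ X⁻¹` and exchange. -/
def StAIS : Prop := ∀ (M : Type) [Field M] [Algebra ℂ M] (Pl : Places M) (X Y : M) (e : Blk →₀ ℤ),
  Ind X Y → TOk e → D4 Pl (actI e) X⁻¹ Y = D4 Pl e X Y ∧ D4 Pl (actS e) Y X = D4 Pl e X Y

/-- F0. `TOk`, `Bal` and the widths under the actions. -/
def StTB : Prop := ∀ e : Blk →₀ ℤ, TOk e → Bal e →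
  (∀ c : ℂ, c ≠ 0 → TOk (act1 c e) ∧ Bal (act1 c e) ∧ aW (act1 c e) = aW e) ∧
  (TOk (act2 e) ∧ Bal (act2 e) ∧ aW (act2 e) = aW e) ∧
  (∀ s : ℂ, s ≠ 0 → TOk (act3 s e) ∧ Bal (act3 s e) ∧ aW (act3 s e) = aW e) ∧
  (TOk (actI e) ∧ Bal (actI e) ∧ aW (actI e) = aW e) ∧
  (TOk (actS e) ∧ Bal (actS e) ∧ aW (actS e) = aH e)

/-- F1. `Q4` under `X ↦ cX`, `X ↦ X⁻¹`, exchange. -/
def StQ1 : Prop := ∀ e : Blk →₀ ℤ, TOk e →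
  (∀ c : ℂ, c ≠ 0 → Q4 (act1 c e) = Q4 e) ∧ Q4 (actI e) = Q4 e ∧ Q4 (actS e) = Q4 e

/-- F2. `Q4` under `X ↦ YX`. -/
def StQ2 : Prop := ∀ e : Blk →₀ ℤ, Bal e → Q4 (act2 e) = Q4 e

/-- F3. kernel of `Q4` under `X ↦ (Y - s)X`. -/
def StQ3K : Prop := ∀ s : ℂ, s ≠ 0 → ∃ F : Blk → ℤ, ∀ b c : Blk,
  (b.1 ≠ 0 → b.2 ≠ 0) → (c.1 ≠ 0 → c.2 ≠ 0) →
    q4 (al3 s b) (al3 s c) + zz s b * q4 ((1, 0), s⁻¹) (al3 s c) + zz s c * q4 (al3 s b) ((1, 0), s⁻¹)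
      - 4 * (zz s b * zz s c) - q4 b c = b.1.2 * F c + c.1.2 * F b

/-- F4. `Q4` under `X ↦ (Y - s)X`. -/
def StQ3 : Prop := ∀ (e : Blk →₀ ℤ) (s : ℂ), s ≠ 0 → TOk e → Bal e → Q4 (act3 s e) = Q4 e

/-- F5. Reality under the real steps. -/
def StRe : Prop := ∀ e : Blk →₀ ℤ, TOk e → RealE e →
  (∀ c : ℝ, c ≠ 0 → RealE (act1 (c : ℂ) e)) ∧ RealE (act2 e) ∧
  (∀ s : ℝ, s ≠ 0 → RealE (act3 (s : ℂ) e)) ∧ RealE (actI e) ∧ RealE (actS e)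

/-- F6. Reality under a pair of conjugate steps. -/
def StRe2 : Prop := ∀ e : Blk →₀ ℤ, TOk e → RealE e →
  ∀ s : ℂ, s.im ≠ 0 → RealE (act3 ((starRingEnd ℂ) s) (act3 s e))

/-- F7. Decomposition of `Q4`. -/
def StDec : Prop := ∀ e : Blk →₀ ℤ, Bal e → Q4 e = 8 * (aW e * aH e) - 4 * KK e - 4 * SS e

/-- F8. Positivity of `KK`. -/
def StKK : Prop := ∀ e : Blk →₀ ℤ, 0 ≤ KK e

/-- F9. Small values of `SS`. -/
def StSS : Prop := ∀ e : Blk →₀ ℤ, Bal e → RealE e → SS e ≤ 2 → ∀ b : Blk, b.1 ≠ 0 → e b = 0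

/-- F10. Positivity. -/
def StPos : Prop := ∀ e : Blk →₀ ℤ, Good e → 0 < aW e * aH e

/-- G8. `Neg` is stable. -/
def StNeg : Prop := ∀ (M : Type) [Field M] [Algebra ℂ M] (Pl : Places M),
  (∀ (c : ℝ) X Y, c ≠ 0 → Neg Pl X Y → Neg Pl (algebraMap ℂ M (c : ℂ) * X) Y) ∧
  (∀ X Y, Neg Pl X Y → Neg Pl (Y * X) Y) ∧
  (∀ (s : ℝ) X Y, s ≠ 0 → Neg Pl X Y → Neg Pl ((Y - algebraMap ℂ M (s : ℂ)) * X) Y) ∧
  (∀ (s : ℂ) X Y, s.im ≠ 0 → Neg Pl X Y →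
    Neg Pl ((Y - algebraMap ℂ M ((starRingEnd ℂ) s)) * ((Y - algebraMap ℂ M s) * X)) Y) ∧
  (∀ X Y, Neg Pl X Y → Neg Pl X⁻¹ Y) ∧
  (∀ X Y, Neg Pl X Y → Neg Pl Y X)

end

/-- H1. The standard places of a rational function field. -/
def StPl : Prop := ∀ (Ω : Type) [Field Ω] [IsAlgClosed Ω] [Algebra ℂ Ω],
  ∃ (Pl : Places (RatFunc Ω)) (pt : Option Ω ≃ Pl.P), IsStdPl Pl pt

/-- H2. The base pair is independent. -/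
def StIndB : Prop := ∀ (Ω : Type) [Field Ω] [Algebra ℂ Ω] (η : Ω), Transcendental ℂ η →
  Ind (RatFunc.X : RatFunc Ω) (RatFunc.C η)

/-- H3. The degree of the base pair. -/
def StBase : Prop := ∀ (Ω : Type) [Field Ω] [IsAlgClosed Ω] [Algebra ℂ Ω] (η : Ω)
  (Pl : Places (RatFunc Ω)) (pt : Option Ω ≃ Pl.P), Transcendental ℂ η → IsStdPl Pl pt →
  ∀ e : Blk →₀ ℤ, TOk e → Bal e → D4 Pl e (RatFunc.X : RatFunc Ω) (RatFunc.C η) = 4 * aW e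

/-- H4. The configuration of the quintic is good. -/
def StE0 : Prop := Good e0 ∧ 0 < aW e0

/-- H5. The degree of `e0` in terms of poles and multiplicities. -/
def StU : Prop := ∀ (M : Type) [Field M] [Algebra ℂ M] (Pl : Places M) (X Y : M), X ≠ 0 → Y ≠ 0 →
  D4 Pl e0 X Y = 8 * (∑ᶠ p, max 0 (max (-Pl.ord p X) (-Pl.ord p Y))) - 4 * ∑ᶠ p, tot e0 (mm Pl p X Y)

/-- the polynomial `1 + x² + η²` -/
noncomputable def pW {Ω : Type} [Field Ω] (η : Ω) : Polynomial Ω := 1 + X ^ 2 + C η ^ 2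
/-- `N₁` -/
noncomputable def pN1 {Ω : Type} [Field Ω] (η : Ω) : Polynomial Ω :=
  4 * pW η ^ 2 - X ^ 2 * C η ^ 2 - 3 * pW η * C η ^ 2
/-- `N₂` -/
noncomputable def pN2 {Ω : Type} [Field Ω] (η : Ω) : Polynomial Ω :=
  pW η ^ 2 - X ^ 2 * C η ^ 2 + 3 * pW η * X ^ 2
/-- `N₃` -/
noncomputable def pN3 {Ω : Type} [Field Ω] (η : Ω) : Polynomial Ω := 2 * pW η ^ 2 + X ^ 2 * C η ^ 2

/-- H6. Algebra of `N₁, N₂, N₃`. -/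
def StN : Prop := ∀ (Ω : Type) [Field Ω] [CharZero Ω] (η : Ω), (∀ a b : ℤ, b ≠ 0 → (b : Ω) * η ^ 2 ≠ a) →
  (pN1 η).natDegree = 4 ∧ (pN2 η).natDegree = 4 ∧ (pN3 η).natDegree = 4 ∧
  IsCoprime (pN1 η) (pN3 η) ∧ IsCoprime (pN2 η) (pN3 η) ∧ (pN3 η).eval 0 ≠ 0 ∧
  (C η * pN2 η) ^ 2 + pN3 η ^ 2 = pN1 η * (pW η * pN2 η - X ^ 2 * pN1 η) ∧
  (X * pN1 η) ^ 2 + pN3 η ^ 2 = pN2 η * (pW η * pN1 η - C η ^ 2 * pN2 η) ∧
  ∃ M3 : Polynomial Ω, 2 * (C η * pN2 η) ^ 2 + (X * pN1 η) ^ 2 = pN3 η * M3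

/-- H7. Poles of the quintic pair. -/
def StDeg : Prop := ∀ (Ω : Type) [Field Ω] [IsAlgClosed Ω] [Algebra ℂ Ω] (η : Ω)
  (Pl : Places (RatFunc Ω)) (pt : Option Ω ≃ Pl.P) (X Y : RatFunc Ω), Transcendental ℂ η → IsStdPl Pl pt →
  IsQuintC (RatFunc.X : RatFunc Ω) (RatFunc.C η) X Y → X ≠ 0 → Y ≠ 0 →
  ∑ᶠ p, max 0 (max (-Pl.ord p X) (-Pl.ord p Y)) ≤ 5

/-- H8. Multiplicities of the quintic pair. -/
def StMul : Prop := ∀ (Ω : Type) [Field Ω] [IsAlgClosed Ω] [Algebra ℂ Ω] (η : Ω)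
  (Pl : Places (RatFunc Ω)) (pt : Option Ω ≃ Pl.P) (X Y : RatFunc Ω), Transcendental ℂ η → IsStdPl Pl pt →
  IsQuintC (RatFunc.X : RatFunc Ω) (RatFunc.C η) X Y → Ind X Y →
  12 ≤ ∑ᶠ p, tot e0 (mm Pl p X Y)

/-- H9. The quintic pair is not reachable. -/
def StNR : Prop := ∃ (E : Type) (_ : Field E) (_ : Algebra ℂ E) (X0 Y0 : E), Ind X0 Y0 ∧
  ∀ X Y : E, IsQuintC X0 Y0 X Y → ¬ Reach X0 Y0 X Y

end QD
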