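import Pool.Agent.Lib.QD.CDefs
import Pool.Agent.Lib.QD.CSt

set_option autoImplicit false

/-!
Project QD: module Ind, algebraic independence over `ℂ`, closure properties.
-/

namespace QD

open Polynomial

namespace IndAux

section
variable {E : Type} [Field E] [Algebra ℂ E]

theorem ind_iff (X Y : E) :
    Ind X Y ↔ Transcendental ℂ Y ∧ Transcendental (Algebra.adjoin ℂ (Set.range ![Y])) X := by
  unfold Ind
  have h1 : (fun o : Option (Fin 1) => o.elim X ![Y]) ∘ (finSuccEquiv 1) = ![X, Y] := by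
    funext i
    fin_cases i <;> rfl
  rw [algebraicIndependent_equiv' (finSuccEquiv 1) h1, AlgebraicIndependent.option_iff,
    algebraicIndependent_iff_transcendental]

theorem swap {X Y : E} (h : Ind X Y) : Ind Y X := by
  unfold Ind at h ⊢
  have h1 : ![X, Y] ∘ (Equiv.swap (0 : Fin 2) 1) = ![Y, X] := by
    funext i
    fin_cases i <;> simp
  rw [algebraicIndependent_equiv' (Equiv.swap (0 : Fin 2) 1) h1]
  exact h

theorem mon_single (X Y : E) (i j : ℕ) (a : ℂ) :
    mon (algebraMap ℂ E) X Y (Finsupp.single (i, j) a) = algebraMap ℂ E a * (Y ^ i * X ^ j) := by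
  unfold mon
  rw [Finsupp.sum_single_index]
  rw [map_zero, zero_mul]

theorem mon_sub (X Y : E) (s t : ℕ × ℕ →₀ ℂ) :
    mon (algebraMap ℂ E) X Y (s - t) =
      mon (algebraMap ℂ E) X Y s - mon (algebraMap ℂ E) X Y t := by
  unfold mon
  apply Finsupp.sum_sub_index
  intro ij a b
  rw [map_sub, sub_mul]

/-- the exponent vector -/
noncomputable def ex (ij : ℕ × ℕ) : Fin 2 →₀ ℕ := Finsupp.single 0 ij.2 + Finsupp.single 1 ij.1

theorem ex_inj : Function.Injective ex := by
  intro a b h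
  have h0 := DFunLike.congr_fun h 0
  have h1 := DFunLike.congr_fun h 1
  simp [ex] at h0 h1
  exact Prod.ext h1 h0

theorem mon_inj {X Y : E} (h : Ind X Y) (s : ℕ × ℕ →₀ ℂ)
    (hs : mon (algebraMap ℂ E) X Y s = 0) : s = 0 := by
  set P : MvPolynomial (Fin 2) ℂ := s.sum fun ij a => MvPolynomial.monomial (ex ij) a with hP
  have h1 : MvPolynomial.aeval ![X, Y] P = mon (algebraMap ℂ E) X Y s := by
    rw [hP, Finsupp.sum, map_sum]
    unfold mon
    rw [Finsupp.sum]
    refine Finset.sum_congr rfl fun ij _ => ?_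
    rw [MvPolynomial.aeval_monomial]
    congr 1
    unfold ex
    rw [Finsupp.prod_add_index' (by simp) (by intros; rw [pow_add]),
      Finsupp.prod_single_index (by simp), Finsupp.prod_single_index (by simp), mul_comm]
    rfl
  rw [hs] at h1
  have h2 : P = 0 := (algebraicIndependent_iff.1 h) P h1
  ext ij
  have h3 : MvPolynomial.coeff (ex ij) P = s ij := by
    classical
    rw [hP, Finsupp.sum, MvPolynomial.coeff_sum]
    simp_rw [MvPolynomial.coeff_monomial, ex_inj.eq_iff]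
    rw [Finset.sum_ite_eq' s.support ij]
    split_ifs with h4
    · rfl
    · exact (Finsupp.notMem_support_iff.1 h4).symm
  rw [← h3, h2]
  simp

theorem inv_left {X Y : E} (h : Ind X Y) : Ind X⁻¹ Y := by
  rw [ind_iff] at h ⊢
  exact ⟨h.1, fun h' => h.2 (IsAlgebraic.inv_iff.1 h')⟩

theorem mul_left {X Y : E} (h : Ind X Y) (P : ℂ[X]) (hP : P ≠ 0) :
    aeval Y P ≠ 0 ∧ Ind (aeval Y P * X) Y := by
  rw [ind_iff] at h
  have h1 : aeval Y P ≠ 0 := fun h0 => h.1 ⟨P, hP, h0⟩
  refine ⟨h1, ?_⟩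
  rw [ind_iff]
  refine ⟨h.1, fun h' => h.2 ?_⟩
  have h2 : aeval Y P ∈ Algebra.adjoin ℂ (Set.range ![Y]) := by
    have h3 : Y ∈ Algebra.adjoin ℂ (Set.range ![Y]) := Algebra.subset_adjoin ⟨0, rfl⟩
    rw [aeval_eq_sum_range]
    exact Subalgebra.sum_mem _ fun i _ => Subalgebra.smul_mem _ (Subalgebra.pow_mem _ h3 i) _
  have h3 : IsAlgebraic (Algebra.adjoin ℂ (Set.range ![Y])) (aeval Y P) :=
    isAlgebraic_algebraMap (⟨_, h2⟩ : Algebra.adjoin ℂ (Set.range ![Y]))
  have h4 : X = (aeval Y P)⁻¹ * (aeval Y P * X) := by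
    rw [inv_mul_cancel_left₀ h1]
  rw [h4]
  exact (IsAlgebraic.inv h3).mul h'

theorem ne_zero {X Y : E} (h : Ind X Y) : X ≠ 0 := by
  rw [ind_iff] at h
  rintro rfl
  exact h.2 isAlgebraic_zero

theorem zpow_ne {X Y : E} (h : Ind X Y) (a b : ℤ) (hab : (a, b) ≠ (0, 0)) (t : ℂ) :
    X ^ a * Y ^ b ≠ algebraMap ℂ E t := by
  intro h0
  have hX := ne_zero h
  have hY := ne_zero (swap h)
  set a1 := a.toNat with ha1
  set a2 := (-a).toNat with ha2
  set b1 := b.toNat with hb1
  set b2 := (-b).toNat with hb2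
  have hA : X ^ a * X ^ a2 = X ^ a1 := by
    rw [← zpow_natCast, ← zpow_natCast, ← zpow_add₀ hX]
    congr 1
    omega
  have hB : Y ^ b * Y ^ b2 = Y ^ b1 := by
    rw [← zpow_natCast, ← zpow_natCast, ← zpow_add₀ hY]
    congr 1
    omega
  have h1 : mon (algebraMap ℂ E) X Y (Finsupp.single (b1, a1) 1 - Finsupp.single (b2, a2) t) = 0 := by
    rw [mon_sub, mon_single, mon_single, ← h0, ← hA, ← hB, map_one]
    ring
  have h2 := mon_inj h _ h1
  have h3 : (b1, a1) ≠ (b2, a2) := by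
    intro h3
    rw [Prod.mk.injEq] at h3
    apply hab
    rw [Prod.mk.injEq]
    omega
  have h4 := DFunLike.congr_fun h2 (b1, a1)
  rw [Finsupp.sub_apply, Finsupp.single_eq_same, Finsupp.single_eq_of_ne h3, sub_zero] at h4
  exact one_ne_zero h4

theorem mon_real {X Y : E} (h : Ind X Y) (s : ℕ × ℕ →₀ ℝ) (hs : s ≠ 0) :
    mon ((algebraMap ℂ E).comp Complex.ofRealHom) X Y s ≠ 0 := by
  intro h0
  have h1 : mon (algebraMap ℂ E) X Y (s.mapRange Complex.ofRealHom (map_zero _)) = 0 := by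
    rw [← h0]
    unfold mon
    rw [Finsupp.sum_mapRange_index (by intro; rw [map_zero, zero_mul])]
    rfl
  have h2 := mon_inj h _ h1
  apply hs
  ext ij
  have h3 := DFunLike.congr_fun h2 ij
  rw [Finsupp.mapRange_apply] at h3
  exact Complex.ofReal_eq_zero.1 h3

end

end IndAux

theorem stInd : StInd := by
  intro E _ _ X Y h
  exact ⟨IndAux.swap h, IndAux.inv_left h, IndAux.ne_zero h, fun P hP => IndAux.mul_left h P hP,
    fun a b hab t => IndAux.zpow_ne h a b hab t, fun s hs => IndAux.mon_real h s hs⟩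

end QD
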