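import Pool.Agent.Lib.QD.St

/-!
Project QD: the monomials `y^i x^j` are linearly independent.
-/

namespace QD

namespace IndepAux

theorem qc1 {R : Type} [Ring R] {a b c : R} (hc : ∀ z, c * z = z * c) (h : a * b = c * (b * a))
    (n : ℕ) : a * b ^ n = c ^ n * (b ^ n * a) := by
  induction n with
  | zero => simp
  | succ n ih =>
    have hcn : ∀ m : ℕ, ∀ z, c ^ m * z = z * c ^ m := by
      intro m
      induction m with
      | zero => intro z; simp
      | succ m ihm =>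
        intro z
        rw [pow_succ, mul_assoc, hc z, ← mul_assoc, ihm z, mul_assoc]
    calc a * b ^ (n + 1) = (a * b ^ n) * b := by rw [pow_succ, mul_assoc]
      _ = c ^ n * b ^ n * (a * b) := by rw [ih]; simp only [mul_assoc]
      _ = c ^ n * b ^ n * (c * (b * a)) := by rw [h]
      _ = c ^ n * (b ^ n * c) * (b * a) := by simp only [mul_assoc]
      _ = c ^ n * (c * b ^ n) * (b * a) := by rw [hc (b ^ n)]
      _ = c ^ (n + 1) * (b ^ (n + 1) * a) := by
        rw [pow_succ c, pow_succ b]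
        simp only [mul_assoc]

theorem cpow {R : Type} [Ring R] {c : R} (hc : ∀ z, c * z = z * c) (n : ℕ) :
    ∀ z, c ^ n * z = z * c ^ n := by
  induction n with
  | zero => intro z; simp
  | succ m ihm =>
    intro z
    rw [pow_succ, mul_assoc, hc z, ← mul_assoc, ihm z, mul_assoc]

/-- Powers of `q`-commuting elements. -/
theorem qc2 {R : Type} [Ring R] {a b c : R} (hc : ∀ z, c * z = z * c) (h : a * b = c * (b * a))
    (m n : ℕ) : a ^ m * b ^ n = c ^ (m * n) * (b ^ n * a ^ m) := by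
  induction m with
  | zero => simp
  | succ m ih =>
    have h1 := qc1 hc h n
    have hcn := cpow hc n
    have hcm := cpow hc (m * n)
    calc a ^ (m + 1) * b ^ n = a ^ m * (a * b ^ n) := by rw [pow_succ, mul_assoc]
      _ = a ^ m * (c ^ n * (b ^ n * a)) := by rw [h1]
      _ = (a ^ m * c ^ n) * (b ^ n * a) := by rw [mul_assoc]
      _ = (c ^ n * a ^ m) * (b ^ n * a) := by rw [hcn]
      _ = c ^ n * ((a ^ m * b ^ n) * a) := by simp only [mul_assoc]
      _ = c ^ n * ((c ^ (m * n) * (b ^ n * a ^ m)) * a) := by rw [ih]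
      _ = (c ^ n * c ^ (m * n)) * (b ^ n * (a ^ m * a)) := by simp only [mul_assoc]
      _ = c ^ ((m + 1) * n) * (b ^ n * a ^ (m + 1)) := by
        rw [← pow_add, ← pow_succ]
        congr 2
        ring

theorem pow_inj {k : Type} [Field k] {q : kˣ} (hq : NotRoot q) {m n : ℕ}
    (h : (q : k) ^ m = (q : k) ^ n) : m = n := by
  rcases lt_trichotomy m n with h1 | h1 | h1
  · exfalso
    obtain ⟨d, rfl⟩ := Nat.exists_eq_add_of_lt h1
    refine hq (d + 1) (Nat.succ_pos _) ?_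
    have h2 : (q : k) ^ m * 1 = (q : k) ^ m * (q : k) ^ (d + 1) := by
      rw [mul_one, ← pow_add, h]
      rfl
    exact (mul_left_cancel₀ (pow_ne_zero _ q.ne_zero) h2).symm
  · exact h1
  · exfalso
    obtain ⟨d, rfl⟩ := Nat.exists_eq_add_of_lt h1
    refine hq (d + 1) (Nat.succ_pos _) ?_
    have h2 : (q : k) ^ n * 1 = (q : k) ^ n * (q : k) ^ (d + 1) := by
      rw [mul_one, ← pow_add, ← h]
      rfl
    exact (mul_left_cancel₀ (pow_ne_zero _ q.ne_zero) h2).symm

theorem indep {k D : Type} [Field k] [DivisionRing D] [Algebra k D] (q : kˣ) (x y : D)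
    (hx : x ≠ 0) (hy : y ≠ 0) (hxy : x * y = algebraMap k D q * (y * x)) (hq : NotRoot q) :
    LinearIndependent k (fun ij : ℕ × ℕ => y ^ ij.1 * x ^ ij.2) := by
  rw [linearIndependent_iff_finset_linearIndependent]
  intro F
  obtain ⟨N, hN⟩ : ∃ N : ℕ, ∀ ij ∈ F, ij.1 < N :=
    ⟨F.sup (fun ij => ij.1) + 1, fun ij h => Nat.lt_succ_of_le (Finset.le_sup (f := fun ij => ij.1) h)⟩
  set c : D := algebraMap k D q with hc
  have hcc : ∀ z, c * z = z * c := fun z => Algebra.commutes _ _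
  have hux : y⁻¹ * x = c * (x * y⁻¹) := by
    have h1 : y⁻¹ * (x * y) * y⁻¹ = y⁻¹ * (c * (y * x)) * y⁻¹ := by rw [hxy]
    have h2 : y⁻¹ * (x * y) * y⁻¹ = y⁻¹ * x := by
      rw [mul_assoc, mul_assoc, mul_inv_cancel₀ hy, mul_one]
    have h3 : y⁻¹ * (c * (y * x)) * y⁻¹ = c * (x * y⁻¹) := by
      rw [← mul_assoc y⁻¹ c, ← hcc y⁻¹, mul_assoc c, ← mul_assoc y⁻¹ y, inv_mul_cancel₀ hy, one_mul,
        mul_assoc]
    rw [← h2, h1, h3]
  set w : D := x * (y⁻¹) ^ N with hw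
  have hw0 : w ≠ 0 := mul_ne_zero hx (pow_ne_zero _ (inv_ne_zero hy))
  have hkey : ∀ i j : ℕ, w * (y ^ i * x ^ j) = c ^ (i + N * j) * ((y ^ i * x ^ j) * w) := by
    intro i j
    have h1 : x ^ 1 * y ^ i = c ^ (1 * i) * (y ^ i * x ^ 1) := qc2 hcc hxy 1 i
    have h2 : (y⁻¹) ^ N * x ^ j = c ^ (N * j) * (x ^ j * (y⁻¹) ^ N) := qc2 hcc hux N j
    have h3 : (y⁻¹) ^ N * y ^ i = y ^ i * (y⁻¹) ^ N := by
      have hcom : Commute y⁻¹ y := by
        change y⁻¹ * y = y * y⁻¹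
        rw [inv_mul_cancel₀ hy, mul_inv_cancel₀ hy]
      exact (hcom.pow_pow N i).eq
    have hcN := cpow hcc (N * j)
    rw [pow_one, one_mul] at h1
    calc w * (y ^ i * x ^ j) = x * ((y⁻¹) ^ N * y ^ i) * x ^ j := by rw [hw]; simp only [mul_assoc]
      _ = x * y ^ i * ((y⁻¹) ^ N * x ^ j) := by rw [h3]; simp only [mul_assoc]
      _ = x * y ^ i * (c ^ (N * j) * (x ^ j * (y⁻¹) ^ N)) := by rw [h2]
      _ = (x * y ^ i * c ^ (N * j)) * (x ^ j * (y⁻¹) ^ N) := by simp only [mul_assoc]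
      _ = (c ^ (N * j) * (x * y ^ i)) * (x ^ j * (y⁻¹) ^ N) := by rw [hcN]
      _ = (c ^ (N * j) * (c ^ i * (y ^ i * x))) * (x ^ j * (y⁻¹) ^ N) := by rw [h1]
      _ = (c ^ (N * j) * c ^ i) * (y ^ i * ((x * x ^ j) * (y⁻¹) ^ N)) := by simp only [mul_assoc]
      _ = c ^ (i + N * j) * (y ^ i * ((x ^ j * x) * (y⁻¹) ^ N)) := by
        rw [← pow_add, add_comm, ← pow_succ', pow_succ]
      _ = c ^ (i + N * j) * ((y ^ i * x ^ j) * w) := by rw [hw]; simp only [mul_assoc]
  let T : D →ₗ[k] D := (LinearMap.mulRight k w⁻¹).comp (LinearMap.mulLeft k w)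
  have hT : ∀ d, T d = w * d * w⁻¹ := fun d => rfl
  refine Module.End.eigenvectors_linearIndependent' T
    (fun ij : F => (q : k) ^ (ij.1.1 + N * ij.1.2)) ?_ _ ?_
  · rintro ⟨⟨i, j⟩, h1⟩ ⟨⟨i', j'⟩, h2⟩ h
    have h3 : i + N * j = i' + N * j' := pow_inj hq h
    have h4 : i < N := hN _ h1
    have h5 : i' < N := hN _ h2
    have h6 : i = i' := by
      have h7 : (i + N * j) % N = (i' + N * j') % N := by rw [h3]
      rwa [Nat.add_mul_mod_self_left, Nat.add_mul_mod_self_left, Nat.mod_eq_of_lt h4,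
        Nat.mod_eq_of_lt h5] at h7
    subst h6
    have h8 : N * j = N * j' := by omega
    have h9 : j = j' := Nat.eq_of_mul_eq_mul_left (by omega) h8
    subst h9
    rfl
  · rintro ⟨⟨i, j⟩, h1⟩
    refine ⟨?_, mul_ne_zero (pow_ne_zero _ hy) (pow_ne_zero _ hx)⟩
    rw [Module.End.mem_eigenspace_iff, hT]
    change w * (y ^ i * x ^ j) * w⁻¹ = (q : k) ^ (i + N * j) • (y ^ i * x ^ j)
    rw [hkey, mul_assoc, mul_assoc, mul_inv_cancel₀ hw0, mul_one, Algebra.smul_def, map_pow]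

end IndepAux

/-- N1a. -/
theorem stIndep : StIndep := by
  intro k D _ _ _ q x y hx hy hxy hq s hs
  have h := IndepAux.indep q x y hx hy hxy hq
  rw [linearIndependent_iff] at h
  apply h s
  rw [← hs]
  unfold mon
  rw [Finsupp.linearCombination_apply]
  refine Finsupp.sum_congr fun ij _ => ?_
  rw [Algebra.smul_def]

end QD
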