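import Pool.Agent.Lib.QD.St2

/-!
Project QD: the instance `k = ℚ(t)`, `q = t`.
-/

namespace QD

open Polynomial

namespace Inst

/-- `p(t) ↦ p(1 + h)` -/
noncomputable def phi : ℚ[X] →+* LaurentSeries ℝ :=
  (HahnSeries.ofPowerSeries ℤ ℝ).comp (Polynomial.coeToPowerSeries.ringHom.comp
    ((Polynomial.compRingHom (1 + X : ℝ[X])).comp (Polynomial.mapRingHom (algebraMap ℚ ℝ))))

theorem phi_inj : Function.Injective phi := by
  have h1 : Function.Injective (HahnSeries.ofPowerSeries ℤ ℝ) :=
    HahnSeries.ofPowerSeries_injective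
  have h2 : Function.Injective (Polynomial.coeToPowerSeries.ringHom : ℝ[X] →+* PowerSeries ℝ) :=
    Polynomial.coe_injective ℝ
  have h3 : Function.Injective (Polynomial.compRingHom (1 + X : ℝ[X])) := by
    intro p q h
    have h4 : p.comp (1 + X) = q.comp (1 + X) := h
    have h5 := congrArg (fun r : ℝ[X] => r.comp (X - 1)) h4
    simp only [Polynomial.comp_assoc] at h5
    simpa using h5
  have h4 : Function.Injective (Polynomial.mapRingHom (algebraMap ℚ ℝ)) :=
    Polynomial.map_injective _ (algebraMap ℚ ℝ).injective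
  exact h1.comp (h2.comp (h3.comp h4))

theorem phi_X : phi X = ((1 + PowerSeries.X : PowerSeries ℝ) : LaurentSeries ℝ) := by
  have e : (Polynomial.coeToPowerSeries.ringHom : ℝ[X] →+* PowerSeries ℝ)
      ((Polynomial.compRingHom (1 + X : ℝ[X])) (Polynomial.mapRingHom (algebraMap ℚ ℝ) X)) =
      1 + PowerSeries.X := by
    simp
  change HahnSeries.ofPowerSeries ℤ ℝ _ = _
  exact congrArg (HahnSeries.ofPowerSeries ℤ ℝ) e

theorem liftRingHom_alg {L : Type} [Field L] (f : ℚ[X] →+* L)
    (hf : nonZeroDivisors ℚ[X] ≤ (nonZeroDivisors L).comap f) (p : ℚ[X]) :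
    RatFunc.liftRingHom f hf (algebraMap ℚ[X] (RatFunc ℚ) p) = f p := by
  have := RatFunc.liftRingHom_apply_div f hf p 1
  rwa [map_one, div_one, map_one, div_one] at this

end Inst

open Inst in
theorem stInst (h : StPlaceL) : StInst := by
  have hX : (RatFunc.X : RatFunc ℚ) ≠ 0 := RatFunc.X_ne_zero
  refine ⟨Units.mk0 RatFunc.X hX, rfl, ?_, ?_⟩
  · intro n hn hcon
    rw [Units.val_mk0, ← RatFunc.algebraMap_X, ← map_pow, ← map_one (algebraMap ℚ[X] (RatFunc ℚ))]
      at hcon
    have h1 := RatFunc.algebraMap_injective ℚ hcon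
    have h2 := congrArg Polynomial.natDegree h1
    rw [Polynomial.natDegree_X_pow, Polynomial.natDegree_one] at h2
    omega
  · refine h (RatFunc ℚ) _ (RatFunc.liftRingHom phi ?_) (1 + PowerSeries.X) ?_ ?_
    · intro p hp
      rw [Submonoid.mem_comap, mem_nonZeroDivisors_iff_ne_zero]
      intro h0
      exact nonZeroDivisors.ne_zero hp (phi_inj (by rw [h0, map_zero]))
    · rw [Units.val_mk0, ← RatFunc.algebraMap_X, liftRingHom_alg]
      exact phi_X
    · simp

end QD
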