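import Pool.Agent.Lib.QD.St

/-!
Project QD, module Inter: intertwined endomorphisms `θ`, `ψ`.
-/

namespace QD

open Polynomial

namespace InterAux

section
variable {k D : Type} [Field k] [DivisionRing D] [Algebra k D]

/-- homomorphisms commute with evaluation of rational functions -/
theorem map_evR (f : D →ₐ[k] D) (u : D) (b : RatFunc k) : f (evR u b) = evR (f u) b := by
  unfold evR
  rw [map_mul, map_inv₀, ← Polynomial.aeval_algHom_apply, ← Polynomial.aeval_algHom_apply]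

/-- conjugation -/
noncomputable def cj (v : D) (hv : v ≠ 0) : D →ₐ[k] D where
  toFun d := v * d * v⁻¹
  map_one' := by rw [mul_one, mul_inv_cancel₀ hv]
  map_mul' a b := by
    rw [mul_assoc v a, mul_assoc v (a * b), mul_assoc v (a * v⁻¹), mul_assoc a v⁻¹]
    rw [← mul_assoc v⁻¹ (v * b), ← mul_assoc v⁻¹ v b, inv_mul_cancel₀ hv, one_mul, mul_assoc]
  map_zero' := by rw [mul_zero, zero_mul]
  map_add' a b := by rw [mul_add, add_mul]
  commutes' c := by rw [← Algebra.commutes, mul_assoc, mul_inv_cancel₀ hv, mul_one]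

theorem cj_apply (v : D) (hv : v ≠ 0) (d : D) : cj (k := k) v hv d = v * d * v⁻¹ := rfl

theorem comm_evR (u v : D) (hv : v ≠ 0) (h : v * u = u * v) (b : RatFunc k) :
    v * evR u b = evR u b * v := by
  have h1 : cj (k := k) v hv (evR u b) = evR u b := by
    rw [map_evR, cj_apply, h, mul_assoc, mul_inv_cancel₀ hv, mul_one]
  rw [cj_apply] at h1
  calc v * evR u b = v * evR u b * v⁻¹ * v := by rw [mul_assoc _ v⁻¹ v, inv_mul_cancel₀ hv, mul_one]
    _ = evR u b * v := by rw [h1]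

end

end InterAux

open InterAux

theorem stInter (hUP : StUP) (hUq : StUniq) (hTr : StTr) : StInter := by
  intro k D _ _ _ _ q x y hD hq j hjx hjy hjL β μ₂ μ₃ hβ H1 H2 H3
  obtain ⟨-, hty, -⟩ := hTr k D q x y hD.x0 hD.y0 hD.comm hq
  have hx := hD.x0
  have hy := hD.y0
  obtain ⟨B, hB⟩ : ∃ B : D, B = evR y β := ⟨_, rfl⟩
  obtain ⟨Bt, hBt⟩ : ∃ B : D, B = evR y⁻¹ β := ⟨_, rfl⟩
  obtain ⟨M2, hM2⟩ : ∃ M : D, M = evR (y + y⁻¹) μ₂ := ⟨_, rfl⟩
  obtain ⟨M3, hM3⟩ : ∃ M : D, M = evR (y + y⁻¹) μ₃ := ⟨_, rfl⟩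
  rw [← hB, ← hM2, ← hM3] at H1
  rw [← hBt, ← hM2, ← hM3] at H2
  rw [← hBt] at H3
  rw [← hB]
  have hyy : y * (y + y⁻¹) = (y + y⁻¹) * y := by
    rw [mul_add, add_mul, mul_inv_cancel₀ hy, inv_mul_cancel₀ hy]
  have hM2y : y * M2 = M2 * y := by rw [hM2]; exact comm_evR _ _ hy hyy μ₂
  have hM3y : y * M3 = M3 * y := by rw [hM3]; exact comm_evR _ _ hy hyy μ₃
  have hyB : y * B = B * y := by rw [hB]; exact comm_evR _ _ hy rfl β
  have hB0 : B ≠ 0 := by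
    rw [hB]
    unfold evR
    refine mul_ne_zero (hty _ (RatFunc.num_ne_zero hβ)) (inv_ne_zero (hty _ (RatFunc.denom_ne_zero β)))
  -- `x Bt x⁻¹ = B⁻¹`
  have hconj : x * Bt * x⁻¹ * B = 1 := by
    have h1 : cj (k := k) x hx (Bt * evR (algebraMap k D ((q⁻¹ : kˣ) : k) * y) β) = 1 := by
      rw [H3, map_one]
    rw [map_mul, map_evR, cj_apply, cj_apply] at h1
    have h2 : x * (algebraMap k D ((q⁻¹ : kˣ) : k) * y) * x⁻¹ = y := by
      rw [← mul_assoc x, ← Algebra.commutes, mul_assoc _ x y, hD.comm, ← mul_assoc _ _ (y * x),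
        ← map_mul, Units.inv_mul, map_one, one_mul, mul_assoc, mul_inv_cancel₀ hx, mul_one]
    rw [h2, ← hB] at h1
    exact h1
  have hxBt : x⁻¹ * B⁻¹ = Bt * x⁻¹ := by
    have h1 : x * Bt * x⁻¹ = B⁻¹ := eq_inv_of_mul_eq_one_left hconj
    rw [← h1, ← mul_assoc, ← mul_assoc, inv_mul_cancel₀ hx, one_mul]
  -- `ψ`
  obtain ⟨ψ, hψx, hψy⟩ := hUP k D D q x y (B * x) y hD hq (mul_ne_zero hB0 hx) hy (by
    rw [mul_assoc, hD.comm, ← mul_assoc y B x, hyB, ← mul_assoc B, ← Algebra.commutes,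
      mul_assoc _ B, ← mul_assoc B y x])
  have hψxi : ψ x⁻¹ = Bt * x⁻¹ := by
    rw [map_inv₀, hψx, mul_inv_rev, hxBt]
  have hψyi : ψ y⁻¹ = y⁻¹ := by rw [map_inv₀, hψy]
  obtain ⟨s, hs⟩ : ∃ s : D, s = (y - y⁻¹)⁻¹ := ⟨_, rfl⟩
  have hψs : ψ s = s := by rw [hs, map_inv₀, map_sub, hψy, hψyi]
  rw [← hs] at hjx hjy
  have hM2yi : y⁻¹ * M2 = M2 * y⁻¹ := by
    have : Commute y M2 := hM2y
    exact (this.inv_left₀).eq
  have hM3yi : y⁻¹ * M3 = M3 * y⁻¹ := by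
    have : Commute y M3 := hM3y
    exact (this.inv_left₀).eq
  have hM2s : M2 * s = s * M2 := by
    have h1 : Commute (y - y⁻¹) M2 := by
      show (y - y⁻¹) * M2 = M2 * (y - y⁻¹)
      rw [sub_mul, mul_sub, hM2y, hM2yi]
    rw [hs]
    exact (h1.inv_left₀).eq.symm
  have hM3s : M3 * s = s * M3 := by
    have h1 : Commute (y - y⁻¹) M3 := by
      show (y - y⁻¹) * M3 = M3 * (y - y⁻¹)
      rw [sub_mul, mul_sub, hM3y, hM3yi]
    rw [hs]
    exact (h1.inv_left₀).eq.symm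
  -- the images of `x` and `y` under `θ`
  obtain ⟨L, hL⟩ : ∃ L : D, L = LL x y := ⟨_, rfl⟩
  rw [← hL] at hjL ⊢
  obtain ⟨thx, hthx⟩ : ∃ t : D, t = evR L μ₃ * x + evR L μ₂ * y := ⟨_, rfl⟩
  obtain ⟨thy, hthy⟩ : ∃ t : D, t = (evR L μ₃ + evR L μ₂ * L) * y - evR L μ₂ * x := ⟨_, rfl⟩
  rw [← hthx, ← hthy]
  have hjM3 : j (evR L μ₃) = M3 := by rw [map_evR, hjL, hM3]
  have hjM2 : j (evR L μ₂) = M2 := by rw [map_evR, hjL, hM2]
  have e1 : j thx = ψ (j x) := by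
    rw [hthx, map_add, map_mul, map_mul, hjM3, hjM2, hjx, hjy]
    rw [map_mul, map_add, map_mul, map_mul, hψs, hψx, hψxi, hψyi, hψy, H1, H2]
    have f1 : M3 * (s * (y⁻¹ * x + y * x⁻¹)) = s * (M3 * (y⁻¹ * x + y * x⁻¹)) := by
      rw [← mul_assoc, hM3s, mul_assoc]
    have f2 : M2 * (s * (x + x⁻¹)) = s * (M2 * (x + x⁻¹)) := by
      rw [← mul_assoc, hM2s, mul_assoc]
    rw [f1, f2, ← mul_add]
    congr 1
    have f3 : y⁻¹ * ((M3 + M2 * y) * x) = M3 * (y⁻¹ * x) + M2 * x := by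
      rw [add_mul, mul_add, ← mul_assoc y⁻¹ M3, hM3yi, mul_assoc M3, ← mul_assoc y⁻¹ (M2 * y),
        ← mul_assoc y⁻¹ M2, hM2yi, mul_assoc M2 y⁻¹ y, inv_mul_cancel₀ hy, mul_one]
    have f4 : y * ((M3 + M2 * y⁻¹) * x⁻¹) = M3 * (y * x⁻¹) + M2 * x⁻¹ := by
      rw [add_mul, mul_add, ← mul_assoc y M3, hM3y, mul_assoc M3, ← mul_assoc y (M2 * y⁻¹),
        ← mul_assoc y M2, hM2y, mul_assoc M2 y y⁻¹, mul_inv_cancel₀ hy, mul_one]
    rw [f3, f4, mul_add, mul_add]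
    abel
  have e2 : j thy = ψ (j y) := by
    rw [hthy, map_sub, map_mul, map_mul, map_add, map_mul, hjM3, hjM2, hjL, hjx, hjy]
    rw [map_mul, map_add, hψs, hψx, hψxi, H1, H2]
    have f0 : (M3 + M2 * (y + y⁻¹)) * s = s * (M3 + M2 * (y + y⁻¹)) := by
      have g1 : Commute (y - y⁻¹) (y + y⁻¹) := by
        show (y - y⁻¹) * (y + y⁻¹) = (y + y⁻¹) * (y - y⁻¹)
        rw [sub_mul, mul_add, mul_add, add_mul, mul_sub, mul_sub, mul_inv_cancel₀ hy,
          inv_mul_cancel₀ hy]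
        abel
      have g2 : (y + y⁻¹) * s = s * (y + y⁻¹) := by
        rw [hs]; exact (g1.inv_left₀).eq.symm
      have g3 : (M2 * (y + y⁻¹)) * s = s * (M2 * (y + y⁻¹)) := by
        rw [mul_assoc, g2, ← mul_assoc, hM2s, mul_assoc]
      rw [add_mul, g3, hM3s, ← mul_add]
    have f1 : (M3 + M2 * (y + y⁻¹)) * (s * (x + x⁻¹)) =
        s * ((M3 + M2 * (y + y⁻¹)) * (x + x⁻¹)) := by
      rw [← mul_assoc, f0, mul_assoc]
    have f2 : M2 * (s * (y⁻¹ * x + y * x⁻¹)) = s * (M2 * (y⁻¹ * x + y * x⁻¹)) := by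
      rw [← mul_assoc, hM2s, mul_assoc]
    rw [f1, f2, ← mul_sub]
    congr 1
    simp only [mul_add, add_mul, mul_assoc]
    abel
  have hjinj : Function.Injective j := j.toRingHom.injective
  have hjx0 : ψ (j x) ≠ 0 := by
    intro h
    have h1 : j x = 0 := ψ.toRingHom.injective (by
      show ψ (j x) = ψ 0
      rw [h, map_zero])
    exact hx (hjinj (by rw [h1, map_zero]))
  have hjy0 : ψ (j y) ≠ 0 := by
    intro h
    have h1 : j y = 0 := ψ.toRingHom.injective (by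
      show ψ (j y) = ψ 0
      rw [h, map_zero])
    exact hy (hjinj (by rw [h1, map_zero]))
  have hthx0 : thx ≠ 0 := by
    intro h
    rw [h, map_zero] at e1
    exact hjx0 e1.symm
  have hthy0 : thy ≠ 0 := by
    intro h
    rw [h, map_zero] at e2
    exact hjy0 e2.symm
  have hcomm : thx * thy = algebraMap k D q * (thy * thx) := by
    apply hjinj
    rw [map_mul, map_mul, map_mul, e1, e2, AlgHom.commutes, ← map_mul, ← map_mul, hD.comm,
      ← map_mul, ← map_mul, map_mul, map_mul, AlgHom.commutes, AlgHom.commutes]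
  obtain ⟨θ, hθx, hθy⟩ := hUP k D D q x y thx thy hD hq hthx0 hthy0 hcomm
  refine ⟨θ, ψ, hψx, hψy, hθx, hθy, ?_⟩
  intro d
  have h1 := hUq k D D q x y hD (j.comp θ) (ψ.comp j) (by
    show j (θ x) = ψ (j x)
    rw [hθx, e1]) (by
    show j (θ y) = ψ (j y)
    rw [hθy, e2])
  have h2 := congrArg (fun f : D →ₐ[k] D => f d) h1
  exact h2

end QD
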