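import Pool.Agent.Lib.QD.St

/-!
Project QD, module J: the quadratic extension, the endomorphism `j`.
-/

set_option autoImplicit false

namespace QD

open Polynomial

namespace JAux

variable {k : Type} [Field k]

theorem sg_X (q : kˣ) : sg q (RatFunc.X : RatFunc k) = algebraMap k (RatFunc k) q * RatFunc.X := by
  have h : sg q (algebraMap k[X] (RatFunc k) X) = algebraMap k[X] (RatFunc k) (sgP q X) := by
    simp only [sg, IsFractionRing.algEquivOfAlgEquiv_algebraMap]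
  rw [RatFunc.algebraMap_X] at h
  rw [h]
  have h2 : sgP q (X : k[X]) = C (q : k) * X := by
    change aeval (C (q : k) * X) (X : k[X]) = C (q : k) * X
    rw [aeval_X]
  rw [h2, map_mul, RatFunc.algebraMap_X, RatFunc.algebraMap_C, RatFunc.algebraMap_eq_C]

theorem sg_symm_X (q : kˣ) : (sg q).symm (RatFunc.X : RatFunc k) =
    (algebraMap k (RatFunc k) q)⁻¹ * RatFunc.X := by
  have hq : algebraMap k (RatFunc k) q ≠ 0 := by
    rw [Ne, FaithfulSMul.algebraMap_eq_zero_iff]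
    exact q.ne_zero
  rw [AlgEquiv.symm_apply_eq, map_mul, map_inv₀, AlgEquiv.commutes, sg_X, ← mul_assoc,
    inv_mul_cancel₀ hq, one_mul]

variable {D : Type} [DivisionRing D] [Algebra k D]

/-- `a₂ x² + a₀ + a₋ x⁻²` -/
noncomputable def E (f : RatFunc k →ₐ[k] D) (x : D) (a b c : RatFunc k) : D :=
  f a * (x * x) + f b + f c * (x⁻¹ * x⁻¹)

theorem E_add (f : RatFunc k →ₐ[k] D) (x : D) (a b c a' b' c' : RatFunc k) :
    E f x a b c + E f x a' b' c' = E f x (a + a') (b + b') (c + c') := by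
  simp only [E, map_add, add_mul]
  abel

theorem E_mul (f : RatFunc k →ₐ[k] D) (x : D) (d a b c : RatFunc k) :
    f d * E f x a b c = E f x (d * a) (d * b) (d * c) := by
  simp only [E, map_mul, mul_add, mul_assoc]

theorem E_one (f : RatFunc k →ₐ[k] D) (x : D) : (1 : D) = E f x 0 1 0 := by
  simp only [E, map_zero, map_one, zero_mul, zero_add, add_zero]

theorem inv_del {F : Type} [Field F] {X : F} (hX : X ≠ 0) :
    (X - X⁻¹)⁻¹ = X / (X ^ 2 - 1) := by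
  rw [show X - X⁻¹ = (X ^ 2 - 1) / X by field_simp, inv_div]

theorem ne_del {F : Type} [Field F] {X : F} (hX : X ≠ 0) (h : X - X⁻¹ ≠ 0) : X ^ 2 - 1 ≠ 0 := by
  intro h'
  apply h
  rw [show X - X⁻¹ = (X ^ 2 - 1) / X by field_simp, h', zero_div]

theorem ids {F : Type} [Field F] {X Q d p m : F} (hX : X ≠ 0) (hQ : Q ≠ 0)
    (h1 : X - X⁻¹ ≠ 0) (h2 : Q * X - (Q * X)⁻¹ ≠ 0) (h3 : Q⁻¹ * X - (Q⁻¹ * X)⁻¹ ≠ 0)
    (hd : d = (X - X⁻¹)⁻¹) (hp : p = (Q * X - (Q * X)⁻¹)⁻¹)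
    (hm : m = (Q⁻¹ * X - (Q⁻¹ * X)⁻¹)⁻¹) :
    d * X⁻¹ * p = Q * (d * (p * (Q * X)⁻¹)) ∧
    d * X⁻¹ * p + d * X * m = Q * (d * (p * (Q * X)) + d * (m * (Q⁻¹ * X)⁻¹)) ∧
    d * X * m = Q * (d * (m * (Q⁻¹ * X))) ∧
    (X + X⁻¹) * (d * (p * (Q * X)⁻¹)) = 0 + d * X⁻¹ * (p * (Q * X)⁻¹) + Q⁻¹ * (d * p) ∧
    (X + X⁻¹) * (d * (p * (Q * X)) + d * (m * (Q⁻¹ * X)⁻¹)) =
      1 + (d * X⁻¹ * (p * (Q * X)) + d * X * (m * (Q⁻¹ * X)⁻¹)) + Q⁻¹ * (d * p + d * m) ∧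
    (X + X⁻¹) * (d * (m * (Q⁻¹ * X))) = 0 + d * X * (m * (Q⁻¹ * X)) + Q⁻¹ * (d * m) := by
  have n1 : X ^ 2 - 1 ≠ 0 := ne_del hX h1
  have n2 : (Q * X) ^ 2 - 1 ≠ 0 := ne_del (mul_ne_zero hQ hX) h2
  have n3 : (Q⁻¹ * X) ^ 2 - 1 ≠ 0 := ne_del (mul_ne_zero (inv_ne_zero hQ) hX) h3
  have e3 : (Q⁻¹ * X) ^ 2 - 1 = (X ^ 2 - Q ^ 2) / Q ^ 2 := by
    rw [mul_pow, inv_pow, sub_div, div_self (pow_ne_zero 2 hQ), div_eq_inv_mul]
  have n3' : X ^ 2 - Q ^ 2 ≠ 0 := by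
    intro h
    apply n3
    rw [e3, h, zero_div]
  have n2' : X ^ 2 * Q ^ 2 - 1 ≠ 0 := by rwa [mul_pow, mul_comm] at n2
  have i1 : d = X / (X ^ 2 - 1) := by rw [hd, inv_del hX]
  have i2 : p = Q * X / (X ^ 2 * Q ^ 2 - 1) := by
    rw [hp, inv_del (mul_ne_zero hQ hX), mul_pow, mul_comm (Q ^ 2)]
  have i3 : m = Q * X / (X ^ 2 - Q ^ 2) := by
    rw [hm, inv_del (mul_ne_zero (inv_ne_zero hQ) hX), e3]
    field_simp
  rw [i1, i2, i3]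
  refine ⟨?_, ?_, ?_, ?_, ?_, ?_⟩
  · field_simp
  · field_simp
    ring
  · field_simp
  · field_simp
    ring
  · field_simp
    ring
  · field_simp
    ring

theorem mul_eq (f : RatFunc k →ₐ[k] D) (x : D) (hx : x ≠ 0) (σ : RatFunc k ≃ₐ[k] RatFunc k)
    (h : ∀ b, x * f b = f (σ b) * x) (α β α' β' : RatFunc k) :
    (f α * x + f β * x⁻¹) * (f α' * x + f β' * x⁻¹) =
      E f x (α * σ α') (α * σ β' + β * σ.symm α') (β * σ.symm β') := by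
  have h' : ∀ b, x⁻¹ * f b = f (σ.symm b) * x⁻¹ := by
    intro b
    have h1 := h (σ.symm b)
    rw [AlgEquiv.apply_symm_apply] at h1
    rw [inv_mul_eq_iff_eq_mul₀ hx, ← mul_assoc, h1, mul_assoc, mul_inv_cancel₀ hx, mul_one]
  have e1 : f α * x * (f α' * x) = f (α * σ α') * (x * x) := by
    rw [mul_assoc, ← mul_assoc x, h, map_mul]
    simp only [mul_assoc]
  have e2 : f α * x * (f β' * x⁻¹) = f (α * σ β') := by
    rw [mul_assoc, ← mul_assoc x, h, map_mul, mul_assoc (f (σ β')), mul_inv_cancel₀ hx, mul_one]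
  have e3 : f β * x⁻¹ * (f α' * x) = f (β * σ.symm α') := by
    rw [mul_assoc, ← mul_assoc x⁻¹, h', map_mul, mul_assoc (f (σ.symm α')), inv_mul_cancel₀ hx,
      mul_one]
  have e4 : f β * x⁻¹ * (f β' * x⁻¹) = f (β * σ.symm β') * (x⁻¹ * x⁻¹) := by
    rw [mul_assoc, ← mul_assoc x⁻¹, h', map_mul]
    simp only [mul_assoc]
  rw [add_mul, mul_add, mul_add, e1, e2, e3, e4]
  simp only [E, map_add]
  abel

end JAux

open JAux in
theorem stJ (hUP : StUP) (hTr : StTr) (hEv : StEv) : StJ := by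
  intro k D _ _ _ _ q x y hD hq
  obtain ⟨t1, t2, t3, t4, t5, t6⟩ := hTr k D q x y hD.x0 hD.y0 hD.comm hq
  refine ⟨t4, ?_⟩
  obtain ⟨⟨f, hf⟩, hX, _, hs⟩ := hEv k D y t2
  have hfx : ∀ b, x * f b = f (sg q b) * x := by
    intro b
    rw [hf, hf]
    exact hs q x hD.x0 hD.comm b
  have hfX : f RatFunc.X = y := by rw [hf, hX]
  have hQ0 : algebraMap k (RatFunc k) q ≠ 0 := by
    rw [Ne, FaithfulSMul.algebraMap_eq_zero_iff]
    exact q.ne_zero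
  obtain ⟨Q, hQ⟩ : ∃ Q : RatFunc k, Q = algebraMap k (RatFunc k) q := ⟨_, rfl⟩
  obtain ⟨X', hX'⟩ : ∃ X' : RatFunc k, X' = RatFunc.X := ⟨_, rfl⟩
  rw [← hQ] at hQ0
  rw [← hX'] at hfX
  have hX0 : X' ≠ 0 := by
    rw [hX']
    exact RatFunc.X_ne_zero
  have hfδ : f (X' - X'⁻¹) = y - y⁻¹ := by rw [map_sub, map_inv₀, hfX]
  have hδ0 : X' - X'⁻¹ ≠ 0 := by
    intro h
    rw [h, map_zero] at hfδ
    exact t4 hfδ.symm
  have sX : sg q X' = Q * X' := by rw [hX', hQ, sg_X q]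
  have sX' : (sg q).symm X' = Q⁻¹ * X' := by rw [hX', hQ, sg_symm_X q]
  have hσ : ∀ c : RatFunc k, sg q c⁻¹ = (sg q c)⁻¹ := fun c => map_inv₀ _ _
  have hσ' : ∀ c : RatFunc k, (sg q).symm c⁻¹ = ((sg q).symm c)⁻¹ := fun c => map_inv₀ _ _
  have sδ : sg q (X' - X'⁻¹) = Q * X' - (Q * X')⁻¹ := by rw [map_sub, hσ, sX]
  have sδ' : (sg q).symm (X' - X'⁻¹) = Q⁻¹ * X' - (Q⁻¹ * X')⁻¹ := by rw [map_sub, hσ', sX']
  have hp0 : Q * X' - (Q * X')⁻¹ ≠ 0 := by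
    rw [← sδ, Ne, EmbeddingLike.map_eq_zero_iff]
    exact hδ0
  have hm0 : Q⁻¹ * X' - (Q⁻¹ * X')⁻¹ ≠ 0 := by
    rw [← sδ', Ne, EmbeddingLike.map_eq_zero_iff]
    exact hδ0
  obtain ⟨d, hd⟩ : ∃ d : RatFunc k, d = (X' - X'⁻¹)⁻¹ := ⟨_, rfl⟩
  obtain ⟨p, hp⟩ : ∃ p : RatFunc k, p = (Q * X' - (Q * X')⁻¹)⁻¹ := ⟨_, rfl⟩
  obtain ⟨m, hm⟩ : ∃ m : RatFunc k, m = (Q⁻¹ * X' - (Q⁻¹ * X')⁻¹)⁻¹ := ⟨_, rfl⟩
  have sd : sg q d = p := by rw [hd, hσ, sδ, hp]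
  have sd' : (sg q).symm d = m := by rw [hd, hσ', sδ', hm]
  obtain ⟨i1, i2, i3, i4, i5, i6⟩ := ids hX0 hQ0 hδ0 hp0 hm0 hd hp hm
  have hfd : f d = (y - y⁻¹)⁻¹ := by rw [hd, map_inv₀, hfδ]
  obtain ⟨a, ha⟩ : ∃ a : D, a = (y - y⁻¹)⁻¹ * (y⁻¹ * x + y * x⁻¹) := ⟨_, rfl⟩
  obtain ⟨b, hb⟩ : ∃ b : D, b = (y - y⁻¹)⁻¹ * (x + x⁻¹) := ⟨_, rfl⟩
  rw [← ha, ← hb]
  have ha0 : a ≠ 0 := by
    rw [ha]
    exact mul_ne_zero (inv_ne_zero t4) t6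
  have hb0 : b ≠ 0 := by
    rw [hb]
    exact mul_ne_zero (inv_ne_zero t4) t5
  have ea : a = f (d * X'⁻¹) * x + f (d * X') * x⁻¹ := by
    rw [ha, map_mul, map_mul, map_inv₀, hfd, hfX, mul_add, mul_assoc, mul_assoc]
  have eb : b = f d * x + f d * x⁻¹ := by
    rw [hb, hfd, mul_add]
  have cQ : f Q = algebraMap k D q := by
    rw [hQ]
    exact f.commutes _
  have cQ' : f Q⁻¹ = (algebraMap k D q)⁻¹ := by rw [map_inv₀, cQ]
  have hab : a * b = f Q * (b * a) := by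
    rw [ea, eb, mul_eq f x hD.x0 (sg q) hfx, mul_eq f x hD.x0 (sg q) hfx, E_mul]
    simp only [map_mul, hσ, hσ', sX, sX', sd, sd']
    rw [i2, i1, i3]
  have hba : f (X' + X'⁻¹) * (b * a) = 1 + a * a + f Q⁻¹ * (b * b) := by
    rw [ea, eb, mul_eq f x hD.x0 (sg q) hfx, mul_eq f x hD.x0 (sg q) hfx,
      mul_eq f x hD.x0 (sg q) hfx, E_mul, E_mul, E_one f x, E_add, E_add]
    simp only [map_mul, hσ, hσ', sX, sX', sd, sd']
    rw [i4, i5, i6]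
  rw [cQ] at hab
  obtain ⟨j, jx, jy⟩ := hUP k D D q x y a b hD hq ha0 hb0 hab
  have hq0 : algebraMap k D q ≠ 0 := by
    rw [Ne, FaithfulSMul.algebraMap_eq_zero_iff]
    exact q.ne_zero
  have jL : j (LL x y) = y + y⁻¹ := by
    have e1 : y + y⁻¹ = f (X' + X'⁻¹) := by rw [map_add, map_inv₀, hfX]
    have e2 : b * a ≠ 0 := mul_ne_zero hb0 ha0
    have e3 : j (LL x y) = a⁻¹ * b⁻¹ + a * b⁻¹ + b * a⁻¹ := by
      simp only [LL, map_add, map_mul, map_inv₀, jx, jy]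
    rw [e3, e1]
    apply mul_right_cancel₀ e2
    rw [hba]
    have e4 : a⁻¹ * b⁻¹ * (b * a) = 1 := by
      rw [mul_assoc, ← mul_assoc b⁻¹, inv_mul_cancel₀ hb0, one_mul, inv_mul_cancel₀ ha0]
    have e5 : a * b⁻¹ * (b * a) = a * a := by
      rw [mul_assoc, ← mul_assoc b⁻¹, inv_mul_cancel₀ hb0, one_mul]
    have e6 : b * a = (algebraMap k D q)⁻¹ * (a * b) := by
      rw [hab, ← mul_assoc, inv_mul_cancel₀ hq0, one_mul]
    have e7 : b * a⁻¹ * (b * a) = f Q⁻¹ * (b * b) := by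
      rw [e6, cQ', ← map_inv₀ (algebraMap k D), mul_assoc b a⁻¹, ← mul_assoc a⁻¹,
        ← Algebra.commutes, mul_assoc _ a⁻¹, ← mul_assoc a⁻¹ a, inv_mul_cancel₀ ha0, one_mul,
        ← mul_assoc, ← Algebra.commutes, mul_assoc]
    rw [add_mul, add_mul, e4, e5, e7]
  refine ⟨j, jx, jy, jL, fun p hp h => t3 p hp ?_⟩
  rw [← jL, Polynomial.aeval_algHom_apply, h, map_zero]

end QD
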