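import Pool.Agent.Lib.QD.CSt

/-!
Project QD, module N: algebra of the polynomials `N₁`, `N₂`, `N₃`.
-/

open Polynomial

namespace QD

namespace NAux

variable {Ω : Type} [Field Ω]

theorem unit_cop {c : Ω} (hc : c ≠ 0) {N : Polynomial Ω} : IsCoprime (C c) N := by
  refine ⟨C c⁻¹, 0, ?_⟩
  rw [zero_mul, add_zero, ← C_mul, inv_mul_cancel₀ hc, C_1]

theorem cop_of {c : Ω} (hc : c ≠ 0) {L N A B : Polynomial Ω} (h : A * L + B * N = C c) :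
    IsCoprime L N := by
  refine ⟨C c⁻¹ * A, C c⁻¹ * B, ?_⟩
  calc C c⁻¹ * A * L + C c⁻¹ * B * N = C c⁻¹ * (A * L + B * N) := by ring
    _ = C c⁻¹ * C c := by rw [h]
    _ = 1 := by rw [← C_mul, inv_mul_cancel₀ hc, C_1]

variable (η : Ω)

theorem copL : (1 : Ω) + η ^ 2 ≠ 0 → IsCoprime (1 + 2 * X ^ 2 + C η ^ 2 : Polynomial Ω) (pN3 η) := by
  intro hc
  refine cop_of hc (A := -(2 * X ^ 2 + 3 * (1 + C η ^ 2) + C η ^ 2)) (B := 2) ?_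
  rw [C_add, C_1, C_pow]
  unfold pN3 pW
  ring

theorem copL2 : η ≠ 0 → IsCoprime (2 + 2 * X ^ 2 + C η ^ 2 : Polynomial Ω) (pN3 η) := by
  intro hc
  have hc' : -η ^ 2 ≠ 0 := neg_ne_zero.2 (pow_ne_zero 2 hc)
  refine cop_of hc' (A := -(pW η + C η ^ 2)) (B := 1) ?_
  rw [C_neg, C_pow]
  unfold pN3 pW
  ring

theorem copX [CharZero Ω] : (1 : Ω) + η ^ 2 ≠ 0 → IsCoprime (X ^ 2 : Polynomial Ω) (pN3 η) := by
  intro hc
  have hc' : (2 : Ω) * (1 + η ^ 2) ^ 2 ≠ 0 := mul_ne_zero two_ne_zero (pow_ne_zero 2 hc)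
  refine cop_of hc' (A := -(4 * (1 + C η ^ 2) + 2 * X ^ 2 + C η ^ 2)) (B := 1) ?_
  have h2 : (C (2 : Ω) : Polynomial Ω) = 2 := rfl
  rw [C_mul, C_pow, C_add, C_1, C_pow, h2]
  unfold pN3 pW
  ring

theorem cop13 [CharZero Ω] (h0 : η ≠ 0) (h1 : (1 : Ω) + η ^ 2 ≠ 0) :
    IsCoprime (pN1 η) (pN3 η) := by
  have h3 : (-3 : Ω) * η ^ 2 ≠ 0 :=
    mul_ne_zero (neg_ne_zero.2 three_ne_zero) (pow_ne_zero 2 h0)
  have h4 : IsCoprime (C ((-3 : Ω) * η ^ 2) * (1 + 2 * X ^ 2 + C η ^ 2) : Polynomial Ω)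
      (pN3 η) := by
    refine IsCoprime.mul_left ?_ (copL η h1)
    exact unit_cop h3
  have h5 : pN1 η = C ((-3 : Ω) * η ^ 2) * (1 + 2 * X ^ 2 + C η ^ 2) + 2 * pN3 η := by
    have h2 : (C (3 : Ω) : Polynomial Ω) = 3 := rfl
    rw [C_mul, C_neg, C_pow, h2]
    unfold pN1 pN3 pW
    ring
  rw [h5]
  exact IsCoprime.add_mul_right_left h4 2

theorem cop23 [CharZero Ω] (h0 : η ≠ 0) (h1 : (1 : Ω) + η ^ 2 ≠ 0) :
    IsCoprime (pN2 η) (pN3 η) := by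
  have h4 : IsCoprime (C (3 : Ω) * X ^ 2 * (2 + 2 * X ^ 2 + C η ^ 2) : Polynomial Ω)
      (pN3 η) := by
    refine IsCoprime.mul_left (IsCoprime.mul_left ?_ (copX η h1)) (copL2 η h0)
    exact unit_cop three_ne_zero
  have h5 : (2 : Polynomial Ω) * pN2 η =
      C (3 : Ω) * X ^ 2 * (2 + 2 * X ^ 2 + C η ^ 2) + 1 * pN3 η := by
    have h2 : (C (3 : Ω) : Polynomial Ω) = 3 := rfl
    rw [h2]
    unfold pN2 pN3 pW
    ring
  have h6 : IsCoprime ((2 : Polynomial Ω) * pN2 η) (pN3 η) := by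
    rw [h5]
    exact IsCoprime.add_mul_right_left h4 1
  exact IsCoprime.of_mul_left_right h6

theorem nd (p : Polynomial Ω) (a b c : Ω) (ha : a ≠ 0)
    (h : p = C a * X ^ 4 + (C b * X ^ 2 + C c)) : p.natDegree = 4 := by
  rw [h]
  compute_degree!

end NAux

open NAux

theorem stN : StN := by
  intro Ω _ _ η h
  have h0 : η ≠ 0 := by
    rintro rfl
    refine h 0 1 one_ne_zero ?_
    simp
  have h1 : (1 : Ω) + η ^ 2 ≠ 0 := by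
    intro h2
    refine h (-1) 1 one_ne_zero ?_
    push_cast
    linear_combination h2
  have e2 : (C (2 : Ω) : Polynomial Ω) = 2 := rfl
  have e3 : (C (3 : Ω) : Polynomial Ω) = 3 := rfl
  have e4 : (C (4 : Ω) : Polynomial Ω) = 4 := rfl
  have e5 : (C (5 : Ω) : Polynomial Ω) = 5 := rfl
  have e8 : (C (8 : Ω) : Polynomial Ω) = 8 := rfl
  refine ⟨?_, ?_, ?_, cop13 η h0 h1, cop23 η h0 h1, ?_, ?_, ?_, ?_⟩
  · refine nd _ 4 (8 * (1 + η ^ 2) - 4 * η ^ 2) (4 * (1 + η ^ 2) ^ 2 - 3 * (1 + η ^ 2) * η ^ 2)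
      (by norm_num) ?_
    simp only [C_add, C_sub, C_mul, C_pow, C_1, e3, e4, e8]
    unfold pN1 pW
    ring
  · refine nd _ 4 (5 * (1 + η ^ 2) - η ^ 2) ((1 + η ^ 2) ^ 2) (by norm_num) ?_
    simp only [C_add, C_sub, C_mul, C_pow, C_1, e4, e5]
    unfold pN2 pW
    ring
  · refine nd _ 2 (4 * (1 + η ^ 2) + η ^ 2) (2 * (1 + η ^ 2) ^ 2) two_ne_zero ?_
    simp only [C_add, C_mul, C_pow, C_1, e2, e4]
    unfold pN3 pW
    ring
  · unfold pN3 pW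
    simp only [eval_add, eval_mul, eval_pow, eval_X, eval_C, eval_one, eval_ofNat]
    intro h2
    have h3 : (2 : Ω) * (1 + η ^ 2) ^ 2 = 0 := by linear_combination h2
    rcases mul_eq_zero.1 h3 with h4 | h4
    · exact two_ne_zero h4
    · exact h1 (pow_eq_zero_iff (two_ne_zero) |>.1 h4)
  · unfold pN1 pN2 pN3 pW
    ring
  · unfold pN1 pN2 pN3 pW
    ring
  · refine ⟨8 * X ^ 6 + 12 * X ^ 4 * C η ^ 2 + 16 * X ^ 4 + 12 * X ^ 2 * C η ^ 2 +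
      6 * X ^ 2 * C η ^ 4 + 8 * X ^ 2 + C η ^ 2 + 2 * C η ^ 4 + C η ^ 6, ?_⟩
    unfold pN1 pN2 pN3 pW
    ring

end QD
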