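import Pool.Agent.Lib.QD.St

/-!
Project QD (MP_794704_al): assembly of the noncommutative part.
-/

namespace QD

open Polynomial

namespace NCAux

/-- Homomorphisms and values of rational functions. -/
theorem map_evR {k D D' : Type} [Field k] [DivisionRing D] [Algebra k D] [DivisionRing D']
    [Algebra k D'] (f : D →ₐ[k] D') (u : D) (b : RatFunc k) : f (evR u b) = evR (f u) b := by
  unfold evR
  rw [map_mul, map_inv₀, ← aeval_algHom_apply, ← aeval_algHom_apply]

theorem map_LL {D D' : Type} [DivisionRing D] [DivisionRing D'] (f : D →+* D') (x y : D) :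
    f (LL x y) = LL (f x) (f y) := by
  unfold LL
  simp only [map_add, map_mul, map_inv₀]

theorem map_qn {k D D' : Type} [Field k] [DivisionRing D] [Algebra k D] [DivisionRing D']
    [Algebra k D'] (f : D →ₐ[k] D') (q : kˣ) (x y : D) : f (qn q x y) = qn q (f x) (f y) := by
  have h := map_LL (f : D →+* D') x y
  simp only [RingHom.coe_coe] at h
  unfold qn
  rw [map_add, map_mul, map_pow, AlgHom.commutes, AlgHom.commutes, h]

theorem map_qa1 {k D D' : Type} [Field k] [DivisionRing D] [Algebra k D] [DivisionRing D']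
    [Algebra k D'] (f : D →ₐ[k] D') (q : kˣ) (x y : D) : f (qa1 q x y) = qa1 q (f x) (f y) := by
  have h := map_LL (f : D →+* D') x y
  simp only [RingHom.coe_coe] at h
  unfold qa1
  rw [map_mul, map_add, map_pow, AlgHom.commutes, AlgHom.commutes, h]

theorem map_qa2 {k D D' : Type} [Field k] [DivisionRing D] [Algebra k D] [DivisionRing D']
    [Algebra k D'] (f : D →ₐ[k] D') (q : kˣ) (x y : D) : f (qa2 q x y) = qa2 q (f x) (f y) := by
  have h := map_LL (f : D →+* D') x y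
  simp only [RingHom.coe_coe] at h
  unfold qa2
  rw [map_mul, AlgHom.commutes, h]

theorem map_qa3 {k D D' : Type} [Field k] [DivisionRing D] [Algebra k D] [DivisionRing D']
    [Algebra k D'] (f : D →ₐ[k] D') (q : kˣ) (x y : D) : f (qa3 q x y) = qa3 q (f x) (f y) := by
  have h := map_LL (f : D →+* D') x y
  simp only [RingHom.coe_coe] at h
  unfold qa3
  rw [map_mul, map_add, map_mul, map_pow, AlgHom.commutes, AlgHom.commutes, AlgHom.commutes, h]

theorem map_IsQuint {k D D' : Type} [Field k] [DivisionRing D] [Algebra k D] [DivisionRing D']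
    [Algebra k D'] (f : D →ₐ[k] D') (q : kˣ) (x y X Y : D) (h : IsQuint q x y X Y) :
    IsQuint q (f x) (f y) (f X) (f Y) := by
  obtain ⟨h0, h1, h2⟩ := h
  refine ⟨?_, ?_, ?_⟩
  · rw [← map_qn]
    exact (map_ne_zero f).2 h0
  · rw [← map_qn, ← map_qa3, ← map_qa2, ← map_mul, h1, map_add, map_mul, map_mul]
  · rw [← map_qn, ← map_qa1, ← map_qa2, ← map_mul, h2, map_sub, map_mul, map_mul]

/-- The homomorphism `d ↦ z ι(d) z⁻¹`. -/
def cj {k D K : Type} [Field k] [DivisionRing D] [Algebra k D] [DivisionRing K] [Algebra k K]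
    (ι : D →ₐ[k] K) (z : K) (hz : z ≠ 0) : D →ₐ[k] K where
  toFun d := z * ι d * z⁻¹
  map_one' := by rw [map_one, mul_one, mul_inv_cancel₀ hz]
  map_mul' a b := by
    rw [map_mul]
    have h : z⁻¹ * z = 1 := inv_mul_cancel₀ hz
    calc z * (ι a * ι b) * z⁻¹ = z * ι a * 1 * (ι b * z⁻¹) := by noncomm_ring
      _ = z * ι a * (z⁻¹ * z) * (ι b * z⁻¹) := by rw [h]
      _ = z * ι a * z⁻¹ * (z * ι b * z⁻¹) := by noncomm_ring
  map_zero' := by rw [map_zero, mul_zero, zero_mul]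
  map_add' a b := by rw [map_add, mul_add, add_mul]
  commutes' c := by
    rw [AlgHom.commutes, ← Algebra.commutes, mul_assoc, mul_inv_cancel₀ hz, mul_one]

end NCAux

open NCAux in
/-- N7. Assembly: if the quantum quintic is not tame then some conjugation automorphism is not. -/
theorem stNC (hTheta : StTheta) (hElem : StElem) (hLead : StLead) (hThLead : StThLead)
    (hEvLead : StEvLead) (hAC : StAC) (hUniq : StUniq) (hEv : StEv) (hTr : StTr) : StNC := by
  intro k D _ _ _ _ q x y K _ _ S ι hD hq hx hy hnt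
  obtain ⟨θ, hθ⟩ := hTheta k D q x y hD hq
  have hθn : θ ∉ Tame x y := hnt θ hθ
  have hQ : IsQuint q (ι x) (ι y) (ι (θ x)) (ι (θ y)) := map_IsQuint ι q x y _ _ hθ
  obtain ⟨hly, r, hr0, hlx⟩ := hThLead k q K S (ι x) (ι y) _ _ hq hx hy hQ
  obtain ⟨l1, -, -, -, -, -, l7⟩ := hLead k (RatFunc k) (sg q) K S
  -- the constant
  have h2q : (2 * (q : k)) ≠ 0 := mul_ne_zero two_ne_zero q.ne_zero
  set κ : kˣ := (Units.mk0 (2 * (q : k)) h2q)⁻¹ with hκ
  have hκc : (κ : k) = (2 * (q : k))⁻¹ := by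
    rw [hκ, Units.val_inv_eq_inv_val, Units.val_mk0]
  rw [← hκc] at hly
  -- the elementary automorphisms
  set u : RatFunc k := (sg κ).symm r⁻¹ with hu
  have hu1 : sg κ u = r⁻¹ := by rw [hu, AlgEquiv.apply_symm_apply]
  have hu0 : u ≠ 0 := by
    intro h
    rw [h, map_zero] at hu1
    exact inv_ne_zero hr0 hu1.symm
  obtain ⟨e1, e1x, e1y⟩ := (hElem k D q x y hD hq).1 u hu0
  have ha0 : algebraMap k (RatFunc k) ((κ⁻¹ : kˣ) : k) ≠ 0 :=
    (map_ne_zero (algebraMap k (RatFunc k))).2 (κ⁻¹).ne_zero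
  obtain ⟨e2, e2x, e2y⟩ := (hElem k D q x y hD hq).2 _ ha0
  have hev : evR x (algebraMap k (RatFunc k) ((κ⁻¹ : kˣ) : k)) =
      algebraMap k D ((κ⁻¹ : kˣ) : k) := by
    obtain ⟨⟨f, hf⟩, -⟩ := hEv k D x (hTr k D q x y hD.x0 hD.y0 hD.comm hq).1
    rw [← hf, AlgHom.commutes]
  -- the composition
  have hφx : (θ * e1 * e2) x = evR (θ y) u * θ x := by
    change θ (e1 (e2 x)) = _
    rw [e2x, e1x, map_mul]
    congr 1
    exact map_evR (θ : D →ₐ[k] D) y u
  have hφy : (θ * e1 * e2) y = algebraMap k D ((κ⁻¹ : kˣ) : k) * θ y := by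
    change θ (e1 (e2 y)) = _
    rw [e2y, hev, map_mul, AlgEquiv.commutes, e1y, map_mul, AlgEquiv.commutes]
  have m1 : HasLead S (ι ((θ * e1 * e2) x)) 1 1 := by
    have h1 := hEvLead k q K S κ (ι (θ y)) u hly
    have h2 := l1 _ _ _ _ _ _ h1 hlx
    rw [hφx, map_mul, map_evR]
    rw [hu1, zero_add, zpow_zero] at h2
    change HasLead S _ 1 (r⁻¹ * r) at h2
    rwa [inv_mul_cancel₀ hr0] at h2
  have m2 : HasLead S (ι ((θ * e1 * e2) y)) 0 RatFunc.X := by
    have h2 := l1 _ _ _ _ _ _ (l7 ((κ⁻¹ : kˣ) : k)) hly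
    rw [hφy, map_mul, AlgHom.commutes]
    rw [add_zero, zpow_zero] at h2
    change HasLead S _ 0 (algebraMap k (RatFunc k) ((κ⁻¹ : kˣ) : k) *
      (algebraMap k (RatFunc k) (κ : k) * RatFunc.X)) at h2
    rwa [← mul_assoc, ← map_mul, Units.inv_mul, map_one, one_mul] at h2
  have m3 : ι ((θ * e1 * e2) x) * ι ((θ * e1 * e2) y) =
      algebraMap k K q * (ι ((θ * e1 * e2) y) * ι ((θ * e1 * e2) x)) := by
    rw [← map_mul, ← map_mul, hD.comm, map_mul, map_mul, AlgEquiv.commutes, AlgHom.commutes,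
      map_mul, map_mul]
  obtain ⟨z, hz0, hz1, hz2⟩ := hAC k q K S (ι x) (ι y) _ _ hq hx hy m3 m1 m2
  refine ⟨z, θ * e1 * e2, hz0, ?_, ?_⟩
  · have h := hUniq k D K q x y hD (cj ι z hz0)
      (ι.comp ((θ * e1 * e2 : D ≃ₐ[k] D) : D →ₐ[k] D)) ?_ ?_
    · intro d
      exact congrArg (fun F : D →ₐ[k] K => F d) h
    · change z * ι x * z⁻¹ = ι ((θ * e1 * e2) x)
      rw [hz1, mul_assoc, mul_inv_cancel₀ hz0, mul_one]
    · change z * ι y * z⁻¹ = ι ((θ * e1 * e2) y)
      rw [hz2, mul_assoc, mul_inv_cancel₀ hz0, mul_one]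
  · intro h
    apply hθn
    have t1 : e1 ∈ Tame x y := Subgroup.subset_closure (Or.inl (Or.inr (Or.inl ⟨u, hu0, e1x, e1y⟩)))
    have t2 : e2 ∈ Tame x y :=
      Subgroup.subset_closure (Or.inl (Or.inr (Or.inr ⟨_, ha0, e2x, e2y⟩)))
    have h3 := (Tame x y).mul_mem ((Tame x y).mul_mem h ((Tame x y).inv_mem t2))
      ((Tame x y).inv_mem t1)
    rwa [mul_inv_cancel_right, mul_inv_cancel_right] at h3

end QD
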