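import Pool.Agent.Lib.QD.CSt

/-!
Project QD, module NR: the quintic pair is not reachable.
-/

namespace QD

namespace NRAux

theorem trans_eta : Transcendental ℂ
    (algebraMap (RatFunc ℂ) (AlgebraicClosure (RatFunc ℂ)) RatFunc.X) := by
  have h1 : Transcendental ℂ (RatFunc.X : RatFunc ℂ) := by
    rw [← RatFunc.algebraMap_X]
    exact (transcendental_algebraMap_iff (RatFunc.algebraMap_injective ℂ)).2
      (Polynomial.transcendental_X ℂ)
  exact (transcendental_algebraMap_iff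
    (FaithfulSMul.algebraMap_injective (RatFunc ℂ) (AlgebraicClosure (RatFunc ℂ)))).2 h1

end NRAux

theorem stNR (h1 : StInd) (h2 : StReachInd) (h3 : StBack) (h4 : StNeg) (h5 : StPl)
    (h6 : StIndB) (h7 : StBase) (h8 : StE0) (h9 : StU) (h10 : StDeg) (h11 : StMul) : StNR := by
  set η := algebraMap (RatFunc ℂ) (AlgebraicClosure (RatFunc ℂ)) RatFunc.X with hη
  have ht : Transcendental ℂ η := NRAux.trans_eta
  obtain ⟨Pl, pt, hstd⟩ := h5 (AlgebraicClosure (RatFunc ℂ))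
  have hind := h6 (AlgebraicClosure (RatFunc ℂ)) η ht
  refine ⟨RatFunc (AlgebraicClosure (RatFunc ℂ)), inferInstance, inferInstance, RatFunc.X,
    RatFunc.C η, hind, fun X Y hQ hR => ?_⟩
  have hXY := h2 _ _ _ _ _ hind hR
  have hX : X ≠ 0 := (h1 _ X Y hXY).2.2.1
  have hY : Y ≠ 0 := (h1 _ Y X (h1 _ X Y hXY).1).2.2.1
  have hD : D4 Pl e0 X Y ≤ 0 := by
    rw [h9 _ Pl X Y hX hY]
    have e1 := h10 _ η Pl pt X Y ht hstd hQ hX hY
    have e2 := h11 _ η Pl pt X Y ht hstd hQ hXY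
    linarith
  obtain ⟨n1, n2, n3, n4, n5, n6⟩ := h4 _ Pl
  have hN : Neg Pl X Y := ⟨hXY, e0, h8.1, h8.2, hD⟩
  obtain ⟨-, e, he, hea, hed⟩ := h3 _ (Neg Pl) (fun _ _ h => h.1) n1 n2 n3 n4 n5 n6 _ _ X Y hR hN
  have := h7 _ η Pl pt ht hstd e he.tok he.bal
  linarith

end QD
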