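import Pool.Agent.Lib.QD.CSt

/-!
Project QD, module Neg: the predicate `Neg` is stable.
-/

set_option autoImplicit false

namespace QD

open Polynomial

theorem stNeg (hInd : StInd) (hGa : StGa) (hA1 : StA1) (hA2 : StA2) (hA3 : StA3) (hAIS : StAIS)
    (hTB : StTB) (hQ1 : StQ1) (hQ2 : StQ2) (hQ3 : StQ3) (hRe : StRe) (hRe2 : StRe2)
    (hPos : StPos) : StNeg := by
  intro M _ _ Pl
  refine ⟨?_, ?_, ?_, ?_, ?_, ?_⟩
  · rintro c X Y hc ⟨hI, e, hG, hW, hD⟩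
    have hc' : (c : ℂ) ≠ 0 := by exact_mod_cast hc
    have hI' : Ind (algebraMap ℂ M (c : ℂ) * X) Y := by
      have h := ((hInd M X Y hI).2.2.2.1 (C (c : ℂ)) (C_ne_zero.2 hc')).2
      rwa [aeval_C] at h
    obtain ⟨h1, h2, h3⟩ := (hTB e hG.tok hG.bal).1 (c : ℂ) hc'
    refine ⟨hI', act1 (c : ℂ) e, ⟨h1, h2, (hRe e hG.tok hG.real).1 c hc, ?_⟩, ?_, ?_⟩
    · rw [(hQ1 e hG.tok).1 (c : ℂ) hc', hG.q4]
    · rw [h3]
      exact hW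
    · rw [← hGa M Pl _ _ _ hI' h1 h2, hA1 M Pl X Y e (c : ℂ) hc' hI hG.tok,
        hGa M Pl X Y e hI hG.tok hG.bal]
      exact hD
  · rintro X Y ⟨hI, e, hG, hW, hD⟩
    have hI' : Ind (Y * X) Y := by
      have h := ((hInd M X Y hI).2.2.2.1 (Polynomial.X : ℂ[X]) X_ne_zero).2
      rwa [aeval_X] at h
    obtain ⟨h1, h2, h3⟩ := (hTB e hG.tok hG.bal).2.1
    refine ⟨hI', act2 e, ⟨h1, h2, (hRe e hG.tok hG.real).2.1, ?_⟩, ?_, ?_⟩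
    · rw [hQ2 e hG.bal, hG.q4]
    · rw [h3]
      exact hW
    · rw [← hGa M Pl _ _ _ hI' h1 h2, hA2 M Pl X Y e hI hG.tok,
        hGa M Pl X Y e hI hG.tok hG.bal]
      exact hD
  · rintro s X Y hs ⟨hI, e, hG, hW, hD⟩
    have hs' : (s : ℂ) ≠ 0 := by exact_mod_cast hs
    have hI' : Ind ((Y - algebraMap ℂ M (s : ℂ)) * X) Y := by
      have h := ((hInd M X Y hI).2.2.2.1 (Polynomial.X - C (s : ℂ)) (X_sub_C_ne_zero _)).2
      rwa [map_sub, aeval_X, aeval_C] at h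
    obtain ⟨h1, h2, h3⟩ := (hTB e hG.tok hG.bal).2.2.1 (s : ℂ) hs'
    refine ⟨hI', act3 (s : ℂ) e, ⟨h1, h2, (hRe e hG.tok hG.real).2.2.1 s hs, ?_⟩, ?_, ?_⟩
    · rw [hQ3 e (s : ℂ) hs' hG.tok hG.bal, hG.q4]
    · rw [h3]
      exact hW
    · rw [← hGa M Pl _ _ _ hI' h1 h2, hA3 M Pl X Y e (s : ℂ) hs' hI hG.tok hG.bal,
        hGa M Pl X Y e hI hG.tok hG.bal]
      exact hD
  · rintro s X Y hs ⟨hI, e, hG, hW, hD⟩
    have hs' : s ≠ 0 := by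
      rintro rfl
      exact hs rfl
    have hs2 : (starRingEnd ℂ) s ≠ 0 := by
      rw [Ne, map_eq_zero]
      exact hs'
    have hI' : Ind ((Y - algebraMap ℂ M s) * X) Y := by
      have h := ((hInd M X Y hI).2.2.2.1 (Polynomial.X - C s) (X_sub_C_ne_zero _)).2
      rwa [map_sub, aeval_X, aeval_C] at h
    have hI2 : Ind ((Y - algebraMap ℂ M ((starRingEnd ℂ) s)) *
        ((Y - algebraMap ℂ M s) * X)) Y := by
      have h := ((hInd M _ Y hI').2.2.2.1 (Polynomial.X - C ((starRingEnd ℂ) s))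
        (X_sub_C_ne_zero _)).2
      rwa [map_sub, aeval_X, aeval_C] at h
    obtain ⟨h1, h2, h3⟩ := (hTB e hG.tok hG.bal).2.2.1 s hs'
    obtain ⟨h4, h5, h6⟩ := (hTB (act3 s e) h1 h2).2.2.1 ((starRingEnd ℂ) s) hs2
    refine ⟨hI2, act3 ((starRingEnd ℂ) s) (act3 s e),
      ⟨h4, h5, hRe2 e hG.tok hG.real s hs, ?_⟩, ?_, ?_⟩
    · rw [hQ3 _ _ hs2 h1 h2, hQ3 e s hs' hG.tok hG.bal, hG.q4]
    · rw [h6, h3]
      exact hW
    · rw [← hGa M Pl _ _ _ hI2 h4 h5, hA3 M Pl _ Y (act3 s e) ((starRingEnd ℂ) s) hs2 hI' h1 h2,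
        hA3 M Pl X Y e s hs' hI hG.tok hG.bal, hGa M Pl X Y e hI hG.tok hG.bal]
      exact hD
  · rintro X Y ⟨hI, e, hG, hW, hD⟩
    obtain ⟨h1, h2, h3⟩ := (hTB e hG.tok hG.bal).2.2.2.1
    refine ⟨(hInd M X Y hI).2.1, actI e,
      ⟨h1, h2, (hRe e hG.tok hG.real).2.2.2.1, ?_⟩, ?_, ?_⟩
    · rw [(hQ1 e hG.tok).2.1, hG.q4]
    · rw [h3]
      exact hW
    · rw [(hAIS M Pl X Y e hI hG.tok).1]
      exact hD
  · rintro X Y ⟨hI, e, hG, hW, hD⟩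
    obtain ⟨h1, h2, h3⟩ := (hTB e hG.tok hG.bal).2.2.2.2
    refine ⟨(hInd M X Y hI).1, actS e,
      ⟨h1, h2, (hRe e hG.tok hG.real).2.2.2.2, ?_⟩, ?_, ?_⟩
    · rw [(hQ1 e hG.tok).2.2, hG.q4]
    · rw [h3]
      exact (mul_pos_iff_of_pos_left hW).1 (hPos e hG)
    · rw [(hAIS M Pl X Y e hI hG.tok).2]
      exact hD

end QD
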