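import Pool.Agent.Lib.QD.Poly

/-!
Project QD: Ore condition for quantum polynomials (N1d), by a dimension count.
-/

namespace QD

namespace OreCondAux

section one

variable {k D : Type} [Field k] [DivisionRing D] [Algebra k D] (x y : D)

/-- the exponents in the box of side `n` -/
def box (n : ℕ) : Finset (ℕ × ℕ) := Finset.range (n + 1) ×ˢ Finset.range (n + 1)

lemma mem_box (n : ℕ) (ij : ℕ × ℕ) : ij ∈ box n ↔ ij.1 ≤ n ∧ ij.2 ≤ n := by
  rw [box, Finset.mem_product, Finset.mem_range, Finset.mem_range]
  omega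

lemma card_box (n : ℕ) : (box n).card = (n + 1) ^ 2 := by
  rw [box, Finset.card_product, Finset.card_range, sq]

/-- the span of the monomials in the box -/
def V (k : Type) {D : Type} [Field k] [DivisionRing D] [Algebra k D] (x y : D) (n : ℕ) :
    Submodule k D :=
  Submodule.span k ((fun ij : ℕ × ℕ => y ^ ij.1 * x ^ ij.2) '' (box n : Set (ℕ × ℕ)))

lemma V_mono {n m : ℕ} (h : n ≤ m) : V k x y n ≤ V k x y m := by
  apply Submodule.span_mono
  apply Set.image_mono
  intro ij hij
  rw [Finset.mem_coe, mem_box] at hij ⊢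
  omega

lemma mon_eq (s : ℕ × ℕ →₀ k) : mon (algebraMap k D) x y s =
    Finsupp.linearCombination k (fun ij : ℕ × ℕ => y ^ ij.1 * x ^ ij.2) s := by
  rw [Finsupp.linearCombination_apply]
  unfold mon
  apply Finsupp.sum_congr
  intro ij _
  rw [Algebra.smul_def]

lemma mon_mem (s : ℕ × ℕ →₀ k) : ∃ d, mon (algebraMap k D) x y s ∈ V k x y d := by
  refine ⟨s.support.sup (fun ij => max ij.1 ij.2), ?_⟩
  rw [mon_eq, Finsupp.linearCombination_apply]
  apply Submodule.sum_mem
  intro ij hij
  apply Submodule.smul_mem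
  apply Submodule.subset_span
  refine ⟨ij, ?_, rfl⟩
  rw [Finset.mem_coe, mem_box]
  have h1 : max ij.1 ij.2 ≤ s.support.sup (fun ij => max ij.1 ij.2) :=
    Finset.le_sup (f := fun ij : ℕ × ℕ => max ij.1 ij.2) hij
  constructor
  · exact (le_max_left _ _).trans h1
  · exact (le_max_right _ _).trans h1

lemma exists_mon {n : ℕ} {a : D} (ha : a ∈ V k x y n) :
    ∃ s : ℕ × ℕ →₀ k, a = mon (algebraMap k D) x y s := by
  unfold V at ha
  rw [Finsupp.mem_span_image_iff_linearCombination] at ha
  obtain ⟨s, _, hs⟩ := ha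
  exact ⟨s, by rw [mon_eq, hs]⟩

lemma finrank_le (n : ℕ) : Module.finrank k (V k x y n) ≤ (n + 1) ^ 2 := by
  classical
  have h1 : V k x y n = Submodule.span k
      (((box n).image (fun ij : ℕ × ℕ => y ^ ij.1 * x ^ ij.2) : Finset D) : Set D) := by
    unfold V
    rw [Finset.coe_image]
  rw [h1]
  refine (finrank_span_finset_le_card _).trans ?_
  refine Finset.card_image_le.trans ?_
  rw [card_box]

instance fin_V (n : ℕ) : Module.Finite k (V k x y n) := by
  unfold V
  exact Module.Finite.span_of_finite k (Set.Finite.image _ (Finset.finite_toSet _))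

lemma finrank_eq (hind : LinearIndependent k (fun ij : ℕ × ℕ => y ^ ij.1 * x ^ ij.2)) (n : ℕ) :
    Module.finrank k (V k x y n) = (n + 1) ^ 2 := by
  classical
  have h1 : V k x y n = Submodule.span k
      (Set.range (fun ij : (box n : Finset (ℕ × ℕ)) => y ^ (ij : ℕ × ℕ).1 * x ^ (ij : ℕ × ℕ).2)) := by
    unfold V
    congr 1
    ext d
    constructor
    · rintro ⟨ij, hij, rfl⟩
      exact ⟨⟨ij, hij⟩, rfl⟩
    · rintro ⟨ij, rfl⟩
      exact ⟨ij, ij.2, rfl⟩
  have h2 : LinearIndependent k
      (fun ij : (box n : Finset (ℕ × ℕ)) => y ^ (ij : ℕ × ℕ).1 * x ^ (ij : ℕ × ℕ).2) :=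
    hind.comp (fun ij : (box n : Finset (ℕ × ℕ)) => (ij : ℕ × ℕ)) Subtype.val_injective
  rw [h1, finrank_span_eq_card h2, Fintype.card_coe, card_box]

variable {x y}

lemma mul_mem_V {q : kˣ} (hxy : x * y = algebraMap k D q * (y * x)) {n m : ℕ} {a b : D}
    (ha : a ∈ V k x y n) (hb : b ∈ V k x y m) : a * b ∈ V k x y (n + m) := by
  have hx : ∀ c : k, algebraMap k D c * x = x * algebraMap k D c := fun c => Algebra.commutes c x
  have hy : ∀ c : k, algebraMap k D c * y = y * algebraMap k D c := fun c => Algebra.commutes c y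
  unfold V at ha
  induction ha using Submodule.span_induction with
  | mem a ha =>
    obtain ⟨⟨i, j⟩, hij, rfl⟩ := ha
    unfold V at hb
    induction hb using Submodule.span_induction with
    | mem b hb =>
      obtain ⟨⟨u, v⟩, huv, rfl⟩ := hb
      have h1 := PolyAux.single_mul (algebraMap k D) hx hy hxy i j u v 1 1
      rw [PolyAux.mon_single, PolyAux.mon_single, PolyAux.mon_single, map_one, one_mul, one_mul]
        at h1
      simp only at h1 ⊢
      rw [h1, ← Algebra.smul_def]
      apply Submodule.smul_mem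
      apply Submodule.subset_span
      refine ⟨(i + u, j + v), ?_, rfl⟩
      rw [Finset.mem_coe, mem_box] at hij huv ⊢
      simp only at hij huv ⊢
      omega
    | zero => rw [mul_zero]; exact Submodule.zero_mem _
    | add b c _ _ hb hc => rw [mul_add]; exact Submodule.add_mem _ hb hc
    | smul c b _ hb => rw [mul_smul_comm]; exact Submodule.smul_mem _ _ hb
  | zero => rw [zero_mul]; exact Submodule.zero_mem _
  | add a c _ _ ha hc => rw [add_mul]; exact Submodule.add_mem _ ha hc
  | smul c a _ ha => rw [smul_mul_assoc]; exact Submodule.smul_mem _ _ ha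

end one

end OreCondAux

open OreCondAux in
/-- N1d. Ore condition for quantum polynomials (dimension count). -/
theorem stOreCond (hI : StIndep) : StOreCond := by
  intro k D _ _ _ q x y hx0 hy0 hxy hroot p s hs
  have hind : LinearIndependent k (fun ij : ℕ × ℕ => y ^ ij.1 * x ^ ij.2) := by
    rw [linearIndependent_iff]
    intro l hl
    rw [← mon_eq] at hl
    exact hI k D q x y hx0 hy0 hxy hroot l hl
  have hS0 : mon (algebraMap k D) x y s ≠ 0 := by
    intro h
    exact hs (hI k D q x y hx0 hy0 hxy hroot s h)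
  set P := mon (algebraMap k D) x y p with hP
  set S := mon (algebraMap k D) x y s with hS
  obtain ⟨d1, hd1⟩ := mon_mem x y p
  obtain ⟨d2, hd2⟩ := mon_mem x y s
  set d := max d1 d2 with hd
  have hPd : P ∈ V k x y d := V_mono x y (le_max_left _ _) hd1
  have hSd : S ∈ V k x y d := V_mono x y (le_max_right _ _) hd2
  set n := 3 * d + 3 with hn
  let L0 : (V k x y n × V k x y n) →ₗ[k] D :=
    ((LinearMap.mulLeft k P).comp (V k x y n).subtype).comp (LinearMap.fst k _ _) -
    ((LinearMap.mulLeft k S).comp (V k x y n).subtype).comp (LinearMap.snd k _ _)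
  have hL0 : ∀ c, L0 c = P * (c.1 : D) - S * (c.2 : D) := fun c => rfl
  have hmem : ∀ c, L0 c ∈ V k x y (d + n) := by
    intro c
    rw [hL0]
    exact Submodule.sub_mem _ (mul_mem_V hxy hPd c.1.2) (mul_mem_V hxy hSd c.2.2)
  let L : (V k x y n × V k x y n) →ₗ[k] V k x y (d + n) := L0.codRestrict _ hmem
  have hker : ∃ c : V k x y n × V k x y n, c ≠ 0 ∧ P * (c.1 : D) = S * (c.2 : D) := by
    by_contra hcon
    push Not at hcon
    have hinj : Function.Injective L := by
      rw [injective_iff_map_eq_zero]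
      intro c hc
      by_contra hc0
      apply hcon c hc0
      have h1 : ((L c : V k x y (d + n)) : D) = 0 := by rw [hc]; rfl
      have h2 : ((L c : V k x y (d + n)) : D) = P * (c.1 : D) - S * (c.2 : D) := rfl
      rw [h2] at h1
      exact sub_eq_zero.1 h1
    have h3 := LinearMap.finrank_le_finrank_of_injective hinj
    rw [Module.finrank_prod, finrank_eq x y hind, finrank_eq x y hind] at h3
    rw [hn] at h3
    nlinarith
  obtain ⟨⟨a, b⟩, hne, hab⟩ := hker
  simp only at hab
  obtain ⟨s', hs'⟩ := exists_mon x y a.2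
  obtain ⟨p', hp'⟩ := exists_mon x y b.2
  refine ⟨p', s', ?_, ?_⟩
  · intro h0
    apply hne
    have ha : (a : D) = 0 := by
      rw [hs', h0, PolyAux.mon_zero]
    rw [ha, mul_zero] at hab
    have hb : (b : D) = 0 := by
      rcases mul_eq_zero.1 hab.symm with h | h
      · exact absurd h hS0
      · exact h
    rw [Prod.mk_eq_zero]
    exact ⟨Subtype.ext ha, Subtype.ext hb⟩
  · rw [← hs', ← hp']
    exact hab

end QD
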