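import Pool.Agent.Lib.QD.St

/-!
Project QD: module OreHom, Ore extension of a homomorphism.
-/

set_option autoImplicit false

namespace QD

namespace OreHomAux

variable {Δ Δ' : Type} [DivisionRing Δ] [DivisionRing Δ'] {P : Subring Δ}

/-- The graph of the extension: the pairs `(p s⁻¹, h(p) h(s)⁻¹)` with `h(s) ≠ 0`. -/
def graph (h : P →+* Δ')
    (hO : ∀ p s : P, h s ≠ 0 → ∃ p' s' : P, h s' ≠ 0 ∧ p * s' = s * p') : Subring (Δ × Δ') where
  carrier := {x | ∃ p s : P, h s ≠ 0 ∧ x.1 * (s : Δ) = p ∧ x.2 * h s = h p}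
  mul_mem' := by
    rintro x y ⟨p1, s1, h1, a1, b1⟩ ⟨p2, s2, h2, a2, b2⟩
    obtain ⟨p', s', hs', e⟩ := hO p2 s1 h1
    have e1 : (p2 : Δ) * s' = s1 * p' := by
      have := congrArg (fun z : P => (z : Δ)) e
      simpa using this
    have e2 : h p2 * h s' = h s1 * h p' := by
      rw [← map_mul, ← map_mul, e]
    refine ⟨p1 * p', s2 * s', ?_, ?_, ?_⟩
    · rw [map_mul]
      exact mul_ne_zero h2 hs'
    · rw [Prod.fst_mul, Subring.coe_mul, Subring.coe_mul]
      calc x.1 * y.1 * ((s2 : Δ) * s') = x.1 * (y.1 * s2) * s' := by simp only [mul_assoc]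
        _ = x.1 * ((p2 : Δ) * s') := by rw [a2, mul_assoc]
        _ = x.1 * (s1 : Δ) * p' := by rw [e1, mul_assoc]
        _ = p1 * p' := by rw [a1]
    · rw [Prod.snd_mul, map_mul, map_mul]
      calc x.2 * y.2 * (h s2 * h s') = x.2 * (y.2 * h s2) * h s' := by simp only [mul_assoc]
        _ = x.2 * (h p2 * h s') := by rw [b2, mul_assoc]
        _ = x.2 * h s1 * h p' := by rw [e2, mul_assoc]
        _ = h p1 * h p' := by rw [b1]
  one_mem' := by
    refine ⟨1, 1, ?_, ?_, ?_⟩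
    · rw [map_one]
      exact one_ne_zero
    · simp
    · simp
  add_mem' := by
    rintro x y ⟨p1, s1, h1, a1, b1⟩ ⟨p2, s2, h2, a2, b2⟩
    obtain ⟨p', s', hs', e⟩ := hO s1 s2 h2
    have e1 : (s1 : Δ) * s' = s2 * p' := by
      have := congrArg (fun z : P => (z : Δ)) e
      simpa using this
    have e2 : h s1 * h s' = h s2 * h p' := by
      rw [← map_mul, ← map_mul, e]
    refine ⟨p1 * s' + p2 * p', s1 * s', ?_, ?_, ?_⟩
    · rw [map_mul]
      exact mul_ne_zero h1 hs'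
    · rw [Prod.fst_add, Subring.coe_mul, Subring.coe_add, Subring.coe_mul, Subring.coe_mul, add_mul]
      congr 1
      · rw [← mul_assoc, a1]
      · rw [e1, ← mul_assoc, a2]
    · rw [Prod.snd_add, map_mul, map_add, map_mul, map_mul, add_mul]
      congr 1
      · rw [← mul_assoc, b1]
      · rw [e2, ← mul_assoc, b2]
  zero_mem' := by
    refine ⟨0, 1, ?_, ?_, ?_⟩
    · rw [map_one]
      exact one_ne_zero
    · simp
    · simp
  neg_mem' := by
    rintro x ⟨p, s, h1, a, b⟩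
    refine ⟨-p, s, h1, ?_, ?_⟩
    · rw [Prod.fst_neg, neg_mul, a, Subring.coe_neg]
    · rw [Prod.snd_neg, neg_mul, b, map_neg]

lemma graph_zero (h : P →+* Δ')
    (hO : ∀ p s : P, h s ≠ 0 → ∃ p' s' : P, h s' ≠ 0 ∧ p * s' = s * p') {e : Δ'}
    (he : ((0, e) : Δ × Δ') ∈ graph h hO) : e = 0 := by
  obtain ⟨p, s, h1, a, b⟩ := he
  have hp : p = 0 := by
    apply Subtype.ext
    have a' : (0 : Δ) * (s : Δ) = p := a
    rw [zero_mul] at a'
    rw [← a']
    rfl
  have b' : e * h s = h p := b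
  rw [hp, map_zero] at b'
  exact (mul_eq_zero.1 b').resolve_right h1

lemma graph_uniq (h : P →+* Δ')
    (hO : ∀ p s : P, h s ≠ 0 → ∃ p' s' : P, h s' ≠ 0 ∧ p * s' = s * p') {d : Δ} {e e' : Δ'}
    (he : ((d, e) : Δ × Δ') ∈ graph h hO) (he' : ((d, e') : Δ × Δ') ∈ graph h hO) : e = e' := by
  have h1 := (graph h hO).sub_mem he he'
  have h2 : ((d, e) : Δ × Δ') - (d, e') = (0, e - e') := by
    rw [Prod.mk_sub_mk, sub_self]
  rw [h2] at h1
  exact sub_eq_zero.1 (graph_zero h hO h1)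

end OreHomAux

open OreHomAux in
/-- Module OreHom. -/
theorem stOreHom : StOreHom := by
  classical
  intro Δ Δ' _ _ P h hO
  set G := graph h hO with hG
  set R : Subring Δ := G.map (RingHom.fst Δ Δ') with hR
  have hex : ∀ u : R, ∃ e : Δ', ((u : Δ), e) ∈ G := by
    rintro ⟨u, hu⟩
    rw [hR, Subring.mem_map] at hu
    obtain ⟨⟨a, b⟩, hab, rfl⟩ := hu
    exact ⟨b, hab⟩
  choose H hH using hex
  have huq : ∀ (u : R) (e : Δ'), ((u : Δ), e) ∈ G → H u = e := fun u e he =>
    graph_uniq h hO (hH u) he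
  refine ⟨R, { toFun := H
               map_one' := huq 1 1 G.one_mem
               map_mul' := fun u v => huq _ _ (G.mul_mem (hH u) (hH v))
               map_zero' := huq 0 0 G.zero_mem
               map_add' := fun u v => huq _ _ (G.add_mem (hH u) (hH v)) }, ?_, ?_, ?_⟩
  · intro d
    constructor
    · intro hd
      obtain ⟨p, s, h1, a, -⟩ := hH ⟨d, hd⟩
      exact ⟨p, s, h1, a⟩
    · rintro ⟨p, s, h1, a⟩
      rw [hR, Subring.mem_map]
      refine ⟨(d, h p * (h s)⁻¹), ⟨p, s, h1, a, ?_⟩, rfl⟩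
      exact inv_mul_cancel_right₀ h1 (h p)
  · intro p hp
    refine huq ⟨p, hp⟩ (h p) ⟨p, 1, ?_, ?_, ?_⟩
    · rw [map_one]
      exact one_ne_zero
    · simp
    · simp
  · intro u hu
    have hu' : H u ≠ 0 := hu
    obtain ⟨p, s, h1, a, b⟩ := hH u
    have a' : (u : Δ) * (s : Δ) = p := a
    have b' : H u * h s = h p := b
    have hp : h p ≠ 0 := by
      rw [← b']
      exact mul_ne_zero hu' h1
    have hu0 : (u : Δ) ≠ 0 := by
      intro h0
      apply hp
      have : p = 0 := by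
        apply Subtype.ext
        rw [← a', h0, zero_mul]
        rfl
      rw [this, map_zero]
    refine Subring.mem_map.2 ⟨((u : Δ)⁻¹, h s * (h p)⁻¹), ⟨s, p, hp, ?_, ?_⟩, rfl⟩
    · rw [← a']
      exact inv_mul_cancel_left₀ hu0 (s : Δ)
    · exact inv_mul_cancel_right₀ hp (h s)

end QD
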