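import Pool.Agent.Lib.QD.St2

/-!
Project QD, module PlaceL: real places from embeddings into Laurent series.
-/

namespace QD

open Polynomial

namespace PlaceLAux

open PowerSeries LaurentSeries

variable {k : Type} [Field k] (f : k →+* LaurentSeries ℝ)

/-- the elements without negative terms -/
noncomputable def O : ValuationSubring k :=
  (Valued.v (R := LaurentSeries ℝ) (Γ₀ := WithZero (Multiplicative ℤ))).valuationSubring.comap f

variable {f}

theorem mem_O {a : k} : a ∈ O f ↔ ∃ F : PowerSeries ℝ, (F : LaurentSeries ℝ) = f a := by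
  unfold O
  rw [ValuationSubring.mem_comap, Valuation.mem_valuationSubring_iff]
  exact LaurentSeries.val_le_one_iff_eq_coe ℝ (f a)

theorem coeff_zero (F : PowerSeries ℝ) :
    (F : LaurentSeries ℝ).coeff 0 = PowerSeries.constantCoeff F := by
  have h := LaurentSeries.coeff_coe_powerSeries F 0
  rw [Nat.cast_zero] at h
  rw [h, PowerSeries.coeff_zero_eq_constantCoeff]

variable (f)

/-- the constant coefficient -/
noncomputable def rho : O f →+* ℝ where
  toFun a := (f a).coeff 0
  map_one' := by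
    rw [OneMemClass.coe_one, map_one, HahnSeries.coeff_one, if_pos rfl]
  map_zero' := by
    rw [ZeroMemClass.coe_zero, map_zero, HahnSeries.coeff_zero]
  map_add' a b := by
    rw [AddMemClass.coe_add, map_add, HahnSeries.coeff_add]
  map_mul' a b := by
    obtain ⟨F, hF⟩ := mem_O.1 a.2
    obtain ⟨G, hG⟩ := mem_O.1 b.2
    rw [MulMemClass.coe_mul, map_mul, ← hF, ← hG, ← PowerSeries.coe_mul, coeff_zero, coeff_zero,
      coeff_zero, map_mul]

theorem rho_apply (a : O f) : rho f a = (f a).coeff 0 := rfl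

end PlaceLAux

open PlaceLAux in
theorem stPlaceL : StPlaceL := by
  intro k _ q f g hg hg1
  have hq : (q : k) ∈ O f := mem_O.2 ⟨g, hg.symm⟩
  refine ⟨⟨O f, rho f, ?_, hq, ?_⟩⟩
  · intro a ha
    obtain ⟨F, hF⟩ := mem_O.1 a.2
    rw [rho_apply, ← hF, coeff_zero] at ha
    have h1 : F * F⁻¹ = 1 := PowerSeries.mul_inv_cancel F ha
    have h2 : f a * ((F⁻¹ : PowerSeries ℝ) : LaurentSeries ℝ) = 1 := by
      rw [← hF, ← PowerSeries.coe_mul, h1, PowerSeries.coe_one]
    have h3 : (a : k) ≠ 0 := by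
      intro h4
      rw [h4, map_zero, zero_mul] at h2
      exact zero_ne_one h2
    have h4 : f (a : k)⁻¹ = ((F⁻¹ : PowerSeries ℝ) : LaurentSeries ℝ) := by
      rw [map_inv₀]
      exact inv_eq_of_mul_eq_one_right h2
    have h5 : (a : k)⁻¹ ∈ O f := mem_O.2 ⟨F⁻¹, h4.symm⟩
    refine IsUnit.of_mul_eq_one ⟨(a : k)⁻¹, h5⟩ ?_
    apply Subtype.ext
    rw [MulMemClass.coe_mul, OneMemClass.coe_one]
    exact mul_inv_cancel₀ h3
  · rw [rho_apply]
    change (f (q : k)).coeff 0 = 1
    rw [hg, coeff_zero, hg1]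

end QD
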