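import Pool.Agent.Lib.QD.St2

/-!
Project QD, module PlaceO: real places of ordered fields.
-/

set_option autoImplicit false

namespace QD

open ArchimedeanClass

namespace PlaceOAux

variable {k : Type} [Field k] [LinearOrder k] [IsStrictOrderedRing k]

/-- the finite elements -/
noncomputable def fo (k : Type) [Field k] [LinearOrder k] [IsStrictOrderedRing k] :
    ValuationSubring k := (addValuation k).toValuation.valuationSubring

theorem mem_fo (x : k) : x ∈ fo k ↔ 0 ≤ mk x := Iff.rfl

/-- the standard part -/
noncomputable def st (k : Type) [Field k] [LinearOrder k] [IsStrictOrderedRing k] :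
    fo k →+* ℝ where
  toFun x := stdPart (x : k)
  map_one' := stdPart_one
  map_zero' := stdPart_zero
  map_mul' x y := stdPart_mul ((mem_fo _).1 x.2) ((mem_fo _).1 y.2)
  map_add' x y := stdPart_add ((mem_fo _).1 x.2) ((mem_fo _).1 y.2)

theorem st_apply (x : fo k) : st k x = stdPart (x : k) := rfl

theorem unit_of (x : fo k) (h : st k x ≠ 0) : IsUnit x := by
  have h1 : mk (x : k) = 0 := by
    by_contra hc
    exact h (stdPart_of_mk_ne_zero hc)
  exact (FiniteElement.isUnit_iff_mk_eq_zero (x := x)).2 h1

end PlaceOAux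

open PlaceOAux in
/-- Module PlaceO. -/
theorem stPlaceO : StPlaceO := by
  intro k _ _ _ q hq
  have h1 : 0 < mk ((q : k) - 1) := by
    have h2 : mk (1 : k) < mk ((q : k) - 1) := by
      rw [mk_lt_mk]
      intro n
      rw [abs_one, nsmul_eq_mul]
      rcases Nat.eq_zero_or_pos n with hn | hn
      · rw [hn, Nat.cast_zero, zero_mul]
        exact zero_lt_one
      · have h3 := hq n hn
        rwa [lt_div_iff₀ (by exact_mod_cast hn : (0 : k) < n), mul_comm] at h3
    rwa [mk_one] at h2
  have h2 : stdPart (q : k) = 1 := by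
    have h3 := stdPart_add_eq_right (y := (1 : k)) h1
    rwa [sub_add_cancel, stdPart_one] at h3
  have h3 : (q : k) ∈ fo k := by
    rw [mem_fo]
    by_contra hc
    rw [stdPart_of_mk_ne_zero (fun h => hc h.ge)] at h2
    exact zero_ne_one h2
  exact ⟨⟨fo k, st k, unit_of, h3, h2⟩⟩

end QD
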