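import Pool.Agent.Lib.QD.St

/-!
Project QD: homomorphisms defined on quantum polynomials with coefficients in a subring (N1c).
-/

namespace QD

namespace PolyAux

section one

variable {A R : Type} [CommRing A] [Ring R] (ρ : A →+* R) (x y : R)

lemma mon_zero : mon ρ x y 0 = 0 := by
  simp [mon]

lemma mon_add (s t : ℕ × ℕ →₀ A) : mon ρ x y (s + t) = mon ρ x y s + mon ρ x y t := by
  unfold mon
  exact Finsupp.sum_add_index' (by simp) (by intro a b c; rw [map_add, add_mul])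

lemma mon_single (ij : ℕ × ℕ) (a : A) :
    mon ρ x y (Finsupp.single ij a) = ρ a * (y ^ ij.1 * x ^ ij.2) := by
  unfold mon
  exact Finsupp.sum_single_index (by simp)

lemma mon_neg (s : ℕ × ℕ →₀ A) : mon ρ x y (-s) = - mon ρ x y s := by
  have h := mon_add ρ x y s (-s)
  rw [add_neg_cancel, mon_zero] at h
  exact (neg_eq_of_add_eq_zero_right h.symm).symm

variable {q : A} {x y}

lemma x_ypow (_hx : ∀ a, ρ a * x = x * ρ a) (hy : ∀ a, ρ a * y = y * ρ a)
    (hq : x * y = ρ q * (y * x)) (k : ℕ) : x * y ^ k = ρ (q ^ k) * (y ^ k * x) := by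
  induction k with
  | zero => simp
  | succ k ih =>
    have hc : Commute (ρ q) (y ^ k) := Commute.pow_right (hy q) k
    calc x * y ^ (k + 1) = x * y ^ k * y := by rw [pow_succ, mul_assoc]
      _ = ρ (q ^ k) * (y ^ k * (x * y)) := by rw [ih]; simp only [mul_assoc]
      _ = ρ (q ^ k) * ((y ^ k * ρ q) * (y * x)) := by rw [hq]; simp only [mul_assoc]
      _ = ρ (q ^ k) * ((ρ q * y ^ k) * (y * x)) := by rw [hc.eq]
      _ = ρ (q ^ (k + 1)) * (y ^ (k + 1) * x) := by
          rw [pow_succ, pow_succ, map_mul]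
          simp only [mul_assoc]

lemma xpow_ypow (hx : ∀ a, ρ a * x = x * ρ a) (hy : ∀ a, ρ a * y = y * ρ a)
    (hq : x * y = ρ q * (y * x)) (j k : ℕ) :
    x ^ j * y ^ k = ρ (q ^ (j * k)) * (y ^ k * x ^ j) := by
  induction j with
  | zero => simp
  | succ j ih =>
    calc x ^ (j + 1) * y ^ k = x * (x ^ j * y ^ k) := by rw [pow_succ', mul_assoc]
      _ = (x * ρ (q ^ (j * k))) * (y ^ k * x ^ j) := by rw [ih, mul_assoc]
      _ = ρ (q ^ (j * k)) * ((x * y ^ k) * x ^ j) := by rw [← hx]; simp only [mul_assoc]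
      _ = ρ (q ^ (j * k)) * (ρ (q ^ k) * (y ^ k * x) * x ^ j) := by
          rw [x_ypow ρ hx hy hq]
      _ = ρ (q ^ ((j + 1) * k)) * (y ^ k * x ^ (j + 1)) := by
          rw [add_mul, one_mul, pow_add, map_mul, pow_succ']
          simp only [mul_assoc]

lemma single_mul (hx : ∀ a, ρ a * x = x * ρ a) (hy : ∀ a, ρ a * y = y * ρ a)
    (hq : x * y = ρ q * (y * x)) (i j k l : ℕ) (a b : A) :
    mon ρ x y (Finsupp.single (i, j) a) * mon ρ x y (Finsupp.single (k, l) b) =
      mon ρ x y (Finsupp.single (i + k, j + l) (a * b * q ^ (j * k))) := by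
  rw [mon_single, mon_single, mon_single]
  have h1 : Commute (ρ b) (y ^ i * x ^ j) :=
    Commute.mul_right (Commute.pow_right (hy b) i) (Commute.pow_right (hx b) j)
  have h2 : Commute (ρ (q ^ (j * k))) (y ^ i) := Commute.pow_right (hy _) i
  calc ρ a * (y ^ i * x ^ j) * (ρ b * (y ^ k * x ^ l))
      = ρ a * ((y ^ i * x ^ j) * ρ b) * (y ^ k * x ^ l) := by simp only [mul_assoc]
    _ = ρ a * ρ b * (y ^ i * (x ^ j * y ^ k) * x ^ l) := by
        rw [← h1.eq]
        simp only [mul_assoc]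
    _ = ρ a * ρ b * ((y ^ i * ρ (q ^ (j * k))) * (y ^ k * x ^ j) * x ^ l) := by
        rw [xpow_ypow ρ hx hy hq]
        simp only [mul_assoc]
    _ = ρ (a * b * q ^ (j * k)) * (y ^ (i + k) * x ^ (j + l)) := by
        rw [← h2.eq, map_mul, map_mul, pow_add, pow_add]
        simp only [mul_assoc]

end one

/-- products of quantum polynomials, simultaneously in two rings -/
lemma exists_mul {A R R' : Type} [CommRing A] [Ring R] [Ring R'] (ρ : A →+* R) (ρ' : A →+* R')
    {q : A} {x y : R} {x' y' : R'}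
    (hx : ∀ a, ρ a * x = x * ρ a) (hy : ∀ a, ρ a * y = y * ρ a) (hq : x * y = ρ q * (y * x))
    (hx' : ∀ a, ρ' a * x' = x' * ρ' a) (hy' : ∀ a, ρ' a * y' = y' * ρ' a)
    (hq' : x' * y' = ρ' q * (y' * x')) (s t : ℕ × ℕ →₀ A) :
    ∃ u : ℕ × ℕ →₀ A, mon ρ x y s * mon ρ x y t = mon ρ x y u ∧
      mon ρ' x' y' s * mon ρ' x' y' t = mon ρ' x' y' u := by
  induction s using Finsupp.induction_linear with
  | zero => exact ⟨0, by simp [mon_zero], by simp [mon_zero]⟩
  | add s₁ s₂ h₁ h₂ =>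
    obtain ⟨u₁, h1, h1'⟩ := h₁
    obtain ⟨u₂, h2, h2'⟩ := h₂
    exact ⟨u₁ + u₂, by rw [mon_add, mon_add, add_mul, h1, h2],
      by rw [mon_add, mon_add, add_mul, h1', h2']⟩
  | single ij a =>
    induction t using Finsupp.induction_linear with
    | zero => exact ⟨0, by simp [mon_zero], by simp [mon_zero]⟩
    | add t₁ t₂ h₁ h₂ =>
      obtain ⟨u₁, h1, h1'⟩ := h₁
      obtain ⟨u₂, h2, h2'⟩ := h₂
      exact ⟨u₁ + u₂, by rw [mon_add, mon_add, mul_add, h1, h2],
        by rw [mon_add, mon_add, mul_add, h1', h2']⟩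
    | single kl b =>
      obtain ⟨i, j⟩ := ij
      obtain ⟨k, l⟩ := kl
      exact ⟨_, single_mul ρ hx hy hq i j k l a b, single_mul ρ' hx' hy' hq' i j k l a b⟩

end PolyAux

open PolyAux in
/-- N1c. Homomorphisms defined on quantum polynomials with coefficients in a subring. -/
theorem stPoly (hI : StIndep) : StPoly := by
  intro k D R _ _ _ _ q x y hx0 hy0 hxy hroot A hq ρ x' y' hx' hy' hxy'
  set ι : A →+* D := (algebraMap k D).comp A.subtype with hι
  have hιx : ∀ (d : D) (a : A), ι a * d = d * ι a := fun d a => Algebra.commutes _ _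
  have hιq : x * y = ι ⟨q, hq⟩ * (y * x) := hxy
  -- injectivity
  have hinj : ∀ s t : ℕ × ℕ →₀ A, mon ι x y s = mon ι x y t → s = t := by
    intro s t h
    have h1 : mon ι x y (s + -t) = 0 := by
      rw [mon_add, mon_neg, h, add_neg_cancel]
    have h2 : mon (algebraMap k D) x y ((s + -t).mapRange (fun a : A => (a : k)) rfl) = 0 := by
      rw [← h1]
      unfold mon
      rw [Finsupp.sum_mapRange_index (by simp)]
      rfl
    have h3 := hI k D q x y hx0 hy0 hxy hroot _ h2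
    have h4 : s + -t = 0 := by
      ext ij
      have := DFunLike.congr_fun h3 ij
      simpa using this
    exact add_neg_eq_zero.mp h4
  have hmul : ∀ s t : ℕ × ℕ →₀ A, ∃ u : ℕ × ℕ →₀ A, mon ι x y s * mon ι x y t = mon ι x y u ∧
      mon ρ x' y' s * mon ρ x' y' t = mon ρ x' y' u :=
    exists_mul ι ρ (hιx x) (hιx y) hιq hx' hy' hxy'
  have hone : (1 : D) = mon ι x y (Finsupp.single (0, 0) 1) := by
    rw [mon_single]
    simp
  have hone' : (1 : R) = mon ρ x' y' (Finsupp.single (0, 0) 1) := by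
    rw [mon_single]
    simp
  let P : Subring D :=
    { carrier := {d | ∃ s : ℕ × ℕ →₀ A, d = mon ι x y s}
      mul_mem' := by
        rintro _ _ ⟨s, rfl⟩ ⟨t, rfl⟩
        obtain ⟨u, hu, -⟩ := hmul s t
        exact ⟨u, hu⟩
      one_mem' := ⟨_, hone⟩
      add_mem' := by
        rintro _ _ ⟨s, rfl⟩ ⟨t, rfl⟩
        exact ⟨s + t, (mon_add _ _ _ _ _).symm⟩
      zero_mem' := ⟨0, (mon_zero _ _ _).symm⟩
      neg_mem' := by
        rintro _ ⟨s, rfl⟩
        exact ⟨-s, (mon_neg _ _ _ _).symm⟩ }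
  let f : P → R := fun d => mon ρ x' y' d.2.choose
  have hf : ∀ (s : ℕ × ℕ →₀ A) (hs : mon ι x y s ∈ P), f ⟨_, hs⟩ = mon ρ x' y' s := by
    intro s hs
    have h1 := (⟨_, hs⟩ : P).2.choose_spec
    have h2 := hinj _ _ h1
    show mon ρ x' y' _ = _
    rw [← h2]
  have hf' : ∀ (d : P) (s : ℕ × ℕ →₀ A), (d : D) = mon ι x y s → f d = mon ρ x' y' s := by
    rintro ⟨d, hd⟩ s h
    subst h
    exact hf s hd
  refine ⟨P, ?_, fun d => Iff.rfl, ?_⟩
  · exact
      { toFun := f
        map_one' := (hf' 1 _ hone).trans hone'.symm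
        map_zero' := (hf' 0 0 (mon_zero _ _ _).symm).trans (mon_zero _ _ _)
        map_mul' := by
          rintro ⟨_, s, rfl⟩ ⟨_, t, rfl⟩
          obtain ⟨u, hu, hu'⟩ := hmul s t
          rw [hf' _ u hu, hf' _ s rfl, hf' _ t rfl, hu']
        map_add' := by
          rintro ⟨_, s, rfl⟩ ⟨_, t, rfl⟩
          rw [hf' _ (s + t) (mon_add _ _ _ _ _).symm, hf' _ s rfl, hf' _ t rfl, mon_add] }
  · intro s hs
    exact hf s hs

end QD

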