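import Pool.Agent.Lib.QD.CSt

/-!
Project QD, module Pos: good configurations have positive width and height.
-/

namespace QD

namespace PosAux

theorem q4_zero {b : Blk} (hb : b.1 = 0) (c : Blk) : q4 b c = 0 := by
  have h1 : us b.1 c.1 = 0 := by
    rw [hb]
    simp [us]
  have h2 : mb b c = 0 := by
    unfold mb
    rw [if_neg]
    rintro ⟨h3, -⟩
    have h4 := h3.2
    rw [hb] at h4
    simp at h4
  rw [q4, h1, h2]
  norm_num

theorem Q4_zero {e : Blk →₀ ℤ} (h : ∀ b : Blk, b.1 ≠ 0 → e b = 0) : Q4 e = 0 := by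
  unfold Q4 tot Finsupp.sum
  apply Finset.sum_eq_zero
  intro b hb
  have h1 : b.1 = 0 := by
    by_contra h2
    exact Finsupp.mem_support_iff.1 hb (h b h2)
  change e b * (∑ c ∈ e.support, e c * q4 b c) = 0
  rw [Finset.sum_eq_zero, mul_zero]
  intro c _
  rw [q4_zero h1, mul_zero]

end PosAux

open PosAux in
theorem stPos (hD : StDec) (hK : StKK) (hS : StSS) : StPos := by
  intro e he
  by_contra hn
  have h1 := hD e he.bal
  have h2 := hK e
  have h3 := he.q4
  have h4 : SS e ≤ 2 := by
    have h5 := not_lt.1 hn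
    linarith
  rw [Q4_zero (hS e he.bal he.real h4)] at h3
  norm_num at h3

end QD
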