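import Pool.Agent.Lib.QD.A3P

/-!
Project QD, module Q3K: the kernel of `Q4` under `X ↦ (Y - s)X`.
-/

namespace QD

namespace Q3KAux

open A3PAux

theorem us_comm (b c : ℤ × ℤ) : us b c = us c b := by
  unfold us wed
  rw [mul_comm c.1 b.1, mul_comm c.2 b.2, mul_comm c.1 b.2, mul_comm c.2 b.1,
    add_comm |b.2 * c.1|, abs_sub_comm (b.2 * c.1), mul_comm b.2 c.1, mul_comm b.1 c.2]

theorem ray_comm (b c : ℤ × ℤ) : ray b c ↔ ray c b := by
  unfold ray
  constructor <;> rintro ⟨h1, h2⟩ <;> exact ⟨by linarith, by linarith⟩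

theorem mb_comm (b c : Blk) : mb b c = mb c b := by
  unfold mb
  rw [min_comm]
  by_cases h : ray b.1 c.1 ∧ b.2 = c.2
  · rw [if_pos h, if_pos ⟨(ray_comm _ _).1 h.1, h.2.symm⟩]
  · rw [if_neg h, if_neg (fun h' => h ⟨(ray_comm _ _).1 h'.1, h'.2.symm⟩)]

theorem q4_comm (b c : Blk) : q4 b c = q4 c b := by
  unfold q4
  rw [us_comm, mb_comm]

theorem us_pos (b c : ℤ × ℤ) (h : 0 < b.2 * c.2) : us b c = 2 * |wed b c| - (|b.1 * c.2| + |b.2 * c.1|) := by
  unfold us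
  by_cases h1 : 0 < b.1 * c.1
  · rw [if_pos ⟨h1, h⟩]
  · rw [if_neg (fun h2 => h1 h2.1)]
    have h3 : (b.1 * c.2) * (b.2 * c.1) ≤ 0 := by
      have : (b.1 * c.2) * (b.2 * c.1) = (b.1 * c.1) * (b.2 * c.2) := by ring
      rw [this]
      exact mul_nonpos_of_nonpos_of_nonneg (not_lt.1 h1) h.le
    have h4 : |wed b c| = |b.1 * c.2| + |b.2 * c.1| := by
      unfold wed
      rcases mul_nonpos_iff.1 h3 with ⟨h5, h6⟩ | ⟨h5, h6⟩
      · rw [abs_of_nonneg h5, abs_of_nonpos h6, abs_of_nonneg (by linarith)]; ring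
      · rw [abs_of_nonpos h5, abs_of_nonneg h6, abs_of_nonpos (by linarith)]; ring
    rw [h4]
    ring

theorem us_neg (b c : ℤ × ℤ) (h : b.2 * c.2 ≤ 0) : us b c = |b.1 * c.2| + |b.2 * c.1| := by
  unfold us
  rw [if_neg (fun h2 => absurd h2.2 (not_lt.2 h))]

theorem mb_neg (b c : Blk) (hc : c.1.2 ≠ 0) (h : b.1.2 * c.1.2 ≤ 0) : mb b c = 0 := by
  unfold mb
  rw [if_neg (fun h2 => not_ray b.1 c.1 hc h h2.1)]

theorem mb_zz (b c : Blk) (hb : b.1.2 = 0) (hc : c.1.2 = 0) :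
    mb b c = if 0 < b.1.1 * c.1.1 ∧ b.2 = c.2 then min |b.1.1| |c.1.1| else 0 := by
  unfold mb
  have h1 : ray b.1 c.1 ↔ 0 < b.1.1 * c.1.1 := by
    unfold ray
    rw [hb, hc]
    simp
  have h2 : ∀ w : ℤ × ℤ, w.2 = 0 → gg w = |w.1| := by
    intro w hw
    unfold gg
    rw [hw, Int.gcd_zero_right, Int.abs_eq_natAbs]
  rw [h2 _ hb, h2 _ hc]
  by_cases h : 0 < b.1.1 * c.1.1 ∧ b.2 = c.2
  · rw [if_pos h, if_pos ⟨h1.2 h.1, h.2⟩]
  · rw [if_neg h, if_neg (fun h' => h ⟨h1.1 h'.1, h'.2⟩)]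

/-- two horizontal blocks on the same side have the same constant iff they have the same `sb` -/
theorem sb_eq_iff (b c : Blk) (h : 0 < b.1.1 * c.1.1) : b.2 = c.2 ↔ sb b = sb c := by
  unfold sb
  rcases lt_trichotomy 0 b.1.1 with hb | hb | hb
  · have hc : 0 < c.1.1 := by nlinarith
    rw [if_pos hb, if_pos hc, inv_inj]
  · rw [← hb] at h; simp at h
  · have hc : c.1.1 < 0 := by nlinarith
    rw [if_neg (by omega), if_neg (by omega)]

theorem mb_zz' (b c : Blk) (hb : b.1.2 = 0) (hc : c.1.2 = 0) :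
    mb b c = if 0 < b.1.1 * c.1.1 ∧ sb b = sb c then min |b.1.1| |c.1.1| else 0 := by
  rw [mb_zz b c hb hc]
  by_cases h : 0 < b.1.1 * c.1.1
  · simp only [h, true_and, sb_eq_iff b c h]
  · simp [h]

/-- the mixed term -/
noncomputable def FF (s : ℂ) (b : Blk) : ℤ := by
  classical exact
    if 0 < b.1.2 then -b.1.2
    else if b.1.2 < 0 then |b.1.1 + b.1.2| - |b.1.1|
    else if b.1.1 ≤ -1 ∧ sb b = s then 2 else 0

theorem us_plus (c : ℤ × ℤ) : us (1, 0) c = |c.2| := by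
  rw [us_neg _ _ (by simp)]
  simp

theorem us_plus' (c : ℤ × ℤ) : us c (1, 0) = |c.2| := by rw [us_comm, us_plus]

/-- `mb` with the new block -/
theorem mb_plus (s : ℂ) (c : Blk) (hc : c.1.2 ≠ 0) : mb ((1, 0), s⁻¹) c = 0 :=
  mb_neg _ _ hc (by simp)

theorem mb_plusz (s : ℂ) (c : Blk) (hc : c.1.2 = 0) :
    mb ((1, 0), s⁻¹) c = if 0 < c.1.1 ∧ sb c = s then 1 else 0 := by
  rw [mb_zz' _ _ rfl hc, sb_plus]
  simp only [one_mul, abs_one]
  by_cases h : 0 < c.1.1 ∧ sb c = s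
  · rw [if_pos h, if_pos ⟨h.1, h.2.symm⟩]
    rw [min_eq_left]
    rw [abs_of_pos h.1]
    exact h.1
  · rw [if_neg h, if_neg (fun h' => h ⟨h'.1, h'.2.symm⟩)]

/-- the defect -/
noncomputable def DD (s : ℂ) (b c : Blk) : ℤ :=
  q4 (al3 s b) (al3 s c) + zz s b * q4 ((1, 0), s⁻¹) (al3 s c) + zz s c * q4 (al3 s b) ((1, 0), s⁻¹)
      - 4 * (zz s b * zz s c) - q4 b c

theorem DD_comm (s : ℂ) (b c : Blk) : DD s b c = DD s c b := by
  unfold DD
  rw [q4_comm (al3 s b) (al3 s c), q4_comm (al3 s b) ((1, 0), s⁻¹), q4_comm b c,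
    q4_comm ((1, 0), s⁻¹) (al3 s c)]
  ring

theorem al3_pos (s : ℂ) (b : Blk) (h : 0 < b.1.2) : al3 s b = (b.1, b.2 * (-s) ^ (b.1.2 / gg b.1)) := by
  unfold al3; rw [if_pos h]

theorem al3_neg (s : ℂ) (b : Blk) (h : b.1.2 < 0) : al3 s b = ((b.1.1 + b.1.2, b.1.2), b.2) := by
  unfold al3; rw [if_neg (by omega), if_pos h]

theorem al3_zs (s : ℂ) (b : Blk) (h : b.1.2 = 0) (h1 : b.1.1 ≠ 0 ∧ sb b = s) :
    al3 s b = ((b.1.1 + 1, 0), if 0 < b.1.1 + 1 then s⁻¹ else s) := by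
  unfold al3; rw [if_neg (by omega), if_neg (by omega), if_pos h1]

theorem al3_zo (s : ℂ) (b : Blk) (h : b.1.2 = 0) (h1 : ¬ (b.1.1 ≠ 0 ∧ sb b = s)) : al3 s b = b := by
  unfold al3; rw [if_neg (by omega), if_neg (by omega), if_neg h1]

theorem zz_pos (s : ℂ) (b : Blk) (h : 0 < b.1.2) : zz s b = b.1.2 := by
  unfold zz; rw [if_neg (fun h' => by omega), max_eq_right h.le, sub_zero]

theorem zz_neg (s : ℂ) (b : Blk) (h : b.1.2 < 0) : zz s b = 0 := by
  unfold zz; rw [if_neg (fun h' => by omega), max_eq_left h.le, sub_zero]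

theorem zz_zs (s : ℂ) (b : Blk) (h : b.1.2 = 0) (h1 : b.1.1 ≠ 0 ∧ sb b = s) : zz s b = -1 := by
  unfold zz; rw [if_pos ⟨h, h1⟩, h]; simp

theorem zz_zo (s : ℂ) (b : Blk) (h : b.1.2 = 0) (h1 : ¬ (b.1.1 ≠ 0 ∧ sb b = s)) : zz s b = 0 := by
  unfold zz; rw [if_neg (fun h' => h1 h'.2), h]; simp

theorem FF_pos (s : ℂ) (b : Blk) (h : 0 < b.1.2) : FF s b = -b.1.2 := by
  unfold FF; rw [if_pos h]

theorem FF_neg (s : ℂ) (b : Blk) (h : b.1.2 < 0) : FF s b = |b.1.1 + b.1.2| - |b.1.1| := by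
  unfold FF; rw [if_neg (by omega), if_pos h]

theorem FF_z (s : ℂ) (b : Blk) (h : b.1.2 = 0) : FF s b = if b.1.1 ≤ -1 ∧ sb b = s then 2 else 0 := by
  unfold FF; rw [if_neg (by omega), if_neg (by omega)]

/-- same ray: same primitive vector -/
theorem ray_prim (b c : ℤ × ℤ) (hb : 0 < b.2) (hc : 0 < c.2) (h : ray b c) : b.2 / gg b = c.2 / gg c := by
  have h1 := h.1
  have hgb := gg_pos b hb.ne'
  have hgc := gg_pos c hc.ne'
  obtain ⟨b1, hb1⟩ := gg_dvd_left b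
  obtain ⟨b2, hb2⟩ := gg_dvd_right b
  obtain ⟨c1, hc1⟩ := gg_dvd_left c
  obtain ⟨c2, hc2⟩ := gg_dvd_right c
  have e1 : b.2 / gg b = b2 := by
    conv_lhs => rw [hb2]
    rw [Int.mul_ediv_cancel_left _ (by omega)]
  have e2 : c.2 / gg c = c2 := by
    conv_lhs => rw [hc2]
    rw [Int.mul_ediv_cancel_left _ (by omega)]
  rw [e1, e2]
  have hb2p : 0 < b2 := by nlinarith
  have hc2p : 0 < c2 := by nlinarith
  have copb : IsCoprime b1 b2 := by
    have h5 : Int.gcd b1 b2 = 1 := by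
      have h6 : Int.gcd b.1 b.2 = Int.gcd b.1 b.2 * Int.gcd b1 b2 := by
        conv_lhs => rw [hb1, hb2]
        rw [Int.gcd_mul_left]
        unfold gg
        simp
      have h7 : 0 < Int.gcd b.1 b.2 := Int.gcd_pos_of_ne_zero_right _ hb.ne'
      have h8 : Int.gcd b.1 b.2 * 1 = Int.gcd b.1 b.2 * Int.gcd b1 b2 := by rw [mul_one]; exact h6
      exact (Nat.eq_of_mul_eq_mul_left h7 h8).symm
    exact Int.isCoprime_iff_gcd_eq_one.2 h5
  have copc : IsCoprime c1 c2 := by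
    have h5 : Int.gcd c1 c2 = 1 := by
      have h6 : Int.gcd c.1 c.2 = Int.gcd c.1 c.2 * Int.gcd c1 c2 := by
        conv_lhs => rw [hc1, hc2]
        rw [Int.gcd_mul_left]
        unfold gg
        simp
      have h7 : 0 < Int.gcd c.1 c.2 := Int.gcd_pos_of_ne_zero_right _ hc.ne'
      have h8 : Int.gcd c.1 c.2 * 1 = Int.gcd c.1 c.2 * Int.gcd c1 c2 := by rw [mul_one]; exact h6
      exact (Nat.eq_of_mul_eq_mul_left h7 h8).symm
    exact Int.isCoprime_iff_gcd_eq_one.2 h5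
  have h9 : b1 * c2 = b2 * c1 := by
    rw [hb1, hb2, hc1, hc2] at h1
    have : (gg b * gg c) * (b1 * c2) = (gg b * gg c) * (b2 * c1) := by linarith
    exact mul_left_cancel₀ (by positivity) this
  have d1 : b2 ∣ c2 := by
    have : b2 ∣ b1 * c2 := ⟨c1, h9⟩
    exact copb.symm.dvd_of_dvd_mul_left this
  have d2 : c2 ∣ b2 := by
    have : c2 ∣ b2 * c1 := ⟨b1, by rw [← h9]; ring⟩
    rw [mul_comm] at this
    exact copc.symm.dvd_of_dvd_mul_left this
  exact Int.dvd_antisymm hb2p.le hc2p.le d1 d2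

theorem case_PP (s : ℂ) (hs : s ≠ 0) (b c : Blk) (hb : 0 < b.1.2) (hc : 0 < c.1.2) :
    DD s b c = b.1.2 * FF s c + c.1.2 * FF s b := by
  have h1 : mb (al3 s b) (al3 s c) = mb b c := by
    rw [al3_pos s b hb, al3_pos s c hc]
    unfold mb
    simp only
    by_cases hr : ray b.1 c.1
    · have h2 := ray_prim b.1 c.1 hb hc hr
      rw [h2]
      have h3 : b.2 * (-s) ^ (c.1.2 / gg c.1) = c.2 * (-s) ^ (c.1.2 / gg c.1) ↔ b.2 = c.2 :=
        mul_left_inj' (zpow_ne_zero _ (neg_ne_zero.2 hs))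
      simp only [h3]
    · rw [if_neg (fun h => hr h.1), if_neg (fun h => hr h.1)]
  have h2 : us (al3 s b).1 (al3 s c).1 = us b.1 c.1 := by
    rw [al3_pos s b hb, al3_pos s c hc]
  unfold DD q4
  rw [h1, h2, zz_pos s b hb, zz_pos s c hc, FF_pos s b hb, FF_pos s c hc,
    mb_comm (al3 s b) ((1, 0), s⁻¹), mb_plus s _ (by rw [al3_snd]; exact hc.ne'),
    mb_plus s _ (by rw [al3_snd]; exact hb.ne')]
  simp only [us_plus, us_plus', al3_snd]
  rw [abs_of_pos hb, abs_of_pos hc]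
  ring

theorem case_PN (s : ℂ) (b c : Blk) (hb : 0 < b.1.2) (hc : c.1.2 < 0) :
    DD s b c = b.1.2 * FF s c + c.1.2 * FF s b := by
  have hbc : b.1.2 * c.1.2 ≤ 0 := (mul_neg_of_pos_of_neg hb hc).le
  unfold DD q4
  rw [mb_neg (al3 s b) (al3 s c) (by rw [al3_snd]; exact hc.ne) (by rw [al3_snd, al3_snd]; exact hbc),
    mb_neg b c hc.ne hbc, zz_pos s b hb, zz_neg s c hc, FF_pos s b hb, FF_neg s c hc,
    mb_plus s _ (by rw [al3_snd]; exact hc.ne), us_neg _ _ hbc,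
    us_neg _ _ (by rw [al3_snd, al3_snd]; exact hbc), us_plus, al3_snd, al3_snd, al3_pos s b hb,
    al3_neg s c hc]
  simp only [abs_mul]
  rw [abs_of_pos hb, abs_of_neg hc]
  ring

theorem case_NN (s : ℂ) (b c : Blk) (hb : b.1.2 < 0) (hc : c.1.2 < 0) :
    DD s b c = b.1.2 * FF s c + c.1.2 * FF s b := by
  have hbc : 0 < b.1.2 * c.1.2 := mul_pos_of_neg_of_neg hb hc
  have h1 : mb (al3 s b) (al3 s c) = mb b c := by
    rw [al3_neg s b hb, al3_neg s c hc]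
    unfold mb
    simp only [gg_shear]
    have h2 : ray (b.1.1 + b.1.2, b.1.2) (c.1.1 + c.1.2, c.1.2) ↔ ray b.1 c.1 := by
      rw [ray_iff (b.1.1 + b.1.2, b.1.2) (c.1.1 + c.1.2, c.1.2) hbc, ray_iff b.1 c.1 hbc]
      constructor <;> intro h <;> simp only at * <;> linarith
    simp only [h2]
  unfold DD q4
  rw [h1, us_pos _ _ hbc, us_pos _ _ (by rw [al3_snd, al3_snd]; exact hbc), zz_neg s b hb, zz_neg s c hc,
    FF_neg s b hb, FF_neg s c hc, al3_neg s b hb, al3_neg s c hc]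
  unfold wed
  simp only [abs_mul]
  rw [abs_of_neg hb, abs_of_neg hc]
  have h3 : (b.1.1 + b.1.2) * c.1.2 - b.1.2 * (c.1.1 + c.1.2) = b.1.1 * c.1.2 - b.1.2 * c.1.1 := by ring
  rw [h3]
  ring

theorem case_Zo (s : ℂ) (b c : Blk) (hb : b.1.2 ≠ 0) (hc : c.1.2 = 0) (hc1 : ¬ (c.1.1 ≠ 0 ∧ sb c = s)) :
    DD s b c = b.1.2 * FF s c + c.1.2 * FF s b := by
  have h1 : FF s c = 0 := by
    rw [FF_z s c hc, if_neg (fun h => hc1 ⟨by omega, h.2⟩)]
  have h2 : ∀ b' : Blk, b'.1.2 ≠ 0 → mb b' c = 0 := fun b' hb' => by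
    rw [mb_comm]; exact mb_neg _ _ hb' (by rw [hc, zero_mul])
  have h3 : mb ((1, 0), s⁻¹) c = 0 := by
    rw [mb_plusz s c hc, if_neg (fun h => hc1 ⟨by omega, h.2⟩)]
  unfold DD q4
  rw [al3_zo s c hc hc1, zz_zo s c hc hc1, h1, hc, h2 _ hb, h2 _ (by rw [al3_snd]; exact hb), h3, us_plus, hc,
    us_neg b.1 c.1 (by rw [hc, mul_zero]), us_neg (al3 s b).1 c.1 (by rw [hc, mul_zero]), al3_snd, hc]
  simp

theorem case_Zs (s : ℂ) (b c : Blk) (hb : b.1.2 ≠ 0) (hc : c.1.2 = 0) (hc1 : c.1.1 ≠ 0 ∧ sb c = s) :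
    DD s b c = b.1.2 * FF s c + c.1.2 * FF s b := by
  have h2 : ∀ b' c' : Blk, b'.1.2 ≠ 0 → c'.1.2 = 0 → mb b' c' = 0 := fun b' c' hb' hc' => by
    rw [mb_comm]; exact mb_neg _ _ hb' (by rw [hc', zero_mul])
  have hac : (al3 s c).1.2 = 0 := by rw [al3_snd, hc]
  have hs1 : sb (al3 s c) = s := by
    rw [al3_zs s c hc hc1]
    unfold sb
    simp only
    split_ifs <;> simp
  have h3 : mb ((1, 0), s⁻¹) (al3 s c) = if 0 < c.1.1 + 1 then 1 else 0 := by
    rw [mb_plusz s _ hac, hs1, al3_zs s c hc hc1]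
    simp
  have h4 : mb (al3 s b) ((1, 0), s⁻¹) = 0 := h2 _ _ (by rw [al3_snd]; exact hb) rfl
  unfold DD q4
  rw [h2 b c hb hc, h2 _ _ (by rw [al3_snd]; exact hb) hac, h3, h4, us_plus, us_plus',
    us_neg b.1 c.1 (by rw [hc, mul_zero]), us_neg (al3 s b).1 (al3 s c).1 (by rw [hac, mul_zero]), hac,
    al3_snd s b, hc, zz_zs s c hc hc1, FF_z s c hc]
  have h5 : (al3 s c).1.1 = c.1.1 + 1 := by rw [al3_zs s c hc hc1]
  rw [h5]
  simp only [hc1.2, and_true, mul_zero, abs_zero, zero_mul, add_zero, zero_add, abs_mul]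
  rcases lt_or_gt_of_ne hc1.1 with hneg | hpos
  · rw [if_neg (by omega), if_pos (by omega), abs_of_nonpos (show c.1.1 + 1 ≤ 0 by omega), abs_of_neg hneg]
    rcases lt_or_gt_of_ne hb with hb' | hb'
    · rw [zz_neg s b hb', abs_of_neg hb']; ring
    · rw [zz_pos s b hb', abs_of_pos hb']; ring
  · rw [if_pos (by omega), if_neg (by omega), abs_of_pos (show 0 < c.1.1 + 1 by omega), abs_of_pos hpos]
    rcases lt_or_gt_of_ne hb with hb' | hb'
    · rw [zz_neg s b hb', abs_of_neg hb']; ring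
    · rw [zz_pos s b hb', abs_of_pos hb']; ring

theorem case_ZZ (s : ℂ) (b c : Blk) (hb : b.1.2 = 0) (hc : c.1.2 = 0) :
    DD s b c = b.1.2 * FF s c + c.1.2 * FF s b := by
  have hus : ∀ b' c' : Blk, b'.1.2 = 0 → c'.1.2 = 0 → us b'.1 c'.1 = 0 := fun b' c' h1 h2 => by
    rw [us_neg _ _ (by rw [h1, zero_mul]), h1, h2]; simp
  have hab : (al3 s b).1.2 = 0 := by rw [al3_snd, hb]
  have hac : (al3 s c).1.2 = 0 := by rw [al3_snd, hc]
  have hsb : ∀ b : Blk, b.1.2 = 0 → (b.1.1 ≠ 0 ∧ sb b = s) → sb (al3 s b) = s ∧ (al3 s b).1.1 = b.1.1 + 1 := by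
    intro b hb h
    rw [al3_zs s b hb h]
    refine ⟨?_, rfl⟩
    unfold sb
    simp only
    split_ifs <;> simp
  have hgoal : ∀ b c : Blk, b.1.2 = 0 → c.1.2 = 0 →
      mb (al3 s b) (al3 s c) + zz s b * mb ((1, 0), s⁻¹) (al3 s c) + zz s c * mb ((1, 0), s⁻¹) (al3 s b)
        + zz s b * zz s c - mb b c = 0 := by
    intro b c hb hc
    have hab : (al3 s b).1.2 = 0 := by rw [al3_snd, hb]
    have hac : (al3 s c).1.2 = 0 := by rw [al3_snd, hc]
    rw [mb_plusz s _ hac, mb_plusz s _ hab, mb_zz' _ _ hab hac, mb_zz' _ _ hb hc]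
    by_cases h1 : b.1.1 ≠ 0 ∧ sb b = s
    · by_cases h2 : c.1.1 ≠ 0 ∧ sb c = s
      · rw [zz_zs s b hb h1, zz_zs s c hc h2, (hsb b hb h1).1, (hsb c hc h2).1, (hsb b hb h1).2,
          (hsb c hc h2).2, h1.2, h2.2]
        simp only [and_true]
        rcases lt_or_gt_of_ne h1.1 with hb1 | hb1 <;> rcases lt_or_gt_of_ne h2.1 with hc1 | hc1
        · rw [if_neg (show ¬ 0 < c.1.1 + 1 by omega), if_neg (show ¬ 0 < b.1.1 + 1 by omega),
            if_pos (mul_pos_of_neg_of_neg hb1 hc1), abs_of_neg hb1, abs_of_neg hc1,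
            abs_of_nonpos (show b.1.1 + 1 ≤ 0 by omega), abs_of_nonpos (show c.1.1 + 1 ≤ 0 by omega)]
          by_cases h3 : 0 < (b.1.1 + 1) * (c.1.1 + 1)
          · rw [if_pos h3]
            omega
          · rw [if_neg h3]
            have h4 : b.1.1 + 1 = 0 ∨ c.1.1 + 1 = 0 := by
              by_contra h5
              push Not at h5
              exact h3 (mul_pos_of_neg_of_neg (by omega) (by omega))
            omega
        · rw [if_pos (show 0 < c.1.1 + 1 by omega), if_neg (show ¬ 0 < b.1.1 + 1 by omega),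
            if_neg (not_lt.2 (mul_neg_of_neg_of_pos hb1 hc1).le),
            if_neg (not_lt.2 (mul_nonpos_of_nonpos_of_nonneg (by omega) (by omega)))]
          ring
        · rw [if_neg (show ¬ 0 < c.1.1 + 1 by omega), if_pos (show 0 < b.1.1 + 1 by omega),
            if_neg (not_lt.2 (mul_neg_of_pos_of_neg hb1 hc1).le),
            if_neg (not_lt.2 (mul_nonpos_of_nonneg_of_nonpos (by omega) (by omega)))]
          ring
        · rw [if_pos (show 0 < c.1.1 + 1 by omega), if_pos (show 0 < b.1.1 + 1 by omega),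
            if_pos (mul_pos hb1 hc1), abs_of_pos hb1, abs_of_pos hc1,
            abs_of_pos (show 0 < b.1.1 + 1 by omega), abs_of_pos (show 0 < c.1.1 + 1 by omega),
            if_pos (mul_pos (show 0 < b.1.1 + 1 by omega) (show 0 < c.1.1 + 1 by omega))]
          omega
      · rw [zz_zs s b hb h1, zz_zo s c hc h2, (hsb b hb h1).1, (hsb b hb h1).2, h1.2,
          al3_zo s c hc h2]
        rcases eq_or_ne c.1.1 0 with hc1 | hc1
        · rw [hc1]; simp
        · have hne : sb c ≠ s := fun h => h2 ⟨hc1, h⟩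
          rw [if_neg (fun h => hne h.2.symm), if_neg (fun h => hne h.2),
            if_neg (show ¬ (0 < b.1.1 * c.1.1 ∧ s = sb c) from fun h => hne h.2.symm)]
          ring
    · by_cases h2 : c.1.1 ≠ 0 ∧ sb c = s
      · rw [zz_zo s b hb h1, zz_zs s c hc h2, (hsb c hc h2).1, (hsb c hc h2).2, h2.2,
          al3_zo s b hb h1]
        rcases eq_or_ne b.1.1 0 with hb1 | hb1
        · rw [hb1]; simp
        · have hne : sb b ≠ s := fun h => h1 ⟨hb1, h⟩
          rw [if_neg (fun h => hne h.2), if_neg (show ¬ (0 < b.1.1 ∧ sb b = s) from fun h => hne h.2),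
            if_neg (show ¬ (0 < b.1.1 * c.1.1 ∧ sb b = s) from fun h => hne h.2)]
          ring
      · rw [zz_zo s b hb h1, zz_zo s c hc h2, al3_zo s b hb h1, al3_zo s c hc h2]
        ring
  have h := hgoal b c hb hc
  unfold DD q4
  rw [hus _ _ hab hac, hus _ _ hb hc, us_plus, us_plus', hac, hab, hb, hc, mb_comm (al3 s b) ((1, 0), s⁻¹)]
  simp only [abs_zero, zero_mul, add_zero]
  linarith

end Q3KAux

open Q3KAux in
theorem stQ3K : StQ3K := by
  intro s hs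
  refine ⟨FF s, fun b c _ _ => ?_⟩
  change DD s b c = _
  rcases lt_trichotomy b.1.2 0 with hb | hb | hb <;> rcases lt_trichotomy c.1.2 0 with hc | hc | hc
  · exact case_NN s b c hb hc
  · by_cases h : c.1.1 ≠ 0 ∧ sb c = s
    · exact case_Zs s b c hb.ne hc h
    · exact case_Zo s b c hb.ne hc h
  · rw [DD_comm, case_PN s c b hc hb]; ring
  · rw [DD_comm]
    by_cases h : b.1.1 ≠ 0 ∧ sb b = s
    · rw [case_Zs s c b hc.ne hb h]; ring
    · rw [case_Zo s c b hc.ne hb h]; ring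
  · exact case_ZZ s b c hb hc
  · rw [DD_comm]
    by_cases h : b.1.1 ≠ 0 ∧ sb b = s
    · rw [case_Zs s c b hc.ne' hb h]; ring
    · rw [case_Zo s c b hc.ne' hb h]; ring
  · exact case_PN s b c hb hc
  · by_cases h : c.1.1 ≠ 0 ∧ sb c = s
    · exact case_Zs s b c hb.ne' hc h
    · exact case_Zo s b c hb.ne' hc h
  · exact case_PP s hs b c hb hc

end QD
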