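import Pool.Agent.Lib.QD.CSt
import Pool.Agent.Lib.QD.Q3K

/-!
Project QD, module Q1: `Q4` under `X ↦ cX`, `X ↦ X⁻¹` and the exchange of `X` and `Y`.
-/

namespace QD

namespace Q1Aux

theorem tot_mapDomain (e : Blk →₀ ℤ) (g : Blk → Blk) (f : Blk → ℤ) :
    tot (e.mapDomain g) f = tot e fun b => f (g b) := by
  unfold tot
  exact Finsupp.sum_mapDomain_index (by simp) (by intros; ring)

theorem Q4_mapDomain (e : Blk →₀ ℤ) (g : Blk → Blk) (h : ∀ b c, q4 (g b) (g c) = q4 b c) :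
    Q4 (e.mapDomain g) = Q4 e := by
  unfold Q4
  rw [tot_mapDomain]
  congr 1
  funext b
  rw [tot_mapDomain]
  congr 1
  funext c
  exact h b c

theorem q4_congr {g : Blk → Blk} (h1 : ∀ b c, us (g b).1 (g c).1 = us b.1 c.1)
    (h2 : ∀ b, gg (g b).1 = gg b.1)
    (h3 : ∀ b c, (ray (g b).1 (g c).1 ∧ (g b).2 = (g c).2) ↔ (ray b.1 c.1 ∧ b.2 = c.2))
    (b c : Blk) : q4 (g b) (g c) = q4 b c := by
  unfold q4 mb
  rw [h1, h2, h2, if_congr (h3 b c) rfl rfl]

theorem gg_neg (b : ℤ × ℤ) : gg (-b.1, -b.2) = gg b := by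
  unfold gg
  simp

theorem gg_dvd (b : ℤ × ℤ) : gg b ∣ b.2 := Int.gcd_dvd_right _ _

/-- vectors on the same ray have the same primitive vector -/
theorem ray_prim (b c : ℤ × ℤ) (h : ray b c) : b.2 / gg b = c.2 / gg c := by
  obtain ⟨h1, h2⟩ := h
  have key : b.2 * (b.1 * c.1 + b.2 * c.2) = (b.1 ^ 2 + b.2 ^ 2) * c.2 := by
    linear_combination (-b.1) * h1
  have hpos : 0 < b.1 ^ 2 + b.2 ^ 2 := by
    by_contra hcon
    have h3 : b.1 = 0 := by nlinarith [sq_nonneg b.1, sq_nonneg b.2]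
    have h4 : b.2 = 0 := by nlinarith [sq_nonneg b.1, sq_nonneg b.2]
    rw [h3, h4] at h2
    simp at h2
  rcases lt_trichotomy b.2 0 with hb | hb | hb
  · have hc : c.2 < 0 := by
      by_contra hcon
      push Not at hcon
      have h3 : 0 ≤ (b.1 ^ 2 + b.2 ^ 2) * c.2 := mul_nonneg hpos.le hcon
      have h4 : b.2 * (b.1 * c.1 + b.2 * c.2) < 0 := mul_neg_of_neg_of_pos hb h2
      linarith
    have h5 := Q3KAux.ray_prim (-b.1, -b.2) (-c.1, -c.2) (by dsimp only; linarith)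
      (by dsimp only; linarith) ⟨by dsimp only; linarith, by dsimp only; linarith⟩
    rw [gg_neg, gg_neg] at h5
    dsimp only at h5
    rw [Int.neg_ediv_of_dvd (gg_dvd b), Int.neg_ediv_of_dvd (gg_dvd c)] at h5
    linarith
  · have hc : c.2 = 0 := by
      rw [hb, zero_mul] at key
      rcases mul_eq_zero.1 key.symm with h3 | h3
      · rw [hb] at hpos
        rw [h3] at hpos
        exact absurd hpos (lt_irrefl _)
      · exact h3
    rw [hb, hc]
    simp
  · have hc : 0 < c.2 := by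
      by_contra hcon
      push Not at hcon
      have h3 : (b.1 ^ 2 + b.2 ^ 2) * c.2 ≤ 0 := mul_nonpos_of_nonneg_of_nonpos hpos.le hcon
      have h4 : 0 < b.2 * (b.1 * c.1 + b.2 * c.2) := mul_pos hb h2
      linarith
    exact Q3KAux.ray_prim b c hb hc ⟨h1, h2⟩

theorem al1_q4 (t : ℂ) (ht : t ≠ 0) (b c : Blk) : q4 (al1 t b) (al1 t c) = q4 b c := by
  refine q4_congr (g := al1 t) (fun _ _ => rfl) (fun _ => rfl) (fun b c => ?_) b c
  change (ray b.1 c.1 ∧ b.2 * t ^ (b.1.2 / gg b.1) = c.2 * t ^ (c.1.2 / gg c.1)) ↔ _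
  refine and_congr_right fun h => ?_
  rw [ray_prim b.1 c.1 h]
  exact mul_left_inj' (zpow_ne_zero _ ht)

theorem alI_q4 (b c : Blk) : q4 (alI b) (alI c) = q4 b c := by
  refine q4_congr (g := alI) (fun b c => ?_) (fun b => ?_) (fun b c => ?_) b c
  · unfold us alI wed
    dsimp only
    have e1 : -b.1.1 * -c.1.1 = b.1.1 * c.1.1 := by ring
    have e2 : -b.1.1 * c.1.2 = -(b.1.1 * c.1.2) := by ring
    have e3 : b.1.2 * -c.1.1 = -(b.1.2 * c.1.1) := by ring
    have e4 : -(b.1.1 * c.1.2) - -(b.1.2 * c.1.1) = -(b.1.1 * c.1.2 - b.1.2 * c.1.1) := by ring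
    rw [e1, e2, e3, e4, abs_neg, abs_neg, abs_neg]
  · unfold gg alI
    simp
  · unfold ray alI
    dsimp only
    rw [inv_inj]
    have e1 : -b.1.1 * -c.1.1 = b.1.1 * c.1.1 := by ring
    have e2 : (-b.1.1 * c.1.2 = b.1.2 * -c.1.1) ↔ (b.1.1 * c.1.2 = b.1.2 * c.1.1) := by
      constructor <;> intro h <;> linarith
    rw [e1, e2]

theorem alS_q4 (b c : Blk) : q4 (alS b) (alS c) = q4 b c := by
  refine q4_congr (g := alS) (fun b c => ?_) (fun b => ?_) (fun b c => ?_) b c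
  · unfold us alS wed
    dsimp only
    have e4 : b.1.2 * c.1.1 - b.1.1 * c.1.2 = -(b.1.1 * c.1.2 - b.1.2 * c.1.1) := by ring
    rw [e4, abs_neg, add_comm |b.1.2 * c.1.1|]
    exact if_congr and_comm rfl rfl
  · unfold gg alS
    dsimp only
    rw [Int.gcd_comm]
  · unfold ray alS
    dsimp only
    rw [inv_inj, add_comm (b.1.2 * c.1.2), eq_comm (a := b.1.2 * c.1.1)]

end Q1Aux

open Q1Aux in
theorem stQ1 : StQ1 := by
  intro e _
  exact ⟨fun c hc => Q4_mapDomain e _ (al1_q4 c hc), Q4_mapDomain e _ alI_q4,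
    Q4_mapDomain e _ alS_q4⟩

end QD
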