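import Pool.Agent.Lib.QD.CSt

/-!
Project QD, module Q2: `Q4` is invariant under `X ↦ YX`.
-/

namespace QD

namespace Q2Aux

theorem us_eq (b w : ℤ × ℤ) : us b w =
    if 0 < b.2 * w.2 then 2 * |wed b w| - (|b.1 * w.2| + |b.2 * w.1|)
    else |b.1 * w.2| + |b.2 * w.1| := by
  unfold us
  by_cases h2 : 0 < b.2 * w.2
  · rw [if_pos h2]
    split_ifs with h
    · rfl
    · have h1 : b.1 * w.1 ≤ 0 := by
        by_contra h3
        exact h ⟨not_le.1 h3, h2⟩
      have h3 : (b.1 * w.2) * (b.2 * w.1) ≤ 0 := by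
        calc (b.1 * w.2) * (b.2 * w.1) = (b.1 * w.1) * (b.2 * w.2) := by ring
          _ ≤ 0 := mul_nonpos_of_nonpos_of_nonneg h1 h2.le
      have h4 : |wed b w| = |b.1 * w.2| + |b.2 * w.1| := by
        unfold wed
        rcases mul_nonpos_iff.1 h3 with ⟨h5, h6⟩ | ⟨h5, h6⟩
        · rw [abs_of_nonneg h5, abs_of_nonpos h6, abs_of_nonneg (by linarith)]
          ring
        · rw [abs_of_nonpos h5, abs_of_nonneg h6, abs_of_nonpos (by linarith)]
          ring
      rw [h4]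
      ring
  · rw [if_neg h2, if_neg fun h => h2 h.2]

/-- the linear defect of the kernel -/
def F (b : ℤ × ℤ) : ℤ := -(b.2.sign * (|b.1 + b.2| - |b.1|))

theorem us_shear (b w : ℤ × ℤ) :
    us (b.1 + b.2, b.2) (w.1 + w.2, w.2) = us b w + (b.2 * F w + w.2 * F b) := by
  obtain ⟨b1, b2⟩ := b
  obtain ⟨w1, w2⟩ := w
  rw [us_eq, us_eq]
  have hw : wed (b1 + b2, b2) (w1 + w2, w2) = wed (b1, b2) (w1, w2) := by
    unfold wed
    ring
  dsimp only at hw ⊢
  rw [hw]
  unfold F
  dsimp only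
  simp only [abs_mul]
  rcases lt_trichotomy b2 0 with hb | hb | hb
  · rcases lt_trichotomy w2 0 with hw | hw | hw
    · rw [if_pos (mul_pos_of_neg_of_neg hb hw), if_pos (mul_pos_of_neg_of_neg hb hw),
        Int.sign_eq_neg_one_of_neg hb, Int.sign_eq_neg_one_of_neg hw, abs_of_neg hb, abs_of_neg hw]
      ring
    · subst hw
      rw [mul_zero, if_neg (lt_irrefl _), if_neg (lt_irrefl _)]
      simp
    · rw [if_neg (not_lt.2 (mul_nonpos_of_nonpos_of_nonneg hb.le hw.le)),
        if_neg (not_lt.2 (mul_nonpos_of_nonpos_of_nonneg hb.le hw.le)),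
        Int.sign_eq_neg_one_of_neg hb, Int.sign_eq_one_of_pos hw, abs_of_neg hb, abs_of_pos hw]
      ring
  · subst hb
    rw [zero_mul, if_neg (lt_irrefl _), if_neg (lt_irrefl _)]
    simp
  · rcases lt_trichotomy w2 0 with hw | hw | hw
    · rw [if_neg (not_lt.2 (mul_nonpos_of_nonneg_of_nonpos hb.le hw.le)),
        if_neg (not_lt.2 (mul_nonpos_of_nonneg_of_nonpos hb.le hw.le)),
        Int.sign_eq_one_of_pos hb, Int.sign_eq_neg_one_of_neg hw, abs_of_pos hb, abs_of_neg hw]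
      ring
    · subst hw
      rw [mul_zero, if_neg (lt_irrefl _), if_neg (lt_irrefl _)]
      simp
    · rw [if_pos (mul_pos hb hw), if_pos (mul_pos hb hw),
        Int.sign_eq_one_of_pos hb, Int.sign_eq_one_of_pos hw, abs_of_pos hb, abs_of_pos hw]
      ring

theorem dot_shear {b1 b2 w1 w2 : ℤ} (k : ℤ) (h : b1 * w2 = b2 * w1) (h0 : 0 < b1 * w1 + b2 * w2) :
    0 < (b1 + k * b2) * (w1 + k * w2) + b2 * w2 := by
  have hb : 0 < b1 * b1 + b2 * b2 := by
    rcases eq_or_ne b1 0 with h1 | h1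
    · rcases eq_or_ne b2 0 with h2 | h2
      · rw [h1, h2] at h0
        simp at h0
      · have := mul_self_pos.2 h2
        have := mul_self_nonneg b1
        linarith
    · have := mul_self_pos.2 h1
      have := mul_self_nonneg b2
      linarith
  have hcc : 0 < (b1 + k * b2) * (b1 + k * b2) + b2 * b2 := by
    rcases eq_or_ne b2 0 with h2 | h2
    · rw [h2] at hb ⊢
      simpa using hb
    · have := mul_self_pos.2 h2
      have := mul_self_nonneg (b1 + k * b2)
      linarith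
  have key : ((b1 + k * b2) * (w1 + k * w2) + b2 * w2) * (b1 * b1 + b2 * b2) =
      (b1 * w1 + b2 * w2) * ((b1 + k * b2) * (b1 + k * b2) + b2 * b2) := by
    linear_combination (k * b1 ^ 2 + k ^ 2 * b1 * b2 - k * b2 ^ 2) * h
  by_contra h4
  have h5 := mul_nonpos_of_nonpos_of_nonneg (not_lt.1 h4) hb.le
  have h6 := mul_pos h0 hcc
  linarith

theorem ray_shear (b w : ℤ × ℤ) : ray (b.1 + b.2, b.2) (w.1 + w.2, w.2) ↔ ray b w := by
  obtain ⟨b1, b2⟩ := b
  obtain ⟨w1, w2⟩ := w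
  unfold ray
  dsimp only
  constructor
  · rintro ⟨h1, h2⟩
    have h3 := dot_shear (-1) h1 h2
    refine ⟨by linarith, ?_⟩
    have h4 : (b1 + b2 + -1 * b2) * (w1 + w2 + -1 * w2) + b2 * w2 = b1 * w1 + b2 * w2 := by ring
    rwa [h4] at h3
  · rintro ⟨h1, h2⟩
    have h3 := dot_shear 1 h1 h2
    refine ⟨by linarith, ?_⟩
    rwa [one_mul, one_mul] at h3

theorem gg_shear (b : ℤ × ℤ) : gg (b.1 + b.2, b.2) = gg b := by
  unfold gg
  simp

theorem mb_shear (b c : Blk) : mb (al2 b) (al2 c) = mb b c := by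
  have h1 : (ray (al2 b).1 (al2 c).1 ∧ (al2 b).2 = (al2 c).2) ↔ (ray b.1 c.1 ∧ b.2 = c.2) :=
    and_congr (ray_shear b.1 c.1) Iff.rfl
  have h2 : gg (al2 b).1 = gg b.1 := gg_shear b.1
  have h3 : gg (al2 c).1 = gg c.1 := gg_shear c.1
  unfold mb
  rw [if_congr h1 rfl rfl, h2, h3]

theorem q4_shear (b c : Blk) :
    q4 (al2 b) (al2 c) = q4 b c + (b.1.2 * F c.1 + c.1.2 * F b.1) := by
  unfold q4
  rw [mb_shear]
  have h1 : us (al2 b).1 (al2 c).1 = us b.1 c.1 + (b.1.2 * F c.1 + c.1.2 * F b.1) :=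
    us_shear b.1 c.1
  rw [h1]
  ring

theorem tot_mapDomain (e : Blk →₀ ℤ) (g : Blk → Blk) (f : Blk → ℤ) :
    tot (e.mapDomain g) f = tot e fun b => f (g b) := by
  unfold tot
  exact Finsupp.sum_mapDomain_index (by simp) (by intros; ring)

theorem tot_add (e : Blk →₀ ℤ) (f g : Blk → ℤ) : tot e (fun b => f b + g b) = tot e f + tot e g := by
  unfold tot Finsupp.sum
  rw [← Finset.sum_add_distrib]
  exact Finset.sum_congr rfl fun b _ => by ring

theorem tot_mul_left (e : Blk →₀ ℤ) (f : Blk → ℤ) (a : ℤ) :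
    tot e (fun b => a * f b) = a * tot e f := by
  unfold tot Finsupp.sum
  rw [Finset.mul_sum]
  exact Finset.sum_congr rfl fun b _ => by ring

theorem tot_mul_right (e : Blk →₀ ℤ) (f : Blk → ℤ) (a : ℤ) :
    tot e (fun b => f b * a) = tot e f * a := by
  unfold tot Finsupp.sum
  rw [Finset.sum_mul]
  exact Finset.sum_congr rfl fun b _ => by ring

end Q2Aux

open Q2Aux in
theorem stQ2 : StQ2 := by
  intro e he
  unfold Q4 act2
  rw [tot_mapDomain]
  have h1 : (fun b => tot (e.mapDomain al2) fun c => q4 (al2 b) c) =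
      fun b : Blk => (tot e fun c => q4 b c) + b.1.2 * tot e (fun c => F c.1) := by
    funext b
    rw [tot_mapDomain]
    have h2 : (fun c => q4 (al2 b) (al2 c)) =
        fun c => q4 b c + (b.1.2 * F c.1 + c.1.2 * F b.1) := by
      funext c
      exact q4_shear b c
    rw [h2, tot_add, tot_add, tot_mul_left, tot_mul_right, he.2, zero_mul, add_zero]
  rw [h1, tot_add, tot_mul_right, he.2, zero_mul, add_zero]

end QD
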