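import Pool.Agent.Lib.QD.CSt

/-!
Project QD, module Q3: `Q4` under `X ↦ (Y - s)X`.
-/

namespace QD

namespace Q3Aux

theorem tot_add (e e' : Blk →₀ ℤ) (f : Blk → ℤ) : tot (e + e') f = tot e f + tot e' f :=
  Finsupp.sum_add_index' (h := fun b n => n * f b) (fun _ => zero_mul _)
    (fun b m n => add_mul m n (f b))

theorem tot_map (e : Blk →₀ ℤ) (g : Blk → Blk) (f : Blk → ℤ) :
    tot (e.mapDomain g) f = tot e fun b => f (g b) :=
  Finsupp.sum_mapDomain_index (h := fun b n => n * f b) (fun _ => zero_mul _)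
    (fun b m n => add_mul m n (f b))

theorem tot_single (b : Blk) (n : ℤ) (f : Blk → ℤ) : tot (Finsupp.single b n) f = n * f b :=
  Finsupp.sum_single_index (zero_mul _)

theorem tot_fadd (e : Blk →₀ ℤ) (f g : Blk → ℤ) :
    (tot e fun b => f b + g b) = tot e f + tot e g := by
  unfold tot
  rw [← Finsupp.sum_add]
  exact Finsupp.sum_congr fun b _ => mul_add _ _ _

theorem tot_mul (e : Blk →₀ ℤ) (f : Blk → ℤ) (a : ℤ) : (tot e fun b => a * f b) = a * tot e f := by
  unfold tot
  rw [Finsupp.mul_sum]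
  exact Finsupp.sum_congr fun b _ => by ring

theorem tot_congr (e : Blk →₀ ℤ) {f g : Blk → ℤ} (h : ∀ b ∈ e.support, f b = g b) :
    tot e f = tot e g := by
  unfold tot
  exact Finsupp.sum_congr fun b hb => by rw [h b hb]

theorem q4_b0 (s : ℂ) : q4 ((1, 0), s⁻¹) ((1, 0), s⁻¹) = -4 := by
  simp [q4, us, mb, ray, gg]

end Q3Aux

open Q3Aux in
/-- Module Q3. -/
theorem stQ3 (hK : StQ3K) : StQ3 := by
  intro e s hs hT hB
  obtain ⟨F, hF⟩ := hK s hs
  have h1 : Q4 (act3 s e) = tot e fun b => tot e fun c =>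
      (q4 (al3 s b) (al3 s c) + zz s b * q4 ((1, 0), s⁻¹) (al3 s c) +
        zz s c * q4 (al3 s b) ((1, 0), s⁻¹) + zz s b * zz s c * (-4)) := by
    unfold Q4 act3
    simp only [tot_add, tot_map, tot_single, q4_b0]
    simp only [tot_fadd]
    have e1 : ∀ b, (tot e fun c => zz s b * q4 ((1, 0), s⁻¹) (al3 s c)) =
        zz s b * tot e fun c => q4 ((1, 0), s⁻¹) (al3 s c) := fun b => tot_mul _ _ _
    have e2 : ∀ b, (tot e fun c => zz s c * q4 (al3 s b) ((1, 0), s⁻¹)) =
        tot e (zz s) * q4 (al3 s b) ((1, 0), s⁻¹) := by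
      intro b
      rw [mul_comm, ← tot_mul]
      exact tot_congr e fun c _ => mul_comm _ _
    have e3 : ∀ b, (tot e fun c => zz s b * zz s c * (-4)) = zz s b * (-4 * tot e (zz s)) := by
      intro b
      rw [← mul_assoc, ← tot_mul]
      exact tot_congr e fun c _ => by ring
    simp only [e1, e2, e3]
    have e4 : ∀ a : ℤ, (tot e fun b => zz s b * a) = a * tot e (zz s) := by
      intro a
      rw [← tot_mul]
      exact tot_congr e fun c _ => mul_comm _ _
    have e5 : (tot e fun b => tot e (zz s) * q4 (al3 s b) ((1, 0), s⁻¹)) =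
        tot e (zz s) * tot e fun b => q4 (al3 s b) ((1, 0), s⁻¹) := tot_mul _ _ _
    rw [e4, e4, e5]
    ring
  have h2 : (tot e fun b => tot e fun c =>
      (q4 (al3 s b) (al3 s c) + zz s b * q4 ((1, 0), s⁻¹) (al3 s c) +
        zz s c * q4 (al3 s b) ((1, 0), s⁻¹) + zz s b * zz s c * (-4))) =
      tot e fun b => tot e fun c => (q4 b c + (b.1.2 * F c + F b * c.1.2)) := by
    refine tot_congr e fun b hb => tot_congr e fun c hc => ?_
    have := hF b c (hT b hb) (hT c hc)
    linarith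
  rw [h1, h2]
  simp only [tot_fadd]
  have h3 : ∀ b : Blk, (tot e fun c => b.1.2 * F c) = b.1.2 * tot e F := fun b => tot_mul _ _ _
  have h4 : ∀ b : Blk, (tot e fun c => F b * c.1.2) = 0 := by
    intro b
    rw [tot_mul, hB.2, mul_zero]
  simp only [h3, h4]
  have h5 : (tot e fun b => b.1.2 * tot e F) = 0 := by
    have h6 : (tot e fun b => b.1.2 * tot e F) = tot e F * tot e fun b => b.1.2 := by
      rw [← tot_mul]
      exact tot_congr e fun c _ => mul_comm _ _
    rw [h6, hB.2, mul_zero]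
  have h7 : (tot e fun _ => (0 : ℤ)) = 0 := by
    have := tot_mul e (fun _ => 0) 0
    simpa using this
  rw [h5, h7, add_zero, add_zero]
  rfl

end QD
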