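import Pool.Agent.Lib.QD.CSt

/-!
Project QD, module Re: reality under the real steps.
-/

namespace QD

namespace ReAux

/-- complex conjugation of the constant of a block -/
noncomputable def cj (b : Blk) : Blk := (b.1, (starRingEnd ℂ) b.2)

theorem cj_fst (b : Blk) : (cj b).1 = b.1 := rfl

theorem cj_snd (b : Blk) : (cj b).2 = (starRingEnd ℂ) b.2 := rfl

theorem cj_cj (b : Blk) : cj (cj b) = b := by
  unfold cj
  simp

theorem cj_fix (b : Blk) : cj b = b ↔ (starRingEnd ℂ) b.2 = b.2 := by
  unfold cj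
  constructor
  · intro h
    exact congrArg Prod.snd h
  · intro h
    rw [h]

theorem realE_iff (e : Blk →₀ ℤ) :
    RealE e ↔ (∀ b, e (cj b) = e b) ∧ ∀ b, cj b = b → Even (e b) :=
  ⟨fun h => ⟨h.1, fun b hb => h.2 b ((cj_fix b).mp hb)⟩,
    fun h => ⟨h.1, fun b hb => h.2 b ((cj_fix b).mpr hb)⟩⟩

/-- A total weight which is invariant under conjugation is even. -/
theorem even_tot {e : Blk →₀ ℤ} (he : RealE e) (g : Blk → ℤ) (hg : ∀ b, g (cj b) = g b) :
    Even (tot e g) := by
  obtain ⟨h1, h2⟩ := (realE_iff e).mp he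
  rw [← ZMod.intCast_eq_zero_iff_even]
  unfold tot Finsupp.sum
  rw [Int.cast_sum]
  refine Finset.sum_involution (fun b _ => cj b) ?_ ?_ ?_ ?_
  · intro b _
    change ((e b * g b : ℤ) : ZMod 2) + ((e (cj b) * g (cj b) : ℤ) : ZMod 2) = 0
    rw [h1, hg]
    exact CharTwo.add_self_eq_zero _
  · intro b _ hb hfix
    apply hb
    rw [ZMod.intCast_eq_zero_iff_even]
    exact (h2 b hfix).mul_right _
  · intro b hb
    rw [Finsupp.mem_support_iff] at hb ⊢
    rw [h1]
    exact hb
  · intro b _
    exact cj_cj b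

theorem mapDomain_cj {e : Blk →₀ ℤ} (he : RealE e) : e.mapDomain cj = e := by
  obtain ⟨h1, _⟩ := (realE_iff e).mp he
  let E : Blk ≃ Blk := ⟨cj, cj, cj_cj, cj_cj⟩
  ext b
  have e1 := Finsupp.mapDomain_equiv_apply (f := E) e b
  have e2 : (E.symm b) = cj b := rfl
  rw [e2, h1] at e1
  exact e1

theorem inv_of_mapDomain {e : Blk →₀ ℤ} (he : e.mapDomain cj = e) (b : Blk) : e (cj b) = e b := by
  let E : Blk ≃ Blk := ⟨cj, cj, cj_cj, cj_cj⟩
  have e1 := Finsupp.mapDomain_equiv_apply (f := E) e b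
  have e2 : (E.symm b) = cj b := rfl
  rw [e2] at e1
  rw [← e1]
  exact DFunLike.congr_fun he b

theorem mapDomain_apply' (f : Blk → Blk) (e : Blk →₀ ℤ) (c : Blk) :
    (e.mapDomain f) c = tot e fun b => by
      classical exact if f b = c then 1 else 0 := by
  classical
  unfold Finsupp.mapDomain tot
  rw [Finsupp.sum_apply]
  refine Finsupp.sum_congr fun b _ => ?_
  rw [Finsupp.single_apply]
  by_cases h : f b = c <;> simp [h]

/-- Maps which commute with conjugation preserve reality. -/
theorem real_mapDomain {e : Blk →₀ ℤ} (he : RealE e) (f : Blk → Blk)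
    (hf : ∀ b, f (cj b) = cj (f b)) : RealE (e.mapDomain f) := by
  classical
  rw [realE_iff]
  refine ⟨inv_of_mapDomain ?_, ?_⟩
  · have e1 : cj ∘ f = f ∘ cj := by
      funext b
      exact (hf b).symm
    rw [← Finsupp.mapDomain_comp, e1, Finsupp.mapDomain_comp, mapDomain_cj he]
  · intro c hc
    rw [mapDomain_apply']
    refine even_tot he _ ?_
    intro b
    have e1 : f (cj b) = c ↔ f b = c := by
      rw [hf]
      constructor
      · intro h
        rw [← hc, ← h, cj_cj]
      · intro h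
        rw [h, hc]
    simp only [e1]

theorem real_add {e e' : Blk →₀ ℤ} (he : RealE e) (he' : RealE e') : RealE (e + e') := by
  refine ⟨fun b => ?_, fun b hb => ?_⟩
  · rw [Finsupp.add_apply, Finsupp.add_apply, he.1, he'.1]
  · rw [Finsupp.add_apply]
    exact (he.2 b hb).add (he'.2 b hb)

theorem real_single {c : Blk} (hc : cj c = c) {n : ℤ} (hn : Even n) :
    RealE (Finsupp.single c n) := by
  classical
  rw [realE_iff]
  refine ⟨fun b => ?_, fun b _ => ?_⟩
  · have e1 : c = cj b ↔ c = b := by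
      constructor
      · intro h
        rw [← cj_cj b, ← h, hc]
      · intro h
        rw [← h, hc]
    rw [Finsupp.single_apply, Finsupp.single_apply]
    simp only [e1]
  · rw [Finsupp.single_apply]
    split_ifs
    · exact hn
    · exact ⟨0, rfl⟩

theorem sb_cj (b : Blk) : sb (cj b) = (starRingEnd ℂ) (sb b) := by
  unfold sb
  rw [cj_fst, cj_snd]
  split_ifs
  · rw [map_inv₀]
  · rfl

theorem sb_cj_iff (b : Blk) (s : ℝ) : sb (cj b) = (s : ℂ) ↔ sb b = (s : ℂ) := by
  rw [sb_cj]
  constructor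
  · intro h
    have e := congrArg (starRingEnd ℂ) h
    rw [Complex.conj_conj, Complex.conj_ofReal] at e
    exact e
  · intro h
    rw [h, Complex.conj_ofReal]

theorem al3_cj (s : ℝ) (b : Blk) : al3 (s : ℂ) (cj b) = cj (al3 (s : ℂ) b) := by
  classical
  have h1 : sb (cj b) = (s : ℂ) ↔ sb b = (s : ℂ) := sb_cj_iff b s
  unfold al3
  simp only [h1]
  rw [cj_fst, cj_snd]
  split_ifs with h2 h3 h4 h5 <;> unfold cj <;> simp

theorem zz_cj (s : ℝ) (b : Blk) : zz (s : ℂ) (cj b) = zz (s : ℂ) b := by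
  classical
  have h1 : sb (cj b) = (s : ℂ) ↔ sb b = (s : ℂ) := sb_cj_iff b s
  unfold zz
  simp only [h1, cj_fst]

end ReAux

open ReAux

/-- Module Re. -/
theorem stRe : StRe := by
  intro e _ he
  refine ⟨fun c _ => ?_, ?_, fun s _ => ?_, ?_, ?_⟩
  · refine real_mapDomain he _ fun b => ?_
    unfold al1 cj
    simp
  · refine real_mapDomain he _ fun b => ?_
    unfold al2 cj
    rfl
  · refine real_add (real_mapDomain he _ (al3_cj s)) (real_single ?_ ?_)
    · unfold cj
      simp
    · exact even_tot he _ (zz_cj s)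
  · refine real_mapDomain he _ fun b => ?_
    unfold alI cj
    simp
  · refine real_mapDomain he _ fun b => ?_
    unfold alS cj
    simp

end QD
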