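import Pool.Agent.Lib.QD.CSt

/-!
Project QD, module Re2: reality under a pair of conjugate steps.
-/

open Polynomial

namespace QD

namespace Re2Aux

/-! ### Sums over a configuration -/

theorem tot_add (e e' : Blk →₀ ℤ) (f : Blk → ℤ) : tot (e + e') f = tot e f + tot e' f := by
  unfold tot
  exact Finsupp.sum_add_index' (fun _ => zero_mul _) (fun _ _ _ => add_mul _ _ _)

theorem tot_single (b : Blk) (n : ℤ) (f : Blk → ℤ) : tot (Finsupp.single b n) f = n * f b := by
  unfold tot
  exact Finsupp.sum_single_index (zero_mul _)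

theorem tot_map (e : Blk →₀ ℤ) (F : Blk → Blk) (f : Blk → ℤ) :
    tot (e.mapDomain F) f = tot e (fun b => f (F b)) := by
  unfold tot
  exact Finsupp.sum_mapDomain_index (fun _ => zero_mul _) (fun _ _ _ => add_mul _ _ _)

/-! ### Conjugation -/

/-- complex conjugation of the constant -/
noncomputable def cj (b : Blk) : Blk := (b.1, (starRingEnd ℂ) b.2)

theorem cj_cj (b : Blk) : cj (cj b) = b := by
  unfold cj
  simp

theorem cj_inj : Function.Injective cj := fun b c h => by
  rw [← cj_cj b, h, cj_cj]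

theorem cj_ne {b : Blk} (h : cj b ≠ b) : (starRingEnd ℂ) b.2 ≠ b.2 := fun h1 =>
  h (Prod.ext rfl h1)

theorem sb_cj (b : Blk) : sb (cj b) = (starRingEnd ℂ) (sb b) := by
  unfold sb cj
  split_ifs
  · simp
  · rfl

theorem gg_cj (b : Blk) : gg (cj b).1 = gg b.1 := rfl

theorem al3_cj (s : ℂ) (b : Blk) : cj (al3 s b) = al3 ((starRingEnd ℂ) s) (cj b) := by
  have h1 : (cj b).1 = b.1 := rfl
  have h2 : (sb (cj b) = (starRingEnd ℂ) s) ↔ sb b = s := by
    rw [sb_cj]
    exact (starRingEnd ℂ).injective.eq_iff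
  unfold al3
  simp only [h2, h1]
  split_ifs
  · refine Prod.ext rfl ?_
    change (starRingEnd ℂ) (b.2 * (-s) ^ (b.1.2 / gg b.1)) =
      (starRingEnd ℂ) b.2 * (-(starRingEnd ℂ) s) ^ (b.1.2 / gg b.1)
    rw [map_mul, map_zpow₀, map_neg]
  · rfl
  · refine Prod.ext rfl ?_
    change (starRingEnd ℂ) s⁻¹ = ((starRingEnd ℂ) s)⁻¹
    rw [map_inv₀]
  · rfl
  · rfl

theorem zz_cj (s : ℂ) (b : Blk) : zz s (cj b) = zz ((starRingEnd ℂ) s) b := by
  have h1 : (cj b).1 = b.1 := rfl
  have h2 : (sb (cj b) = s) ↔ sb b = (starRingEnd ℂ) s := by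
    rw [sb_cj]
    constructor
    · intro h
      rw [← h]
      simp
    · intro h
      rw [h]
      simp
  unfold zz
  rw [h1]
  simp only [h2]

theorem real_iff (e : Blk →₀ ℤ) :
    RealE e ↔ (∀ b, e (cj b) = e b) ∧ ∀ b, cj b = b → Even (e b) := by
  unfold RealE
  constructor
  · rintro ⟨h1, h2⟩
    exact ⟨h1, fun b hb => h2 b (congrArg Prod.snd hb)⟩
  · rintro ⟨h1, h2⟩
    exact ⟨h1, fun b hb => h2 b (Prod.ext rfl hb)⟩

theorem map_cj {e : Blk →₀ ℤ} (h : RealE e) : e.mapDomain cj = e := by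
  ext b
  have h1 : e.mapDomain cj (cj (cj b)) = e (cj b) := Finsupp.mapDomain_apply cj_inj _ _
  rw [cj_cj] at h1
  rw [h1]
  exact ((real_iff e).1 h).1 b

theorem tot_cj {e : Blk →₀ ℤ} (h : RealE e) (f : Blk → ℤ) :
    tot e (fun b => f (cj b)) = tot e f := by
  rw [← tot_map, map_cj h]

theorem map_apply (e : Blk →₀ ℤ) (F : Blk → Blk) (b : Blk) :
    e.mapDomain F b = tot e (fun c => if F c = b then 1 else 0) := by
  classical
  have h1 : e.mapDomain F b = tot (e.mapDomain F) (fun c => if c = b then 1 else 0) := by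
    unfold tot
    rw [Finsupp.sum]
    simp only [mul_ite, mul_one, mul_zero]
    rw [Finset.sum_ite_eq']
    split_ifs with h
    · rfl
    · exact Finsupp.notMem_support_iff.1 h
  rw [h1, tot_map]

theorem real_map {e : Blk →₀ ℤ} (h : RealE e) (F : Blk → Blk) (hF : ∀ b, F (cj b) = cj (F b)) :
    RealE (e.mapDomain F) := by
  classical
  rw [real_iff]
  constructor
  · intro b
    rw [map_apply, map_apply, ← tot_cj h]
    congr 1
    funext c
    rw [hF]
    simp only [cj_inj.eq_iff]
  · intro b hb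
    rw [map_apply]
    have h2 : ((tot e (fun c => if F c = b then 1 else 0) : ℤ) : ZMod 2) = 0 := by
      unfold tot
      rw [Finsupp.sum, Int.cast_sum]
      refine Finset.sum_involution (fun c _ => cj c) ?_ ?_ ?_ ?_
      · intro c _
        have h3 : (F (cj c) = b) ↔ (F c = b) := by
          rw [hF]
          constructor
          · intro h4
            rw [← cj_cj (F c), h4, hb]
          · intro h4
            rw [h4, hb]
        rw [((real_iff e).1 h).1 c]
        simp only [h3]
        have h5 : ∀ x : ZMod 2, x + x = 0 := by decide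
        exact h5 _
      · intro c _ hne hcc
        apply hne
        obtain ⟨m, hm⟩ := ((real_iff e).1 h).2 c hcc
        rw [hm]
        push_cast
        have h5 : ∀ x : ZMod 2, x + x = 0 := by decide
        rw [h5, zero_mul]
      · intro c hc
        rw [Finsupp.mem_support_iff] at hc ⊢
        rw [((real_iff e).1 h).1 c]
        exact hc
      · intro c _
        exact cj_cj c
    have h3 := (ZMod.intCast_zmod_eq_zero_iff_dvd _ 2).1 h2
    exact (even_iff_two_dvd).2 h3

/-! ### Two steps -/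

theorem sb_al3 {s : ℂ} {b : Blk} (h2 : b.1.2 = 0) (h : sb b = s) :
    sb (al3 s b) = s := by
  unfold al3
  rw [if_neg (by omega), if_neg (by omega)]
  split_ifs with h3 h4
  · unfold sb
    simp only
    rw [if_pos h4, inv_inv]
  · unfold sb
    simp only
    rw [if_neg h4]
  · exact h

theorem al3_of_ne {s : ℂ} {b : Blk} (h2 : b.1.2 = 0) (h : sb b ≠ s) : al3 s b = b := by
  unfold al3
  rw [if_neg (by omega), if_neg (by omega), if_neg (fun h3 => h h3.2)]

theorem al3_snd (s : ℂ) (b : Blk) : (al3 s b).1.2 = b.1.2 := by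
  unfold al3
  split_ifs with h1 h2 h3
  · rfl
  · rfl
  · exact (by omega : (0 : ℤ) = b.1.2)
  · exact (by omega : (0 : ℤ) = b.1.2)
  · rfl

theorem al3_comm {s s' : ℂ} (hs : s ≠ s') (b : Blk) : al3 s (al3 s' b) = al3 s' (al3 s b) := by
  rcases lt_trichotomy b.1.2 0 with h | h | h
  · have h1 : ∀ u : ℂ, ∀ c : Blk, c.1.2 < 0 → al3 u c = ((c.1.1 + c.1.2, c.1.2), c.2) := by
      intro u c hc
      unfold al3
      rw [if_neg (by omega), if_pos hc]
    have h2 : ∀ u, (al3 u b).1.2 < 0 := fun u => by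
      rw [al3_snd]
      exact h
    rw [h1 s _ (h2 s'), h1 s' _ (h2 s), h1 s b h, h1 s' b h]
  · have h2 : ∀ u, (al3 u b).1.2 = 0 := fun u => by
      rw [al3_snd]
      exact h
    rcases eq_or_ne (sb b) s with h3 | h3
    · have h4 : sb b ≠ s' := by rwa [h3]
      rw [al3_of_ne h h4, al3_of_ne (h2 s)]
      rw [sb_al3 h h3]
      exact hs
    · rw [al3_of_ne h h3]
      rcases eq_or_ne (sb b) s' with h4 | h4
      · rw [al3_of_ne (h2 s')]
        rw [sb_al3 h h4]
        exact hs.symm
      · rw [al3_of_ne h h4, al3_of_ne h h3]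
  · have h1 : ∀ u : ℂ, ∀ c : Blk, 0 < c.1.2 → al3 u c = (c.1, c.2 * (-u) ^ (c.1.2 / gg c.1)) := by
      intro u c hc
      unfold al3
      rw [if_pos hc]
    have h2 : ∀ u, 0 < (al3 u b).1.2 := fun u => by
      rw [al3_snd]
      exact h
    rw [h1 s _ (h2 s'), h1 s' _ (h2 s), h1 s b h, h1 s' b h]
    simp only
    rw [mul_right_comm]

theorem zz_al3 {s s' : ℂ} (hs : s ≠ s') (b : Blk) : zz s' (al3 s b) = zz s' b := by
  rcases eq_or_ne b.1.2 0 with h | h
  · rcases eq_or_ne (sb b) s with h3 | h3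
    · have h4 : sb b ≠ s' := by rwa [h3]
      have h5 : sb (al3 s b) ≠ s' := by
        rw [sb_al3 h h3]
        exact hs
      unfold zz
      rw [al3_snd, if_neg (fun h6 => h5 h6.2.2), if_neg (fun h6 => h4 h6.2.2)]
    · rw [al3_of_ne h h3]
  · unfold zz
    rw [al3_snd, if_neg (fun h6 => h h6.1), if_neg (fun h6 => h h6.1)]

end Re2Aux

open Re2Aux

theorem stRe2 : StRe2 := by
  intro e _ hr s hs
  set s' : ℂ := (starRingEnd ℂ) s with hs'
  have hne : s ≠ s' := by
    intro h
    have h1 := congrArg Complex.im h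
    rw [hs', Complex.conj_im] at h1
    exact hs (by linarith)
  have hb1 : al3 s' ((1, 0), s⁻¹) = (((1, 0), s⁻¹) : Blk) := by
    refine al3_of_ne rfl ?_
    unfold sb
    simp only
    rw [if_pos one_pos, inv_inv]
    exact hne
  have hz1 : zz s' ((1, 0), s⁻¹) = 0 := by
    unfold zz
    rw [if_neg]
    · simp
    · rintro ⟨-, -, h⟩
      unfold sb at h
      simp only at h
      rw [if_pos one_pos, inv_inv] at h
      exact hne h
  have hZ : tot e (zz s') = tot e (zz s) := by
    rw [← tot_cj hr (zz s)]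
    congr 1
    funext b
    rw [zz_cj]
  have hE : act3 s' (act3 s e) = e.mapDomain (fun b => al3 s' (al3 s b)) +
      (Finsupp.single (((1, 0), s⁻¹) : Blk) (tot e (zz s)) +
        Finsupp.single (((1, 0), s'⁻¹) : Blk) (tot e (zz s))) := by
    unfold act3
    rw [Finsupp.mapDomain_add, Finsupp.mapDomain_single, hb1, tot_add, tot_single, hz1, mul_zero,
      add_zero, tot_map, ← Finsupp.mapDomain_comp]
    have h1 : tot e (fun b => zz s' (al3 s b)) = tot e (zz s) := by
      rw [← hZ]
      congr 1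
      funext b
      exact zz_al3 hne b
    rw [h1, add_assoc]
    rfl
  have hF : ∀ b, al3 s' (al3 s (cj b)) = cj (al3 s' (al3 s b)) := by
    intro b
    have h1 : (starRingEnd ℂ) s' = s := by
      rw [hs']
      simp
    rw [al3_cj, al3_cj, h1, ← hs', al3_comm hne]
  have hM := (real_iff _).1 (real_map hr (fun b => al3 s' (al3 s b)) hF)
  rw [hE, real_iff]
  have hcs : cj (((1, 0), s⁻¹) : Blk) = ((1, 0), s'⁻¹) := by
    refine Prod.ext rfl ?_
    change (starRingEnd ℂ) s⁻¹ = s'⁻¹
    rw [map_inv₀]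
  have hcs' : cj (((1, 0), s'⁻¹) : Blk) = ((1, 0), s⁻¹) := by
    rw [← hcs, cj_cj]
  have hsing : ∀ (b c : Blk) (n : ℤ), Finsupp.single (cj c) n (cj b) = Finsupp.single c n b := by
    intro b c n
    classical
    rw [Finsupp.single_apply, Finsupp.single_apply]
    simp only [cj_inj.eq_iff]
  constructor
  · intro b
    rw [Finsupp.add_apply, Finsupp.add_apply, Finsupp.add_apply, Finsupp.add_apply, hM.1 b]
    congr 1
    rw [add_comm]
    congr 1
    · rw [← hcs, hsing]
    · have h1 := hsing b (((1, 0), s'⁻¹) : Blk) (tot e (zz s))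
      rw [hcs'] at h1
      exact h1
  · intro b hb
    rw [Finsupp.add_apply, Finsupp.add_apply]
    have h1 : (((1, 0), s⁻¹) : Blk) ≠ b := by
      rintro rfl
      rw [hcs] at hb
      have h2 := congrArg Prod.snd hb
      exact hne (inv_injective h2).symm
    have h2 : (((1, 0), s'⁻¹) : Blk) ≠ b := by
      rintro rfl
      rw [hcs'] at hb
      have h2 := congrArg Prod.snd hb
      exact hne (inv_injective h2)
    rw [Finsupp.single_eq_of_ne h1.symm, Finsupp.single_eq_of_ne h2.symm, add_zero, add_zero]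
    exact hM.2 b hb

end QD
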