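import Pool.Agent.Lib.QD.CSt

/-!
Project QD, module ReachInd: reachable pairs are independent.
-/

open Polynomial

namespace QD

namespace ReachIndAux

variable {E : Type} [Field E] [Algebra ℂ E]

theorem evc_eq (Y : E) (P : ℝ[X]) : evc Y P = aeval Y (P.map Complex.ofRealHom) := by
  unfold evc
  rw [aeval_def, eval₂_map]

theorem map_ne {P : ℝ[X]} (hP : P ≠ 0) : P.map Complex.ofRealHom ≠ 0 :=
  (Polynomial.map_ne_zero_iff Complex.ofReal_injective).2 hP

theorem step (H : StInd) {X Y : E} {P Q : ℝ[X]} (hP : P ≠ 0) (hQ : Q ≠ 0) (h : Ind X Y) :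
    Ind (evc Y P / evc Y Q * X) Y := by
  have h1 := (H E X Y h).2.1
  obtain ⟨-, h2⟩ := (H E X⁻¹ Y h1).2.2.2.1 _ (map_ne hQ)
  have h3 := (H E _ Y h2).2.1
  obtain ⟨-, h4⟩ := (H E _ Y h3).2.2.2.1 _ (map_ne hP)
  rw [← evc_eq, ← evc_eq, mul_inv, inv_inv, ← mul_assoc, ← div_eq_mul_inv] at h4
  exact h4

end ReachIndAux

open ReachIndAux

theorem stReachInd (H : StInd) : StReachInd := by
  intro E _ _ X0 Y0 X Y h0 h
  induction h with
  | base => exact h0
  | stepX X Y P Q hP hQ _ ih => exact step H hP hQ ih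
  | stepY X Y P Q hP hQ _ ih =>
    exact (H E _ _ (step H hP hQ (H E _ _ ih).1)).1
  | inv X Y _ ih =>
    have h1 := (H E _ _ ih).2.1
    have h2 := (H E _ _ h1).1
    have h3 := (H E _ _ h2).2.1
    exact (H E _ _ h3).1

end QD
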