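import Pool.Agent.Lib.QD.CSt

/-!
Project QD: module SS, small values of the diagonal part `SS`.
-/

set_option autoImplicit false

namespace QD

namespace SSAux

/-- the primitive vector -/
def pr (v : ℤ × ℤ) : ℤ × ℤ := (v.1 / gg v, v.2 / gg v)

lemma gg_pos' {v : ℤ × ℤ} (h : v ≠ 0) : 0 < gg v := by
  unfold gg
  rcases Nat.eq_zero_or_pos (Int.gcd v.1 v.2) with h0 | h0
  · exfalso
    rw [Int.gcd_eq_zero_iff] at h0
    exact h (Prod.ext h0.1 h0.2)
  · exact_mod_cast h0

lemma gg_mul_fst (v : ℤ × ℤ) : gg v * (pr v).1 = v.1 := by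
  unfold pr gg
  exact Int.mul_ediv_cancel' (Int.gcd_dvd_left ..)

lemma gg_mul_snd (v : ℤ × ℤ) : gg v * (pr v).2 = v.2 := by
  unfold pr gg
  exact Int.mul_ediv_cancel' (Int.gcd_dvd_right ..)

lemma pr_ne {v : ℤ × ℤ} (h : v ≠ 0) : pr v ≠ 0 := by
  intro h0
  apply h
  have h1 := gg_mul_fst v
  have h2 := gg_mul_snd v
  rw [h0] at h1 h2
  exact Prod.ext (by simpa using h1.symm) (by simpa using h2.symm)

lemma bez {v : ℤ × ℤ} (h : v ≠ 0) : ∃ a b : ℤ, a * (pr v).1 + b * (pr v).2 = 1 := by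
  have hg := gg_pos' h
  refine ⟨Int.gcdA v.1 v.2, Int.gcdB v.1 v.2, ?_⟩
  have h1 : (gg v : ℤ) = v.1 * Int.gcdA v.1 v.2 + v.2 * Int.gcdB v.1 v.2 := Int.gcd_eq_gcd_ab _ _
  have h2 : gg v * (Int.gcdA v.1 v.2 * (pr v).1 + Int.gcdB v.1 v.2 * (pr v).2) = gg v * 1 := by
    have e1 := gg_mul_fst v
    have e2 := gg_mul_snd v
    calc gg v * (Int.gcdA v.1 v.2 * (pr v).1 + Int.gcdB v.1 v.2 * (pr v).2)
        = (gg v * (pr v).1) * Int.gcdA v.1 v.2 + (gg v * (pr v).2) * Int.gcdB v.1 v.2 := by ring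
      _ = gg v * 1 := by rw [e1, e2, mul_one, ← h1]
  exact mul_left_cancel₀ hg.ne' h2

lemma ray_iff {v w : ℤ × ℤ} : ray v w ↔ v ≠ 0 ∧ w ≠ 0 ∧ pr v = pr w := by
  constructor
  · rintro ⟨h1, h2⟩
    have hv : v ≠ 0 := by
      rintro rfl
      simp at h2
    have hw : w ≠ 0 := by
      rintro rfl
      simp at h2
    refine ⟨hv, hw, ?_⟩
    obtain ⟨a, b, hab⟩ := bez hv
    obtain ⟨c, d, hcd⟩ := bez hw
    have gv := gg_pos' hv
    have gw := gg_pos' hw
    have e1 := gg_mul_fst v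
    have e2 := gg_mul_snd v
    have f1 := gg_mul_fst w
    have f2 := gg_mul_snd w
    set p := pr v
    set r := pr w
    have h3 : p.1 * r.2 = p.2 * r.1 := by
      have : (gg v * gg w) * (p.1 * r.2) = (gg v * gg w) * (p.2 * r.1) := by
        calc (gg v * gg w) * (p.1 * r.2) = (gg v * p.1) * (gg w * r.2) := by ring
          _ = v.1 * w.2 := by rw [e1, f2]
          _ = v.2 * w.1 := h1
          _ = (gg v * p.2) * (gg w * r.1) := by rw [e2, f1]
          _ = (gg v * gg w) * (p.2 * r.1) := by ring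
      exact mul_left_cancel₀ (mul_pos gv gw).ne' this
    have h4 : 0 < p.1 * r.1 + p.2 * r.2 := by
      have : 0 < (gg v * gg w) * (p.1 * r.1 + p.2 * r.2) := by
        have e : (gg v * gg w) * (p.1 * r.1 + p.2 * r.2) = v.1 * w.1 + v.2 * w.2 := by
          calc (gg v * gg w) * (p.1 * r.1 + p.2 * r.2)
              = (gg v * p.1) * (gg w * r.1) + (gg v * p.2) * (gg w * r.2) := by ring
            _ = v.1 * w.1 + v.2 * w.2 := by rw [e1, f1, e2, f2]
        rw [e]
        exact h2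
      by_contra h5
      exact absurd this (not_lt.2 (mul_nonpos_of_nonneg_of_nonpos (mul_pos gv gw).le (not_lt.1 h5)))
    set l := a * r.1 + b * r.2 with hl
    set m := c * p.1 + d * p.2 with hm
    have g1 : l * p.1 = r.1 := by
      rw [hl]
      linear_combination b * h3 + r.1 * hab
    have g2 : l * p.2 = r.2 := by
      rw [hl]
      linear_combination -a * h3 + r.2 * hab
    have g3 : m * r.1 = p.1 := by
      rw [hm]
      linear_combination -d * h3 + p.1 * hcd
    have g4 : m * r.2 = p.2 := by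
      rw [hm]
      linear_combination c * h3 + p.2 * hcd
    have g5 : l * m = 1 := by
      have : l * m = l * m * (a * p.1 + b * p.2) := by rw [hab, mul_one]
      rw [this]
      have q1 : m * (l * p.1) = p.1 := by rw [g1, g3]
      have q2 : m * (l * p.2) = p.2 := by rw [g2, g4]
      linear_combination a * q1 + b * q2 + hab
    have g6 : l = 1 := by
      rcases Int.eq_one_or_neg_one_of_mul_eq_one g5 with h | h
      · exact h
      · exfalso
        rw [← g1, ← g2, h] at h4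
        nlinarith [sq_nonneg p.1, sq_nonneg p.2]
    rw [g6, one_mul] at g1 g2
    exact Prod.ext g1 g2
  · rintro ⟨hv, hw, h⟩
    have gv := gg_pos' hv
    have gw := gg_pos' hw
    have e1 := gg_mul_fst v
    have e2 := gg_mul_snd v
    have f1 := gg_mul_fst w
    have f2 := gg_mul_snd w
    have hp := pr_ne hv
    rw [← h] at f1 f2
    refine ⟨?_, ?_⟩
    · rw [← e1, ← e2, ← f1, ← f2]
      ring
    · rw [← e1, ← e2, ← f1, ← f2]
      have h5 : 0 < (pr v).1 * (pr v).1 + (pr v).2 * (pr v).2 := by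
        by_contra h6
        apply hp
        have h7 : (pr v).1 = 0 := by nlinarith [mul_self_nonneg (pr v).1, mul_self_nonneg (pr v).2]
        have h8 : (pr v).2 = 0 := by nlinarith [mul_self_nonneg (pr v).1, mul_self_nonneg (pr v).2]
        exact Prod.ext h7 h8
      have h9 := mul_pos (mul_pos gv gw) h5
      linarith [h9, show gg v * (pr v).1 * (gg w * (pr v).1) + gg v * (pr v).2 * (gg w * (pr v).2)
        = gg v * gg w * ((pr v).1 * (pr v).1 + (pr v).2 * (pr v).2) by ring]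

/-- indicator of `b` having key `κ` and multiplicity at least `m` -/
noncomputable def ind (κ : Blk) (m : ℤ) (b : Blk) : ℤ := by
  classical exact if b.1 ≠ 0 ∧ (pr b.1, b.2) = κ ∧ m ≤ gg b.1 then 1 else 0

/-- partial sums -/
noncomputable def T (e : Blk →₀ ℤ) (κ : Blk) (m : ℤ) : ℤ := tot e (ind κ m)

/-- the set of keys -/
noncomputable def keys (e : Blk →₀ ℤ) : Finset Blk := by
  classical exact e.support.image fun b => (pr b.1, b.2)

lemma tot_def (e : Blk →₀ ℤ) (f : Blk → ℤ) : tot e f = ∑ b ∈ e.support, e b * f b := rfl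

lemma one_le_sq (r : ℤ) (h : r ≠ 0) : 1 ≤ r ^ 2 := by
  have h1 : 0 < r ^ 2 := by positivity
  exact h1

lemma sum_ind (N : ℤ) (n : ℤ) (h0 : 0 ≤ n) (hn : n ≤ N) :
    ∑ m ∈ Finset.Icc 1 N, (if m ≤ n then (1 : ℤ) else 0) = n := by
  classical
  rw [← Finset.sum_filter]
  have : (Finset.Icc 1 N).filter (fun m => m ≤ n) = Finset.Icc 1 n := by
    ext m
    simp only [Finset.mem_filter, Finset.mem_Icc]
    constructor
    · rintro ⟨⟨h1, _⟩, h3⟩
      exact ⟨h1, h3⟩
    · rintro ⟨h1, h3⟩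
      exact ⟨⟨h1, h3.trans hn⟩, h3⟩
  rw [this, Finset.sum_const, Int.card_Icc]
  simp only [nsmul_eq_mul, mul_one]
  rw [Int.toNat_of_nonneg (by linarith)]
  ring

/-- the decomposition of a function supported on one key -/
lemma key_sum (e : Blk →₀ ℤ) (N : ℤ) {b : Blk} (hb : b ∈ e.support) (hN : gg b.1 ≤ N) (h0 : b.1 ≠ 0)
    (F : Blk → ℤ → ℤ) :
    ∑ κ ∈ keys e, ∑ m ∈ Finset.Icc 1 N, ind κ m b * F κ m =
      ∑ m ∈ Finset.Icc 1 N, (if m ≤ gg b.1 then F (pr b.1, b.2) m else 0) := by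
  classical
  rw [Finset.sum_eq_single (pr b.1, b.2)]
  · refine Finset.sum_congr rfl fun m _ => ?_
    unfold ind
    by_cases h : m ≤ gg b.1
    · rw [if_pos ⟨h0, rfl, h⟩, if_pos h, one_mul]
    · rw [if_neg (fun h' => h h'.2.2), if_neg h, zero_mul]
  · intro κ _ hκ
    refine Finset.sum_eq_zero fun m _ => ?_
    unfold ind
    rw [if_neg (fun h' => hκ h'.2.1.symm), zero_mul]
  · intro h
    exfalso
    apply h
    unfold keys
    exact Finset.mem_image_of_mem _ hb

lemma key_zero (e : Blk →₀ ℤ) (N : ℤ) {b : Blk} (h0 : b.1 = 0) (F : Blk → ℤ → ℤ) :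
    ∑ κ ∈ keys e, ∑ m ∈ Finset.Icc 1 N, ind κ m b * F κ m = 0 := by
  classical
  refine Finset.sum_eq_zero fun κ _ => Finset.sum_eq_zero fun m _ => ?_
  unfold ind
  rw [if_neg (fun h' => h'.1 h0), zero_mul]

lemma mb_eq (e : Blk →₀ ℤ) (N : ℤ) {b c : Blk} (hb : b ∈ e.support)
    (hN : gg b.1 ≤ N) (hN' : gg c.1 ≤ N) :
    mb b c = ∑ κ ∈ keys e, ∑ m ∈ Finset.Icc 1 N, ind κ m b * ind κ m c := by
  classical
  by_cases h0 : b.1 = 0
  · rw [key_zero e N h0]
    unfold mb
    rw [if_neg]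
    rintro ⟨h1, _⟩
    exact (ray_iff.1 h1).1 h0
  · rw [key_sum e N hb hN h0]
    unfold mb
    by_cases h1 : ray b.1 c.1 ∧ b.2 = c.2
    · rw [if_pos h1]
      have h2 := ray_iff.1 h1.1
      have gb := gg_pos' h2.1
      have gc := gg_pos' h2.2.1
      have h3 : ∀ m : ℤ, (if m ≤ gg b.1 then ind (pr b.1, b.2) m c else 0) =
          if m ≤ min (gg b.1) (gg c.1) then 1 else 0 := by
        intro m
        unfold ind
        by_cases h4 : m ≤ gg b.1
        · rw [if_pos h4]
          by_cases h5 : m ≤ gg c.1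
          · rw [if_pos ⟨h2.2.1, by rw [h2.2.2, h1.2], h5⟩, if_pos (le_min h4 h5)]
          · rw [if_neg (fun h' => h5 h'.2.2), if_neg (fun h' => h5 (h'.trans (min_le_right _ _)))]
        · rw [if_neg h4, if_neg (fun h' => h4 (h'.trans (min_le_left _ _)))]
      rw [Finset.sum_congr rfl fun m _ => h3 m]
      exact (sum_ind N _ (le_min gb.le gc.le) ((min_le_left _ _).trans hN)).symm
    · rw [if_neg h1]
      symm
      refine Finset.sum_eq_zero fun m _ => ?_
      by_cases h4 : m ≤ gg b.1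
      · rw [if_pos h4]
        unfold ind
        rw [if_neg]
        rintro ⟨h5, h6, _⟩
        rw [Prod.mk.injEq] at h6
        exact h1 ⟨ray_iff.2 ⟨h0, h5, h6.1.symm⟩, h6.2.symm⟩
      · rw [if_neg h4]

lemma exists_N (e : Blk →₀ ℤ) : ∃ N : ℤ, ∀ b ∈ e.support, gg b.1 ≤ N := by
  classical
  refine ⟨∑ b ∈ e.support, gg b.1, fun b hb => ?_⟩
  exact Finset.single_le_sum (f := fun b : Blk => gg b.1) (fun c _ => by unfold gg; positivity) hb

lemma SS_eq (e : Blk →₀ ℤ) (N : ℤ) (hN : ∀ b ∈ e.support, gg b.1 ≤ N) :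
    SS e = ∑ κ ∈ keys e, ∑ m ∈ Finset.Icc 1 N, T e κ m ^ 2 := by
  classical
  unfold SS
  rw [tot_def]
  have h1 : ∀ b ∈ e.support, e b * tot e (fun c => mb b c) =
      ∑ κ ∈ keys e, ∑ m ∈ Finset.Icc 1 N, (e b * ind κ m b) * T e κ m := by
    intro b hb
    have h2 : tot e (fun c => mb b c) =
        ∑ κ ∈ keys e, ∑ m ∈ Finset.Icc 1 N, ind κ m b * T e κ m := by
      rw [tot_def]
      have h3 : ∀ c ∈ e.support, e c * mb b c =
          ∑ κ ∈ keys e, ∑ m ∈ Finset.Icc 1 N, ind κ m b * (e c * ind κ m c) := by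
        intro c hc
        rw [mb_eq e N hb (hN b hb) (hN c hc), Finset.mul_sum]
        refine Finset.sum_congr rfl fun κ _ => ?_
        rw [Finset.mul_sum]
        refine Finset.sum_congr rfl fun m _ => ?_
        ring
      rw [Finset.sum_congr rfl h3, Finset.sum_comm]
      refine Finset.sum_congr rfl fun κ _ => ?_
      rw [Finset.sum_comm]
      refine Finset.sum_congr rfl fun m _ => ?_
      rw [← Finset.mul_sum]
      rfl
    rw [h2, Finset.mul_sum]
    refine Finset.sum_congr rfl fun κ _ => ?_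
    rw [Finset.mul_sum]
    refine Finset.sum_congr rfl fun m _ => ?_
    ring
  rw [Finset.sum_congr rfl h1, Finset.sum_comm]
  refine Finset.sum_congr rfl fun κ _ => ?_
  rw [Finset.sum_comm]
  refine Finset.sum_congr rfl fun m _ => ?_
  rw [← Finset.sum_mul, sq]
  rfl

lemma lin_eq (e : Blk →₀ ℤ) (N : ℤ) (hN : ∀ b ∈ e.support, gg b.1 ≤ N) (f g : ℤ × ℤ → ℤ)
    (hfg : ∀ v, f v = gg v * g (pr v)) :
    tot e (fun b => f b.1) = ∑ κ ∈ keys e, ∑ m ∈ Finset.Icc 1 N, T e κ m * g κ.1 := by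
  classical
  have h1 : ∀ b ∈ e.support, e b * f b.1 =
      ∑ κ ∈ keys e, ∑ m ∈ Finset.Icc 1 N, (e b * ind κ m b) * g κ.1 := by
    intro b hb
    by_cases h0 : b.1 = 0
    · have h2 := key_zero e N h0 (fun κ _ => g κ.1)
      have h3 : f b.1 = 0 := by
        rw [hfg, h0]
        simp [gg]
      rw [h3, mul_zero]
      symm
      calc ∑ κ ∈ keys e, ∑ m ∈ Finset.Icc 1 N, (e b * ind κ m b) * g κ.1
          = e b * ∑ κ ∈ keys e, ∑ m ∈ Finset.Icc 1 N, ind κ m b * g κ.1 := by
            rw [Finset.mul_sum]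
            refine Finset.sum_congr rfl fun κ _ => ?_
            rw [Finset.mul_sum]
            refine Finset.sum_congr rfl fun m _ => ?_
            ring
        _ = 0 := by rw [h2, mul_zero]
    · have h2 := key_sum e N hb (hN b hb) h0 (fun κ _ => g κ.1)
      have h3 : ∑ m ∈ Finset.Icc 1 N, (if m ≤ gg b.1 then g (pr b.1) else 0) = f b.1 := by
        rw [hfg]
        have h4 := sum_ind N (gg b.1) (gg_pos' h0).le (hN b hb)
        rw [← h4, Finset.sum_mul]
        refine Finset.sum_congr rfl fun m _ => ?_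
        rw [h4]
        split_ifs <;> simp
      symm
      calc ∑ κ ∈ keys e, ∑ m ∈ Finset.Icc 1 N, (e b * ind κ m b) * g κ.1
          = e b * ∑ κ ∈ keys e, ∑ m ∈ Finset.Icc 1 N, ind κ m b * g κ.1 := by
            rw [Finset.mul_sum]
            refine Finset.sum_congr rfl fun κ _ => ?_
            rw [Finset.mul_sum]
            refine Finset.sum_congr rfl fun m _ => ?_
            ring
        _ = e b * f b.1 := by rw [h2, ← h3]
  rw [tot_def, Finset.sum_congr rfl h1, Finset.sum_comm]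
  refine Finset.sum_congr rfl fun κ _ => ?_
  rw [Finset.sum_comm]
  refine Finset.sum_congr rfl fun m _ => ?_
  rw [← Finset.sum_mul]
  rfl

lemma T_conj (e : Blk →₀ ℤ) (he : RealE e) (p : ℤ × ℤ) (t : ℂ) (m : ℤ) :
    T e (p, (starRingEnd ℂ) t) m = T e (p, t) m := by
  classical
  unfold T
  rw [tot_def, tot_def]
  refine Finset.sum_nbij' (fun b => (b.1, (starRingEnd ℂ) b.2)) (fun b => (b.1, (starRingEnd ℂ) b.2))
    ?_ ?_ ?_ ?_ ?_
  · intro b hb
    rw [Finsupp.mem_support_iff] at hb ⊢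
    rwa [he.1 b]
  · intro b hb
    rw [Finsupp.mem_support_iff] at hb ⊢
    rwa [he.1 b]
  · intro b _
    simp
  · intro b _
    simp
  · intro b _
    rw [he.1 b]
    congr 1
    unfold ind
    refine if_congr ?_ rfl rfl
    refine and_congr Iff.rfl (and_congr ?_ Iff.rfl)
    constructor
    · intro h
      have h1 : pr b.1 = p := congrArg Prod.fst h
      have h2 : b.2 = (starRingEnd ℂ) t := congrArg Prod.snd h
      exact Prod.ext h1 (by rw [h2, Complex.conj_conj])
    · intro h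
      have h1 : pr b.1 = p := congrArg Prod.fst h
      have h2 : (starRingEnd ℂ) b.2 = t := congrArg Prod.snd h
      exact Prod.ext h1 (by rw [← h2, Complex.conj_conj])

lemma T_even (e : Blk →₀ ℤ) (he : RealE e) (p : ℤ × ℤ) (t : ℂ) (m : ℤ)
    (ht : (starRingEnd ℂ) t = t) : Even (T e (p, t) m) := by
  classical
  unfold T
  rw [tot_def]
  refine Finset.even_sum _ fun b _ => ?_
  by_cases h : b.2 = t
  · exact (he.2 b (by rw [h, ht])).mul_right _
  · unfold ind
    rw [if_neg]
    · simp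
    · rintro ⟨_, h2, _⟩
      rw [Prod.mk.injEq] at h2
      exact h h2.2

lemma T_ne (e : Blk →₀ ℤ) (κ : Blk) (m : ℤ) (h : T e κ m ≠ 0) :
    ∃ b ∈ e.support, b.1 ≠ 0 ∧ (pr b.1, b.2) = κ ∧ m ≤ gg b.1 := by
  classical
  unfold T at h
  rw [tot_def] at h
  obtain ⟨b, hb, h1⟩ := Finset.exists_ne_zero_of_sum_ne_zero h
  refine ⟨b, hb, ?_⟩
  by_contra h2
  apply h1
  unfold ind
  rw [if_neg h2, mul_zero]

lemma T_sub (e : Blk →₀ ℤ) {b : Blk} (h0 : b.1 ≠ 0) :
    T e (pr b.1, b.2) (gg b.1) - T e (pr b.1, b.2) (gg b.1 + 1) = e b := by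
  classical
  unfold T
  rw [tot_def, tot_def, ← Finset.sum_sub_distrib]
  by_cases hb : b ∈ e.support
  · rw [Finset.sum_eq_single b]
    · unfold ind
      rw [if_pos ⟨h0, rfl, le_refl _⟩, if_neg (fun h => by have := h.2.2; linarith)]
      ring
    · intro c _ hc
      unfold ind
      by_cases h1 : c.1 ≠ 0 ∧ (pr c.1, c.2) = (pr b.1, b.2) ∧ gg b.1 ≤ gg c.1
      · have h2 : gg b.1 + 1 ≤ gg c.1 := by
          rcases eq_or_lt_of_le h1.2.2 with h3 | h3
          · exfalso
            apply hc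
            have h4 := h1.2.1
            rw [Prod.mk.injEq] at h4
            have h5 : c.1 = b.1 := by
              refine Prod.ext ?_ ?_
              · rw [← gg_mul_fst c.1, ← gg_mul_fst b.1, h3, h4.1]
              · rw [← gg_mul_snd c.1, ← gg_mul_snd b.1, h3, h4.1]
            exact Prod.ext h5 h4.2
          · exact h3
        rw [if_pos h1, if_pos ⟨h1.1, h1.2.1, h2⟩]
        ring
      · rw [if_neg h1, if_neg (fun h => h1 ⟨h.1, h.2.1, by linarith [h.2.2]⟩)]
        ring
    · intro h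
      exact absurd hb h
  · rw [Finsupp.notMem_support_iff.1 hb]
    refine Finset.sum_eq_zero fun c hc => ?_
    unfold ind
    by_cases h1 : c.1 ≠ 0 ∧ (pr c.1, c.2) = (pr b.1, b.2) ∧ gg b.1 ≤ gg c.1
    · have h2 : gg b.1 + 1 ≤ gg c.1 := by
        rcases eq_or_lt_of_le h1.2.2 with h3 | h3
        · exfalso
          apply hb
          have h4 := h1.2.1
          rw [Prod.mk.injEq] at h4
          have h5 : c.1 = b.1 := by
            refine Prod.ext ?_ ?_
            · rw [← gg_mul_fst c.1, ← gg_mul_fst b.1, h3, h4.1]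
            · rw [← gg_mul_snd c.1, ← gg_mul_snd b.1, h3, h4.1]
          have h6 : c = b := Prod.ext h5 h4.2
          rwa [← h6]
        · exact h3
      rw [if_pos h1, if_pos ⟨h1.1, h1.2.1, h2⟩]
      ring
    · rw [if_neg h1, if_neg (fun h => h1 ⟨h.1, h.2.1, by linarith [h.2.2]⟩)]
      ring

lemma T_zero (e : Blk →₀ ℤ) (hB : Bal e) (hR : RealE e) (hS : SS e ≤ 2) (κ : Blk) (m : ℤ) (hm : 1 ≤ m) :
    T e κ m = 0 := by
  classical
  by_contra hT
  obtain ⟨N, hN⟩ := exists_N e
  have hSS := SS_eq e N hN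
  rw [← Finset.sum_product'] at hSS
  obtain ⟨p, t⟩ := κ
  set κ' : Blk := (p, (starRingEnd ℂ) t) with hκ'
  have hT' : T e κ' m = T e (p, t) m := T_conj e hR p t m
  have hmem : ∀ (κ : Blk) (m : ℤ), 1 ≤ m → T e κ m ≠ 0 → (κ, m) ∈ keys e ×ˢ Finset.Icc 1 N := by
    intro κ m hm h
    obtain ⟨b, hb, h1, h2, h3⟩ := T_ne e κ m h
    refine Finset.mem_product.2 ⟨?_, Finset.mem_Icc.2 ⟨hm, h3.trans (hN b hb)⟩⟩
    rw [← h2]
    unfold keys
    exact Finset.mem_image_of_mem _ hb
  have m1 := hmem (p, t) m hm hT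
  have m2 := hmem κ' m hm (by rw [hT']; exact hT)
  by_cases ht : (starRingEnd ℂ) t = t
  · -- real constant
    obtain ⟨r, hr⟩ := T_even e hR p t m ht
    have h1 : T e (p, t) m ^ 2 ≤ SS e := by
      have h0 := Finset.single_le_sum (f := fun x : Blk × ℤ => T e x.1 x.2 ^ 2)
        (s := keys e ×ˢ Finset.Icc 1 N) (fun x _ => sq_nonneg (T e x.1 x.2)) m1
      rw [← hSS] at h0
      exact h0
    have h2 : r ≠ 0 := fun h => hT (by rw [hr, h, add_zero])
    have h3 : 1 ≤ r ^ 2 := one_le_sq r h2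
    rw [hr] at h1
    have h4 : (r + r) ^ 2 = 4 * r ^ 2 := by ring
    linarith
  · have hne : ((p, t), m) ≠ (κ', m) := by
      intro h
      rw [Prod.mk.injEq, hκ', Prod.mk.injEq] at h
      exact ht h.1.2.symm
    have hothers : ∀ x ∈ keys e ×ˢ Finset.Icc 1 N, x ∉ ({((p, t), m), (κ', m)} : Finset (Blk × ℤ)) →
        T e x.1 x.2 = 0 := by
      intro x hx hx'
      by_contra h1
      have h2 : ∑ y ∈ insert x ({((p, t), m), (κ', m)} : Finset (Blk × ℤ)), T e y.1 y.2 ^ 2 ≤ SS e := by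
        rw [hSS]
        refine Finset.sum_le_sum_of_subset_of_nonneg ?_ (fun y _ _ => sq_nonneg _)
        intro y hy
        rw [Finset.mem_insert, Finset.mem_insert, Finset.mem_singleton] at hy
        rcases hy with rfl | rfl | rfl
        · exact hx
        · exact m1
        · exact m2
      rw [Finset.sum_insert hx', Finset.sum_pair hne] at h2
      have h3 : 1 ≤ T e x.1 x.2 ^ 2 := one_le_sq _ h1
      have h5 : 1 ≤ T e (p, t) m ^ 2 := one_le_sq _ hT
      simp only [hT'] at h2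
      linarith
    have hlin : ∀ g : ℤ × ℤ → ℤ, ∑ x ∈ keys e ×ˢ Finset.Icc 1 N, T e x.1 x.2 * g x.1.1 =
        2 * (T e (p, t) m * g p) := by
      intro g
      rw [← Finset.sum_subset (s₁ := ({((p, t), m), (κ', m)} : Finset (Blk × ℤ)))]
      · rw [Finset.sum_pair hne]
        simp only [hT']
        rw [hκ']
        ring
      · intro y hy
        rw [Finset.mem_insert, Finset.mem_singleton] at hy
        rcases hy with rfl | rfl
        · exact m1
        · exact m2
      · intro x hx hx'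
        rw [hothers x hx hx', zero_mul]
    have hb1 := lin_eq e N hN (fun v => v.1) (fun v => v.1) (fun v => (gg_mul_fst v).symm)
    have hb2 := lin_eq e N hN (fun v => v.2) (fun v => v.2) (fun v => (gg_mul_snd v).symm)
    rw [← Finset.sum_product', hB.1, hlin (fun v => v.1)] at hb1
    rw [← Finset.sum_product', hB.2, hlin (fun v => v.2)] at hb2
    obtain ⟨b, _, h1, h2, _⟩ := T_ne e (p, t) m hT
    have h3 : pr b.1 = p := by
      rw [Prod.mk.injEq] at h2
      exact h2.1
    apply pr_ne h1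
    rw [h3]
    refine Prod.ext ?_ ?_
    · have h4 : T e (p, t) m * p.1 = 0 := by linarith
      exact (mul_eq_zero.1 h4).resolve_left hT
    · have h4 : T e (p, t) m * p.2 = 0 := by linarith
      exact (mul_eq_zero.1 h4).resolve_left hT

end SSAux

open SSAux in
/-- F9. Small values of `SS`. -/
theorem stSS : StSS := by
  intro e hB hR hS b hb
  have hg := gg_pos' hb
  rw [← T_sub e hb, T_zero e hB hR hS _ _ hg, T_zero e hB hR hS _ _ (by linarith)]
  ring

end QD
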