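import Pool.Agent.Lib.QD.St
import Pool.Agent.Lib.QD.CSt

/-!
Project QD, module Tame: tame automorphisms induce reachable pairs.
-/

namespace QD

open Polynomial

namespace TameAux

/-- scaling of a finite family in a valued field -/
theorem scale_fin {k ι : Type} [Field k] (O : ValuationSubring k) (s : Finset ι) (a : ι → k)
    (h : ∃ i ∈ s, a i ≠ 0) : ∃ j ∈ s, a j ≠ 0 ∧ ∀ i ∈ s, a i / a j ∈ O := by
  obtain ⟨i0, hi0, hne⟩ := h
  obtain ⟨j, hj, hmax⟩ := Finset.exists_max_image s (fun i => O.valuation (a i)) ⟨i0, hi0⟩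
  have hj0 : a j ≠ 0 := by
    intro h0
    have h1 := hmax i0 hi0
    rw [h0, map_zero] at h1
    have h2 : O.valuation (a i0) = 0 := le_antisymm h1 zero_le
    exact hne ((map_eq_zero _).1 h2)
  refine ⟨j, hj, hj0, fun i hi => ?_⟩
  rw [← ValuationSubring.valuation_le_one_iff, map_div₀]
  have h3 : O.valuation (a j) ≠ 0 := (_root_.map_ne_zero _).2 hj0
  exact div_le_one_of_le₀ (hmax i hi) zero_le

/-- a nonzero polynomial is a constant times a primitive polynomial over the valuation ring -/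
theorem scale_poly {k : Type} [Field k] (O : ValuationSubring k) (ρ : O →+* ℝ) (b : k[X]) (hb : b ≠ 0) :
    ∃ (c : k) (p : O[X]), c ≠ 0 ∧ p.map ρ ≠ 0 ∧ b = C c * p.map O.subtype := by
  obtain ⟨j, hj, hj0, hO⟩ := scale_fin O b.support (fun i => b.coeff i) (by
    obtain ⟨i, hi⟩ := Polynomial.support_nonempty.2 hb
    exact ⟨i, hi, Polynomial.mem_support_iff.1 hi⟩)
  have hO' : ∀ i, b.coeff i / b.coeff j ∈ O := by
    intro i
    by_cases hi : i ∈ b.support
    · exact hO i hi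
    · rw [Polynomial.notMem_support_iff.1 hi, zero_div]
      exact O.zero_mem
  let p : O[X] := ∑ i ∈ b.support, Polynomial.monomial i ⟨b.coeff i / b.coeff j, hO' i⟩
  have hpc : ∀ i, ((p.coeff i : O) : k) = b.coeff i / b.coeff j := by
    intro i
    simp only [p, Polynomial.finsetSum_coeff, Polynomial.coeff_monomial]
    rw [Finset.sum_ite_eq']
    split_ifs with hi
    · rfl
    · rw [Polynomial.notMem_support_iff.1 hi, zero_div]
      rfl
  refine ⟨b.coeff j, p, hj0, ?_, ?_⟩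
  · intro h0
    have h1 : (p.map ρ).coeff j = 0 := by rw [h0, Polynomial.coeff_zero]
    rw [Polynomial.coeff_map] at h1
    have h2 : p.coeff j = 1 := by
      apply Subtype.ext
      rw [hpc j, div_self hj0]
      rfl
    rw [h2, map_one] at h1
    exact one_ne_zero h1
  · ext i
    rw [Polynomial.coeff_C_mul, Polynomial.coeff_map]
    change b.coeff i = b.coeff j * ((p.coeff i : O) : k)
    rw [hpc i]
    field_simp

section place
variable {k D E : Type} [Field k] [DivisionRing D] [Algebra k D] [Field E] [Algebra ℂ E]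
  {O : ValuationSubring k} {ρ : O →+* ℝ} {x y : D} {X0 Y0 : E} (V : QPlace O ρ x y X0 Y0)

theorem rel_one : V.rel 1 1 := by
  have h := V.con 1
  simpa using h

theorem rel_zero : V.rel 0 0 := by
  have h := V.con 0
  simpa using h

/-- constants which are finite at the place are in `O` -/
theorem rel_const (loc : ∀ a : O, ρ a ≠ 0 → IsUnit a) (c : k) (e : E) (h : V.rel (algebraMap k D c) e) :
    ∃ hc : c ∈ O, e = algebraMap ℂ E ((ρ ⟨c, hc⟩ : ℝ) : ℂ) := by
  have hc : c ∈ O := by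
    by_contra hc
    have hc0 : c ≠ 0 := fun h0 => hc (h0 ▸ O.zero_mem)
    have hi : c⁻¹ ∈ O := (O.mem_or_inv_mem c).resolve_left hc
    have hr : ρ ⟨c⁻¹, hi⟩ = 0 := by
      by_contra hr
      obtain ⟨u, hu⟩ := loc _ hr
      apply hc
      have h2 : ((u : O) : k) * ((u⁻¹ : Oˣ) : O) = 1 := by
        have := congrArg (fun z : O => (z : k)) u.mul_inv
        exact this
      rw [hu] at h2
      have h3 : (((u⁻¹ : Oˣ) : O) : k) = c := by
        have : c⁻¹ * (((u⁻¹ : Oˣ) : O) : k) = 1 := h2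
        field_simp at this
        exact this
      rw [← h3]
      exact ((u⁻¹ : Oˣ) : O).2
    have h4 := V.con ⟨c⁻¹, hi⟩
    rw [hr] at h4
    have h5 := V.mul _ _ _ _ h h4
    rw [← map_mul, mul_inv_cancel₀ hc0, map_one] at h5
    have h6 := V.uniq _ _ _ h5 (rel_one V)
    simp at h6
  exact ⟨hc, V.uniq _ _ _ h (V.con ⟨c, hc⟩)⟩

theorem rel_poly (u : D) (e : E) (h : V.rel u e) (p : O[X]) :
    V.rel (aeval u (p.map O.subtype)) (evc e (p.map ρ)) := by
  induction p using Polynomial.induction_on' with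
  | add p r hp hr =>
    rw [Polynomial.map_add, Polynomial.map_add, map_add]
    have : evc e (p.map ρ + r.map ρ) = evc e (p.map ρ) + evc e (r.map ρ) := by
      simp [evc, Polynomial.eval₂_add]
    rw [this]
    exact V.add _ _ _ _ hp hr
  | monomial n a =>
    have hpow : V.rel (u ^ n) (e ^ n) := by
      induction n with
      | zero => simpa using rel_one V
      | succ n ih => rw [pow_succ, pow_succ]; exact V.mul _ _ _ _ ih h
    have := V.mul _ _ _ _ (V.con a) hpow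
    rw [Polynomial.map_monomial, Polynomial.map_monomial, Polynomial.aeval_monomial]
    have h2 : evc e (Polynomial.monomial n (ρ a)) = algebraMap ℂ E ((ρ a : ℝ) : ℂ) * e ^ n := by
      simp [evc, Polynomial.eval₂_monomial]
    rw [h2]
    exact this

/-- value of a rational function at `c u` -/
theorem rel_evR (u : D) (e : E) (h : V.rel u e) (c : k) (hc : c ≠ 0)
    (he : ∀ P : ℝ[X], P ≠ 0 → evc e P ≠ 0) (b : RatFunc k) (hb : b ≠ 0) :
    ∃ (c' : k) (w : D) (P Q : ℝ[X]), c' ≠ 0 ∧ P ≠ 0 ∧ Q ≠ 0 ∧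
      evR (algebraMap k D c * u) b = algebraMap k D c' * w ∧ V.rel w (evc e P / evc e Q) := by
  have hcomp : ∀ p : k[X], aeval (algebraMap k D c * u) p = aeval u (p.comp (C c * X)) := by
    intro p
    rw [Polynomial.aeval_comp]
    simp
  have hne : ∀ p : k[X], p ≠ 0 → p.comp (C c * X) ≠ 0 := by
    intro p hp h0
    apply hp
    have h1 : (p.comp (C c * X)).comp (C c⁻¹ * X) = p := by
      rw [Polynomial.comp_assoc]
      simp [← mul_assoc, ← C_mul, hc]
    rw [← h1, h0, Polynomial.zero_comp]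
  obtain ⟨c1, p1, hc1, hp1, he1⟩ := scale_poly O ρ _ (hne b.num (RatFunc.num_ne_zero hb))
  obtain ⟨c2, p2, hc2, hp2, he2⟩ := scale_poly O ρ _ (hne b.denom (RatFunc.denom_ne_zero b))
  refine ⟨c1 / c2, aeval u (p1.map O.subtype) * (aeval u (p2.map O.subtype))⁻¹, p1.map ρ, p2.map ρ,
    div_ne_zero hc1 hc2, hp1, hp2, ?_, ?_⟩
  · rw [evR, hcomp, hcomp, he1, he2, map_mul, map_mul, Polynomial.aeval_C, Polynomial.aeval_C, mul_inv_rev,
      ← map_inv₀ (algebraMap k D)]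
    have hcen : ∀ (a : k) (d : D), d * algebraMap k D a = algebraMap k D a * d :=
      fun a d => (Algebra.commutes a d).symm
    rw [div_eq_mul_inv, map_mul]
    calc algebraMap k D c1 * aeval u (p1.map O.subtype) *
        ((aeval u (p2.map O.subtype))⁻¹ * algebraMap k D c2⁻¹)
        = algebraMap k D c1 * (aeval u (p1.map O.subtype) *
          ((aeval u (p2.map O.subtype))⁻¹ * algebraMap k D c2⁻¹)) := by rw [mul_assoc]
      _ = algebraMap k D c1 * ((aeval u (p1.map O.subtype) *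
          (aeval u (p2.map O.subtype))⁻¹) * algebraMap k D c2⁻¹) := by rw [mul_assoc (aeval u _)]
      _ = algebraMap k D c1 * algebraMap k D c2⁻¹ * (aeval u (p1.map O.subtype) *
          (aeval u (p2.map O.subtype))⁻¹) := by rw [hcen, mul_assoc]
  · rw [div_eq_mul_inv]
    exact V.mul _ _ _ _ (rel_poly V u e h p1) (V.inv _ _ (rel_poly V u e h p2) (he _ hp2))

/-- the claim that is proved by induction -/
def Claim (φ : D ≃ₐ[k] D) : Prop := ∃ (c1 c2 : k) (x1 y1 : D) (X1 Y1 : E), c1 ≠ 0 ∧ c2 ≠ 0 ∧ X1 ≠ 0 ∧ Y1 ≠ 0 ∧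
  φ x = algebraMap k D c1 * x1 ∧ φ y = algebraMap k D c2 * y1 ∧ V.rel x1 X1 ∧ V.rel y1 Y1 ∧
  Reach X0 Y0 X1 Y1

theorem map_evR (φ : D ≃ₐ[k] D) (u : D) (b : RatFunc k) : φ (evR u b) = evR (φ u) b := by
  have h : ∀ p : k[X], φ (aeval u p) = aeval (φ u) p := fun p =>
    (Polynomial.aeval_algHom_apply φ.toAlgHom u p).symm
  rw [evR, evR, map_mul, map_inv₀, h, h]

theorem evc_ne (hInd : StInd) {X1 Y1 : E} (h : Ind X1 Y1) (P : ℝ[X]) (hP : P ≠ 0) : evc Y1 P ≠ 0 := by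
  have h1 := ((hInd E X1 Y1 h).2.2.2.1 (P.map Complex.ofRealHom)
    ((Polynomial.map_ne_zero_iff Complex.ofRealHom.injective).2 hP)).1
  rw [Polynomial.aeval_def, Polynomial.eval₂_map] at h1
  exact h1

theorem claim_step (hInd : StInd) (hRI : StReachInd) (hI : Ind X0 Y0) (φ g : D ≃ₐ[k] D)
    (hφ : Claim V φ) (hg : IsElem x y g ∨ IsInner g) : Claim V (φ * g) := by
  obtain ⟨c1, c2, x1, y1, X1, Y1, hc1, hc2, hX1, hY1, hx, hy, hrx, hry, hR⟩ := hφ
  have hI1 : Ind X1 Y1 := hRI E X0 Y0 X1 Y1 hI hR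
  have hI2 : Ind Y1 X1 := (hInd E X1 Y1 hI1).1
  have hcen : ∀ (a : k) (d : D), d * algebraMap k D a = algebraMap k D a * d :=
    fun a d => (Algebra.commutes a d).symm
  rcases hg with (⟨gx, gy⟩ | ⟨b, hb, gx, gy⟩ | ⟨a, ha, gx, gy⟩) | ⟨w, hw, hgw⟩
  · refine ⟨c1⁻¹, c2⁻¹, x1⁻¹, y1⁻¹, X1⁻¹, Y1⁻¹, inv_ne_zero hc1, inv_ne_zero hc2, inv_ne_zero hX1,
      inv_ne_zero hY1, ?_, ?_, V.inv _ _ hrx hX1, V.inv _ _ hry hY1, Reach.inv _ _ hR⟩
    · rw [AlgEquiv.mul_apply, gx, map_inv₀, hx, mul_inv_rev, ← map_inv₀ (algebraMap k D), hcen]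
    · rw [AlgEquiv.mul_apply, gy, map_inv₀, hy, mul_inv_rev, ← map_inv₀ (algebraMap k D), hcen]
  · obtain ⟨c', w, P, Q, hc', hP, hQ, hw, hrw⟩ := rel_evR V y1 Y1 hry c2 hc2
      (fun P hP => evc_ne hInd hI1 P hP) b hb
    refine ⟨c' * c1, c2, w * x1, y1, evc Y1 P / evc Y1 Q * X1, Y1, mul_ne_zero hc' hc1, hc2,
      mul_ne_zero (div_ne_zero (evc_ne hInd hI1 P hP) (evc_ne hInd hI1 Q hQ)) hX1, hY1, ?_, ?_,
      V.mul _ _ _ _ hrw hrx, hry, Reach.stepX _ _ P Q hP hQ hR⟩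
    · rw [AlgEquiv.mul_apply, gx, map_mul, map_evR, hx, hy, hw, map_mul, mul_assoc, ← mul_assoc w,
        hcen c1 w, mul_assoc, mul_assoc]
    · rw [AlgEquiv.mul_apply, gy, hy]
  · obtain ⟨c', w, P, Q, hc', hP, hQ, hw, hrw⟩ := rel_evR V x1 X1 hrx c1 hc1
      (fun P hP => evc_ne hInd hI2 P hP) a ha
    refine ⟨c1, c' * c2, x1, w * y1, X1, evc X1 P / evc X1 Q * Y1, hc1, mul_ne_zero hc' hc2, hX1,
      mul_ne_zero (div_ne_zero (evc_ne hInd hI2 P hP) (evc_ne hInd hI2 Q hQ)) hY1, ?_, ?_,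
      hrx, V.mul _ _ _ _ hrw hry, Reach.stepY _ _ P Q hP hQ hR⟩
    · rw [AlgEquiv.mul_apply, gx, hx]
    · rw [AlgEquiv.mul_apply, gy, map_mul, map_evR, hx, hy, hw, map_mul, mul_assoc, ← mul_assoc w,
        hcen c2 w, mul_assoc, mul_assoc]
  · obtain ⟨c, hc, e, he, hre⟩ := V.scale (φ w) (by simpa using hw)
    have hstep : ∀ d, φ (g d) = (algebraMap k D c * φ w) * φ d * (algebraMap k D c * φ w)⁻¹ := by
      intro d
      have haa : algebraMap k D c * algebraMap k D c⁻¹ = 1 := by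
        rw [← (algebraMap k D).map_mul, mul_inv_cancel₀ hc, (algebraMap k D).map_one]
      have h1 : algebraMap k D c * φ w * φ d * ((φ w)⁻¹ * algebraMap k D c⁻¹) =
          (algebraMap k D c * algebraMap k D c⁻¹) * (φ w * φ d * (φ w)⁻¹) := by
        rw [← mul_assoc _ (φ w)⁻¹, hcen c⁻¹, haa, one_mul]
        rw [mul_assoc (algebraMap k D c), mul_assoc (algebraMap k D c), ← mul_assoc (algebraMap k D c⁻¹),
          hcen c (algebraMap k D c⁻¹), haa, one_mul]
      rw [hgw d, map_mul, map_mul, map_inv₀, mul_inv_rev, ← map_inv₀ (algebraMap k D), h1, haa, one_mul]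
    have hconj : ∀ (c1 : k) (x1 : D) (X1 : E), V.rel x1 X1 →
        (algebraMap k D c * φ w) * (algebraMap k D c1 * x1) * (algebraMap k D c * φ w)⁻¹ =
          algebraMap k D c1 * ((algebraMap k D c * φ w) * x1 * (algebraMap k D c * φ w)⁻¹) ∧
        V.rel ((algebraMap k D c * φ w) * x1 * (algebraMap k D c * φ w)⁻¹) X1 := by
      intro c1 x1 X1 h1
      constructor
      · rw [← mul_assoc (algebraMap k D c * φ w), hcen c1 (algebraMap k D c * φ w)]
        simp only [mul_assoc]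
      · have h2 := V.mul _ _ _ _ (V.mul _ _ _ _ hre h1) (V.inv _ _ hre he)
        have h3 : e * X1 * e⁻¹ = X1 := by field_simp
        rwa [h3] at h2
    obtain ⟨hx2, hx3⟩ := hconj c1 x1 X1 hrx
    obtain ⟨hy2, hy3⟩ := hconj c2 y1 Y1 hry
    refine ⟨c1, c2, _, _, X1, Y1, hc1, hc2, hX1, hY1, ?_, ?_, hx3, hy3, hR⟩
    · rw [AlgEquiv.mul_apply, hstep, hx, hx2]
    · rw [AlgEquiv.mul_apply, hstep, hy, hy2]

end place

theorem inv_gen (hEv : StEv) {k D : Type} [Field k] [DivisionRing D] [Algebra k D] (x y : D)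
    (hx : ∀ p : k[X], p ≠ 0 → aeval x p ≠ 0) (hy : ∀ p : k[X], p ≠ 0 → aeval y p ≠ 0)
    (g : D ≃ₐ[k] D) (hg : IsElem x y g ∨ IsInner g) : IsElem x y g⁻¹ ∨ IsInner g⁻¹ := by
  have hinv : ∀ (u : D), (∀ p : k[X], p ≠ 0 → aeval u p ≠ 0) → ∀ b : RatFunc k, evR u b⁻¹ = (evR u b)⁻¹ := by
    intro u hu b
    obtain ⟨⟨f, hf⟩, -⟩ := hEv k D u hu
    rw [← hf, ← hf, map_inv₀]
  have happ : ∀ a d : D, g a = d → g⁻¹ d = a := by
    intro a d h
    rw [← h]
    exact g.symm_apply_apply a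
  rcases hg with (⟨gx, gy⟩ | ⟨b, hb, gx, gy⟩ | ⟨a, ha, gx, gy⟩) | ⟨w, hw, hgw⟩
  · left; left
    constructor
    · exact happ _ _ (by rw [map_inv₀, gx, inv_inv])
    · exact happ _ _ (by rw [map_inv₀, gy, inv_inv])
  · left; right; left
    refine ⟨b⁻¹, inv_ne_zero hb, ?_, happ _ _ gy⟩
    apply happ
    rw [map_mul, map_evR, gx, gy, hinv y hy, ← mul_assoc, inv_mul_cancel₀, one_mul]
    obtain ⟨⟨f, hf⟩, -⟩ := hEv k D y hy
    rw [← hf]
    exact (_root_.map_ne_zero f).2 hb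
  · left; right; right
    refine ⟨a⁻¹, inv_ne_zero ha, happ _ _ gx, ?_⟩
    apply happ
    rw [map_mul, map_evR, gx, gy, hinv x hx, ← mul_assoc, inv_mul_cancel₀, one_mul]
    obtain ⟨⟨f, hf⟩, -⟩ := hEv k D x hx
    rw [← hf]
    exact (_root_.map_ne_zero f).2 ha
  · right
    refine ⟨w⁻¹, inv_ne_zero hw, fun d => ?_⟩
    apply happ
    rw [hgw, inv_inv]
    simp [mul_assoc, hw]

end TameAux

open TameAux in
theorem stTame (hInd : StInd) (hRI : StReachInd) (hEv : StEv) (hTr : StTr) : StTame := by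
  intro k D E _ _ _ _ _ q x y R X0 Y0 hQD hq hI V φ hφ X' Y' hX' hY' hrX hrY
  obtain ⟨hxt, hyt, -⟩ := hTr k D q x y hQD.x0 hQD.y0 hQD.comm hq
  have hclaim : Claim V φ := by
    clear hrX hrY
    unfold Tame at hφ
    induction hφ using Subgroup.closure_induction_right with
    | one =>
      refine ⟨1, 1, x, y, X0, Y0, one_ne_zero, one_ne_zero, (hInd E X0 Y0 hI).2.2.1,
        (hInd E Y0 X0 (hInd E X0 Y0 hI).1).2.2.1, ?_, ?_, V.relx, V.rely, Reach.base⟩
      · simp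
      · simp
    | mul_right f _ g hg ih => exact claim_step V hInd hRI hI f g ih hg
    | mul_inv_cancel f _ g hg ih =>
      exact claim_step V hInd hRI hI f g⁻¹ ih (inv_gen hEv x y hxt hyt g hg)
  obtain ⟨c1, c2, x1, y1, X1, Y1, hc1, hc2, hX1, hY1, hx, hy, hrx, hry, hR⟩ := hclaim
  have key : ∀ (c : k) (d x1 : D) (e X1 : E), c ≠ 0 → X1 ≠ 0 → e ≠ 0 → d = algebraMap k D c * x1 →
      V.rel x1 X1 → V.rel d e → ∃ r : ℝ, r ≠ 0 ∧ e = algebraMap ℂ E (r : ℂ) * X1 := by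
    intro c d x1 e X1 hc hX1 he hd h1 h2
    have h3 := V.mul _ _ _ _ h2 (V.inv _ _ h1 hX1)
    have hx1 : x1 ≠ 0 := by
      intro h0
      rw [h0] at h1
      exact hX1 (V.uniq _ _ _ h1 (rel_zero V))
    rw [hd, mul_assoc, mul_inv_cancel₀ hx1, mul_one] at h3
    obtain ⟨hcO, hce⟩ := rel_const V R.loc c _ h3
    refine ⟨R.ρ ⟨c, hcO⟩, ?_, ?_⟩
    · intro h0
      rw [h0] at hce
      simp only [Complex.ofReal_zero, map_zero] at hce
      exact mul_ne_zero he (inv_ne_zero hX1) hce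
    · rw [← hce]
      field_simp
  obtain ⟨r1, hr1, he1⟩ := key c1 (φ x) x1 X' X1 hc1 hX1 hX' hx hrx hrX
  obtain ⟨r2, hr2, he2⟩ := key c2 (φ y) y1 Y' Y1 hc2 hY1 hY' hy hry hrY
  have h1 := Reach.stepX X1 Y1 (C r1) 1 (Polynomial.C_ne_zero.2 hr1) one_ne_zero hR
  have h2 := Reach.stepY _ Y1 (C r2) 1 (Polynomial.C_ne_zero.2 hr2) one_ne_zero h1
  have e1 : ∀ (Z : E) (r : ℝ), evc Z (C r) / evc Z 1 = algebraMap ℂ E (r : ℂ) := by
    intro Z r
    simp [evc]
  rw [e1, e1] at h2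
  rw [he1, he2]
  exact h2

end QD
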