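import Pool.Agent.Lib.QD.St
import Pool.Agent.Lib.QD.CSt

/-!
Project QD, module ThRes: residues of the quantum quintic.
-/

namespace QD

open Polynomial

namespace ThResAux

section nonzero

variable {E : Type} [Field E]

theorem mon_add (ρ : ℝ →+* E) (x y : E) (s t : ℕ × ℕ →₀ ℝ) :
    mon ρ x y (s + t) = mon ρ x y s + mon ρ x y t := by
  unfold mon
  rw [Finsupp.sum_add_index']
  · intro a
    rw [map_zero, zero_mul]
  · intro a b c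
    rw [map_add, add_mul]

theorem mon_single (ρ : ℝ →+* E) (x y : E) (i j : ℕ) (a : ℝ) :
    mon ρ x y (Finsupp.single (i, j) a) = ρ a * (y ^ i * x ^ j) := by
  unfold mon
  rw [Finsupp.sum_single_index]
  rw [map_zero, zero_mul]

/-- A polynomial with a nonzero constant term does not vanish at an independent pair. -/
theorem ne_zero [Algebra ℂ E] (X Y : E) (h : ∀ s : ℕ × ℕ →₀ ℝ, s ≠ 0 →
    mon ((algebraMap ℂ E).comp Complex.ofRealHom) X Y s ≠ 0) (c0 c1 c2 c3 c4 c5 : ℕ)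
    (hc : c0 ≠ 0) :
    (c0 : E) + c1 * X ^ 2 + c2 * Y ^ 2 + c3 * X ^ 4 + c4 * (X ^ 2 * Y ^ 2) + c5 * Y ^ 4 ≠ 0 := by
  have h1 := h (Finsupp.single (0, 0) (c0 : ℝ) + Finsupp.single (0, 2) (c1 : ℝ) +
    Finsupp.single (2, 0) (c2 : ℝ) + Finsupp.single (0, 4) (c3 : ℝ) +
    Finsupp.single (2, 2) (c4 : ℝ) + Finsupp.single (4, 0) (c5 : ℝ)) (by
      intro h0
      have h1 := DFunLike.congr_fun h0 (0, 0)
      simp only [Finsupp.add_apply, Finsupp.single_apply, Finsupp.zero_apply] at h1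
      norm_num at h1
      exact hc h1)
  simp only [mon_add, mon_single, map_natCast] at h1
  intro h2
  apply h1
  rw [← h2]
  ring

end nonzero

section place

variable {k D E : Type} [Field k] [DivisionRing D] [Algebra k D] [Field E] [Algebra ℂ E]
  {O : ValuationSubring k} {ρ : O →+* ℝ} {x y : D} {X Y : E} (V : QPlace O ρ x y X Y)

include V

theorem con' (a : O) (c : k) (r : ℤ) (h : (a : k) = c) (hr : ρ a = r) :
    V.rel (algebraMap k D c) (r : E) := by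
  have h1 := V.con a
  rw [h, hr] at h1
  have h2 : algebraMap ℂ E (((r : ℝ) : ℝ) : ℂ) = (r : E) := by
    rw [Complex.ofReal_intCast, map_intCast]
  rw [h2] at h1
  exact h1

theorem neg' {d : D} {e : E} (h : V.rel d e) : V.rel (-d) (-e) := by
  have h1 := con' V (-1) (-1) (-1) (by simp) (by simp)
  have h2 := V.mul _ _ _ _ h1 h
  simpa using h2

theorem sub' {d d' : D} {e e' : E} (h : V.rel d e) (h' : V.rel d' e') :
    V.rel (d - d') (e - e') := by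
  rw [sub_eq_add_neg, sub_eq_add_neg]
  exact V.add _ _ _ _ h (neg' V h')

theorem sq' {d : D} {e : E} (h : V.rel d e) : V.rel (d ^ 2) (e ^ 2) := by
  rw [sq, sq]
  exact V.mul _ _ _ _ h h

end place

end ThResAux

open ThResAux in
/-- Module ThRes. -/
theorem stThRes (hInd : StInd) : StThRes := by
  intro k D E _ _ _ _ _ q x y R X Y hQD hq hXY V X₁ Y₁ ⟨hn, hX₁, hY₁⟩
  obtain ⟨hYX, _, hX0, _, _, hmon⟩ := hInd E X Y hXY
  obtain ⟨_, _, hY0, _⟩ := hInd E Y X hYX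
  -- constants
  set Q : R.O := ⟨(q : k), R.hq⟩ with hQ
  have hQk : (Q : k) = (q : k) := rfl
  have hQ1 : R.ρ Q = 1 := R.one
  have t2 : ((2 : R.O) : k) = 2 := map_ofNat R.O.subtype 2
  have t4 : ((4 : R.O) : k) = 4 := map_ofNat R.O.subtype 4
  have r2 : R.ρ 2 = 2 := map_ofNat R.ρ 2
  have r4 : R.ρ 4 = 4 := map_ofNat R.ρ 4
  have c1 : V.rel (algebraMap k D (2 * q ^ 2)) ((2 : ℤ) : E) :=
    con' V (2 * Q ^ 2) _ _ (by push_cast; rw [t2, hQk]) (by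
      rw [map_mul, map_pow, hQ1, r2]; norm_num)
  have c2 : V.rel (algebraMap k D ((1 - 2 * q ^ 2) ^ 2)) ((1 : ℤ) : E) :=
    con' V ((1 - 2 * Q ^ 2) ^ 2) _ _ (by push_cast; rw [t2, hQk]) (by
      rw [map_pow, map_sub, map_mul, map_pow, hQ1, r2, map_one]; norm_num)
  have c3 : V.rel (algebraMap k D q) ((1 : ℤ) : E) :=
    con' V Q _ _ hQk (by rw [hQ1]; norm_num)
  have c4 : V.rel (algebraMap k D (1 - 2 * q ^ 2)) ((-1 : ℤ) : E) :=
    con' V (1 - 2 * Q ^ 2) _ _ (by push_cast; rw [t2, hQk]) (by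
      rw [map_sub, map_mul, map_pow, hQ1, r2, map_one]; norm_num)
  have c5 : V.rel (algebraMap k D (q * (1 - 4 * q ^ 2))) ((-3 : ℤ) : E) :=
    con' V (Q * (1 - 4 * Q ^ 2)) _ _ (by push_cast; rw [t4, hQk]) (by
      rw [map_mul, map_sub, map_mul, map_pow, hQ1, r4, map_one]
      norm_num)
  have c6 : V.rel (algebraMap k D (4 * q ^ 2)) ((4 : ℤ) : E) :=
    con' V (4 * Q ^ 2) _ _ (by push_cast; rw [t4, hQk]) (by
      rw [map_mul, map_pow, hQ1, r4]; norm_num)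
  -- the element L
  set l : E := X⁻¹ * Y⁻¹ + X * Y⁻¹ + Y * X⁻¹ with hl
  have hxi := V.inv _ _ V.relx hX0
  have hyi := V.inv _ _ V.rely hY0
  have hL : V.rel (LL x y) l :=
    V.add _ _ _ _ (V.add _ _ _ _ (V.mul _ _ _ _ hxi hyi) (V.mul _ _ _ _ V.relx hyi))
      (V.mul _ _ _ _ V.rely hxi)
  have hL2 := sq' V hL
  have hlW : l * (X * Y) = 1 + X ^ 2 + Y ^ 2 := by
    rw [hl]
    field_simp
  -- the coefficients
  have hrn : V.rel (qn q x y) (((2 : ℤ) : E) * l ^ 2 + ((1 : ℤ) : E)) :=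
    V.add _ _ _ _ (V.mul _ _ _ _ c1 hL2) c2
  have hr1 : V.rel (qa1 q x y) (((1 : ℤ) : E) * (l ^ 2 + ((-1 : ℤ) : E))) :=
    V.mul _ _ _ _ c3 (V.add _ _ _ _ hL2 c4)
  have hr2 : V.rel (qa2 q x y) (((-3 : ℤ) : E) * l) := V.mul _ _ _ _ c5 hL
  have hr3 : V.rel (qa3 q x y) (((1 : ℤ) : E) * (((4 : ℤ) : E) * l ^ 2 + ((-1 : ℤ) : E))) :=
    V.mul _ _ _ _ c3 (V.add _ _ _ _ (V.mul _ _ _ _ c6 hL2) c4)
  -- nonvanishing
  have hN3 : 2 * (1 + X ^ 2 + Y ^ 2) ^ 2 + X ^ 2 * Y ^ 2 ≠ 0 := by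
    have h := ne_zero X Y hmon 2 4 4 2 5 2 (by norm_num)
    intro h0
    apply h
    rw [← h0]
    push_cast
    ring
  have hN1 : 4 * (1 + X ^ 2 + Y ^ 2) ^ 2 - X ^ 2 * Y ^ 2 - 3 * (1 + X ^ 2 + Y ^ 2) * Y ^ 2 ≠ 0 := by
    have h := ne_zero X Y hmon 4 8 5 4 4 1 (by norm_num)
    intro h0
    apply h
    rw [← h0]
    push_cast
    ring
  have hN2 : (1 + X ^ 2 + Y ^ 2) ^ 2 - X ^ 2 * Y ^ 2 + 3 * (1 + X ^ 2 + Y ^ 2) * X ^ 2 ≠ 0 := by
    have h := ne_zero X Y hmon 1 5 2 4 4 1 (by norm_num)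
    intro h0
    apply h
    rw [← h0]
    push_cast
    ring
  have hνe : (2 * l ^ 2 + 1) * (X * Y) ^ 2 = 2 * (1 + X ^ 2 + Y ^ 2) ^ 2 + X ^ 2 * Y ^ 2 := by
    rw [← hlW]
    ring
  have hν : ((2 : ℤ) : E) * l ^ 2 + ((1 : ℤ) : E) ≠ 0 := by
    intro h0
    apply hN3
    rw [← hνe]
    have h1 : 2 * l ^ 2 + 1 = 0 := by
      rw [← h0]
      push_cast
      ring
    rw [h1, zero_mul]
  have hν' : 2 * l ^ 2 + 1 ≠ 0 := by
    intro h0
    apply hν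
    rw [← h0]
    push_cast
    ring
  have hni := V.inv _ _ hrn hν
  have hXe : X₁ = (qn q x y)⁻¹ * (qa3 q x y * x + qa2 q x y * y) := by
    rw [← hX₁, inv_mul_cancel_left₀ hn]
  have hYe : Y₁ = (qn q x y)⁻¹ * (qa1 q x y * y - qa2 q x y * x) := by
    rw [← hY₁, inv_mul_cancel_left₀ hn]
  set X' : E := (((2 : ℤ) : E) * l ^ 2 + ((1 : ℤ) : E))⁻¹ *
    (((1 : ℤ) : E) * (((4 : ℤ) : E) * l ^ 2 + ((-1 : ℤ) : E)) * X + ((-3 : ℤ) : E) * l * Y)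
    with hX'
  set Y' : E := (((2 : ℤ) : E) * l ^ 2 + ((1 : ℤ) : E))⁻¹ *
    (((1 : ℤ) : E) * (l ^ 2 + ((-1 : ℤ) : E)) * Y - ((-3 : ℤ) : E) * l * X) with hY'
  have hrX : V.rel X₁ X' := by
    rw [hXe]
    exact V.mul _ _ _ _ hni (V.add _ _ _ _ (V.mul _ _ _ _ hr3 V.relx)
      (V.mul _ _ _ _ hr2 V.rely))
  have hrY : V.rel Y₁ Y' := by
    rw [hYe]
    exact V.mul _ _ _ _ hni (sub' V (V.mul _ _ _ _ hr1 V.rely) (V.mul _ _ _ _ hr2 V.relx))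
  have hXc : (2 * l ^ 2 + 1) * X' = (4 * l ^ 2 - 1) * X - 3 * l * Y := by
    rw [hX']
    push_cast
    field_simp
    ring
  have hYc : (2 * l ^ 2 + 1) * Y' = (l ^ 2 - 1) * Y + 3 * l * X := by
    rw [hY']
    push_cast
    field_simp
    ring
  have hXq : (2 * (1 + X ^ 2 + Y ^ 2) ^ 2 + X ^ 2 * Y ^ 2) * X' =
      X * (4 * (1 + X ^ 2 + Y ^ 2) ^ 2 - X ^ 2 * Y ^ 2 - 3 * (1 + X ^ 2 + Y ^ 2) * Y ^ 2) := by
    rw [← hνe, mul_right_comm, hXc, ← hlW]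
    ring
  have hYq : (2 * (1 + X ^ 2 + Y ^ 2) ^ 2 + X ^ 2 * Y ^ 2) * Y' =
      Y * ((1 + X ^ 2 + Y ^ 2) ^ 2 - X ^ 2 * Y ^ 2 + 3 * (1 + X ^ 2 + Y ^ 2) * X ^ 2) := by
    rw [← hνe, mul_right_comm, hYc, ← hlW]
    ring
  refine ⟨X', Y', ?_, ?_, hrX, hrY, 1 + X ^ 2 + Y ^ 2, rfl, hN3, hXq, hYq⟩
  · intro h0
    rw [h0, mul_zero] at hXq
    exact mul_ne_zero hX0 hN1 hXq.symm
  · intro h0
    rw [h0, mul_zero] at hYq
    exact mul_ne_zero hY0 hN2 hYq.symm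

end QD
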