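import Pool.Agent.Lib.QD.St

/-!
Project QD, module Tr: `x`, `y`, `y + y⁻¹` are transcendental over `k`.
-/

set_option autoImplicit false

namespace QD

open Polynomial

namespace TrAux

variable {k D : Type} [Field k] [DivisionRing D] [Algebra k D]

theorem mon_add (x y : D) (s t : ℕ × ℕ →₀ k) :
    mon (algebraMap k D) x y (s + t) =
      mon (algebraMap k D) x y s + mon (algebraMap k D) x y t := by
  classical
  unfold mon
  refine Finsupp.sum_add_index' ?_ ?_
  · intro ij
    rw [map_zero, zero_mul]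
  · intro ij a b
    rw [map_add, add_mul]

theorem mon_single (x y : D) (ij : ℕ × ℕ) (a : k) :
    mon (algebraMap k D) x y (Finsupp.single ij a) =
      algebraMap k D a * (y ^ ij.1 * x ^ ij.2) := by
  unfold mon
  rw [Finsupp.sum_single_index]
  rw [map_zero, zero_mul]

theorem mon_zero (x y : D) : mon (algebraMap k D) x y 0 = 0 := Finsupp.sum_zero_index

theorem mon_sum {J : Type} (x y : D) (F : Finset J) (g : J → (ℕ × ℕ →₀ k)) :
    mon (algebraMap k D) x y (∑ j ∈ F, g j) = ∑ j ∈ F, mon (algebraMap k D) x y (g j) := by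
  classical
  induction F using Finset.induction_on with
  | empty => rw [Finset.sum_empty, Finset.sum_empty, mon_zero]
  | insert a F ha ih => rw [Finset.sum_insert ha, Finset.sum_insert ha, mon_add, ih]

/-- transcendence of the element `u` which is a monomial variable -/
theorem trans_of (x y u : D) (e : ℕ → ℕ × ℕ) (he : Function.Injective e)
    (hu : ∀ n, y ^ (e n).1 * x ^ (e n).2 = u ^ n)
    (hI : ∀ s : ℕ × ℕ →₀ k, mon (algebraMap k D) x y s = 0 → s = 0) (p : k[X]) (hp : p ≠ 0) :
    aeval u p ≠ 0 := by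
  classical
  intro h
  have h1 := hI (∑ n ∈ Finset.range (p.natDegree + 1), Finsupp.single (e n) (p.coeff n)) (by
    rw [mon_sum, ← h, aeval_eq_sum_range]
    refine Finset.sum_congr rfl fun n _ => ?_
    rw [mon_single, hu, Algebra.smul_def])
  refine hp (leadingCoeff_eq_zero.1 ?_)
  have h2 := congrArg (fun s : ℕ × ℕ →₀ k => s (e p.natDegree)) h1
  simp only [Finsupp.coe_finsetSum, Finset.sum_apply, Finsupp.coe_zero, Pi.zero_apply] at h2
  rw [Finset.sum_eq_single_of_mem p.natDegree (Finset.self_mem_range_succ _)] at h2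
  · rwa [Finsupp.single_eq_same] at h2
  · intro n _ hn
    exact Finsupp.single_eq_of_ne (fun h3 => hn (he h3).symm)

/-- The polynomial `X ^ d * p (X + X⁻¹)`. -/
noncomputable def hp (p : k[X]) : k[X] :=
  ∑ n ∈ Finset.range (p.natDegree + 1), C (p.coeff n) * ((X ^ 2 + 1) ^ n * X ^ (p.natDegree - n))

theorem natDegree_X2 : (X ^ 2 + 1 : k[X]).natDegree = 2 := by
  rw [← C_1, natDegree_X_pow_add_C]

theorem monic_X2 : (X ^ 2 + 1 : k[X]).Monic := by
  rw [← C_1]
  exact monic_X_pow_add_C 1 (by norm_num)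

theorem hp_ne (p : k[X]) (h0 : p ≠ 0) : hp p ≠ 0 := by
  intro h
  refine h0 (leadingCoeff_eq_zero.1 ?_)
  have h2 := congrArg (fun r : k[X] => r.coeff (2 * p.natDegree)) h
  simp only [hp, finsetSum_coeff, coeff_zero, coeff_C_mul] at h2
  rw [Finset.sum_eq_single_of_mem p.natDegree (Finset.self_mem_range_succ _)] at h2
  · have h3 : ((X ^ 2 + 1 : k[X]) ^ p.natDegree).coeff (2 * p.natDegree) = 1 := by
      have h4 := (monic_X2 (k := k)).pow p.natDegree
      have h5 : ((X ^ 2 + 1 : k[X]) ^ p.natDegree).natDegree = 2 * p.natDegree := by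
        rw [(monic_X2 (k := k)).natDegree_pow, natDegree_X2, mul_comm]
      rw [← h5]
      exact h4.coeff_natDegree
    rw [Nat.sub_self, pow_zero, mul_one, h3, mul_one] at h2
    exact h2
  · intro n hn hne
    have hn1 : n < p.natDegree := by
      have := Finset.mem_range.1 hn
      omega
    have h5 : ((X ^ 2 + 1 : k[X]) ^ n).natDegree = n * 2 := by
      rw [(monic_X2 (k := k)).natDegree_pow, natDegree_X2]
    have h6 : (X ^ (p.natDegree - n) : k[X]).natDegree = p.natDegree - n := natDegree_X_pow _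
    have h7 := natDegree_mul_le (p := (X ^ 2 + 1 : k[X]) ^ n) (q := X ^ (p.natDegree - n))
    have h8 : ((X ^ 2 + 1 : k[X]) ^ n * X ^ (p.natDegree - n)).coeff (2 * p.natDegree) = 0 :=
      coeff_eq_zero_of_natDegree_lt (by omega)
    rw [h8, mul_zero]

theorem aeval_hp (p : k[X]) (y : D) (hy : y ≠ 0) :
    aeval y (hp p) = y ^ p.natDegree * aeval (y + y⁻¹) p := by
  have hc : Commute y (y + y⁻¹) := by
    change y * (y + y⁻¹) = (y + y⁻¹) * y
    rw [mul_add, add_mul, mul_inv_cancel₀ hy, inv_mul_cancel₀ hy]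
  have h1 : aeval y (X ^ 2 + 1 : k[X]) = y * (y + y⁻¹) := by
    rw [map_add, map_pow, aeval_X, map_one, mul_add, mul_inv_cancel₀ hy, pow_two]
  rw [hp, map_sum, aeval_eq_sum_range (p := p) (y + y⁻¹), Finset.mul_sum]
  refine Finset.sum_congr rfl fun n hn => ?_
  have hn1 : n ≤ p.natDegree := by
    have := Finset.mem_range.1 hn
    omega
  have h2 : (y ^ n * (y + y⁻¹) ^ n) * y ^ (p.natDegree - n) =
      y ^ p.natDegree * (y + y⁻¹) ^ n := by
    rw [mul_assoc, ((hc.pow_pow (p.natDegree - n) n).symm).eq, ← mul_assoc, ← pow_add]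
    congr 2
    omega
  rw [map_mul, map_mul, map_pow, h1, aeval_C, hc.mul_pow, map_pow, aeval_X, Algebra.smul_def, h2,
    ← mul_assoc (y ^ p.natDegree), ← Algebra.commutes (p.coeff n) (y ^ p.natDegree), mul_assoc]

end TrAux

open TrAux in
theorem stTr (h : StIndep) : StTr := by
  classical
  intro k D _ _ _ q x y hx hy hxy hq
  have hI := h k D q x y hx hy hxy hq
  have h1 : ∀ p : k[X], p ≠ 0 → aeval x p ≠ 0 :=
    trans_of x y x (fun n => (0, n)) (fun a b hab => (Prod.mk.inj hab).2)
      (fun n => by rw [pow_zero, one_mul]) hI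
  have h2 : ∀ p : k[X], p ≠ 0 → aeval y p ≠ 0 :=
    trans_of x y y (fun n => (n, 0)) (fun a b hab => (Prod.mk.inj hab).1)
      (fun n => by rw [pow_zero, mul_one]) hI
  refine ⟨h1, h2, ?_, ?_, ?_, ?_⟩
  · intro p hp0 h3
    refine h2 (hp p) (hp_ne p hp0) ?_
    rw [aeval_hp p y hy, h3, mul_zero]
  · intro h3
    refine h2 (X ^ 2 - 1) ?_ ?_
    · rw [← C_1]
      exact X_pow_sub_C_ne_zero (by norm_num) 1
    · have h4 : y = y⁻¹ := sub_eq_zero.1 h3
      rw [map_sub, map_pow, aeval_X, map_one, pow_two]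
      have h5 : y * y = 1 := by
        nth_rewrite 2 [h4]
        exact mul_inv_cancel₀ hy
      rw [h5, sub_self]
  · intro h3
    refine h1 (X ^ 2 + 1) monic_X2.ne_zero ?_
    have h4 : x * (x + x⁻¹) = 0 := by rw [h3, mul_zero]
    rw [mul_add, mul_inv_cancel₀ hx, ← pow_two] at h4
    rw [map_add, map_pow, aeval_X, map_one, h4]
  · intro h3
    have h4 : y * (y⁻¹ * x + y * x⁻¹) * x = x ^ 2 + y ^ 2 := by
      rw [mul_add, add_mul, ← mul_assoc y y⁻¹ x, mul_inv_cancel₀ hy, one_mul, ← mul_assoc y y x⁻¹,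
        mul_assoc (y * y), inv_mul_cancel₀ hx, mul_one, ← pow_two, ← pow_two]
    rw [h3, mul_zero, zero_mul] at h4
    have h5 := hI (Finsupp.single (0, 2) 1 + Finsupp.single (2, 0) 1) (by
      rw [mon_add, mon_single, mon_single, map_one, one_mul, one_mul, pow_zero, one_mul, pow_zero,
        mul_one, ← h4])
    have h6 := congrArg (fun s : ℕ × ℕ →₀ k => s (0, 2)) h5
    simp at h6

end QD
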