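import Pool.Agent.Lib.QD.St

/-!
Project QD: the universal property of the `q`-division ring.
-/

namespace QD

namespace UPAux

/-- Lift of the coefficients to the full subring. -/
noncomputable def up {k : Type} [Field k] (s : ℕ × ℕ →₀ k) : ℕ × ℕ →₀ (⊤ : Subring k) :=
  s.mapRange (fun a => ⟨a, Subring.mem_top a⟩) rfl

theorem mon_up {k R : Type} [Field k] [Ring R] (ρ : k →+* R) (x y : R) (s : ℕ × ℕ →₀ k) :
    mon (ρ.comp (Subring.subtype ⊤)) x y (up s) = mon ρ x y s := by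
  unfold mon up
  rw [Finsupp.sum_mapRange_index]
  · rfl
  · intro a
    rw [map_zero, zero_mul]

theorem exists_up {k : Type} [Field k] (t : ℕ × ℕ →₀ (⊤ : Subring k)) : ∃ s, up s = t := by
  refine ⟨t.mapRange (fun a : (⊤ : Subring k) => (a : k)) rfl, ?_⟩
  ext ij
  simp [up]

theorem mon_zero {k R : Type} [Semiring k] [Semiring R] (ρ : k →+* R) (x y : R) :
    mon ρ x y 0 = 0 := by
  unfold mon
  exact Finsupp.sum_zero_index

theorem mon_single {k R : Type} [Semiring k] [Semiring R] (ρ : k →+* R) (x y : R) (i j : ℕ)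
    (a : k) : mon ρ x y (Finsupp.single (i, j) a) = ρ a * (y ^ i * x ^ j) := by
  unfold mon
  rw [Finsupp.sum_single_index]
  rw [map_zero, zero_mul]

end UPAux

/-- N1f. -/
theorem stUP (hI : StIndep) (hP : StPoly) (hO : StOreCond) (hH : StOreHom) (hG : StGen) :
    StUP := by
  intro k D D' _ _ _ _ _ q x y x' y' hQ hq hx' hy' hxy'
  have hx := hQ.x0
  have hy := hQ.y0
  have hxy := hQ.comm
  obtain ⟨P, h, hPm, hh⟩ := hP k D D' q x y hx hy hxy hq ⊤ (Subring.mem_top _)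
    ((algebraMap k D').comp (Subring.subtype ⊤)) x' y' (fun a => Algebra.commutes _ _)
    (fun a => Algebra.commutes _ _) hxy'
  have hPm' : ∀ d : D, d ∈ P ↔ ∃ s : ℕ × ℕ →₀ k, d = mon (algebraMap k D) x y s := by
    intro d
    rw [hPm]
    constructor
    · rintro ⟨t, ht⟩
      obtain ⟨s, rfl⟩ := UPAux.exists_up t
      exact ⟨s, by rw [ht, UPAux.mon_up]⟩
    · rintro ⟨s, hs⟩
      exact ⟨UPAux.up s, by rw [hs, UPAux.mon_up]⟩
  have hh' : ∀ (s : ℕ × ℕ →₀ k) (d : P), (d : D) = mon (algebraMap k D) x y s →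
      h d = mon (algebraMap k D') x' y' s := by
    intro s d hd
    have h1 : mon ((algebraMap k D).comp (Subring.subtype ⊤)) x y (UPAux.up s) ∈ P := by
      rw [UPAux.mon_up, ← hd]
      exact d.2
    have h2 := hh (UPAux.up s) h1
    have h3 : d = ⟨mon ((algebraMap k D).comp (Subring.subtype ⊤)) x y (UPAux.up s), h1⟩ :=
      Subtype.ext (hd.trans (UPAux.mon_up _ _ _ _).symm)
    rw [h3, h2, UPAux.mon_up]
  have hne : ∀ s : ℕ × ℕ →₀ k, s ≠ 0 → mon (algebraMap k D') x' y' s ≠ 0 := by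
    intro s hs h0
    exact hs (hI k D' q x' y' hx' hy' hxy' hq s h0)
  obtain ⟨R, H, hR, hHh, -⟩ := hH D D' P h (by
    intro p s hs
    obtain ⟨p0, hp0⟩ := (hPm' p).1 p.2
    obtain ⟨s0, hs0⟩ := (hPm' s).1 s.2
    have hs0' : s0 ≠ 0 := by
      rintro rfl
      apply hs
      rw [hh' 0 s hs0, UPAux.mon_zero]
    obtain ⟨p1, s1, hs1, he⟩ := hO k D q x y hx hy hxy hq p0 s0 hs0'
    refine ⟨⟨mon (algebraMap k D) x y p1, (hPm' _).2 ⟨p1, rfl⟩⟩,
      ⟨mon (algebraMap k D) x y s1, (hPm' _).2 ⟨s1, rfl⟩⟩, ?_, ?_⟩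
    · rw [hh' s1 _ rfl]
      exact hne s1 hs1
    · refine Subtype.ext ?_
      change (p : D) * mon (algebraMap k D) x y s1 = (s : D) * mon (algebraMap k D) x y p1
      rw [hp0, hs0]
      exact he)
  have hRtop : ∀ d : D, d ∈ R := by
    intro d
    obtain ⟨p0, s0, hs0, he⟩ := hG k D q x y hQ hq d
    rw [hR]
    refine ⟨⟨mon (algebraMap k D) x y p0, (hPm' _).2 ⟨p0, rfl⟩⟩,
      ⟨mon (algebraMap k D) x y s0, (hPm' _).2 ⟨s0, rfl⟩⟩, ?_, he⟩
    rw [hh' s0 _ rfl]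
    exact hne s0 hs0
  have hval : ∀ (s : ℕ × ℕ →₀ k) (d : D), d = mon (algebraMap k D) x y s →
      H ⟨d, hRtop d⟩ = mon (algebraMap k D') x' y' s := by
    intro s d hd
    have hdP : d ∈ P := (hPm' d).2 ⟨s, hd⟩
    rw [hHh ⟨d, hdP⟩ (hRtop d)]
    exact hh' s ⟨d, hdP⟩ hd
  refine ⟨{ toFun := fun d => H ⟨d, hRtop d⟩
            map_one' := H.map_one
            map_mul' := fun a b => H.map_mul ⟨a, hRtop a⟩ ⟨b, hRtop b⟩
            map_zero' := H.map_zero
            map_add' := fun a b => H.map_add ⟨a, hRtop a⟩ ⟨b, hRtop b⟩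
            commutes' := ?_ }, ?_, ?_⟩
  · intro c
    change H ⟨algebraMap k D c, hRtop _⟩ = algebraMap k D' c
    rw [hval (Finsupp.single (0, 0) c) _ (by rw [UPAux.mon_single]; simp), UPAux.mon_single]
    simp
  · change H ⟨x, hRtop x⟩ = x'
    rw [hval (Finsupp.single (0, 1) 1) _ (by rw [UPAux.mon_single]; simp), UPAux.mon_single]
    simp
  · change H ⟨y, hRtop y⟩ = y'
    rw [hval (Finsupp.single (1, 0) 1) _ (by rw [UPAux.mon_single]; simp), UPAux.mon_single]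
    simp

end QD
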