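import Pool.Agent.Lib.QD.St

/-!
Project QD (MP_794704_al): uniqueness in the universal property.
-/

namespace QD

namespace UniqAux

/-- The subfield on which two homomorphisms of division algebras agree. -/
def eqSub {k D D' : Type} [Field k] [DivisionRing D] [Algebra k D] [DivisionRing D']
    [Algebra k D'] (f g : D →ₐ[k] D') : Subfield D where
  carrier := {d | f d = g d}
  mul_mem' := by
    intro a b ha hb
    change f (a * b) = g (a * b)
    rw [map_mul, map_mul, ha, hb]
  one_mem' := by
    change f 1 = g 1
    rw [map_one, map_one]
  add_mem' := by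
    intro a b ha hb
    change f (a + b) = g (a + b)
    rw [map_add, map_add, ha, hb]
  zero_mem' := by
    change f 0 = g 0
    rw [map_zero, map_zero]
  neg_mem' := by
    intro a ha
    change f (-a) = g (-a)
    rw [map_neg, map_neg, ha]
  inv_mem' := by
    intro a ha
    change f a⁻¹ = g a⁻¹
    rw [map_inv₀, map_inv₀, ha]

end UniqAux

/-- N1g. Uniqueness in the universal property. -/
theorem stUniq : StUniq := by
  intro k D D' _ _ _ _ _ q x y h f g hx hy
  ext d
  refine h.gen (UniqAux.eqSub f g) ?_ hx hy d
  intro c
  change f (algebraMap k D c) = g (algebraMap k D c)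
  rw [AlgHom.commutes, AlgHom.commutes]

end QD
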