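import Pool.Agent.Lib.QD.Final1
import Pool.Agent.Lib.QD.Indep
import Pool.Agent.Lib.QD.OreHom
import Pool.Agent.Lib.QD.Poly
import Pool.Agent.Lib.QD.OreCond
import Pool.Agent.Lib.QD.Gen
import Pool.Agent.Lib.QD.UP
import Pool.Agent.Lib.QD.Uniq
import Pool.Agent.Lib.QD.Ev
import Pool.Agent.Lib.QD.Tr
import Pool.Agent.Lib.QD.Elem
import Pool.Agent.Lib.QD.Place
import Pool.Agent.Lib.QD.Tame
import Pool.Agent.Lib.QD.ThRes
import Pool.Agent.Lib.QD.J
import Pool.Agent.Lib.QD.Inter
import Pool.Agent.Lib.QD.Theta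
import Pool.Agent.Lib.QD.Lead
import Pool.Agent.Lib.QD.AC
import Pool.Agent.Lib.QD.ThLead
import Pool.Agent.Lib.QD.EvLead
import Pool.Agent.Lib.QD.NC
import Pool.Agent.Lib.QD.Ind
import Pool.Agent.Lib.QD.ReachInd
import Pool.Agent.Lib.QD.Fac
import Pool.Agent.Lib.QD.Back
import Pool.Agent.Lib.QD.GaP
import Pool.Agent.Lib.QD.Ga
import Pool.Agent.Lib.QD.A1
import Pool.Agent.Lib.QD.A2
import Pool.Agent.Lib.QD.A3P
import Pool.Agent.Lib.QD.A3
import Pool.Agent.Lib.QD.AIS
import Pool.Agent.Lib.QD.TB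
import Pool.Agent.Lib.QD.Q1
import Pool.Agent.Lib.QD.Q2
import Pool.Agent.Lib.QD.Q3K
import Pool.Agent.Lib.QD.Q3
import Pool.Agent.Lib.QD.Re
import Pool.Agent.Lib.QD.Re2
import Pool.Agent.Lib.QD.Dec
import Pool.Agent.Lib.QD.KK
import Pool.Agent.Lib.QD.SS
import Pool.Agent.Lib.QD.Pos
import Pool.Agent.Lib.QD.Neg
import Pool.Agent.Lib.QD.Pl
import Pool.Agent.Lib.QD.IndB
import Pool.Agent.Lib.QD.Base
import Pool.Agent.Lib.QD.E0
import Pool.Agent.Lib.QD.U
import Pool.Agent.Lib.QD.N
import Pool.Agent.Lib.QD.Deg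
import Pool.Agent.Lib.QD.Mul
import Pool.Agent.Lib.QD.NR
import Pool.Agent.Lib.QD.PlaceL
import Pool.Agent.Lib.QD.PlaceO
import Pool.Agent.Lib.QD.Inst

/-!
Project QD: the theorem for fields with a real place, without hypotheses.
-/

namespace QD

theorem allTheta : StTheta :=
  have hI := stIndep
  have hP := stPoly hI
  have hOC := stOreCond hI
  have hG := stGen hI hOC
  have hUP := stUP hI hP hOC stOreHom hG
  have hTr := stTr hI
  stTheta (stJ hUP hTr stEv) (stInter hUP stUniq hTr) stUniq stEv hTr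

theorem allNC : StNC :=
  have hI := stIndep
  have hP := stPoly hI
  have hOC := stOreCond hI
  have hG := stGen hI hOC
  have hUP := stUP hI hP hOC stOreHom hG
  have hTr := stTr hI
  stNC allTheta (stElem hUP stUniq stEv hTr) stLead (stThLead stLead) (stEvLead stLead) (stAC stLead)
    stUniq stEv hTr

theorem allPlace : StPlace :=
  have hI := stIndep
  have hOC := stOreCond hI
  stPlace hI (stPoly hI) hOC stOreHom (stGen hI hOC) stInd

theorem allTame : StTame := stTame stInd (stReachInd stInd) stEv (stTr stIndep)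

theorem allNR : StNR :=
  have hPos := stPos stDec stKK stSS
  have hNeg := stNeg stInd (stGa (stGaP stInd) stInd) stA1 (stA2 stInd) (stA3 (stA3P stInd)) (stAIS stInd) stTB
    stQ1 stQ2 (stQ3 stQ3K) stRe stRe2 hPos
  stNR stInd (stReachInd stInd) (stBack stInd stFac) hNeg stPl stIndB stBase stE0 stU stDeg
    (stMul stN stInd)

/-- The theorem for fields with a real place. -/
theorem main_real (k : Type) [Field k] [CharZero k] (q : kˣ) (R : RealPlace k q) (hq : NotRoot q) :
    NotConjTame k (SL (sg q)) SL.xx (SL.con RatFunc.X) :=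
  main_conc allNC allPlace allTame (stThRes stInd) allNR k q R hq



end QD
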