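import Pool.Agent.Lib.QD.Defs

/-!
Project QD, definitions, combinatorial part: blocks, the quadratic form `Q4`, the degree `D4`.
-/

namespace QD

/-- A block `((b₁,b₂), t)`. -/
abbrev Blk := (ℤ × ℤ) × ℂ

/-- gcd of the two coordinates -/
def gg (w : ℤ × ℤ) : ℤ := (Int.gcd w.1 w.2 : ℤ)

/-- wedge product -/
def wed (b w : ℤ × ℤ) : ℤ := b.1 * w.2 - b.2 * w.1

/-- `b` and `w` are nonzero, on the same ray -/
def ray (b w : ℤ × ℤ) : Prop := b.1 * w.2 = b.2 * w.1 ∧ 0 < b.1 * w.1 + b.2 * w.2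

instance (b w : ℤ × ℤ) : Decidable (ray b w) := by unfold ray; infer_instance

/-- symmetric kernel, `us` = unsigned part -/
def us (b w : ℤ × ℤ) : ℤ :=
  if 0 < b.1 * w.1 ∧ 0 < b.2 * w.2 then 2 * |wed b w| - (|b.1 * w.2| + |b.2 * w.1|)
  else |b.1 * w.2| + |b.2 * w.1|

/-- `mb` = same ray and same constant: minimum of the two multiplicities -/
noncomputable def mb (b c : Blk) : ℤ := by
  classical exact if ray b.1 c.1 ∧ b.2 = c.2 then min (gg b.1) (gg c.1) else 0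

/-- `∑_b e(b) f(b)` -/
noncomputable def tot (e : Blk →₀ ℤ) (f : Blk → ℤ) : ℤ := e.sum fun b n => n * f b

/-- the kernel of `Q4` -/
noncomputable def q4 (b c : Blk) : ℤ := us b.1 c.1 - 4 * mb b c

/-- the quadratic form -/
noncomputable def Q4 (e : Blk →₀ ℤ) : ℤ := tot e fun b => tot e fun c => q4 b c

/-- Places of a field `M` over `ℂ` with a product formula. -/
structure Places (M : Type) [Field M] [Algebra ℂ M] where
  P : Type
  ord : P → M → ℤ
  mul : ∀ p f g, f ≠ 0 → g ≠ 0 → ord p (f * g) = ord p f + ord p g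
  add : ∀ p f g, f ≠ 0 → g ≠ 0 → f + g ≠ 0 → min (ord p f) (ord p g) ≤ ord p (f + g)
  con : ∀ p (c : ℂ), c ≠ 0 → ord p (algebraMap ℂ M c) = 0
  fin : ∀ f, f ≠ 0 → {p | ord p f ≠ 0}.Finite
  sum : ∀ f, f ≠ 0 → ∑ᶠ p, ord p f = 0

section
variable {M : Type} [Field M] [Algebra ℂ M] (Pl : Places M)

/-- the pair of orders at `p` -/
def ow (p : Pl.P) (X Y : M) : ℤ × ℤ := (Pl.ord p X, Pl.ord p Y)

/-- the monomial `X^(b₂/g) Y^(-b₁/g)` -/
noncomputable def tau (X Y : M) (b : ℤ × ℤ) : M := X ^ (b.2 / gg b) * Y ^ (-(b.1 / gg b))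

/-- multiplicity of the block `b` at `p` -/
noncomputable def mm (p : Pl.P) (X Y : M) (b : Blk) : ℤ :=
  if ray b.1 (ow Pl p X Y) then
    min (gg (ow Pl p X Y)) (gg b.1 * max 0 (Pl.ord p (tau X Y b.1 - algebraMap ℂ M b.2)))
  else 0

/-- local contribution of `b` at `p` -/
noncomputable def us4 (p : Pl.P) (X Y : M) (b : Blk) : ℤ := us b.1 (ow Pl p X Y) - 4 * mm Pl p X Y b

/-- four times the degree of `e` at `(X, Y)` -/
noncomputable def D4 (e : Blk →₀ ℤ) (X Y : M) : ℤ := ∑ᶠ p, tot e (us4 Pl p X Y)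

/-- the value of `Y` attached to a horizontal block -/
noncomputable def sb (b : Blk) : ℂ := if 0 < b.1.1 then b.2⁻¹ else b.2

/-- contact of `Y` with `sb b` at `p` -/
noncomputable def jj (p : Pl.P) (Y : M) (b : Blk) : ℤ := max 0 (Pl.ord p (Y - algebraMap ℂ M (sb b)))

/-- the `x`-version of the local contribution -/
noncomputable def xs (p : Pl.P) (X Y : M) (b : Blk) : ℤ :=
  if Pl.ord p Y = 0 then
    |b.1.2 * Pl.ord p X| +
      (if b.1.2 = 0 then 2 * (|Pl.ord p X - b.1.1 * jj Pl p Y b| - |Pl.ord p X|) else 0)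
  else (if 0 < b.1.2 * Pl.ord p Y then 2 * |wed b.1 (ow Pl p X Y)| else 0) - 4 * mm Pl p X Y b

/-- the `x`-version of the degree -/
noncomputable def D4x (e : Blk →₀ ℤ) (X Y : M) : ℤ := ∑ᶠ p, tot e (xs Pl p X Y)

end

/-! ### Actions on configurations -/

/-- `X ↦ cX` -/
noncomputable def al1 (c : ℂ) (b : Blk) : Blk := (b.1, b.2 * c ^ (b.1.2 / gg b.1))

/-- `X ↦ YX` -/
def al2 (b : Blk) : Blk := ((b.1.1 + b.1.2, b.1.2), b.2)

/-- block part of `X ↦ (Y - s)X` -/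
noncomputable def al3 (s : ℂ) (b : Blk) : Blk := by
  classical exact
    if 0 < b.1.2 then (b.1, b.2 * (-s) ^ (b.1.2 / gg b.1))
    else if b.1.2 < 0 then ((b.1.1 + b.1.2, b.1.2), b.2)
    else if b.1.1 ≠ 0 ∧ sb b = s then ((b.1.1 + 1, 0), if 0 < b.1.1 + 1 then s⁻¹ else s)
    else b

/-- the weight `zz` with which the new block `((1,0), s⁻¹)` appears -/
noncomputable def zz (s : ℂ) (b : Blk) : ℤ := by
  classical exact max 0 b.1.2 - if b.1.2 = 0 ∧ b.1.1 ≠ 0 ∧ sb b = s then 1 else 0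

/-- `X ↦ X⁻¹` -/
noncomputable def alI (b : Blk) : Blk := ((-b.1.1, b.1.2), b.2⁻¹)

/-- exchange of `X` and `Y` -/
noncomputable def alS (b : Blk) : Blk := ((b.1.2, b.1.1), b.2⁻¹)

/-- `X ↦ cX` -/
noncomputable def act1 (c : ℂ) (e : Blk →₀ ℤ) : Blk →₀ ℤ := e.mapDomain (al1 c)
/-- `X ↦ YX` -/
noncomputable def act2 (e : Blk →₀ ℤ) : Blk →₀ ℤ := e.mapDomain al2
/-- `X ↦ (Y - s)X` -/
noncomputable def act3 (s : ℂ) (e : Blk →₀ ℤ) : Blk →₀ ℤ :=
  e.mapDomain (al3 s) + Finsupp.single ((1, 0), s⁻¹) (tot e (zz s))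
/-- `X ↦ X⁻¹` -/
noncomputable def actI (e : Blk →₀ ℤ) : Blk →₀ ℤ := e.mapDomain alI
/-- exchange of `X` and `Y` -/
noncomputable def actS (e : Blk →₀ ℤ) : Blk →₀ ℤ := e.mapDomain alS

/-- constants of nonzero blocks are nonzero -/
def TOk (e : Blk →₀ ℤ) : Prop := ∀ b ∈ e.support, b.1 ≠ 0 → b.2 ≠ 0

/-- balanced -/
def Bal (e : Blk →₀ ℤ) : Prop := tot e (fun b => b.1.1) = 0 ∧ tot e (fun b => b.1.2) = 0

/-- real: invariant under complex conjugation, even at real constants -/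
def RealE (e : Blk →₀ ℤ) : Prop :=
  (∀ b : Blk, e (b.1, (starRingEnd ℂ) b.2) = e b) ∧ ∀ b : Blk, (starRingEnd ℂ) b.2 = b.2 → Even (e b)

/-- total width -/
noncomputable def aW (e : Blk →₀ ℤ) : ℤ := tot e fun b => max 0 b.1.2

/-- total height -/
noncomputable def aH (e : Blk →₀ ℤ) : ℤ := tot e fun b => max 0 b.1.1

/-- the positive semidefinite part of `Q4` -/
noncomputable def KK (e : Blk →₀ ℤ) : ℤ := tot e fun b => tot e fun c =>
  if 0 < b.1.1 * c.1.1 ∧ 0 < b.1.2 * c.1.2 then min |b.1.1 * c.1.2| |b.1.2 * c.1.1| else 0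

/-- the diagonal part of `Q4` -/
noncomputable def SS (e : Blk →₀ ℤ) : ℤ := tot e fun b => tot e fun c => mb b c

/-- good configurations -/
structure Good (e : Blk →₀ ℤ) : Prop where
  tok : TOk e
  bal : Bal e
  real : RealE e
  q4 : Q4 e = -8

/-- The predicate that is carried along: some good configuration of positive width has
nonpositive degree. -/
def Neg {M : Type} [Field M] [Algebra ℂ M] (Pl : Places M) (X Y : M) : Prop :=
  Ind X Y ∧ ∃ e, Good e ∧ 0 < aW e ∧ D4 Pl e X Y ≤ 0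

/-- The configuration of the quintic: the six blocks `((1,0), ±i)`, `((0,1), ±i)`, `((-1,-1), ±i/√2)`. -/
noncomputable def e0 : Blk →₀ ℤ :=
  Finsupp.single ((1, 0), Complex.I) 1 + Finsupp.single ((1, 0), -Complex.I) 1 +
  Finsupp.single ((0, 1), Complex.I) 1 + Finsupp.single ((0, 1), -Complex.I) 1 +
  Finsupp.single ((-1, -1), Complex.I / (Real.sqrt 2 : ℂ)) 1 +
  Finsupp.single ((-1, -1), -Complex.I / (Real.sqrt 2 : ℂ)) 1

/-- The standard places of `Ω(x)` (`Ω` algebraically closed): the points of `Ω` and infinity. -/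
structure IsStdPl {Ω : Type} [Field Ω] [Algebra ℂ Ω] (Pl : Places (RatFunc Ω)) (pt : Option Ω ≃ Pl.P) :
    Prop where
  fin : ∀ (a : Ω) (f : Polynomial Ω), f ≠ 0 →
    Pl.ord (pt (some a)) (algebraMap (Polynomial Ω) (RatFunc Ω) f) = (f.rootMultiplicity a : ℤ)
  inf : ∀ f : Polynomial Ω, f ≠ 0 →
    Pl.ord (pt none) (algebraMap (Polynomial Ω) (RatFunc Ω) f) = -(f.natDegree : ℤ)

end QD
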