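import Mathlib

/-!
Project QD (MP_794704_al), definitions, noncommutative part.

`D` is the `q`-division ring `k_q(x,y)` (with `x y = q y x`), `K = k(y)((x))` the division ring of skew
Laurent series (`x a(y) = a(q y) x`).
-/

namespace QD

open Polynomial

/-- `q` is not a root of unity. -/
def NotRoot {k : Type} [Field k] (q : kˣ) : Prop := ∀ n : ℕ, 0 < n → (q : k) ^ n ≠ 1

/-- The quantum polynomial `∑ ρ(s_ij) y^i x^j`. -/
noncomputable def mon {A R : Type} [Semiring A] [Semiring R] (ρ : A →+* R) (x y : R) (s : ℕ × ℕ →₀ A) : R :=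
  s.sum fun ij a => ρ a * (y ^ ij.1 * x ^ ij.2)

/-- The division `k`-algebra `D` is the `q`-division ring with generators `x`, `y`:
`x` and `y` are nonzero, `x y = q y x`, and `D` is generated by `k`, `x`, `y` as a division ring. -/
structure IsQD {k D : Type} [Field k] [DivisionRing D] [Algebra k D] (q : kˣ) (x y : D) : Prop where
  x0 : x ≠ 0
  y0 : y ≠ 0
  comm : x * y = algebraMap k D q * (y * x)
  gen : ∀ S : Subfield D, (∀ c : k, algebraMap k D c ∈ S) → x ∈ S → y ∈ S → ∀ d, d ∈ S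

/-- The value `b(u)` of a rational function `b` at an element `u` of a division algebra. -/
noncomputable def evR {k D : Type} [Field k] [DivisionRing D] [Algebra k D] (u : D) (b : RatFunc k) : D :=
  aeval u b.num * (aeval u b.denom)⁻¹

/-- The elementary automorphisms of `D`. -/
def IsElem {k D : Type} [Field k] [DivisionRing D] [Algebra k D] (x y : D) (φ : D ≃ₐ[k] D) : Prop :=
  (φ x = x⁻¹ ∧ φ y = y⁻¹) ∨
  (∃ b : RatFunc k, b ≠ 0 ∧ φ x = evR y b * x ∧ φ y = y) ∨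
  (∃ a : RatFunc k, a ≠ 0 ∧ φ x = x ∧ φ y = evR x a * y)

/-- The inner automorphisms of `D`. -/
def IsInner {k D : Type} [Field k] [DivisionRing D] [Algebra k D] (φ : D ≃ₐ[k] D) : Prop :=
  ∃ w : D, w ≠ 0 ∧ ∀ d, φ d = w * d * w⁻¹

/-- The group generated by the elementary and the inner automorphisms. -/
def Tame {k D : Type} [Field k] [DivisionRing D] [Algebra k D] (x y : D) : Subgroup (D ≃ₐ[k] D) :=
  Subgroup.closure {φ | IsElem x y φ ∨ IsInner φ}

/-- The automorphism `a(y) ↦ a(q y)` of `k[y]`. -/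
noncomputable def sgP {k : Type} [Field k] (q : kˣ) : k[X] ≃ₐ[k] k[X] :=
  AlgEquiv.ofAlgHom (aeval (C (q : k) * X)) (aeval (C ((q⁻¹ : kˣ) : k) * X))
    (by ext; simp [← mul_assoc, ← C_mul]) (by ext; simp [← mul_assoc, ← C_mul])

/-- The automorphism `σ : a(y) ↦ a(q y)` of `k(y)`. -/
noncomputable def sg {k : Type} [Field k] (q : kˣ) : RatFunc k ≃ₐ[k] RatFunc k :=
  IsFractionRing.algEquivOfAlgEquiv (sgP q)

/-- Skew Laurent series `∑ a_i x^i` (`a_i` in the field `A`, `a_i = 0` for `i` very negative), with the rule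
`x a = σ(a) x`: axioms satisfied by the coefficient map `cf`. -/
structure SkewL (k A : Type) [Field k] [Field A] [Algebra k A] (σ : A ≃ₐ[k] A)
    (K : Type) [DivisionRing K] [Algebra k K] where
  cf : K → ℤ → A
  inj : ∀ f g, cf f = cf g → f = g
  bdd : ∀ f, ∃ N : ℤ, ∀ i < N, cf f i = 0
  surj : ∀ c : ℤ → A, (∃ N : ℤ, ∀ i < N, c i = 0) → ∃ f, cf f = c
  add : ∀ f g i, cf (f + g) i = cf f i + cf g i
  mul : ∀ f g n, cf (f * g) n = ∑ᶠ i : ℤ, cf f i * (σ ^ i) (cf g (n - i))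
  one : cf 1 = Pi.single 0 1
  alg : ∀ c : k, cf (algebraMap k K c) = Pi.single 0 (algebraMap k A c)

/-- `f = a x^n + higher terms`. -/
def HasLead {k A : Type} [Field k] [Field A] [Algebra k A] {σ : A ≃ₐ[k] A}
    {K : Type} [DivisionRing K] [Algebra k K] (S : SkewL k A σ K) (f : K) (n : ℤ) (a : A) : Prop :=
  (∀ i < n, S.cf f i = 0) ∧ S.cf f n = a

/-- The central (degree three) element `L = x⁻¹y⁻¹ + xy⁻¹ + yx⁻¹` of the quantum quintic. -/
noncomputable def LL {D : Type} [DivisionRing D] (x y : D) : D := x⁻¹ * y⁻¹ + x * y⁻¹ + y * x⁻¹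

section quintic
variable {k D : Type} [Field k] [DivisionRing D] [Algebra k D]

/-- `n = 2q²L² + (1 - 2q²)²` -/
noncomputable def qn (q : kˣ) (x y : D) : D :=
  algebraMap k D (2 * q ^ 2) * LL x y ^ 2 + algebraMap k D ((1 - 2 * q ^ 2) ^ 2)

/-- `a₁ = q(L² + 1 - 2q²)` -/
noncomputable def qa1 (q : kˣ) (x y : D) : D :=
  algebraMap k D q * (LL x y ^ 2 + algebraMap k D (1 - 2 * q ^ 2))

/-- `a₂ = q(1 - 4q²)L` -/
noncomputable def qa2 (q : kˣ) (x y : D) : D :=
  algebraMap k D (q * (1 - 4 * q ^ 2)) * LL x y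

/-- `a₃ = q(4q²L² + 1 - 2q²)` -/
noncomputable def qa3 (q : kˣ) (x y : D) : D :=
  algebraMap k D q * (algebraMap k D (4 * q ^ 2) * LL x y ^ 2 + algebraMap k D (1 - 2 * q ^ 2))

/-- `(X, Y)` is the image of `(x, y)` under the quantum quintic:
`n X = a₃ x + a₂ y` and `n Y = a₁ y - a₂ x`. -/
def IsQuint (q : kˣ) (x y X Y : D) : Prop :=
  qn q x y ≠ 0 ∧ qn q x y * X = qa3 q x y * x + qa2 q x y * y ∧
    qn q x y * Y = qa1 q x y * y - qa2 q x y * x

end quintic

/-- A place of `D` with values in the commutative field `E`, above the place `ρ : O → ℝ` of `k`, as a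
relation: `rel d e` says that `d` is finite at the place, with residue `e`. -/
structure QPlace {k D E : Type} [Field k] [DivisionRing D] [Algebra k D] [Field E] [Algebra ℂ E]
    (O : ValuationSubring k) (ρ : O →+* ℝ) (x y : D) (X Y : E) where
  rel : D → E → Prop
  uniq : ∀ d e e', rel d e → rel d e' → e = e'
  add : ∀ d d' e e', rel d e → rel d' e' → rel (d + d') (e + e')
  mul : ∀ d d' e e', rel d e → rel d' e' → rel (d * d') (e * e')
  inv : ∀ d e, rel d e → e ≠ 0 → rel d⁻¹ e⁻¹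
  con : ∀ a : O, rel (algebraMap k D (a : k)) (algebraMap ℂ E ((ρ a : ℝ) : ℂ))
  relx : rel x X
  rely : rel y Y
  scale : ∀ d : D, d ≠ 0 → ∃ c : k, c ≠ 0 ∧ ∃ e : E, e ≠ 0 ∧ rel (algebraMap k D c * d) e

/-- A real place of `k` at which `q` has value one. -/
structure RealPlace (k : Type) [Field k] (q : kˣ) where
  O : ValuationSubring k
  ρ : O →+* ℝ
  loc : ∀ a : O, ρ a ≠ 0 → IsUnit a
  hq : (q : k) ∈ O
  one : ρ ⟨(q : k), hq⟩ = 1

/-! ### Commutative part: reachable pairs -/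

/-- The value at `Y` of a real polynomial. -/
noncomputable def evc {E : Type} [Field E] [Algebra ℂ E] (Y : E) (P : ℝ[X]) : E :=
  P.eval₂ ((algebraMap ℂ E).comp Complex.ofRealHom) Y

/-- The pairs obtained from `(X0, Y0)` by the classical elementary maps with real coefficients. -/
inductive Reach {E : Type} [Field E] [Algebra ℂ E] (X0 Y0 : E) : E → E → Prop
  | base : Reach X0 Y0 X0 Y0
  | stepX (X Y : E) (P Q : ℝ[X]) : P ≠ 0 → Q ≠ 0 → Reach X0 Y0 X Y →
      Reach X0 Y0 (evc Y P / evc Y Q * X) Y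
  | stepY (X Y : E) (P Q : ℝ[X]) : P ≠ 0 → Q ≠ 0 → Reach X0 Y0 X Y →
      Reach X0 Y0 X (evc X P / evc X Q * Y)
  | inv (X Y : E) : Reach X0 Y0 X Y → Reach X0 Y0 X⁻¹ Y⁻¹

/-- Algebraic independence over `ℂ`. -/
def Ind {E : Type} [Field E] [Algebra ℂ E] (X Y : E) : Prop := AlgebraicIndependent ℂ ![X, Y]

/-- The classical quintic (value at `q = 1`). -/
def IsQuintC {E : Type} [Field E] (x y X Y : E) : Prop :=
  ∃ W : E, W = 1 + x ^ 2 + y ^ 2 ∧ 2 * W ^ 2 + x ^ 2 * y ^ 2 ≠ 0 ∧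
    (2 * W ^ 2 + x ^ 2 * y ^ 2) * X = x * (4 * W ^ 2 - x ^ 2 * y ^ 2 - 3 * W * y ^ 2) ∧
    (2 * W ^ 2 + x ^ 2 * y ^ 2) * Y = y * (W ^ 2 - x ^ 2 * y ^ 2 + 3 * W * x ^ 2)

end QD
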