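import Pool.Agent.Lib.QD.CSt

/-!
Project QD, module Deg: poles of the quintic pair.
-/

set_option autoImplicit false

namespace QD

open Polynomial

namespace DegAux

variable {Ω : Type} [Field Ω]

theorem deg_W (η : Ω) : (pW η).natDegree ≤ 2 := by
  unfold pW
  compute_degree

theorem deg_N1 (η : Ω) : (X * pN1 η).natDegree ≤ 5 := by
  have h := deg_W η
  unfold pN1
  compute_degree
  all_goals omega

theorem deg_N2 (η : Ω) : (C η * pN2 η).natDegree ≤ 4 := by
  have h := deg_W η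
  unfold pN2
  compute_degree
  all_goals omega

theorem deg_N3 (η : Ω) : (pN3 η).natDegree ≤ 4 := by
  have h := deg_W η
  unfold pN3
  compute_degree
  all_goals omega

theorem hW {A B : Type} [CommRing A] [CommRing B] (φ : A →+* B) (x y : A) :
    φ (1 + x ^ 2 + y ^ 2) = 1 + φ x ^ 2 + φ y ^ 2 := by
  rw [map_add, map_add, map_one, map_pow, map_pow]

theorem h3 {A B : Type} [CommRing A] [CommRing B] (φ : A →+* B) (w x y : A) :
    φ (2 * w ^ 2 + x ^ 2 * y ^ 2) = 2 * φ w ^ 2 + φ x ^ 2 * φ y ^ 2 := by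
  simp only [map_add, map_mul, map_pow, map_ofNat]

theorem h1 {A B : Type} [CommRing A] [CommRing B] (φ : A →+* B) (w x y : A) :
    φ (x * (4 * w ^ 2 - x ^ 2 * y ^ 2 - 3 * w * y ^ 2)) =
      φ x * (4 * φ w ^ 2 - φ x ^ 2 * φ y ^ 2 - 3 * φ w * φ y ^ 2) := by
  simp only [map_sub, map_mul, map_pow, map_ofNat]

theorem h2 {A B : Type} [CommRing A] [CommRing B] (φ : A →+* B) (w x y : A) :
    φ (y * (w ^ 2 - x ^ 2 * y ^ 2 + 3 * w * x ^ 2)) =
      φ y * (φ w ^ 2 - φ x ^ 2 * φ y ^ 2 + 3 * φ w * φ x ^ 2) := by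
  simp only [map_sub, map_add, map_mul, map_pow, map_ofNat]

theorem fle {P : Type} (f g : P → ℤ) (hf : (Function.support f).Finite)
    (hg : (Function.support g).Finite) (h : ∀ p, f p ≤ g p) : ∑ᶠ p, f p ≤ ∑ᶠ p, g p := by
  have h1 : Function.support f ⊆ ((hf.union hg).toFinset : Set P) := by
    rw [Set.Finite.coe_toFinset]
    exact Set.subset_union_left
  have h2 : Function.support g ⊆ ((hf.union hg).toFinset : Set P) := by
    rw [Set.Finite.coe_toFinset]
    exact Set.subset_union_right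
  rw [finsum_eq_sum_of_support_subset _ h1, finsum_eq_sum_of_support_subset _ h2]
  exact Finset.sum_le_sum fun p _ => h p

end DegAux

/-- Module Deg: poles of the quintic pair. -/
theorem stDeg : StDeg := by
  intro Ω _ _ _ η Pl pt X₁ Y₁ _ hst hQ hX hY
  obtain ⟨W, hW, h0, h1, h2⟩ := hQ
  have eX : (RatFunc.X : RatFunc Ω) = algebraMap (Polynomial Ω) (RatFunc Ω) X := RatFunc.algebraMap_X.symm
  have eC : (RatFunc.C η : RatFunc Ω) = algebraMap (Polynomial Ω) (RatFunc Ω) (C η) :=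
    (RatFunc.algebraMap_C η).symm
  have eW : W = algebraMap (Polynomial Ω) (RatFunc Ω) (pW η) := by
    rw [hW, eX, eC]
    exact (DegAux.hW _ _ _).symm
  have e3 : 2 * W ^ 2 + RatFunc.X ^ 2 * RatFunc.C η ^ 2 =
      algebraMap (Polynomial Ω) (RatFunc Ω) (pN3 η) := by
    rw [eW, eX, eC]
    exact (DegAux.h3 _ _ _ _).symm
  have e1 : RatFunc.X * (4 * W ^ 2 - RatFunc.X ^ 2 * RatFunc.C η ^ 2 - 3 * W * RatFunc.C η ^ 2) =
      algebraMap (Polynomial Ω) (RatFunc Ω) (X * pN1 η) := by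
    rw [eW, eX, eC]
    exact (DegAux.h1 _ _ _ _).symm
  have e2 : RatFunc.C η * (W ^ 2 - RatFunc.X ^ 2 * RatFunc.C η ^ 2 + 3 * W * RatFunc.X ^ 2) =
      algebraMap (Polynomial Ω) (RatFunc Ω) (C η * pN2 η) := by
    rw [eW, eX, eC]
    exact (DegAux.h2 _ _ _ _).symm
  rw [e3] at h0 h1 h2
  rw [e1] at h1
  rw [e2] at h2
  have n3 : pN3 η ≠ 0 := by
    intro h
    exact h0 (by rw [h, map_zero])
  have n1 : X * pN1 η ≠ 0 := by
    intro h
    rw [h, map_zero] at h1
    exact mul_ne_zero h0 hX h1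
  have n2 : C η * pN2 η ≠ 0 := by
    intro h
    rw [h, map_zero] at h2
    exact mul_ne_zero h0 hY h2
  have o1 : ∀ p, Pl.ord p (algebraMap (Polynomial Ω) (RatFunc Ω) (pN3 η)) + Pl.ord p X₁ =
      Pl.ord p (algebraMap (Polynomial Ω) (RatFunc Ω) (X * pN1 η)) := by
    intro p
    rw [← Pl.mul p _ _ h0 hX, h1]
  have o2 : ∀ p, Pl.ord p (algebraMap (Polynomial Ω) (RatFunc Ω) (pN3 η)) + Pl.ord p Y₁ =
      Pl.ord p (algebraMap (Polynomial Ω) (RatFunc Ω) (C η * pN2 η)) := by
    intro p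
    rw [← Pl.mul p _ _ h0 hY, h2]
  classical
  have hle : ∀ p, max 0 (max (-Pl.ord p X₁) (-Pl.ord p Y₁)) ≤
      Pl.ord p (algebraMap (Polynomial Ω) (RatFunc Ω) (pN3 η)) + (if p = pt none then (5 : ℤ) else 0) := by
    intro p
    have a1 := o1 p
    have a2 := o2 p
    obtain ⟨c, rfl⟩ := pt.surjective p
    rcases c with _ | c
    · rw [hst.inf _ n3, hst.inf _ n1] at a1
      rw [hst.inf _ n3, hst.inf _ n2] at a2
      rw [hst.inf _ n3, if_pos rfl]
      have b1 := DegAux.deg_N1 η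
      have b2 := DegAux.deg_N2 η
      have b3 := DegAux.deg_N3 η
      omega
    · rw [hst.fin _ _ n3, hst.fin _ _ n1] at a1
      rw [hst.fin _ _ n3, hst.fin _ _ n2] at a2
      have hne : pt (some c) ≠ pt none := by
        intro h
        exact absurd (pt.injective h) (by simp)
      rw [hst.fin _ _ n3, if_neg hne]
      omega
  have f1 : (Function.support fun p => max 0 (max (-Pl.ord p X₁) (-Pl.ord p Y₁))).Finite := by
    refine ((Pl.fin _ hX).union (Pl.fin _ hY)).subset ?_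
    intro p hp
    by_contra h
    rw [Set.mem_union, not_or] at h
    have a1 : Pl.ord p X₁ = 0 := by
      by_contra h'
      exact h.1 h'
    have a2 : Pl.ord p Y₁ = 0 := by
      by_contra h'
      exact h.2 h'
    apply hp
    show max 0 (max (-Pl.ord p X₁) (-Pl.ord p Y₁)) = 0
    rw [a1, a2]
    simp
  have f2 : (Function.support fun p =>
      Pl.ord p (algebraMap (Polynomial Ω) (RatFunc Ω) (pN3 η))).Finite := Pl.fin _ h0
  have f3 : (Function.support fun p : Pl.P => (if p = pt none then (5 : ℤ) else 0)).Finite := by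
    refine (Set.finite_singleton (pt none)).subset ?_
    intro p hp
    by_contra h
    exact hp (if_neg h)
  have f4 : (Function.support fun p => Pl.ord p (algebraMap (Polynomial Ω) (RatFunc Ω) (pN3 η)) +
      (if p = pt none then (5 : ℤ) else 0)).Finite :=
    (f2.union f3).subset (Function.support_add _ _)
  calc ∑ᶠ p, max 0 (max (-Pl.ord p X₁) (-Pl.ord p Y₁))
      ≤ ∑ᶠ p, (Pl.ord p (algebraMap (Polynomial Ω) (RatFunc Ω) (pN3 η)) +
        (if p = pt none then (5 : ℤ) else 0)) := DegAux.fle _ _ f1 f4 hle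
    _ = 5 := by
        rw [finsum_add_distrib f2 f3, Pl.sum _ h0,
          finsum_eq_single _ (pt none) (fun p hp => if_neg hp), if_pos rfl, zero_add]

end QD
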