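import Pool.Agent.Lib.QD.St
import Pool.Agent.Lib.QD.CSt

/-!
Project QD: the division subring `D` of `K` and the final statement.
-/

namespace QD

open Polynomial

section
variable (k : Type) {K : Type} [Field k] [DivisionRing K] [Algebra k K]

/-- The division subring `k(x,y)` of `K` generated by `k`, `x`, `y`. -/
def DK (x y : K) : Subfield K := Subfield.closure (Set.range (algebraMap k K) ∪ {x, y})

theorem algebraMap_mem_DK (x y : K) (c : k) : algebraMap k K c ∈ DK k x y :=
  Subfield.subset_closure (Or.inl ⟨c, rfl⟩)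

theorem x_mem_DK (x y : K) : x ∈ DK k x y := Subfield.subset_closure (Or.inr (Or.inl rfl))

theorem y_mem_DK (x y : K) : y ∈ DK k x y := Subfield.subset_closure (Or.inr (Or.inr rfl))

/-- the `k`-algebra structure of `k(x,y)` (the constants of `K`) -/
noncomputable instance algDK (x y : K) : Algebra k (DK k x y) :=
  RingHom.toAlgebra' ((algebraMap k K).codRestrict (DK k x y) (algebraMap_mem_DK k x y)) (by
    intro c d
    apply Subtype.ext
    exact Algebra.commutes c (d : K))

theorem coe_algebraMap_DK (x y : K) (c : k) :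
    ((algebraMap k (DK k x y) c : DK k x y) : K) = algebraMap k K c := rfl

/-- the inclusion -/
noncomputable def inclDK (x y : K) : DK k x y →ₐ[k] K :=
  { (DK k x y).subtype with commutes' := fun _ => rfl }

theorem inclDK_apply (x y : K) (d : DK k x y) : inclDK k x y d = (d : K) := rfl

/-- the generator `x` -/
def gX (x y : K) : DK k x y := ⟨x, x_mem_DK k x y⟩

/-- the generator `y` -/
def gY (x y : K) : DK k x y := ⟨y, y_mem_DK k x y⟩

theorem isQD_DK (q : kˣ) (x y : K) (hx : x ≠ 0) (hy : y ≠ 0) (h : x * y = algebraMap k K q * (y * x)) :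
    IsQD q (gX k x y) (gY k x y) := by
  refine ⟨?_, ?_, ?_, ?_⟩
  · intro h0; exact hx (congrArg Subtype.val h0)
  · intro h0; exact hy (congrArg Subtype.val h0)
  · apply Subtype.ext; exact h
  · intro S h1 h2 h3 d
    have key : DK k x y ≤ S.map (DK k x y).subtype := by
      apply Subfield.closure_le.2
      rintro u (⟨c, rfl⟩ | rfl | rfl)
      · exact ⟨algebraMap k (DK k x y) c, h1 c, rfl⟩
      · exact ⟨_, h2, rfl⟩
      · exact ⟨_, h3, rfl⟩
    obtain ⟨d', hd', he⟩ := key d.2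
    have : d' = d := Subtype.ext he
    rwa [← this]

end

/-- Negation of Q1 in abstract form: `K` is a ring of skew Laurent series over `k(y)` in `x`. -/
def NotConjTame (k : Type) [Field k] (K : Type) [DivisionRing K] [Algebra k K] (x y : K) : Prop :=
  ∃ z : K, z ≠ 0 ∧ z ∉ DK k x y ∧ (∀ d : K, d ∈ DK k x y ↔ z * d * z⁻¹ ∈ DK k x y) ∧
    ∀ φ ∈ Tame (k := k) (gX k x y) (gY k x y), ∃ d : DK k x y, ((φ d : DK k x y) : K) ≠ z * (d : K) * z⁻¹

theorem main_abs (hNC : StNC) (hPlace : StPlace) (hTame : StTame) (hRes : StThRes) (hNR : StNR)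
    (k : Type) [Field k] [CharZero k] (q : kˣ) (R : RealPlace k q) (hq : NotRoot q)
    (K : Type) [DivisionRing K] [Algebra k K] (S : SkewL k (RatFunc k) (sg q) K) (xK yK : K)
    (hx : S.cf xK = Pi.single (1 : ℤ) (1 : RatFunc k))
    (hy : S.cf yK = Pi.single (0 : ℤ) (RatFunc.X : RatFunc k))
    (hx0 : xK ≠ 0) (hy0 : yK ≠ 0) (hxy : xK * yK = algebraMap k K q * (yK * xK)) :
    NotConjTame k K xK yK := by
  have hQD := isQD_DK k q xK yK hx0 hy0 hxy
  obtain ⟨E, iE, iA, X0, Y0, hI, hno⟩ := hNR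
  obtain ⟨V⟩ := hPlace k (DK k xK yK) E q (gX k xK yK) (gY k xK yK) R X0 Y0 hQD hq hI
  have hnt : ∀ φ : DK k xK yK ≃ₐ[k] DK k xK yK,
      IsQuint q (gX k xK yK) (gY k xK yK) (φ (gX k xK yK)) (φ (gY k xK yK)) →
      φ ∉ Tame (gX k xK yK) (gY k xK yK) := by
    intro φ hφ hT
    obtain ⟨X', Y', hX', hY', hrX, hrY, hC⟩ :=
      hRes k (DK k xK yK) E q _ _ R X0 Y0 hQD hq hI V _ _ hφ
    exact hno X' Y' hC (hTame k (DK k xK yK) E q _ _ R X0 Y0 hQD hq hI V φ hT X' Y' hX' hY' hrX hrY)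
  obtain ⟨z, φ, hz, hzφ, hφ⟩ := hNC k (DK k xK yK) q (gX k xK yK) (gY k xK yK) K S
    (inclDK k xK yK) hQD hq hx hy hnt
  refine ⟨z, hz, ?_, ?_, ?_⟩
  · intro hzD
    apply hφ
    apply Subgroup.subset_closure
    right
    refine ⟨⟨z, hzD⟩, fun h0 => hz (congrArg Subtype.val h0), fun d => ?_⟩
    apply Subtype.ext
    exact (hzφ d).symm
  · intro d
    constructor
    · intro hd
      have := hzφ ⟨d, hd⟩
      rw [inclDK_apply] at this
      rw [this]
      exact (φ ⟨d, hd⟩).2
    · intro hd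
      have h1 := hzφ (φ.symm ⟨z * d * z⁻¹, hd⟩)
      rw [AlgEquiv.apply_symm_apply, inclDK_apply, inclDK_apply] at h1
      have h2 : z * ((φ.symm ⟨z * d * z⁻¹, hd⟩ : DK k xK yK) : K) * z⁻¹ = z * d * z⁻¹ := h1
      have h3 : ((φ.symm ⟨z * d * z⁻¹, hd⟩ : DK k xK yK) : K) = d := by
        have h4 := congrArg (fun u => z⁻¹ * u * z) h2
        simpa [mul_assoc, hz] using h4
      rw [← h3]
      exact (φ.symm ⟨z * d * z⁻¹, hd⟩).2
  · intro ψ hψ
    by_contra hcon
    push Not at hcon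
    have : ψ = φ := by
      ext d
      have h1 := hzφ d
      rw [inclDK_apply, inclDK_apply] at h1
      rw [hcon d, h1]
    exact hφ (this ▸ hψ)

end QD
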