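import Pool.Agent.Lib.QD.Laurent0

/-!
Project QD: the division ring of skew Laurent series.
-/

namespace QD

namespace SL

variable {k A : Type} [Field k] [Field A] [Algebra k A] {σ : A ≃ₐ[k] A}

open Finset

theorem bdd' (f : SL σ) : BddBelow (Function.support f.cf) := by
  obtain ⟨N, hN⟩ := f.bdd
  refine ⟨N, fun i hi => ?_⟩
  by_contra h
  exact hi (hN i (not_le.1 h))

/-- the coefficients as endomorphisms of `A` -/
noncomputable def ce (f : SL σ) (i : ℤ) : Module.End k A :=
  (LinearMap.mulLeft k (f.cf i)).comp (σ ^ i).toLinearMap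

theorem ce_apply (f : SL σ) (i : ℤ) (a : A) : ce f i a = f.cf i * (σ ^ i) a := rfl

theorem ce_zero {f : SL σ} {i : ℤ} (h : f.cf i = 0) : ce f i = 0 := by
  ext a
  rw [ce_apply, h, zero_mul]
  rfl

/-- embedding into the Hahn series over the endomorphism ring -/
noncomputable def toH (f : SL σ) : HahnSeries ℤ (Module.End k A) where
  coeff := ce f
  isPWO_support' := by
    refine Set.IsWF.isPWO (Set.IsWF.mono (BddBelow.wellFoundedOn_lt (f.bdd'))
      (fun i hi h => hi (ce_zero h)))

theorem toH_coeff (f : SL σ) (i : ℤ) : (toH f).coeff i = ce f i := rfl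

theorem toH_inj : Function.Injective (toH : SL σ → _) := by
  intro f g h
  ext i
  have h1 := congrArg (fun H : HahnSeries ℤ (Module.End k A) => (HahnSeries.coeff H i) 1) h
  simp only [toH_coeff, ce_apply, map_one, mul_one] at h1
  exact h1

theorem toH_add (f g : SL σ) : toH (f + g) = toH f + toH g := by
  ext i a
  rw [HahnSeries.coeff_add, toH_coeff, toH_coeff, toH_coeff, LinearMap.add_apply, ce_apply,
    ce_apply, ce_apply, cf_add, add_mul]

theorem toH_one : toH (1 : SL σ) = 1 := by
  ext i a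
  rw [toH_coeff, ce_apply, cf_one, HahnSeries.coeff_one]
  by_cases h : i = 0
  · subst h
    simp
  · rw [Pi.single_eq_of_ne h, if_neg h, zero_mul]
    rfl

theorem toH_mul (f g : SL σ) : toH (f * g) = toH f * toH g := by
  ext n a
  rw [HahnSeries.coeff_mul, toH_coeff, ce_apply, LinearMap.sum_apply, cf_mul]
  have h1 : ∀ ij ∈ Finset.antidiagonal (toH f).isPWO_support (toH g).isPWO_support n,
      ((toH f).coeff ij.1 * (toH g).coeff ij.2) a =
        f.cf ij.1 * (σ ^ ij.1) (g.cf (n - ij.1)) * (σ ^ n) a := by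
    rintro ⟨i, j⟩ hij
    rw [Finset.mem_antidiagonal] at hij
    have hj : n - i = j := by have := hij.2.2; simp only at this; omega
    rw [Module.End.mul_apply, toH_coeff, toH_coeff, ce_apply, ce_apply, map_mul]
    simp only
    rw [hj, ← AlgEquiv.mul_apply, ← zpow_add, hij.2.2, mul_assoc]
  rw [sum_congr rfl h1, ← sum_mul]
  congr 1
  have h2 : ∑ ij ∈ Finset.antidiagonal (toH f).isPWO_support (toH g).isPWO_support n,
      f.cf ij.1 * (σ ^ ij.1) (g.cf (n - ij.1)) =
      ∑ i ∈ (Finset.antidiagonal (toH f).isPWO_support (toH g).isPWO_support n).image Prod.fst,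
        f.cf i * (σ ^ i) (g.cf (n - i)) := by
    rw [sum_image]
    rintro ⟨i, j⟩ hij ⟨i', j'⟩ hij' h
    rw [mem_coe, Finset.mem_antidiagonal] at hij hij'
    simp only at h
    have e1 := hij.2.2
    have e2 := hij'.2.2
    simp only at e1 e2
    ext
    · exact h
    · simp only; omega
  rw [h2]
  refine finsum_eq_sum_of_support_subset _ ?_
  intro i hi
  rw [Function.mem_support] at hi
  rw [mem_coe, mem_image]
  refine ⟨(i, n - i), ?_, rfl⟩
  rw [Finset.mem_antidiagonal]
  have h3 : f.cf i ≠ 0 := left_ne_zero_of_mul hi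
  have h4 : g.cf (n - i) ≠ 0 := by
    intro h
    exact right_ne_zero_of_mul hi (by rw [h, map_zero])
  refine ⟨?_, ?_, by simp⟩
  · rw [HahnSeries.mem_support, toH_coeff]
    intro h
    apply h3
    have := congrArg (fun L => L 1) h
    simpa [ce_apply] using this
  · rw [HahnSeries.mem_support, toH_coeff]
    intro h
    apply h4
    have := congrArg (fun L => L 1) h
    simpa [ce_apply] using this

noncomputable instance : Ring (SL σ) := Ring.ofMinimalAxioms
  (fun a b c => toH_inj (by simp only [toH_add, add_assoc]))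
  (fun a => by ext i; rw [cf_add, cf_zero, zero_add])
  (fun a => by ext i; rw [cf_add, cf_neg, cf_zero, neg_add_cancel])
  (fun a b c => toH_inj (by simp only [toH_mul, mul_assoc]))
  (fun a => toH_inj (by rw [toH_mul, toH_one, one_mul]))
  (fun a => toH_inj (by rw [toH_mul, toH_one, mul_one]))
  (fun a b c => toH_inj (by simp only [toH_mul, toH_add, mul_add]))
  (fun a b c => toH_inj (by simp only [toH_mul, toH_add, add_mul]))

instance : Nontrivial (SL σ) := ⟨0, 1, fun h => by
  have := congrArg (fun f : SL σ => f.cf 0) h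
  simp [cf_zero, cf_one] at this⟩

/-! ### Inverses -/

/-- the coefficients of the inverse -/
noncomputable def iv (f : SL σ) (N : ℤ) : ℕ → A
  | m => (σ ^ (-N)) ((f.cf N)⁻¹ * ((if m = 0 then 1 else 0) -
      ∑ i : Fin m, f.cf (N + (m - (i : ℕ))) * (σ ^ (N + (m - (i : ℕ)))) (iv f N i)))
decreasing_by exact i.2

theorem iv_eq (f : SL σ) (N : ℤ) (h : f.cf N ≠ 0) (m : ℕ) :
    f.cf N * (σ ^ N) (iv f N m) +
      ∑ i ∈ range m, f.cf (N + (m - (i : ℕ))) * (σ ^ (N + (m - (i : ℕ)))) (iv f N i) =
      if m = 0 then 1 else 0 := by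
  conv_lhs => enter [1]; rw [iv]
  rw [← AlgEquiv.mul_apply, ← zpow_add, add_neg_cancel, zpow_zero, AlgEquiv.one_apply,
    mul_inv_cancel_left₀ h, Finset.sum_range (fun i : ℕ =>
      f.cf (N + (m - (i : ℕ))) * (σ ^ (N + (m - (i : ℕ)))) (iv f N i))]
  ring

/-- the right inverse -/
noncomputable def rinv (f : SL σ) (N : ℤ) : SL σ where
  cf j := if 0 ≤ j + N then iv f N (j + N).toNat else 0
  bdd := ⟨-N, fun i hi => if_neg (by omega)⟩

theorem mul_rinv (f : SL σ) (N : ℤ) (h : f.cf N ≠ 0) (h0 : ∀ i < N, f.cf i = 0) :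
    f * rinv f N = 1 := by
  ext n
  rw [cf_mul, cf_one]
  rcases lt_or_ge n 0 with hn | hn
  · rw [Pi.single_eq_of_ne hn.ne, finsum_eq_zero_of_forall_eq_zero]
    intro i
    rcases lt_or_ge i N with hi | hi
    · rw [h0 i hi, zero_mul]
    · have : (rinv f N).cf (n - i) = 0 := if_neg (by omega)
      rw [this, map_zero, mul_zero]
  · obtain ⟨m, rfl⟩ := Int.eq_ofNat_of_zero_le hn
    have h1 : ∑ᶠ i : ℤ, f.cf i * (σ ^ i) ((rinv f N).cf (m - i)) =
        ∑ i ∈ (range (m + 1)).image (fun l : ℕ => N + (m - l : ℤ)),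
          f.cf i * (σ ^ i) ((rinv f N).cf (m - i)) := by
      refine finsum_eq_sum_of_support_subset _ ?_
      intro i hi
      rw [Function.mem_support] at hi
      have h2 : ¬ i < N := fun hi' => hi (by rw [h0 i hi', zero_mul])
      have h3 : 0 ≤ (m : ℤ) - i + N := by
        by_contra hcon
        apply hi
        have : (rinv f N).cf (m - i) = 0 := if_neg hcon
        rw [this, map_zero, mul_zero]
      rw [mem_coe, mem_image]
      refine ⟨((m : ℤ) - i + N).toNat, ?_, ?_⟩
      · rw [mem_range]; omega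
      · omega
    rw [h1, sum_image (by
      intro a _ b _ hab
      simp only at hab
      omega), sum_range_succ]
    have h2 : ∀ l ∈ range m, f.cf (N + (m - l : ℤ)) * (σ ^ (N + (m - l : ℤ)))
        ((rinv f N).cf (m - (N + (m - l : ℤ)))) =
        f.cf (N + (m - (l : ℕ))) * (σ ^ (N + (m - (l : ℕ)))) (iv f N l) := by
      intro l _
      have h3 : (rinv f N).cf (m - (N + (m - l : ℤ))) = iv f N l := by
        have e : (m : ℤ) - (N + (m - l : ℤ)) + N = l := by ring
        change (if 0 ≤ (m : ℤ) - (N + (m - l : ℤ)) + N then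
          iv f N ((m : ℤ) - (N + (m - l : ℤ)) + N).toNat else 0) = _
        rw [e, if_pos (by omega), Int.toNat_natCast]
      rw [h3]
    rw [sum_congr rfl h2]
    have h4 : (rinv f N).cf (m - (N + (m - m : ℤ))) = iv f N m := by
      have e : (m : ℤ) - (N + (m - m : ℤ)) + N = m := by ring
      change (if 0 ≤ (m : ℤ) - (N + (m - m : ℤ)) + N then
        iv f N ((m : ℤ) - (N + (m - m : ℤ)) + N).toNat else 0) = _
      rw [e, if_pos (by omega), Int.toNat_natCast]
    rw [h4]
    have e5 : N + (m - m : ℤ) = N := by ring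
    rw [e5, add_comm, iv_eq f N h m]
    by_cases hm : m = 0
    · subst hm
      simp
    · rw [if_neg hm, Pi.single_eq_of_ne (by exact_mod_cast hm)]

theorem exists_rinv (f : SL σ) (hf : f ≠ 0) : ∃ g, f * g = 1 := by
  obtain ⟨M, hM⟩ := f.bdd
  have hex : ∃ z : ℤ, f.cf z ≠ 0 := by
    by_contra hcon
    push Not at hcon
    exact hf (by ext i; exact hcon i)
  obtain ⟨N, hN, hN'⟩ := Int.exists_least_of_bdd (P := fun z => f.cf z ≠ 0)
    ⟨M, fun z hz => not_lt.1 fun h => hz (hM z h)⟩ hex
  refine ⟨rinv f N, mul_rinv f N hN fun i hi => ?_⟩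
  by_contra h
  exact absurd (hN' i h) (not_le.2 hi)

theorem isUnit_or (f : SL σ) : IsUnit f ∨ f = 0 := by
  by_cases hf : f = 0
  · exact Or.inr hf
  · left
    obtain ⟨g, hg⟩ := exists_rinv f hf
    have hg0 : g ≠ 0 := by
      rintro rfl
      rw [mul_zero] at hg
      exact zero_ne_one hg
    obtain ⟨h, hh⟩ := exists_rinv g hg0
    have : f = h := by
      calc f = f * (g * h) := by rw [hh, mul_one]
        _ = h := by rw [← mul_assoc, hg, one_mul]
    refine ⟨⟨f, g, hg, ?_⟩, rfl⟩
    rw [this, hh]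

noncomputable instance : DivisionRing (SL σ) := DivisionRing.ofIsUnitOrEqZero isUnit_or

/-! ### The algebra structure -/

theorem cf_con_mul (a : A) (f : SL σ) (n : ℤ) : (con a * f).cf n = a * f.cf n := by
  rw [cf_mul, finsum_eq_single _ 0]
  · simp [con]
  · intro i hi
    simp [con, Pi.single_eq_of_ne hi]

theorem cf_mul_con (a : A) (f : SL σ) (n : ℤ) : (f * con a).cf n = f.cf n * (σ ^ n) a := by
  rw [cf_mul, finsum_eq_single _ n]
  · simp [con]
  · intro i hi
    have : n - i ≠ 0 := by omega
    simp [con, Pi.single_eq_of_ne this]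

/-- constants -/
def conHom : k →+* SL σ where
  toFun c := con (algebraMap k A c)
  map_one' := by rw [map_one]; rfl
  map_zero' := by
    rw [map_zero]
    ext i
    simp [con, cf_zero]
  map_add' a b := by
    ext i
    rw [cf_add, map_add]
    simp only [con, Pi.single_add, Pi.add_apply]
  map_mul' a b := by
    ext i
    rw [cf_con_mul, map_mul]
    simp only [con]
    by_cases h : i = 0
    · subst h; simp
    · simp [Pi.single_eq_of_ne h]

noncomputable instance : Algebra k (SL σ) := RingHom.toAlgebra' conHom (by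
  intro c f
  ext n
  change (con (algebraMap k A c) * f).cf n = (f * con (algebraMap k A c)).cf n
  rw [cf_con_mul, cf_mul_con, AlgEquiv.commutes, mul_comm])

theorem algebraMap_eq (c : k) : algebraMap k (SL σ) c = con (algebraMap k A c) := rfl

/-- the skew Laurent series satisfy the axioms -/
noncomputable def skewL : SkewL k A σ (SL σ) where
  cf := SL.cf
  inj := fun _ _ h => SL.ext h
  bdd := SL.bdd
  surj := fun c hc => ⟨⟨c, hc⟩, rfl⟩
  add := cf_add
  mul := cf_mul
  one := cf_one
  alg := fun _ => rfl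

end SL

end QD
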