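import Pool.Agent.Lib.QD.Final0
import Pool.Agent.Lib.QD.Laurent

/-!
Project QD: the concrete statement for `K = k(y)((x))`.
-/

namespace QD

open Polynomial

theorem sg_X {k : Type} [Field k] (q : kˣ) :
    sg q (RatFunc.X : RatFunc k) = algebraMap k (RatFunc k) q * RatFunc.X := by
  have h : sg q (algebraMap k[X] (RatFunc k) X) = algebraMap k[X] (RatFunc k) (sgP q X) :=
    IsLocalization.algEquivOfAlgEquiv_eq (h := sgP q) _ X
  rw [RatFunc.algebraMap_X] at h
  rw [h]
  simp [sgP, RatFunc.algebraMap_C, RatFunc.algebraMap_eq_C]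

theorem xx_ne {k : Type} [Field k] (q : kˣ) : (SL.xx : SL (sg q)) ≠ 0 := by
  intro h
  have := congrArg (fun f => SL.cf f 1) h
  simp [SL.xx, SL.cf_zero] at this

theorem yy_ne {k : Type} [Field k] (q : kˣ) : (SL.con RatFunc.X : SL (sg q)) ≠ 0 := by
  intro h
  have := congrArg (fun f => SL.cf f 0) h
  simp [SL.con, SL.cf_zero] at this
  exact RatFunc.X_ne_zero this

theorem xx_yy {k : Type} [Field k] (q : kˣ) :
    (SL.xx : SL (sg q)) * SL.con RatFunc.X =
      algebraMap k (SL (sg q)) q * (SL.con RatFunc.X * SL.xx) := by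
  apply SL.ext
  funext n
  rw [SL.cf_mul_con, SL.algebraMap_eq, SL.cf_con_mul, SL.cf_con_mul]
  by_cases hn : n = 1
  · subst hn
    simp [SL.xx, sg_X, mul_comm]
  · simp [SL.xx, hn]

/-- The concrete theorem, from the statements of the modules. -/
theorem main_conc (hNC : StNC) (hPlace : StPlace) (hTame : StTame) (hRes : StThRes) (hNR : StNR)
    (k : Type) [Field k] [CharZero k] (q : kˣ) (R : RealPlace k q) (hq : NotRoot q) :
    NotConjTame k (SL (sg q)) SL.xx (SL.con RatFunc.X) :=
  main_abs hNC hPlace hTame hRes hNR k q R hq (SL (sg q)) SL.skewL _ _ rfl rfl (xx_ne q) (yy_ne q) (xx_yy q)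

end QD
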