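import Pool.Agent.Lib.QD.Defs

/-!
Project QD: the ring of skew Laurent series, concrete definition of the operations.
-/

namespace QD

/-- Skew Laurent series `∑ a_i x^i` with coefficients `a_i` in `A`, `a_i = 0` for `i` very negative.
The multiplication will be the one with `x a = σ(a) x`. -/
@[ext]
structure SL {k A : Type} [Field k] [Field A] [Algebra k A] (σ : A ≃ₐ[k] A) where
  cf : ℤ → A
  bdd : ∃ N : ℤ, ∀ i < N, cf i = 0

namespace SL

variable {k A : Type} [Field k] [Field A] [Algebra k A] {σ : A ≃ₐ[k] A}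

instance : Zero (SL σ) := ⟨⟨0, 0, fun _ _ => rfl⟩⟩

/-- the constant `a` -/
def con (a : A) : SL σ := ⟨Pi.single 0 a, 0, fun i hi => by simp [Pi.single_apply, hi.ne]⟩

/-- the series `x` -/
def xx : SL σ := ⟨Pi.single 1 1, 1, fun i hi => by simp [Pi.single_apply, hi.ne]⟩

instance : One (SL σ) := ⟨con 1⟩

instance : Add (SL σ) := ⟨fun f g => ⟨f.cf + g.cf, by
  obtain ⟨N, hN⟩ := f.bdd
  obtain ⟨M, hM⟩ := g.bdd
  exact ⟨min N M, fun i hi => by simp [hN i (lt_min_iff.1 hi).1, hM i (lt_min_iff.1 hi).2]⟩⟩⟩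

instance : Neg (SL σ) := ⟨fun f => ⟨-f.cf, by
  obtain ⟨N, hN⟩ := f.bdd
  exact ⟨N, fun i hi => by simp [hN i hi]⟩⟩⟩

/-- The product: `(∑ a_i x^i)(∑ b_j x^j) = ∑_n (∑_i a_i σ^i(b_{n-i})) x^n`. -/
noncomputable instance : Mul (SL σ) := ⟨fun f g => ⟨fun n => ∑ᶠ i : ℤ, f.cf i * (σ ^ i) (g.cf (n - i)), by
  obtain ⟨N, hN⟩ := f.bdd
  obtain ⟨M, hM⟩ := g.bdd
  refine ⟨N + M, fun n hn => ?_⟩
  rw [finsum_eq_zero_of_forall_eq_zero]
  intro i
  rcases lt_or_ge i N with h | h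
  · simp [hN i h]
  · rw [hM (n - i) (by omega)]
    simp⟩⟩

theorem cf_mul (f g : SL σ) (n : ℤ) : (f * g).cf n = ∑ᶠ i : ℤ, f.cf i * (σ ^ i) (g.cf (n - i)) := rfl
theorem cf_add (f g : SL σ) (n : ℤ) : (f + g).cf n = f.cf n + g.cf n := rfl
theorem cf_neg (f : SL σ) (n : ℤ) : (-f).cf n = -f.cf n := rfl
theorem cf_zero (n : ℤ) : (0 : SL σ).cf n = 0 := rfl
theorem cf_one : (1 : SL σ).cf = Pi.single 0 1 := rfl

end SL

end QD
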