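import Pool.Agent.Lib.QD.Defs

/-!
Project QD: existence of real places.
-/

namespace QD

open Polynomial

/-- I1. Real places from embeddings into Laurent series: if `k` embeds in `ℝ((h))` and `q` becomes a
power series with constant term one then `k` has a real place at which `q` is one. -/
def StPlaceL : Prop := ∀ (k : Type) [Field k] (q : kˣ) (f : k →+* LaurentSeries ℝ) (g : PowerSeries ℝ),
  f (q : k) = (g : LaurentSeries ℝ) → PowerSeries.constantCoeff g = 1 → Nonempty (RealPlace k q)

/-- I2. Real places of ordered fields: the finite elements of an ordered field, with the standard part. -/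
def StPlaceO : Prop := ∀ (k : Type) [Field k] [LinearOrder k] [IsStrictOrderedRing k] (q : kˣ),
  (∀ n : ℕ, 0 < n → |(q : k) - 1| < 1 / n) → Nonempty (RealPlace k q)

/-- I3. The field `ℚ(q)`, `q` the variable. -/
def StInst : Prop := ∃ q : (RatFunc ℚ)ˣ, (q : RatFunc ℚ) = RatFunc.X ∧ NotRoot q ∧
  Nonempty (RealPlace (RatFunc ℚ) q)

end QD
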