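import Pool.Agent.Lib.QD.St

/-!
Project QD: the quantum quintic is an automorphism.
-/

namespace QD

open Polynomial

namespace ThetaAux

section gen
variable {k R : Type} [Field k] [DivisionRing R] [Algebra k R]

/-- `β = q(t² + 2)/(1 + 2q²t²)` -/
noncomputable def eb (q : kˣ) (t : R) : R :=
  (1 + algebraMap k R (2 * q ^ 2) * t ^ 2)⁻¹ * (algebraMap k R q * (t ^ 2 + algebraMap k R 2))

/-- `n = 2q²t² + (1 - 2q²)²` -/
noncomputable def nn (q : kˣ) (t : R) : R :=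
  algebraMap k R (2 * q ^ 2) * t ^ 2 + algebraMap k R ((1 - 2 * q ^ 2) ^ 2)

/-- `μ₃` -/
noncomputable def e3 (q : kˣ) (t : R) : R :=
  (nn q t)⁻¹ * (algebraMap k R q * (algebraMap k R (4 * q ^ 2) * t ^ 2 +
    algebraMap k R (1 - 2 * q ^ 2)))

/-- `μ₂` -/
noncomputable def e2 (q : kˣ) (t : R) : R :=
  (nn q t)⁻¹ * (algebraMap k R (q * (1 - 4 * q ^ 2)) * t)

/-- `β⁻¹` -/
noncomputable def fb (q : kˣ) (t : R) : R :=
  (algebraMap k R q * (t ^ 2 + algebraMap k R 2))⁻¹ * (1 + algebraMap k R (2 * q ^ 2) * t ^ 2)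

/-- `μ₃'` -/
noncomputable def f3 (q : kˣ) (t : R) : R :=
  (algebraMap k R q * (algebraMap k R 2 * t ^ 2 + 1))⁻¹ * (t ^ 2 + algebraMap k R (1 - 2 * q ^ 2))

/-- `μ₂'` -/
noncomputable def f2 (q : kˣ) (t : R) : R :=
  (algebraMap k R q * (algebraMap k R 2 * t ^ 2 + 1))⁻¹ * (algebraMap k R (4 * q ^ 2 - 1) * t)

variable {R' : Type} [DivisionRing R'] [Algebra k R'] (f : R →ₐ[k] R') (q : kˣ) (t : R)

theorem map_eb : f (eb q t) = eb q (f t) := by
  unfold eb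
  simp only [map_mul, map_inv₀, map_add, map_one, map_pow, AlgHom.commutes, map_ofNat]

theorem map_nn : f (nn q t) = nn q (f t) := by
  unfold nn
  simp only [map_mul, map_add, map_pow, AlgHom.commutes]

theorem map_e3 : f (e3 q t) = e3 q (f t) := by
  unfold e3
  simp only [map_mul, map_inv₀, map_add, map_pow, AlgHom.commutes, map_nn]

theorem map_e2 : f (e2 q t) = e2 q (f t) := by
  unfold e2
  simp only [map_mul, map_inv₀, AlgHom.commutes, map_nn]

theorem map_fb : f (fb q t) = fb q (f t) := by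
  unfold fb
  simp only [map_mul, map_inv₀, map_add, map_one, map_pow, AlgHom.commutes]

theorem map_f3 : f (f3 q t) = f3 q (f t) := by
  unfold f3
  simp only [map_mul, map_inv₀, map_add, map_one, map_pow, AlgHom.commutes]

theorem map_f2 : f (f2 q t) = f2 q (f t) := by
  unfold f2
  simp only [map_mul, map_inv₀, map_add, map_one, map_pow, AlgHom.commutes]

end gen

section fld
variable {k F : Type} [Field k] [Field F] [Algebra k F] (q : kˣ)

theorem cne : algebraMap k F (q : k) ≠ 0 := by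
  rw [Ne, map_eq_zero]
  exact q.ne_zero

theorem id1 (t : F) (ht : t ≠ 0) (h1 : 1 + algebraMap k F (2 * q ^ 2) * t ^ 2 ≠ 0)
    (h2 : t ^ 2 + algebraMap k F (2 * q ^ 2) ≠ 0) :
    eb q t = e3 q (t + t⁻¹) + e2 q (t + t⁻¹) * t := by
  unfold eb e3 e2 nn
  simp only [map_mul, map_sub, map_one, map_pow, map_ofNat] at h1 h2 ⊢
  set c : F := algebraMap k F q
  have hn : 2 * c ^ 2 * (t + t⁻¹) ^ 2 + (1 - 2 * c ^ 2) ^ 2 =
      (1 + 2 * c ^ 2 * t ^ 2) * (t ^ 2 + 2 * c ^ 2) / t ^ 2 := by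
    field_simp
    ring
  rw [hn]
  field_simp
  ring

theorem id1' (t : F) (ht : t ≠ 0) (h1 : t ^ 2 + algebraMap k F 2 ≠ 0)
    (h2 : algebraMap k F 2 * t ^ 2 + 1 ≠ 0) :
    fb q t = f3 q (t + t⁻¹) + f2 q (t + t⁻¹) * t := by
  have hc := cne (F := F) q
  unfold fb f3 f2
  simp only [map_mul, map_sub, map_one, map_pow, map_ofNat] at h1 h2 ⊢
  generalize algebraMap k F q = c at *
  have hn : c * (2 * (t + t⁻¹) ^ 2 + 1) = c * ((t ^ 2 + 2) * (2 * t ^ 2 + 1)) / t ^ 2 := by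
    field_simp
    ring
  have h3 : c * ((t ^ 2 + 2) * (2 * t ^ 2 + 1)) ≠ 0 := mul_ne_zero hc (mul_ne_zero h1 h2)
  have h4 : c * (t ^ 2 + 2) ≠ 0 := mul_ne_zero hc h1
  rw [hn, inv_div, div_mul_eq_mul_div, div_mul_eq_mul_div, div_mul_eq_mul_div, ← add_div,
    inv_mul_eq_div, div_eq_div_iff h4 h3]
  have h5 : (t + t⁻¹) ^ 2 = (t ^ 2 + 1) ^ 2 / t ^ 2 := by
    field_simp
  have h6 : (t + t⁻¹) * t = t ^ 2 + 1 := by
    rw [add_mul, inv_mul_cancel₀ ht]
    ring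
  have h7 : (t + t⁻¹) ^ 2 * t ^ 2 = (t ^ 2 + 1) ^ 2 := by
    rw [← mul_pow, h6]
  linear_combination (-(c * (t ^ 2 + 2))) * h7 - (c * (t ^ 2 + 2)) * (4 * c ^ 2 - 1) * t ^ 2 * h6

theorem id2 (t : F) (ht : t ≠ 0) (h1 : algebraMap k F 2 * t ^ 2 + 1 ≠ 0)
    (h2 : t ^ 2 + algebraMap k F (2 * q ^ 2) ≠ 0) :
    eb q t⁻¹ * eb q (algebraMap k F ((q⁻¹ : kˣ) : k) * t) = 1 := by
  have hc := cne (F := F) q
  unfold eb
  simp only [map_mul, map_one, map_pow, map_ofNat, Units.val_inv_eq_inv_val, map_inv₀] at h1 h2 ⊢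
  generalize algebraMap k F q = c at *
  have e1 : 1 + 2 * c ^ 2 * t⁻¹ ^ 2 = (t ^ 2 + 2 * c ^ 2) / t ^ 2 := by
    field_simp
  have e2 : 1 + 2 * c ^ 2 * (c⁻¹ * t) ^ 2 = 2 * t ^ 2 + 1 := by
    field_simp
    ring
  have e3 : c * (t⁻¹ ^ 2 + 2) = c * (2 * t ^ 2 + 1) / t ^ 2 := by
    field_simp
    ring
  have e4 : c * ((c⁻¹ * t) ^ 2 + 2) = (t ^ 2 + 2 * c ^ 2) / c := by
    field_simp
  rw [e1, e2, e3, e4]
  generalize 2 * t ^ 2 + 1 = A at *
  generalize t ^ 2 + 2 * c ^ 2 = B at *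
  field_simp

theorem id2' (t : F) (ht : t ≠ 0) (h1 : algebraMap k F 2 * t ^ 2 + 1 ≠ 0)
    (h2 : t ^ 2 + algebraMap k F (2 * q ^ 2) ≠ 0) :
    fb q t⁻¹ * fb q (algebraMap k F ((q⁻¹ : kˣ) : k) * t) = 1 := by
  have hc := cne (F := F) q
  unfold fb
  simp only [map_mul, map_one, map_pow, map_ofNat, Units.val_inv_eq_inv_val, map_inv₀] at h1 h2 ⊢
  generalize algebraMap k F q = c at *
  have e1 : 1 + 2 * c ^ 2 * t⁻¹ ^ 2 = (t ^ 2 + 2 * c ^ 2) / t ^ 2 := by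
    field_simp
  have e2 : 1 + 2 * c ^ 2 * (c⁻¹ * t) ^ 2 = 2 * t ^ 2 + 1 := by
    field_simp
    ring
  have e3 : c * (t⁻¹ ^ 2 + 2) = c * (2 * t ^ 2 + 1) / t ^ 2 := by
    field_simp
    ring
  have e4 : c * ((c⁻¹ * t) ^ 2 + 2) = (t ^ 2 + 2 * c ^ 2) / c := by
    field_simp
  rw [e1, e2, e3, e4]
  generalize 2 * t ^ 2 + 1 = A at *
  generalize t ^ 2 + 2 * c ^ 2 = B at *
  field_simp

theorem id3 (t : F) (h1 : 1 + algebraMap k F (2 * q ^ 2) * t ^ 2 ≠ 0)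
    (h2 : t ^ 2 + algebraMap k F 2 ≠ 0) : eb q t * fb q t = 1 := by
  have hc := cne (F := F) q
  unfold eb fb
  field_simp

end fld

section rat
variable {k : Type} [Field k]

theorem rne (p : k[X]) (hp : p ≠ 0) : algebraMap k[X] (RatFunc k) p ≠ 0 :=
  RatFunc.algebraMap_ne_zero hp

theorem r1 (c : k) : (1 : RatFunc k) + algebraMap k (RatFunc k) c * RatFunc.X ^ 2 ≠ 0 := by
  have h : algebraMap k[X] (RatFunc k) (1 + C c * X ^ 2) ≠ 0 := by
    apply rne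
    intro h0
    have h1 := congrArg (fun p => Polynomial.coeff p 0) h0
    simp at h1
  simpa [RatFunc.algebraMap_X, RatFunc.algebraMap_C] using h

theorem r2 (c : k) : (RatFunc.X : RatFunc k) ^ 2 + algebraMap k (RatFunc k) c ≠ 0 := by
  have h : algebraMap k[X] (RatFunc k) (X ^ 2 + C c) ≠ 0 := by
    apply rne
    intro h0
    have h1 := congrArg (fun p => Polynomial.coeff p 2) h0
    simp [Polynomial.coeff_C] at h1
  simpa [RatFunc.algebraMap_X, RatFunc.algebraMap_C] using h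

end rat

section main
variable {k D : Type} [Field k] [DivisionRing D] [Algebra k D]

/-- `u` is transcendental over `k` -/
def Trc (k : Type) {D : Type} [Field k] [DivisionRing D] [Algebra k D] (u : D) : Prop :=
  ∀ p : k[X], p ≠ 0 → aeval u p ≠ 0

theorem exF (hE : StEv) (u : D) (hu : Trc k u) :
    ∃ F : RatFunc k →ₐ[k] D, (∀ b, F b = evR u b) ∧ F RatFunc.X = u := by
  obtain ⟨⟨F, hF⟩, hX, -, -⟩ := hE k D u hu
  exact ⟨F, hF, by rw [hF]; exact hX⟩

theorem ev_eb (hE : StEv) (q : kˣ) (u : D) (hu : Trc k u) :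
    evR u (eb q (RatFunc.X : RatFunc k)) = eb q u := by
  obtain ⟨F, hF, hX⟩ := exF hE u hu
  rw [← hF, map_eb, hX]

theorem ev_e3 (hE : StEv) (q : kˣ) (u : D) (hu : Trc k u) :
    evR u (e3 q (RatFunc.X : RatFunc k)) = e3 q u := by
  obtain ⟨F, hF, hX⟩ := exF hE u hu
  rw [← hF, map_e3, hX]

theorem ev_e2 (hE : StEv) (q : kˣ) (u : D) (hu : Trc k u) :
    evR u (e2 q (RatFunc.X : RatFunc k)) = e2 q u := by
  obtain ⟨F, hF, hX⟩ := exF hE u hu
  rw [← hF, map_e2, hX]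

theorem ev_fb (hE : StEv) (q : kˣ) (u : D) (hu : Trc k u) :
    evR u (fb q (RatFunc.X : RatFunc k)) = fb q u := by
  obtain ⟨F, hF, hX⟩ := exF hE u hu
  rw [← hF, map_fb, hX]

theorem ev_f3 (hE : StEv) (q : kˣ) (u : D) (hu : Trc k u) :
    evR u (f3 q (RatFunc.X : RatFunc k)) = f3 q u := by
  obtain ⟨F, hF, hX⟩ := exF hE u hu
  rw [← hF, map_f3, hX]

theorem ev_f2 (hE : StEv) (q : kˣ) (u : D) (hu : Trc k u) :
    evR u (f2 q (RatFunc.X : RatFunc k)) = f2 q u := by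
  obtain ⟨F, hF, hX⟩ := exF hE u hu
  rw [← hF, map_f2, hX]

theorem Xne : (RatFunc.X : RatFunc k) ≠ 0 := RatFunc.X_ne_zero

/-- inverse forms of the nonvanishing conditions -/
theorem r1i (c : k) (hc : c ≠ 0) :
    (1 : RatFunc k) + algebraMap k (RatFunc k) c * (RatFunc.X⁻¹) ^ 2 ≠ 0 := by
  have h := r2 c
  have hX := Xne (k := k)
  have : (1 : RatFunc k) + algebraMap k (RatFunc k) c * (RatFunc.X⁻¹) ^ 2 =
      (RatFunc.X ^ 2 + algebraMap k (RatFunc k) c) / RatFunc.X ^ 2 := by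
    field_simp
  rw [this]
  exact div_ne_zero h (pow_ne_zero 2 hX)

theorem r2i (c : k) :
    (RatFunc.X⁻¹ : RatFunc k) ^ 2 + algebraMap k (RatFunc k) c ≠ 0 := by
  have h := r1 c
  have hX := Xne (k := k)
  have : (RatFunc.X⁻¹ : RatFunc k) ^ 2 + algebraMap k (RatFunc k) c =
      (1 + algebraMap k (RatFunc k) c * RatFunc.X ^ 2) / RatFunc.X ^ 2 := by
    field_simp
  rw [this]
  exact div_ne_zero h (pow_ne_zero 2 hX)

theorem r1c (c : k) : algebraMap k (RatFunc k) c * (RatFunc.X : RatFunc k) ^ 2 + 1 ≠ 0 := by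
  rw [add_comm]
  exact r1 c

theorem r1ic (c : k) (hc : c ≠ 0) :
    algebraMap k (RatFunc k) c * (RatFunc.X⁻¹ : RatFunc k) ^ 2 + 1 ≠ 0 := by
  rw [add_comm]
  exact r1i c hc

end main

section cond
variable {k D : Type} [Field k] [CharZero k] [DivisionRing D] [Algebra k D]

theorem qc (q : kˣ) : (2 * (q : k) ^ 2) ≠ 0 :=
  mul_ne_zero two_ne_zero (pow_ne_zero 2 q.ne_zero)

/-- the three conditions for `β` -/
theorem condE (hE : StEv) (q : kˣ) (y : D) (hy : Trc k y) (hyi : Trc k y⁻¹)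
    (hyy : Trc k (y + y⁻¹)) (hqy : Trc k (algebraMap k D ((q⁻¹ : kˣ) : k) * y)) :
    (eb q (RatFunc.X : RatFunc k) ≠ 0) ∧
    (evR y (eb q (RatFunc.X : RatFunc k)) = evR (y + y⁻¹) (e3 q (RatFunc.X : RatFunc k)) +
      evR (y + y⁻¹) (e2 q (RatFunc.X : RatFunc k)) * y) ∧
    (evR y⁻¹ (eb q (RatFunc.X : RatFunc k)) = evR (y + y⁻¹) (e3 q (RatFunc.X : RatFunc k)) +
      evR (y + y⁻¹) (e2 q (RatFunc.X : RatFunc k)) * y⁻¹) ∧
    (evR y⁻¹ (eb q (RatFunc.X : RatFunc k)) *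
      evR (algebraMap k D ((q⁻¹ : kˣ) : k) * y) (eb q (RatFunc.X : RatFunc k)) = 1) := by
  rw [ev_eb hE q y hy, ev_eb hE q _ hyi, ev_eb hE q _ hqy, ev_e3 hE q _ hyy, ev_e2 hE q _ hyy]
  obtain ⟨F, hF, hX⟩ := exF hE y hy
  refine ⟨?_, ?_, ?_, ?_⟩
  · intro h0
    have h := id3 q (RatFunc.X : RatFunc k) (r1 _) (r2 _)
    rw [h0, zero_mul] at h
    exact zero_ne_one h
  · have h := congrArg F (id1 q (RatFunc.X : RatFunc k) Xne (r1 _) (r2 _))
    simpa only [map_eb, map_e3, map_e2, map_add, map_mul, map_inv₀, hX] using h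
  · have h := congrArg F (id1 q (RatFunc.X⁻¹ : RatFunc k) (inv_ne_zero Xne) (r1i _ (qc q)) (r2i _))
    rw [inv_inv, add_comm (RatFunc.X⁻¹ : RatFunc k)] at h
    simpa only [map_eb, map_e3, map_e2, map_add, map_mul, map_inv₀, hX] using h
  · have h := congrArg F (id2 q (RatFunc.X : RatFunc k) Xne (r1c _) (r2 _))
    simpa only [map_eb, map_mul, map_inv₀, hX, map_one, AlgHom.commutes] using h

theorem condF (hE : StEv) (q : kˣ) (y : D) (hy : Trc k y) (hyi : Trc k y⁻¹)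
    (hyy : Trc k (y + y⁻¹)) (hqy : Trc k (algebraMap k D ((q⁻¹ : kˣ) : k) * y)) :
    (fb q (RatFunc.X : RatFunc k) ≠ 0) ∧
    (evR y (fb q (RatFunc.X : RatFunc k)) = evR (y + y⁻¹) (f3 q (RatFunc.X : RatFunc k)) +
      evR (y + y⁻¹) (f2 q (RatFunc.X : RatFunc k)) * y) ∧
    (evR y⁻¹ (fb q (RatFunc.X : RatFunc k)) = evR (y + y⁻¹) (f3 q (RatFunc.X : RatFunc k)) +
      evR (y + y⁻¹) (f2 q (RatFunc.X : RatFunc k)) * y⁻¹) ∧
    (evR y⁻¹ (fb q (RatFunc.X : RatFunc k)) *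
      evR (algebraMap k D ((q⁻¹ : kˣ) : k) * y) (fb q (RatFunc.X : RatFunc k)) = 1) := by
  rw [ev_fb hE q y hy, ev_fb hE q _ hyi, ev_fb hE q _ hqy, ev_f3 hE q _ hyy, ev_f2 hE q _ hyy]
  obtain ⟨F, hF, hX⟩ := exF hE y hy
  refine ⟨?_, ?_, ?_, ?_⟩
  · intro h0
    have h := id3 q (RatFunc.X : RatFunc k) (r1 _) (r2 _)
    rw [h0, mul_zero] at h
    exact zero_ne_one h
  · have h := congrArg F (id1' q (RatFunc.X : RatFunc k) Xne (r2 _) (r1c _))
    simpa only [map_fb, map_f3, map_f2, map_add, map_mul, map_inv₀, hX] using h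
  · have h := congrArg F (id1' q (RatFunc.X⁻¹ : RatFunc k) (inv_ne_zero Xne) (r2i _)
      (r1ic _ two_ne_zero))
    rw [inv_inv, add_comm (RatFunc.X⁻¹ : RatFunc k)] at h
    simpa only [map_fb, map_f3, map_f2, map_add, map_mul, map_inv₀, hX] using h
  · have h := congrArg F (id2' q (RatFunc.X : RatFunc k) Xne (r1c _) (r2 _))
    simpa only [map_fb, map_mul, map_inv₀, hX, map_one, AlgHom.commutes] using h

theorem ef (hE : StEv) (q : kˣ) (y : D) (hy : Trc k y) : eb q y * fb q y = 1 ∧ fb q y * eb q y = 1 := by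
  obtain ⟨F, hF, hX⟩ := exF hE y hy
  have h := id3 q (RatFunc.X : RatFunc k) (r1 _) (r2 _)
  have h1 := congrArg F h
  rw [mul_comm] at h
  have h2 := congrArg F h
  simp only [map_fb, map_eb, map_mul, hX, map_one] at h1 h2
  exact ⟨h1, h2⟩

end cond

section fin
variable {k D : Type} [Field k] [CharZero k] [DivisionRing D] [Algebra k D]

theorem nn_ne (q : kˣ) (L : D) (hL : Trc k L) : nn q L ≠ 0 := by
  have h := hL (C (2 * (q : k) ^ 2) * X ^ 2 + C ((1 - 2 * (q : k) ^ 2) ^ 2)) (by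
    intro h0
    have h1 := congrArg (fun p => Polynomial.coeff p 2) h0
    simp only [Polynomial.coeff_add, Polynomial.coeff_C_mul, Polynomial.coeff_X_pow,
      Polynomial.coeff_C, Polynomial.coeff_zero, if_true, mul_one] at h1
    simp at h1)
  simpa [nn] using h

theorem quint_id (hE : StEv) (q : kˣ) (L : D) (hL : Trc k L) :
    nn q L * (e3 q L + e2 q L * L) =
      algebraMap k D q * (L ^ 2 + algebraMap k D (1 - 2 * q ^ 2)) := by
  obtain ⟨F, hF, hX⟩ := exF hE L hL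
  have hn := nn_ne q L hL
  have h : (algebraMap k (RatFunc k) q * (algebraMap k (RatFunc k) (4 * q ^ 2) * RatFunc.X ^ 2 +
      algebraMap k (RatFunc k) (1 - 2 * q ^ 2))) +
      algebraMap k (RatFunc k) (q * (1 - 4 * q ^ 2)) * RatFunc.X * RatFunc.X =
      algebraMap k (RatFunc k) q * (RatFunc.X ^ 2 + algebraMap k (RatFunc k) (1 - 2 * q ^ 2)) := by
    simp only [map_mul, map_sub, map_one, map_pow, map_ofNat]
    ring
  have h1 := congrArg F h
  simp only [map_mul, map_add, map_pow, AlgHom.commutes, hX] at h1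
  simp only [← map_mul] at h1
  unfold e3 e2
  rw [mul_add, ← mul_assoc, mul_inv_cancel₀ hn, one_mul, ← mul_assoc, ← mul_assoc,
    mul_inv_cancel₀ hn, one_mul]
  simpa only [map_mul, map_pow] using h1

end fin

end ThetaAux

open ThetaAux in
/-- The quantum quintic is an automorphism. -/
theorem stTheta (hJ : StJ) (hI : StInter) (hU : StUniq) (hE : StEv) (hT : StTr) : StTheta := by
  intro k D _ _ _ _ q x y hq hroot
  obtain ⟨-, j, hjx, hjy, hjL, hL⟩ := hJ k D q x y hq hroot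
  have hL' : Trc k (LL x y) := hL
  have hx0 := hq.x0
  have hy0 := hq.y0
  have hcomm := hq.comm
  obtain ⟨-, hy, hyy, -, -, -⟩ := hT k D q x y hx0 hy0 hcomm hroot
  have hyi : Trc k y⁻¹ := by
    have hc' : x⁻¹ * y⁻¹ = algebraMap k D q * (y⁻¹ * x⁻¹) := by
      have h1 : (y * x) ≠ 0 := mul_ne_zero hy0 hx0
      have h2 : (x * y) ≠ 0 := mul_ne_zero hx0 hy0
      have h3 : algebraMap k D (q : k) ≠ 0 := by
        rw [Ne, map_eq_zero]
        exact q.ne_zero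
      rw [← mul_inv_rev, ← mul_inv_rev, hcomm,
        mul_inv_rev (algebraMap k D (q : k)) (y * x), Algebra.commutes (q : k) ((y * x)⁻¹ * (algebraMap k D (q : k))⁻¹), mul_assoc,
        inv_mul_cancel₀ h3, mul_one]
    exact (hT k D q x⁻¹ y⁻¹ (inv_ne_zero hx0) (inv_ne_zero hy0) hc' hroot).2.1
  have hqy : Trc k (algebraMap k D ((q⁻¹ : kˣ) : k) * y) := by
    have h3 : algebraMap k D ((q⁻¹ : kˣ) : k) ≠ 0 := by
      rw [Ne, map_eq_zero]
      exact (q⁻¹).ne_zero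
    have hc' : x * (algebraMap k D ((q⁻¹ : kˣ) : k) * y) =
        algebraMap k D q * ((algebraMap k D ((q⁻¹ : kˣ) : k) * y) * x) := by
      rw [← mul_assoc, ← Algebra.commutes, mul_assoc, hcomm, mul_assoc, ← mul_assoc,
        ← Algebra.commutes (q : k), mul_assoc]
    exact (hT k D q x _ hx0 (mul_ne_zero h3 hy0) hc' hroot).2.1
  obtain ⟨b0, b1, b2, b3⟩ := condE hE q y hy hyi hyy hqy
  obtain ⟨c0, c1, c2, c3⟩ := condF hE q y hy hyi hyy hqy
  obtain ⟨θ, ψ, p1, p2, p3, p4, p5⟩ := hI k D q x y hq hroot j hjx hjy hjL _ _ _ b0 b1 b2 b3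
  obtain ⟨θ', ψ', r1, r2, r3, r4, r5⟩ := hI k D q x y hq hroot j hjx hjy hjL _ _ _ c0 c1 c2 c3
  rw [ev_eb hE q y hy] at p1
  rw [ev_fb hE q y hy] at r1
  obtain ⟨e1, e2'⟩ := ef hE q y hy
  have hA : ψ.comp ψ' = AlgHom.id k D := by
    apply hU k D D q x y hq
    · show ψ (ψ' x) = x
      rw [r1, map_mul, map_fb, p2, p1, ← mul_assoc, e2', one_mul]
    · show ψ (ψ' y) = y
      rw [r2, p2]
  have hB : ψ'.comp ψ = AlgHom.id k D := by
    apply hU k D D q x y hq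
    · show ψ' (ψ x) = x
      rw [p1, map_mul, map_eb, r2, r1, ← mul_assoc, e1, one_mul]
    · show ψ' (ψ y) = y
      rw [p2, r2]
  have hjinj : Function.Injective j := (j : D →+* D).injective
  have hC : θ.comp θ' = AlgHom.id k D := by
    apply AlgHom.ext
    intro d
    apply hjinj
    show j (θ (θ' d)) = j d
    rw [p5, r5]
    exact DFunLike.congr_fun hA (j d)
  have hD : θ'.comp θ = AlgHom.id k D := by
    apply AlgHom.ext
    intro d
    apply hjinj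
    show j (θ' (θ d)) = j d
    rw [r5, p5]
    exact DFunLike.congr_fun hB (j d)
  have hn : nn q (LL x y) ≠ 0 := nn_ne q _ hL'
  have hnm : ∀ b : D, nn q (LL x y) * ((nn q (LL x y))⁻¹ * b) = b := by
    intro b
    rw [← mul_assoc, mul_inv_cancel₀ hn, one_mul]
  have hqi := quint_id hE q _ hL'
  rw [ev_e3 hE q _ hL', ev_e2 hE q _ hL'] at p3 p4
  refine ⟨AlgEquiv.ofAlgHom θ θ' hC hD, hn, ?_, ?_⟩
  · show nn q (LL x y) * θ x = _
    rw [p3, mul_add]
    unfold e3 e2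
    rw [mul_assoc (nn q (LL x y))⁻¹, hnm, mul_assoc (nn q (LL x y))⁻¹, hnm]
    rfl
  · show nn q (LL x y) * θ y = _
    rw [p4, mul_sub, ← mul_assoc, hqi]
    unfold e2
    rw [mul_assoc (nn q (LL x y))⁻¹, hnm]
    rfl

end QD
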